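import Pool.Agent.Run7.h565.SM.Equ4

/-!
# Equidistribution of the cycles in space, part 5: all arcs of all cycles
-/

set_option autoImplicit false

namespace Run7.h565.SM

open Finset Equiv Run7.h565.LC
open Pool.Agent.Y998.ST (stirExp stirLaw nnRate law_nonneg nn_nonneg cycleLen)

open Classical in
/-- all arcs from a given point -/
theorem pt_equi (hK : S_KPT) (d : ℕ) (hd : 3 ≤ d) : ∃ m₀ : ℕ, ∀ e η : ℝ, 0 < e → 0 < η →
    ∃ N₀ L₀ : ℕ, ∀ (L : ℕ) [NeZero L], L₀ ≤ L → ∀ t : ℝ, (Real.log L) ^ m₀ ≤ t →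
    ∀ B : Finset (Fin d → ZMod L), N₀ ≤ B.card → ∀ x : Fin d → ZMod L,
      stirExp (nnRate d L) t (fun g => if ∃ n : ℕ, n ≤ cycleLen g x ∧
        e < |(cnt B g x n : ℝ) / B.card - n / Fintype.card (Fin d → ZMod L)| then 1 else 0) ≤
        η := by
  obtain ⟨m₀, h⟩ := arc_fix hK d hd
  refine ⟨m₀, fun e η he hη => ?_⟩
  obtain ⟨K, hKe⟩ : ∃ K : ℕ, 8 / e ≤ K := exists_nat_ge _
  have hKR : (0 : ℝ) < K := lt_of_lt_of_le (by positivity) hKe
  have hK0 : 0 < K := by exact_mod_cast hKR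
  obtain ⟨η', hη'⟩ : ∃ η' : ℝ, η' = (e / 4) ^ 2 * η / (K + 3) := ⟨_, rfl⟩
  have hη'0 : 0 < η' := by rw [hη']; positivity
  choose NN LL hh using fun a : ℕ => h (ct K a) (ct_cont K a) (fun u => rp_mem _) η' hη'0
  obtain ⟨N₁, hN₁⟩ := exists_nat_ge (8 / e)
  refine ⟨(Finset.range (K + 3)).sup NN + N₁ + 1, max ((Finset.range (K + 3)).sup LL) 3,
    fun L _ hL t ht B hB x => ?_⟩
  have hL3 : 3 ≤ L := (le_max_right _ _).trans hL
  have hlog := log_ge L hL3
  have ht0 : 0 ≤ t := le_trans (by positivity) ht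
  have hJ : ∀ x y : Fin d → ZMod L, 0 ≤ nnRate d L x y := nn_nonneg
  have hBne : B.Nonempty := by
    rw [← Finset.card_pos]
    omega
  have hB0 : (0 : ℝ) < B.card := by exact_mod_cast hBne.card_pos
  have hBc : 8 / e ≤ B.card := by
    refine hN₁.trans ?_
    exact_mod_cast (by omega : N₁ ≤ B.card)
  have h1 : ∀ a ∈ Finset.range (K + 3), stirExp (nnRate d L) t
      (fun g => (∑ y ∈ Finset.univ.erase x, wt B y * psi (ct K a) g x y) ^ 2) ≤ η' := by
    intro a ha
    refine hh a L ?_ t ht B ?_ x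
    · exact (Finset.le_sup (f := LL) ha).trans ((le_max_left _ _).trans hL)
    · have := Finset.le_sup (f := NN) ha
      omega
  refine (cheb hJ ht0 _ (fun g => ∑ a ∈ Finset.range (K + 3),
    (∑ y ∈ Finset.univ.erase x, wt B y * psi (ct K a) g x y) ^ 2) ((e / 4) ^ 2)
    (by positivity) (fun g => Finset.sum_nonneg fun _ _ => sq_nonneg _) fun g => ?_).trans ?_
  · rintro ⟨n, hn, hne⟩
    by_contra hc
    rw [not_le] at hc
    have h2 : ∀ a < K + 3, |∑ y ∈ Finset.univ.erase x, wt B y * psi (ct K a) g x y| ≤ e / 4 := by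
      intro a ha
      by_contra hc2
      rw [not_le] at hc2
      have h3 : (e / 4) ^ 2 ≤ (∑ y ∈ Finset.univ.erase x, wt B y * psi (ct K a) g x y) ^ 2 := by
        rw [← sq_abs (∑ y ∈ Finset.univ.erase x, wt B y * psi (ct K a) g x y)]
        exact pow_le_pow_left₀ (by positivity) hc2.le 2
      have h4 := Finset.single_le_sum (f := fun a =>
        (∑ y ∈ Finset.univ.erase x, wt B y * psi (ct K a) g x y) ^ 2)
        (fun _ _ => sq_nonneg _) (Finset.mem_range.2 ha)
      linarith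
    have h5 := sandwich B hBne g x K hK0 (e / 4) (by positivity) h2 n hn
    have h6 : 2 / (K : ℝ) ≤ e / 4 := by
      rw [div_le_iff₀ he] at hKe
      rw [div_le_div_iff₀ hKR (by norm_num)]
      linarith
    have h7 : 2 / (B.card : ℝ) ≤ e / 4 := by
      rw [div_le_iff₀ he] at hBc
      rw [div_le_div_iff₀ hB0 (by norm_num)]
      linarith
    linarith
  · rw [div_le_iff₀ (by positivity), ← Pool.Agent.Y998.ST.exp_sum]
    refine (Finset.sum_le_sum h1).trans ?_
    rw [Finset.sum_const, Finset.card_range, nsmul_eq_mul, hη']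
    push_cast
    refine le_of_eq ?_
    field_simp

section det2

variable {V : Type} [Fintype V] [DecidableEq V]

theorem sc_sum (g : Perm V) (x : V) : ∑ y, sc g x y = (cycleLen g x : ℝ) := by
  classical
  unfold sc cycleLen
  rw [Nat.card_eq_fintype_card, Fintype.card_subtype, ← Finset.sum_boole]
  refine Finset.sum_congr rfl fun y _ => ?_
  by_cases h : g.SameCycle x y
  · rw [if_pos h, if_pos h]
  · rw [if_neg h, if_neg h]

theorem sc_zero {B : Finset V} {g : Perm V} {x : V} (h : ∀ p ∈ B, ¬ g.SameCycle x p) :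
    ∑ y, wt B y * sc g x y = - (cycleLen g x : ℝ) / Fintype.card V := by
  classical
  have h1 : ∀ y : V, wt B y * sc g x y = -(1 / Fintype.card V) * sc g x y := by
    intro y
    unfold sc
    split_ifs with hy
    · have : y ∉ B := fun hyB => h y hyB hy
      unfold wt
      rw [if_neg this]
      ring
    · ring
  rw [Finset.sum_congr rfl fun y _ => h1 y, ← Finset.mul_sum]
  have h2 : ∑ y, sc g x y = (cycleLen g x : ℝ) := sc_sum g x
  rw [h2]
  ring

/-- the number of points of `B` on the cycle -/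
theorem cnt_le {B : Finset V} {g : Perm V} {x : V} {n : ℕ} (hn : n ≤ cycleLen g x) :
    (cnt B g x n : ℝ) / B.card ≤ (∑ y, wt B y * sc g x y) + (cycleLen g x : ℝ) / Fintype.card V := by
  classical
  obtain ⟨c, hc1, hcl, hc2, _, hc3, hc4⟩ := per g x
  have h2 : ∑ y, sc g x y = (cycleLen g x : ℝ) := sc_sum g x
  have h1 : ∑ y, wt B y * sc g x y = (∑ y, (if y ∈ B then 1 else 0) * sc g x y) / B.card -
      (cycleLen g x : ℝ) / Fintype.card V := by
    rw [← h2, Finset.sum_div, Finset.sum_div, ← Finset.sum_sub_distrib]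
    refine Finset.sum_congr rfl fun y _ => ?_
    unfold wt
    ring
  rw [h1, sub_add_cancel]
  refine div_le_div_of_nonneg_right ?_ (Nat.cast_nonneg _)
  have h3 : ∑ y, (if y ∈ B then (1 : ℝ) else 0) * sc g x y =
      ((Finset.univ.filter fun y => y ∈ B ∧ g.SameCycle x y).card : ℝ) := by
    rw [← Finset.sum_boole]
    refine Finset.sum_congr rfl fun y _ => ?_
    unfold sc
    by_cases h1 : y ∈ B <;> by_cases h2 : g.SameCycle x y <;> simp [h1, h2]
  rw [h3]
  unfold cnt
  have h4 : ((Finset.range n).filter fun j => (g ^ j) x ∈ B).card ≤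
      (Finset.univ.filter fun y => y ∈ B ∧ g.SameCycle x y).card := by
    refine Finset.card_le_card_of_injOn (fun j => (g ^ j) x) ?_ ?_
    · intro j hj
      rw [Finset.mem_coe, Finset.mem_filter] at hj
      rw [Finset.mem_coe, Finset.mem_filter]
      exact ⟨Finset.mem_univ _, hj.2, ⟨(j : ℕ), by rw [zpow_natCast]⟩⟩
    · intro p hp q hq hpq
      rw [Finset.mem_coe, Finset.mem_filter, Finset.mem_range] at hp hq
      dsimp only at hpq
      rcases lt_trichotomy p q with hlt | hlt | hlt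
      · exact absurd hpq (hc3 p q hlt (by omega))
      · exact hlt
      · exact absurd hpq.symm (hc3 q p hlt (by omega))
  exact_mod_cast h4

/-- the discrepancy -/
noncomputable def disc (B : Finset V) (g : Perm V) (x : V) (n : ℕ) : ℝ :=
  (cnt B g x n : ℝ) / B.card - n / Fintype.card V

theorem disc_add (B : Finset V) (g : Perm V) (x : V) (m n : ℕ) :
    disc B g x (m + n) = disc B g x m + disc B g ((g ^ m) x) n := by
  unfold disc
  rw [cnt_add]
  push_cast
  ring

theorem all_arcs {B B' : Finset V} {g : Perm V} {e : ℝ} (he : 0 ≤ e)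
    (h1 : ∀ p ∈ B', ∀ n ≤ cycleLen g p, |disc B g p n| ≤ e)
    (h2 : ∀ x, |∑ y, wt B y * sc g x y| ≤ e) (h3 : ∀ x, |∑ y, wt B' y * sc g x y| ≤ e)
    (x : V) (n : ℕ) (hn : n ≤ cycleLen g x) : |disc B g x n| ≤ 3 * e := by
  by_cases hx : ∃ p ∈ B', g.SameCycle x p
  · obtain ⟨p, hp, hxp⟩ := hx
    obtain ⟨c, hc1, hcl, hc2, _, hc3, hc4⟩ := per g p
    obtain ⟨m, hm, hmx⟩ := hc4 x hxp.symm
    have hcx : cycleLen g x = c := by
      rw [← hcl]
      unfold cycleLen
      exact Nat.card_congr (Equiv.subtypeEquivRight fun w =>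
        ⟨fun hw => hxp.symm.trans hw, fun hw => hxp.trans hw⟩)
    rw [hcx] at hn
    have hd : ∀ k ≤ c, |disc B g p k| ≤ e := fun k hk => h1 p hp k (by rw [hcl]; exact hk)
    have e1 : disc B g x n = disc B g p (m + n) - disc B g p m := by
      rw [disc_add, hmx]
      ring
    have e2 : |disc B g p (m + n)| ≤ 2 * e := by
      rcases Nat.lt_or_ge c (m + n) with hlt | hge
      · obtain ⟨k, hk⟩ : ∃ k, m + n = c + k := ⟨m + n - c, by omega⟩
        rw [hk, disc_add, hc2]
        have a1 := hd c le_rfl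
        have a2 := hd k (by omega)
        have a3 := abs_add_le (disc B g p c) (disc B g p k)
        linarith
      · have := hd (m + n) hge
        linarith
    rw [e1]
    have a1 := hd m hm.le
    have a2 := abs_sub (disc B g p (m + n)) (disc B g p m)
    linarith
  · push Not at hx
    have a1 := h3 x
    rw [sc_zero hx] at a1
    have a2 := h2 x
    have a3 := cnt_le (B := B) hn
    obtain ⟨N, hN⟩ : ∃ N, N = Fintype.card V := ⟨_, rfl⟩
    rw [← hN] at a1 a3
    have a4 : (n : ℝ) / N ≤ (cycleLen g x : ℝ) / N :=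
      div_le_div_of_nonneg_right (by exact_mod_cast hn) (Nat.cast_nonneg _)
    have a5 : (cycleLen g x : ℝ) / N ≤ e := by
      rw [neg_div, abs_neg, abs_le] at a1
      exact a1.2
    have a6 : 0 ≤ (n : ℝ) / N := by positivity
    have a7 : 0 ≤ (cnt B g x n : ℝ) / B.card := by positivity
    rw [abs_le] at a2
    unfold disc
    rw [← hN, abs_le]
    constructor <;> linarith [a2.1, a2.2]

end det2

theorem se_union {V : Type} [Fintype V] [DecidableEq V] {J : V → V → ℝ} (hJ : ∀ x y, 0 ≤ J x y)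
    {t : ℝ} (ht : 0 ≤ t) (P : Perm V → Prop) [DecidablePred P] (S : Finset V)
    (Q : V → Perm V → Prop) [∀ p, DecidablePred (Q p)]
    (Q₁ Q₂ : Perm V → Prop) [DecidablePred Q₁] [DecidablePred Q₂] (h : ∀ g, P g → (∃ p ∈ S, Q p g) ∨ Q₁ g ∨ Q₂ g) :
    stirExp J t (fun g => if P g then 1 else 0) ≤
      (∑ p ∈ S, stirExp J t (fun g => if Q p g then 1 else 0)) +
      stirExp J t (fun g => if Q₁ g then 1 else 0) +
      stirExp J t (fun g => if Q₂ g then 1 else 0) := by
  rw [Pool.Agent.Y998.ST.exp_sum, ← se_add, ← se_add]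
  refine se_mono hJ ht _ _ fun g => ?_
  have a0 : ∀ p ∈ S, (0 : ℝ) ≤ if Q p g then 1 else 0 := by
    intro p _
    split_ifs
    · exact zero_le_one
    · exact le_rfl
  have a1 : (0 : ℝ) ≤ ∑ p ∈ S, if Q p g then 1 else 0 := Finset.sum_nonneg a0
  have a2 : (0 : ℝ) ≤ if Q₁ g then 1 else 0 := by
    split_ifs
    · exact zero_le_one
    · exact le_rfl
  have a3 : (0 : ℝ) ≤ if Q₂ g then 1 else 0 := by
    split_ifs
    · exact zero_le_one
    · exact le_rfl
  by_cases hP : P g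
  · rw [if_pos hP]
    rcases h g hP with ⟨p, hp, hQ⟩ | hQ | hQ
    · have a4 := Finset.single_le_sum (f := fun p => if Q p g then (1 : ℝ) else 0) a0 hp
      rw [if_pos hQ] at a4
      linarith
    · rw [if_pos hQ]
      linarith
    · rw [if_pos hQ]
      linarith
  · rw [if_neg hP]
    linarith

open Classical in
/-- all arcs of all cycles -/
theorem equi (hK : S_KPT) (d : ℕ) (hd : 3 ≤ d) : ∃ m₀ : ℕ, ∀ η : ℝ, 0 < η →
    ∃ N₀ L₀ : ℕ, ∀ (L : ℕ) [NeZero L], L₀ ≤ L → ∀ t : ℝ, (Real.log L) ^ m₀ ≤ t →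
    ∀ B : Finset (Fin d → ZMod L), N₀ ≤ B.card →
      stirExp (nnRate d L) t (fun g => if ∃ (x : Fin d → ZMod L) (n : ℕ), n ≤ cycleLen g x ∧
        η < |disc B g x n| then 1 else 0) ≤ η := by
  obtain ⟨m₁, h1⟩ := pt_equi hK d hd
  obtain ⟨m₂, h2⟩ := cyc_equi hK d hd
  refine ⟨max m₁ m₂, fun η hη => ?_⟩
  obtain ⟨N₂, L₂, hN₂, h2⟩ := h2 (η / 4) (by positivity)
  obtain ⟨N₁, L₁, h1⟩ := h1 (η / 4) (η / (4 * N₂)) (by positivity) (by positivity)
  refine ⟨max N₁ N₂, max (max L₁ L₂) (max 3 N₂), fun L _ hL t ht B hB => ?_⟩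
  have hL1 : L₁ ≤ L := (le_max_left _ _).trans ((le_max_left _ _).trans hL)
  have hL2 : L₂ ≤ L := (le_max_right _ _).trans ((le_max_left _ _).trans hL)
  have hL3 : 3 ≤ L := (le_max_left _ _).trans ((le_max_right _ _).trans hL)
  have hLN : N₂ ≤ L := (le_max_right _ _).trans ((le_max_right _ _).trans hL)
  have hlog := log_ge L hL3
  have ht0 : 0 ≤ t := le_trans (by positivity) ht
  have ht1 : (Real.log L) ^ m₁ ≤ t := (pow_le_pow_right₀ hlog (le_max_left _ _)).trans ht
  have ht2 : (Real.log L) ^ m₂ ≤ t := (pow_le_pow_right₀ hlog (le_max_right _ _)).trans ht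
  have hJ : ∀ x y : Fin d → ZMod L, 0 ≤ nnRate d L x y := nn_nonneg
  obtain ⟨B', hB'⟩ : ∃ B' : Finset (Fin d → ZMod L), B'.card = N₂ := by
    have hc : N₂ ≤ (Finset.univ : Finset (Fin d → ZMod L)).card := by
      rw [Finset.card_univ, Fintype.card_fun, ZMod.card, Fintype.card_fin]
      exact hLN.trans (Nat.le_self_pow (by omega) L)
    obtain ⟨B', _, hB'⟩ := Finset.exists_subset_card_eq hc
    exact ⟨B', hB'⟩
  have a1 : ∀ p ∈ B', stirExp (nnRate d L) t (fun g => if ∃ n : ℕ, n ≤ cycleLen g p ∧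
      η / 4 < |(cnt B g p n : ℝ) / B.card - n / Fintype.card (Fin d → ZMod L)| then 1 else 0) ≤
      η / (4 * N₂) := fun p _ => h1 L hL1 t ht1 B ((le_max_left _ _).trans hB) p
  have a2 := h2 L hL2 t ht2 B ((le_max_right _ _).trans hB)
  have a3 := h2 L hL2 t ht2 B' hB'.ge
  have a4 := se_union hJ ht0 (fun g => ∃ (x : Fin d → ZMod L) (n : ℕ), n ≤ cycleLen g x ∧
    η < |disc B g x n|) B' (fun p g => ∃ n : ℕ, n ≤ cycleLen g p ∧
      η / 4 < |(cnt B g p n : ℝ) / B.card - n / Fintype.card (Fin d → ZMod L)|)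
    (fun g => ∃ x, η / 4 < |∑ y, wt B y * sc g x y|)
    (fun g => ∃ x, η / 4 < |∑ y, wt B' y * sc g x y|) (by
      rintro g ⟨x, n, hn, hx⟩
      by_contra hc
      push Not at hc
      obtain ⟨c1, c2, c3⟩ := hc
      have := all_arcs (B := B) (B' := B') (g := g) (e := η / 4) (by positivity)
        (fun p hp n hn => c1 p hp n hn) c2 c3 x n hn
      linarith)
  have a5 := Finset.sum_le_sum a1
  rw [Finset.sum_const, hB', nsmul_eq_mul] at a5
  have hN2R : (0 : ℝ) < N₂ := by exact_mod_cast hN₂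
  have a6 : (N₂ : ℝ) * (η / (4 * N₂)) = η / 4 := by field_simp
  rw [a6] at a5
  exact a4.trans (le_trans (add_le_add (add_le_add a5 a2) a3)
    (by linarith : η / 4 + η / 4 + η / 4 ≤ η))

end Run7.h565.SM
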