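import Pool.Agent.Run7.h565.SM.Eqp2

/-!
# Equidistribution with respect to sets determined by the past and the future, part 3
-/

set_option autoImplicit false

namespace Run7.h565.SM

open Finset Equiv Run7.h565.LC
open Pool.Agent.Y998.ST (stirExp stirLaw nnRate law_nonneg nn_nonneg cycleLen)

open Classical in
/-- all arcs from a given point, given the past and the future -/
theorem pt_equi2 (hK : S_KPT) (d : ℕ) (hd : 3 ≤ d) : ∃ m₀ : ℕ, ∀ e η : ℝ, 0 < e → 0 < η →
    ∃ (K : ℝ) (L₀ : ℕ), 0 < K ∧ ∀ (L : ℕ) [NeZero L], L₀ ≤ L →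
    ∀ t : ℝ, (Real.log L) ^ m₀ ≤ t →
    ∀ s s' : ℝ, K ≤ s * (L : ℝ) ^ d → K ≤ s' * (L : ℝ) ^ d →
    ∀ (B : Perm (Fin d → ZMod L) → Perm (Fin d → ZMod L) → Finset (Fin d → ZMod L))
      (x : Fin d → ZMod L),
      E3 (nnRate d L) t s s' (fun g h k => if ∃ n : ℕ, n ≤ cycleLen h x ∧
        e < |dsc (B g k) h x n| then 1 else 0) ≤ η := by
  obtain ⟨m₀, h⟩ := psi_jnt hK d hd
  refine ⟨m₀, fun e η he hη => ?_⟩
  obtain ⟨M, hMe⟩ : ∃ M : ℕ, 8 / e ≤ M := exists_nat_ge _
  have hMR : (0 : ℝ) < M := lt_of_lt_of_le (by positivity) hMe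
  have hM0 : 0 < M := by exact_mod_cast hMR
  obtain ⟨η', hη'⟩ : ∃ η' : ℝ, η' = (e / 4) ^ 2 * η / (2 * (M + 3)) := ⟨_, rfl⟩
  have hη'0 : 0 < η' := by rw [hη']; positivity
  choose cc KK LL hcc hKK hh using fun a : ℕ => h (ct M a) (ct_cont M a) (fun u => rp_mem _)
    η' hη'0
  obtain ⟨N₁, hN₁⟩ := exists_nat_ge (8 / e)
  obtain ⟨N₂, hN₂⟩ := exists_nat_ge (5 / η')
  refine ⟨∑ a ∈ Finset.range (M + 3), KK a, (Finset.range (M + 3)).sup LL + N₁ + N₂ + 3,
    Finset.sum_pos (fun a _ => hKK a) ⟨0, Finset.mem_range.2 (by omega)⟩,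
    fun L _ hL t ht s s' hs hs' B x => ?_⟩
  have hL3 : 3 ≤ L := by omega
  have hlog := log_ge L hL3
  have ht0 : 0 ≤ t := le_trans (by positivity) ht
  have hJ : ∀ x y : Fin d → ZMod L, 0 ≤ nnRate d L x y := nn_nonneg
  obtain ⟨N, hN⟩ : ∃ N : ℝ, N = Fintype.card (Fin d → ZMod L) := ⟨_, rfl⟩
  have hNL : (L : ℝ) ^ d = N := by
    rw [hN, Fintype.card_fun, ZMod.card, Fintype.card_fin]
    push_cast
    rfl
  have hLN : (L : ℝ) ≤ N := by
    rw [← hNL]
    exact le_self_pow₀ (by exact_mod_cast (by omega : 1 ≤ L)) (by omega)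
  have hLR : (3 : ℝ) ≤ L := by exact_mod_cast hL3
  have hN0 : (0 : ℝ) < N := by linarith
  have hN1 : (1 : ℝ) ≤ N := by linarith
  have hKa : ∀ a ∈ Finset.range (M + 3), KK a ≤ ∑ a ∈ Finset.range (M + 3), KK a := fun a ha =>
    Finset.single_le_sum (fun a _ => (hKK a).le) ha
  have hsum0 : 0 ≤ ∑ a ∈ Finset.range (M + 3), KK a :=
    Finset.sum_nonneg fun a _ => (hKK a).le
  have hs0 : 0 ≤ s := by
    rw [hNL] at hs
    exact le_of_mul_le_mul_right (by linarith : 0 * N ≤ s * N) hN0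
  have hs0' : 0 ≤ s' := by
    rw [hNL] at hs'
    exact le_of_mul_le_mul_right (by linarith : 0 * N ≤ s' * N) hN0
  have hNe : 8 / e ≤ N := by
    refine hN₁.trans (le_trans ?_ hLN)
    exact_mod_cast (by omega : N₁ ≤ L)
  have hNη : 5 / η' ≤ N := by
    refine hN₂.trans (le_trans ?_ hLN)
    exact_mod_cast (by omega : N₂ ≤ L)
  have h1 : ∀ a ∈ Finset.range (M + 3), E3 (nnRate d L) t s s'
      (fun g h k => (∑ y ∈ Finset.univ.erase x, uw (B g k) y * psi (ct M a) h x y) ^ 2) ≤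
      2 * η' * N ^ 2 := by
    intro a ha
    have hLa : LL a ≤ L := by
      have := Finset.le_sup (f := LL) ha
      omega
    have hpm : ∀ (h : Perm (Fin d → ZMod L)) (y : Fin d → ZMod L),
        0 ≤ psi (ct M a) h x y ∧ psi (ct M a) h x y ≤ 1 := fun h y =>
      psi_mem (fun u => rp_mem _) h x y
    have hΦ : ∀ (y z : Fin d → ZMod L) (g k : Perm (Fin d → ZMod L)),
        |uw (B g k) y * uw (B g k) z| ≤ 1 := by
      intro y z g k
      rw [abs_mul]
      exact mul_le_one₀ (uw_abs _ _) (abs_nonneg _) (uw_abs _ _)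
    have q := quad3 (J := nnRate d L) (t := t) (s := s) (s' := s') hJ ht0 hs0 hs0'
      (Finset.univ.erase x) (fun y z h => psi (ct M a) h x y * psi (ct M a) h x z)
      (fun g k y => uw (B g k) y) (cc a) η' hη'0.le
      (fun y hy z hz hyz => hh a L hLa t ht s s' ((hKa a ha).trans hs) ((hKa a ha).trans hs')
        (fun g k => uw (B g k) y * uw (B g k) z) (hΦ y z) x y z
        (Finset.ne_of_mem_erase hy).symm (Finset.ne_of_mem_erase hz).symm hyz)
      (fun y _ => E3_bd hJ ht0 hs0 hs0' _ 3 fun g h k => by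
        rw [abs_mul]
        have b1 := hΦ y y g k
        have b2 : |psi (ct M a) h x y * psi (ct M a) h x y - cc a| ≤ 3 := by
          have c1 := abs_le.1 (hcc a)
          have c2 : 0 ≤ psi (ct M a) h x y * psi (ct M a) h x y :=
            mul_nonneg (hpm h y).1 (hpm h y).1
          have c3 : psi (ct M a) h x y * psi (ct M a) h x y ≤ 1 :=
            mul_le_one₀ (hpm h y).2 (hpm h y).1 (hpm h y).2
          rw [abs_le]
          constructor <;> linarith [c1.1, c1.2]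
        calc _ ≤ (3 : ℝ) * 1 := mul_le_mul b2 b1 (abs_nonneg _) (by norm_num)
          _ = 3 := by norm_num)
      (fun g k => uw_erase (B g k) x) (hcc a)
    have e1 : (fun g h k : Perm (Fin d → ZMod L) =>
        (∑ y ∈ Finset.univ.erase x, uw (B g k) y * psi (ct M a) h x y) ^ 2) =
        fun g h k => ∑ y ∈ Finset.univ.erase x, ∑ z ∈ Finset.univ.erase x,
          uw (B g k) y * uw (B g k) z * (psi (ct M a) h x y * psi (ct M a) h x z) := by
      funext g h k
      rw [pow_two, Finset.sum_mul_sum]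
      exact Finset.sum_congr rfl fun y _ => Finset.sum_congr rfl fun z _ => by ring
    rw [e1]
    refine q.trans ?_
    have e2 : ((Finset.univ.erase x).card : ℝ) ≤ N := by
      rw [hN]
      exact_mod_cast Finset.card_le_univ _
    have e3 : ((Finset.univ.erase x).card : ℝ) ^ 2 ≤ N ^ 2 :=
      pow_le_pow_left₀ (Nat.cast_nonneg _) e2 2
    have e4 : η' * ((Finset.univ.erase x).card : ℝ) ^ 2 ≤ η' * N ^ 2 :=
      mul_le_mul_of_nonneg_left e3 hη'0.le
    have e5 : 5 * N ≤ η' * N ^ 2 := by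
      rw [div_le_iff₀ hη'0] at hNη
      calc 5 * N ≤ (N * η') * N := mul_le_mul_of_nonneg_right hNη hN0.le
        _ = η' * N ^ 2 := by ring
    linarith
  refine (E3_cheb hJ ht0 hs0 hs0' _ (fun g h k => ∑ a ∈ Finset.range (M + 3),
    (∑ y ∈ Finset.univ.erase x, uw (B g k) y * psi (ct M a) h x y) ^ 2) ((e / 4 * N) ^ 2)
    (by positivity) (fun g h k => Finset.sum_nonneg fun _ _ => sq_nonneg _)
    fun g h k => ?_).trans ?_
  · rintro ⟨n, hn, hne⟩
    by_contra hc
    rw [not_le] at hc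
    have h2 : ∀ a < M + 3, |∑ y ∈ Finset.univ.erase x, uw (B g k) y * psi (ct M a) h x y| ≤
        e / 4 * Fintype.card (Fin d → ZMod L) := by
      intro a ha
      by_contra hc2
      rw [not_le, ← hN] at hc2
      have h3 : (e / 4 * N) ^ 2 ≤
          (∑ y ∈ Finset.univ.erase x, uw (B g k) y * psi (ct M a) h x y) ^ 2 := by
        rw [← sq_abs (∑ y ∈ Finset.univ.erase x, uw (B g k) y * psi (ct M a) h x y)]
        exact pow_le_pow_left₀ (by positivity) hc2.le 2
      have h4 := Finset.single_le_sum (f := fun a =>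
        (∑ y ∈ Finset.univ.erase x, uw (B g k) y * psi (ct M a) h x y) ^ 2)
        (fun _ _ => sq_nonneg _) (Finset.mem_range.2 ha)
      linarith
    have h5 := sandwich2 (B g k) h x M hM0 (e / 4) (by positivity) h2 n hn
    rw [← hN] at h5
    have h6 : 2 / (M : ℝ) ≤ e / 4 := by
      rw [div_le_iff₀ he] at hMe
      rw [div_le_div_iff₀ hMR (by norm_num)]
      linarith
    have h7 : 2 / N ≤ e / 4 := by
      rw [div_le_iff₀ he] at hNe
      rw [div_le_div_iff₀ hN0 (by norm_num)]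
      linarith
    unfold dsc at hne
    rw [← hN] at hne
    linarith
  · rw [div_le_iff₀ (by positivity), E3_sum]
    refine (Finset.sum_le_sum h1).trans ?_
    rw [Finset.sum_const, Finset.card_range, nsmul_eq_mul, hη']
    push_cast
    refine le_of_eq ?_
    field_simp

open Classical in
/-- all arcs of all cycles, given the past and the future -/
theorem equi2 (hK : S_KPT) (d : ℕ) (hd : 3 ≤ d) : ∃ m₀ : ℕ, ∀ η : ℝ, 0 < η →
    ∃ (K : ℝ) (L₀ : ℕ), 0 < K ∧ ∀ (L : ℕ) [NeZero L], L₀ ≤ L →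
    ∀ t : ℝ, (Real.log L) ^ m₀ ≤ t →
    ∀ s s' : ℝ, K ≤ s * (L : ℝ) ^ d → K ≤ s' * (L : ℝ) ^ d →
    ∀ B : Perm (Fin d → ZMod L) → Perm (Fin d → ZMod L) → Finset (Fin d → ZMod L),
      E3 (nnRate d L) t s s' (fun g h k => if ∃ (x : Fin d → ZMod L) (n : ℕ),
        n ≤ cycleLen h x ∧ η < |dsc (B g k) h x n| then 1 else 0) ≤ η := by
  obtain ⟨m₁, h1⟩ := pt_equi2 hK d hd
  obtain ⟨m₂, h2⟩ := cyc_equi hK d hd
  refine ⟨max m₁ m₂, fun η hη => ?_⟩
  obtain ⟨N₂, L₂, hN₂, h2⟩ := h2 (η / 4) (by positivity)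
  obtain ⟨K, L₁, hK0, h1⟩ := h1 (η / 4) (η / (4 * N₂)) (by positivity) (by positivity)
  refine ⟨K, max (max L₁ L₂) (max 3 N₂), hK0, fun L _ hL t ht s s' hs hs' B => ?_⟩
  have hL1 : L₁ ≤ L := (le_max_left _ _).trans ((le_max_left _ _).trans hL)
  have hL2 : L₂ ≤ L := (le_max_right _ _).trans ((le_max_left _ _).trans hL)
  have hL3 : 3 ≤ L := (le_max_left _ _).trans ((le_max_right _ _).trans hL)
  have hLN : N₂ ≤ L := (le_max_right _ _).trans ((le_max_right _ _).trans hL)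
  have hlog := log_ge L hL3
  have ht0 : 0 ≤ t := le_trans (by positivity) ht
  have hJ : ∀ x y : Fin d → ZMod L, 0 ≤ nnRate d L x y := nn_nonneg
  have hLd : (0 : ℝ) < (L : ℝ) ^ d := by
    have : (0 : ℝ) < L := by exact_mod_cast (by omega : 0 < L)
    positivity
  have hs0 : 0 ≤ s := le_of_mul_le_mul_right (by linarith : 0 * (L : ℝ) ^ d ≤ s * (L : ℝ) ^ d) hLd
  have hs0' : 0 ≤ s' :=
    le_of_mul_le_mul_right (by linarith : 0 * (L : ℝ) ^ d ≤ s' * (L : ℝ) ^ d) hLd
  have ht1 : (Real.log L) ^ m₁ ≤ t := (pow_le_pow_right₀ hlog (le_max_left _ _)).trans ht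
  have ht2 : (Real.log L) ^ m₂ ≤ t + s :=
    ((pow_le_pow_right₀ hlog (le_max_right _ _)).trans ht).trans (by linarith)
  obtain ⟨B', hB'⟩ : ∃ B' : Finset (Fin d → ZMod L), B'.card = N₂ := by
    have hc : N₂ ≤ (Finset.univ : Finset (Fin d → ZMod L)).card := by
      rw [Finset.card_univ, Fintype.card_fun, ZMod.card, Fintype.card_fin]
      exact hLN.trans (Nat.le_self_pow (by omega) L)
    obtain ⟨B', _, hB'⟩ := Finset.exists_subset_card_eq hc
    exact ⟨B', hB'⟩
  have a1 : ∀ p ∈ B', E3 (nnRate d L) t s s' (fun g h k => if ∃ n : ℕ, n ≤ cycleLen h p ∧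
      η / 4 < |dsc (B g k) h p n| then 1 else 0) ≤ η / (4 * N₂) :=
    fun p _ => h1 L hL1 t ht1 s s' hs hs' B p
  have a3 := h2 L hL2 (t + s) ht2 B' hB'.ge
  rw [← E3_mid (J := nnRate d L) (t := t) (s := s) (s' := s')] at a3
  have a5 := Finset.sum_le_sum a1
  rw [Finset.sum_const, hB', nsmul_eq_mul] at a5
  have hN2R : (0 : ℝ) < N₂ := by exact_mod_cast hN₂
  have a6 : (N₂ : ℝ) * (η / (4 * N₂)) = η / 4 := by field_simp
  rw [a6, ← E3_sum] at a5
  refine le_trans (le_trans (E3_mono hJ ht0 hs0 hs0' fun g h k => ?_)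
    (le_of_eq (E3_add _ _))) ((add_le_add a5 a3).trans (by linarith))
  beta_reduce
  have b1 : (0 : ℝ) ≤ ∑ p ∈ B', if ∃ n : ℕ, n ≤ cycleLen h p ∧
      η / 4 < |dsc (B g k) h p n| then 1 else 0 :=
    Finset.sum_nonneg fun p _ => by split_ifs <;> norm_num
  have b2 : (0 : ℝ) ≤ if ∃ x, η / 4 < |∑ y, wt B' y * sc h x y| then 1 else 0 := by
    split_ifs <;> norm_num
  by_cases hP : ∃ (x : Fin d → ZMod L) (n : ℕ), n ≤ cycleLen h x ∧ η < |dsc (B g k) h x n|
  · rw [if_pos hP]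
    by_cases hQ : ∃ x, η / 4 < |∑ y, wt B' y * sc h x y|
    · rw [if_pos hQ]
      linarith
    · obtain ⟨p, hp, hQp⟩ : ∃ p ∈ B', ∃ n : ℕ, n ≤ cycleLen h p ∧
          η / 4 < |dsc (B g k) h p n| := by
        by_contra hc
        push Not at hc hQ
        obtain ⟨x, n, hn, hx⟩ := hP
        have := all_arcs2 (B := B g k) (B' := B') (g := h) (e := η / 4) (by positivity)
          (fun p hp n hn => hc p hp n hn) hQ x n hn
        linarith
      have b3 := Finset.single_le_sum (f := fun p => if ∃ n : ℕ, n ≤ cycleLen h p ∧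
        η / 4 < |dsc (B g k) h p n| then (1 : ℝ) else 0)
        (fun p _ => by split_ifs <;> norm_num) hp
      rw [if_pos hQp] at b3
      linarith
  · rw [if_neg hP]
    linarith

end Run7.h565.SM
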