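import Pool.Agent.Run7.h565.SM.Eqp3

/-!
# Old arcs against new arcs
-/

set_option autoImplicit false

namespace Run7.h565.SM

open Finset Equiv Run7.h565.LC
open Pool.Agent.Y998.ST (stirExp stirLaw nnRate law_nonneg nn_nonneg cycleLen)

section det

variable {V : Type} [Fintype V] [DecidableEq V]

/-- the points of an arc -/
def aset (g : Perm V) (x : V) (n : ℕ) : Finset V := (Finset.range n).image fun i => (g ^ i) x

/-- number of pairs -/
def pc (g : Perm V) (x : V) (n : ℕ) (h : Perm V) (x' : V) (n' : ℕ) : ℝ :=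
  ∑ i ∈ Finset.range n, ∑ j ∈ Finset.range n', if (g ^ i) x = (h ^ j) x' then (1 : ℝ) else 0

/-- the discrepancy -/
noncomputable def pd (g : Perm V) (x : V) (n : ℕ) (h : Perm V) (x' : V) (n' : ℕ) : ℝ :=
  pc g x n h x' n' / Fintype.card V - n / Fintype.card V * (n' / Fintype.card V)

theorem pd_add (g : Perm V) (x : V) (m n : ℕ) (h : Perm V) (x' : V) (n' : ℕ) :
    pd g x (m + n) h x' n' = pd g x m h x' n' + pd g ((g ^ m) x) n h x' n' := by
  unfold pd pc
  rw [Finset.sum_range_add]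
  have : ∀ i : ℕ, (g ^ (m + i)) x = (g ^ i) ((g ^ m) x) := by
    intro i
    rw [← Perm.mul_apply, ← pow_add, add_comm]
  simp only [this]
  push_cast
  ring

theorem orb_inj {g : Perm V} {x : V} {n : ℕ} (hn : n ≤ cycleLen g x) {p q : ℕ} (hp : p < n)
    (hq : q < n) (h : (g ^ p) x = (g ^ q) x) : p = q := by
  obtain ⟨c, hc1, hcl, hc2, _, hc3, hc4⟩ := per g x
  rcases lt_trichotomy p q with hlt | hlt | hlt
  · exact absurd h (hc3 p q hlt (by omega))
  · exact hlt
  · exact absurd h.symm (hc3 q p hlt (by omega))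

theorem aset_card {g : Perm V} {x : V} {n : ℕ} (hn : n ≤ cycleLen g x) :
    (aset g x n).card = n := by
  unfold aset
  rw [Finset.card_image_of_injOn, Finset.card_range]
  intro p hp q hq hpq
  rw [Finset.mem_coe, Finset.mem_range] at hp hq
  exact orb_inj hn hp hq hpq

theorem hit_one {g : Perm V} {x : V} {n : ℕ} (hn : n ≤ cycleLen g x) (v : V) :
    ∑ i ∈ Finset.range n, (if (g ^ i) x = v then (1 : ℝ) else 0) =
      if v ∈ aset g x n then 1 else 0 := by
  by_cases hv : v ∈ aset g x n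
  · rw [if_pos hv]
    unfold aset at hv
    rw [Finset.mem_image] at hv
    obtain ⟨p, hp, hpv⟩ := hv
    rw [Finset.sum_eq_single_of_mem p hp, if_pos hpv]
    intro q hq hqp
    refine if_neg fun h => hqp ?_
    rw [Finset.mem_range] at hp hq
    exact orb_inj hn hq hp (h.trans hpv.symm)
  · rw [if_neg hv]
    refine Finset.sum_eq_zero fun i hi => if_neg fun h => hv ?_
    unfold aset
    rw [Finset.mem_image]
    exact ⟨i, hi, h⟩

theorem pc_cnt {g : Perm V} {x : V} {n : ℕ} (hn : n ≤ cycleLen g x) (h : Perm V) (x' : V)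
    (n' : ℕ) : pc g x n h x' n' = cnt (aset g x n) h x' n' := by
  unfold pc
  rw [Finset.sum_comm, cnt_sum]
  exact Finset.sum_congr rfl fun j _ => hit_one hn _

theorem pd_dsc {g : Perm V} {x : V} {n : ℕ} (hn : n ≤ cycleLen g x) (h : Perm V) (x' : V)
    (n' : ℕ) : pd g x n h x' n' = dsc (aset g x n) h x' n' := by
  unfold pd dsc
  rw [pc_cnt hn, aset_card hn]

theorem pd_small (g : Perm V) (x : V) (n : ℕ) {h : Perm V} {x' : V} {n' : ℕ}
    (hn' : n' ≤ cycleLen h x') : |pd g x n h x' n'| ≤ n / Fintype.card V := by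
  have h1 : 0 ≤ pc g x n h x' n' := by
    unfold pc
    exact Finset.sum_nonneg fun i _ => Finset.sum_nonneg fun j _ => by split_ifs <;> norm_num
  have h2 : pc g x n h x' n' ≤ n := by
    unfold pc
    have a1 : ∀ i ∈ Finset.range n, ∑ j ∈ Finset.range n',
        (if (g ^ i) x = (h ^ j) x' then (1 : ℝ) else 0) ≤ 1 := by
      intro i _
      have a2 : ∑ j ∈ Finset.range n', (if (g ^ i) x = (h ^ j) x' then (1 : ℝ) else 0) =
          ∑ j ∈ Finset.range n', if (h ^ j) x' = (g ^ i) x then (1 : ℝ) else 0 :=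
        Finset.sum_congr rfl fun j _ => if_congr eq_comm rfl rfl
      rw [a2, hit_one hn']
      split_ifs <;> norm_num
    refine (Finset.sum_le_sum a1).trans ?_
    rw [Finset.sum_const, Finset.card_range, nsmul_eq_mul, mul_one]
  obtain ⟨N, hN⟩ : ∃ N : ℝ, N = Fintype.card V := ⟨_, rfl⟩
  have hN0 : 0 ≤ N := by rw [hN]; positivity
  have h3 : (n' : ℝ) / N ≤ 1 := by
    refine div_le_one_of_le₀ ?_ hN0
    rw [hN]
    refine (Nat.cast_le.2 hn').trans ?_
    unfold cycleLen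
    exact_mod_cast (Nat.card_eq_fintype_card (α := V)) ▸ Finite.card_subtype_le _
  have h4 : (0 : ℝ) ≤ n' / N := by positivity
  have h5 : (0 : ℝ) ≤ n / N := by positivity
  have h6 : (n : ℝ) / N * (n' / N) ≤ n / N := mul_le_of_le_one_right h5 h3
  have h7 : 0 ≤ (n : ℝ) / N * (n' / N) := mul_nonneg h5 h4
  have h8 : pc g x n h x' n' / N ≤ n / N := div_le_div_of_nonneg_right h2 hN0
  have h9 : 0 ≤ pc g x n h x' n' / N := div_nonneg h1 hN0
  unfold pd
  rw [← hN, abs_le]
  constructor <;> linarith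

theorem old_new {B' : Finset V} {g h : Perm V} {e₁ e₂ : ℝ} (he₁ : 0 ≤ e₁) (he₂ : 0 ≤ e₂)
    (q : ℕ) (hq : 0 < q) (hqe : (q : ℝ) / Fintype.card V ≤ e₂)
    (h1 : ∀ p ∈ B', ∀ a ≤ Fintype.card V / q, ∀ (x' : V) (n' : ℕ), n' ≤ cycleLen h x' →
      |dsc (aset g p (a * q)) h x' n'| ≤ e₁)
    (h3 : ∀ x, |∑ y, wt B' y * sc g x y| ≤ e₁)
    (x : V) (n : ℕ) (hn : n ≤ cycleLen g x) (x' : V) (n' : ℕ) (hn' : n' ≤ cycleLen h x') :
    |pd g x n h x' n'| ≤ 3 * (e₁ + e₂) := by
  by_cases hx : ∃ p ∈ B', g.SameCycle x p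
  · obtain ⟨p, hp, hxp⟩ := hx
    obtain ⟨c, hc1, hcl, hc2, _, hc3, hc4⟩ := per g p
    obtain ⟨m, hm, hmx⟩ := hc4 x hxp.symm
    have hcx : cycleLen g x = c := by
      rw [← hcl]
      unfold cycleLen
      exact Nat.card_congr (Equiv.subtypeEquivRight fun w =>
        ⟨fun hw => hxp.symm.trans hw, fun hw => hxp.trans hw⟩)
    rw [hcx] at hn
    have hcV : c ≤ Fintype.card V := by
      rw [← hcl]
      unfold cycleLen
      exact (Nat.card_eq_fintype_card (α := V)) ▸ Finite.card_subtype_le _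
    have hd : ∀ k ≤ c, |pd g p k h x' n'| ≤ e₁ + e₂ := by
      intro k hk
      have b1 : k / q * q + k % q = k := by rw [mul_comm]; exact Nat.div_add_mod k q
      have b2 : k / q * q ≤ c := by omega
      have b3 := pd_add g p (k / q * q) (k % q) h x' n'
      rw [b1] at b3
      have b4 := h1 p hp (k / q) (Nat.div_le_div_right (hk.trans hcV)) x' n' hn'
      rw [← pd_dsc (by rw [hcl]; exact b2)] at b4
      have b5 := pd_small g ((g ^ (k / q * q)) p) (k % q) hn'
      have b6 : ((k % q : ℕ) : ℝ) / Fintype.card V ≤ q / Fintype.card V :=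
        div_le_div_of_nonneg_right (by exact_mod_cast (Nat.mod_lt k hq).le) (Nat.cast_nonneg _)
      have b7 := abs_add_le (pd g p (k / q * q) h x' n')
        (pd g ((g ^ (k / q * q)) p) (k % q) h x' n')
      rw [b3]
      linarith
    have e1 : pd g x n h x' n' = pd g p (m + n) h x' n' - pd g p m h x' n' := by
      rw [pd_add, hmx]
      ring
    have e2 : |pd g p (m + n) h x' n'| ≤ 2 * (e₁ + e₂) := by
      rcases Nat.lt_or_ge c (m + n) with hlt | hge
      · obtain ⟨k, hk⟩ : ∃ k, m + n = c + k := ⟨m + n - c, by omega⟩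
        rw [hk, pd_add, hc2]
        have a1 := hd c le_rfl
        have a2 := hd k (by omega)
        have a3 := abs_add_le (pd g p c h x' n') (pd g p k h x' n')
        linarith
      · have := hd (m + n) hge
        linarith
    rw [e1]
    have a1 := hd m hm.le
    have a2 := abs_sub (pd g p (m + n) h x' n') (pd g p m h x' n')
    linarith
  · push Not at hx
    have a1 := h3 x
    rw [sc_zero hx] at a1
    have a4 : (n : ℝ) / Fintype.card V ≤ (cycleLen g x : ℝ) / Fintype.card V :=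
      div_le_div_of_nonneg_right (by exact_mod_cast hn) (Nat.cast_nonneg _)
    have a5 : (cycleLen g x : ℝ) / Fintype.card V ≤ e₁ := by
      rw [neg_div, abs_neg, abs_le] at a1
      exact a1.2
    have a6 := pd_small g x n hn'
    linarith

end det

theorem E3_fst {V : Type} [Fintype V] [DecidableEq V] {J : V → V → ℝ} {t s s' : ℝ}
    (A : Perm V → ℝ) : E3 J t s s' (fun g _ _ => A g) = stirExp J t A := by
  have h1 : ∀ g h : Perm V, fut J s' (fun _ => A g) h = A g := by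
    intro g h
    unfold fut
    rw [← Finset.sum_mul, Pool.Agent.Y998.CN.law_sum, one_mul]
  have h2 : ∀ g : Perm V, fut J s (fun _ => A g) g = A g := by
    intro g
    unfold fut
    rw [← Finset.sum_mul, Pool.Agent.Y998.CN.law_sum, one_mul]
  unfold E3
  simp only [h1, h2]

theorem E3_two {V : Type} [Fintype V] [DecidableEq V] {J : V → V → ℝ} {t s s' : ℝ}
    (A : Perm V → Perm V → ℝ) : E3 J t s s' (fun g h _ => A g h) =
      stirExp J t (fun g => fut J s (A g) g) := by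
  have h1 : ∀ g h : Perm V, fut J s' (fun _ => A g h) h = A g h := by
    intro g h
    unfold fut
    rw [← Finset.sum_mul, Pool.Agent.Y998.CN.law_sum, one_mul]
  unfold E3
  simp only [h1]

open Classical in
/-- old arcs against new arcs -/
theorem equi3 (hK : S_KPT) (d : ℕ) (hd : 3 ≤ d) : ∃ m₀ : ℕ, ∀ η : ℝ, 0 < η →
    ∃ (K : ℝ) (L₀ : ℕ), 0 < K ∧ ∀ (L : ℕ) [NeZero L], L₀ ≤ L →
    ∀ t : ℝ, (Real.log L) ^ m₀ ≤ t → ∀ s : ℝ, K ≤ s * (L : ℝ) ^ d →
      stirExp (nnRate d L) t (fun g => fut (nnRate d L) s (fun h =>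
        if ∃ (x : Fin d → ZMod L) (n : ℕ) (x' : Fin d → ZMod L) (n' : ℕ), n ≤ cycleLen g x ∧
          n' ≤ cycleLen h x' ∧ η < |pd g x n h x' n'| then 1 else 0) g) ≤ η := by
  obtain ⟨m₁, h1⟩ := equi2 hK d hd
  obtain ⟨m₂, h2⟩ := cyc_equi hK d hd
  refine ⟨max m₁ m₂, fun η hη => ?_⟩
  obtain ⟨N₂, L₂, hN₂, h2⟩ := h2 (η / 6) (by positivity)
  have hN2R : (0 : ℝ) < N₂ := by exact_mod_cast hN₂
  obtain ⟨M, hM⟩ : ∃ M : ℕ, 12 / η ≤ M := exists_nat_ge _
  have hMR : (0 : ℝ) < M := lt_of_lt_of_le (by positivity) hM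
  have hM0 : 0 < M := by exact_mod_cast hMR
  obtain ⟨η₁, hη₁⟩ : ∃ η₁ : ℝ, η₁ = min (η / 6) (η / (2 * (N₂ * (M + 1)))) := ⟨_, rfl⟩
  have hη₁0 : 0 < η₁ := by rw [hη₁]; exact lt_min (by positivity) (by positivity)
  have hη₁1 : η₁ ≤ η / 6 := by rw [hη₁]; exact min_le_left _ _
  have hη₁2 : η₁ ≤ η / (2 * (N₂ * (M + 1))) := by rw [hη₁]; exact min_le_right _ _
  obtain ⟨K, L₁, hK0, h1⟩ := h1 η₁ hη₁0
  obtain ⟨N₃, hN₃⟩ := exists_nat_ge (12 / η)
  refine ⟨K, max (max L₁ L₂) (max 3 (N₂ + N₃)), hK0, fun L _ hL t ht s hs => ?_⟩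
  have hL1 : L₁ ≤ L := (le_max_left _ _).trans ((le_max_left _ _).trans hL)
  have hL2 : L₂ ≤ L := (le_max_right _ _).trans ((le_max_left _ _).trans hL)
  have hL3 : 3 ≤ L := (le_max_left _ _).trans ((le_max_right _ _).trans hL)
  have hLN' : N₂ + N₃ ≤ L := (le_max_right _ _).trans ((le_max_right _ _).trans hL)
  have hLN : N₂ ≤ L := by omega
  have hlog := log_ge L hL3
  have ht0 : 0 ≤ t := le_trans (by positivity) ht
  have hJ : ∀ x y : Fin d → ZMod L, 0 ≤ nnRate d L x y := nn_nonneg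
  have hLd : (0 : ℝ) < (L : ℝ) ^ d := by
    have : (0 : ℝ) < L := by exact_mod_cast (by omega : 0 < L)
    positivity
  have hs0 : 0 ≤ s := le_of_mul_le_mul_right (by linarith : 0 * (L : ℝ) ^ d ≤ s * (L : ℝ) ^ d) hLd
  have ht1 : (Real.log L) ^ m₁ ≤ t := (pow_le_pow_right₀ hlog (le_max_left _ _)).trans ht
  have ht2 : (Real.log L) ^ m₂ ≤ t := (pow_le_pow_right₀ hlog (le_max_right _ _)).trans ht
  obtain ⟨N, hN⟩ : ∃ N : ℕ, N = Fintype.card (Fin d → ZMod L) := ⟨_, rfl⟩
  have hNL : L ≤ N := by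
    rw [hN, Fintype.card_fun, ZMod.card, Fintype.card_fin]
    exact Nat.le_self_pow (by omega) L
  have hNR : (0 : ℝ) < N := by exact_mod_cast (by omega : 0 < N)
  obtain ⟨q, hq⟩ : ∃ q, q = N / M + 1 := ⟨_, rfl⟩
  have hq0 : 0 < q := by rw [hq]; exact Nat.succ_pos _
  have hqM : N / q ≤ M := by
    refine Nat.div_le_of_le_mul ?_
    rw [hq]
    have := Nat.lt_div_mul_add (a := N) hM0
    nlinarith
  have hqe : (q : ℝ) / Fintype.card (Fin d → ZMod L) ≤ η / 6 := by
    rw [← hN, div_le_iff₀ hNR, hq]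
    push_cast
    have b1 : ((N / M : ℕ) : ℝ) ≤ N / M := Nat.cast_div_le
    have b2 : (N : ℝ) / M ≤ η / 12 * N := by
      rw [div_le_iff₀ hMR]
      rw [div_le_iff₀ hη] at hM
      have : (12 : ℝ) * N ≤ (M * η) * N := mul_le_mul_of_nonneg_right hM hNR.le
      linarith
    have b3 : (1 : ℝ) ≤ η / 12 * N := by
      have c1 : 12 / η ≤ N := by
        refine hN₃.trans ?_
        exact_mod_cast (by omega : N₃ ≤ N)
      rw [div_le_iff₀ hη] at c1
      linarith
    linarith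
  obtain ⟨B', hB'⟩ : ∃ B' : Finset (Fin d → ZMod L), B'.card = N₂ := by
    have hc : N₂ ≤ (Finset.univ : Finset (Fin d → ZMod L)).card := by
      rw [Finset.card_univ, ← hN]
      omega
    obtain ⟨B', _, hB'⟩ := Finset.exists_subset_card_eq hc
    exact ⟨B', hB'⟩
  obtain ⟨I, hI⟩ : ∃ I : Finset ((Fin d → ZMod L) × ℕ), I = B' ×ˢ Finset.range (M + 1) :=
    ⟨_, rfl⟩
  have hIc : (I.card : ℝ) = N₂ * (M + 1) := by
    rw [hI, Finset.card_product, Finset.card_range, hB']
    push_cast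
    rfl
  have a1 : ∀ r ∈ I, E3 (nnRate d L) t s s (fun g h _ =>
      if ∃ (x : Fin d → ZMod L) (n : ℕ), n ≤ cycleLen h x ∧
        η₁ < |dsc (aset g r.1 (r.2 * q)) h x n| then 1 else 0) ≤ η₁ :=
    fun r _ => h1 L hL1 t ht1 s s hs hs (fun g _ => aset g r.1 (r.2 * q))
  have a3 := h2 L hL2 t ht2 B' hB'.ge
  rw [← E3_fst (J := nnRate d L) (t := t) (s := s) (s' := s)] at a3
  have a5 := Finset.sum_le_sum a1
  rw [Finset.sum_const, nsmul_eq_mul, hIc, ← E3_sum] at a5
  have a6 : (N₂ : ℝ) * (M + 1) * η₁ ≤ η / 2 := by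
    have b1 : (N₂ : ℝ) * (M + 1) * η₁ ≤ N₂ * (M + 1) * (η / (2 * (N₂ * (M + 1)))) :=
      mul_le_mul_of_nonneg_left hη₁2 (by positivity)
    refine b1.trans (le_of_eq ?_)
    field_simp
  rw [← E3_two (s' := s)]
  refine le_trans (le_trans (E3_mono hJ ht0 hs0 hs0 fun g h k => ?_)
    (le_of_eq (E3_add _ _))) ((add_le_add a5 a3).trans (by linarith))
  beta_reduce
  have b1 : (0 : ℝ) ≤ ∑ r ∈ I, if ∃ (x : Fin d → ZMod L) (n : ℕ), n ≤ cycleLen h x ∧
        η₁ < |dsc (aset g r.1 (r.2 * q)) h x n| then 1 else 0 :=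
    Finset.sum_nonneg fun p _ => by split_ifs <;> norm_num
  have b2 : (0 : ℝ) ≤ if ∃ x, η / 6 < |∑ y, wt B' y * sc g x y| then 1 else 0 := by
    split_ifs <;> norm_num
  by_cases hP : ∃ (x : Fin d → ZMod L) (n : ℕ) (x' : Fin d → ZMod L) (n' : ℕ),
      n ≤ cycleLen g x ∧ n' ≤ cycleLen h x' ∧ η < |pd g x n h x' n'|
  · rw [if_pos hP]
    by_cases hQ : ∃ x, η / 6 < |∑ y, wt B' y * sc g x y|
    · rw [if_pos hQ]
      linarith
    · obtain ⟨r, hr, hQr⟩ : ∃ r ∈ I, ∃ (x : Fin d → ZMod L) (n : ℕ), n ≤ cycleLen h x ∧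
          η₁ < |dsc (aset g r.1 (r.2 * q)) h x n| := by
        by_contra hc
        push Not at hc hQ
        obtain ⟨x, n, x', n', hn, hn', hx⟩ := hP
        have := old_new (B' := B') (g := g) (h := h) (e₁ := η / 6) (e₂ := η / 6)
          (by positivity) (by positivity) q hq0 hqe (fun p hp a ha x' n' hn' => by
            refine (hc (p, a) ?_ x' n' hn').trans hη₁1
            rw [hI, Finset.mem_product, Finset.mem_range]
            refine ⟨hp, ?_⟩
            rw [← hN] at ha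
            have := ha.trans hqM
            omega) hQ x n hn x' n' hn'
        linarith
      have b3 := Finset.single_le_sum (f := fun r : (Fin d → ZMod L) × ℕ =>
        if ∃ (x : Fin d → ZMod L) (n : ℕ), n ≤ cycleLen h x ∧
          η₁ < |dsc (aset g r.1 (r.2 * q)) h x n| then (1 : ℝ) else 0)
        (fun p _ => by split_ifs <;> norm_num) hr
      rw [if_pos hQr] at b3
      linarith
  · rw [if_neg hP]
    linarith

end Run7.h565.SM
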