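import Pool.Agent.Run7.h565.SM.Dec

/-!
# Project SM: the law of the ordered cycle lengths given the permutation at an earlier time
-/

set_option autoImplicit false

namespace Run7.h565.SM

open Finset Equiv
open Pool.Agent.TH268.PD (ret ret_spec top frac Cyc cyOf lip_approx pdm pdl pdm_close)
open Pool.Agent.Y998.LP (bfrac NN tdist law_add law_inv NN_one NN_mul NN_nonneg)
open Pool.Agent.Y998.ST (stirExp stirLaw nnRate law_nonneg nn_nonneg totalRate nn_row)
open Run7.h565.LC (S_KPT tdist_box)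

section

variable {V : Type} [Fintype V] [DecidableEq V]

theorem fut_self (J : V → V → ℝ) (hJ : ∀ x y, 0 ≤ J x y) (a : ℝ) (ha : 0 ≤ a) (t : ℝ)
    (A B : Perm V → ℝ) (M : ℝ) (hA : ∀ g, |A g| ≤ M) (hB : ∀ g, |B g| ≤ M) :
    |∑ g, stirLaw J t g * (A g * fut J a B g) - ∑ g, stirLaw J t g * (fut J a A g * B g)| ≤
      M ^ 2 * fut J a (NN J t) 1 := by
  have hM : 0 ≤ M := (abs_nonneg _).trans (hA 1)
  have e1 : ∑ g, stirLaw J t g * (A g * fut J a B g) =
      ∑ h, stirLaw J a h * ∑ g, stirLaw J t g * (A g * B (h * g)) := by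
    unfold fut
    simp only [Finset.mul_sum]
    rw [Finset.sum_comm]
    exact Finset.sum_congr rfl fun h _ => Finset.sum_congr rfl fun g _ => by ring
  have e2 : ∑ g, stirLaw J t g * (fut J a A g * B g) =
      ∑ h, stirLaw J a h * ∑ g, stirLaw J t g * (A (h⁻¹ * g) * B g) := by
    unfold fut
    simp only [Finset.sum_mul, Finset.mul_sum]
    rw [Finset.sum_comm, ← Equiv.sum_comp (Equiv.inv (Perm V))]
    refine Finset.sum_congr rfl fun h _ => Finset.sum_congr rfl fun g _ => ?_
    have e : (Equiv.inv (Perm V)) h = h⁻¹ := rfl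
    rw [e, law_inv]
    ring
  rw [e1, e2, ← Finset.sum_sub_distrib]
  refine (Finset.abs_sum_le_sum_abs _ _).trans ?_
  unfold fut
  rw [Finset.mul_sum]
  refine Finset.sum_le_sum fun h _ => ?_
  rw [← mul_sub, abs_mul, abs_of_nonneg (law_nonneg hJ ha h), mul_one]
  have h1 := shift_le (fun g => stirLaw J t g) h (NN J t h) (le_of_eq rfl)
    (fun g => A (h⁻¹ * g) * B g) (M ^ 2) (fun g => by
      rw [abs_mul, pow_two]
      exact mul_le_mul (hA _) (hB _) (abs_nonneg _) hM)
  simp only [inv_mul_cancel_left] at h1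
  calc stirLaw J a h * |∑ g, stirLaw J t g * (A g * B (h * g)) -
      ∑ g, stirLaw J t g * (A (h⁻¹ * g) * B g)| ≤ stirLaw J a h * (M ^ 2 * NN J t h) :=
        mul_le_mul_of_nonneg_left h1 (law_nonneg hJ ha h)
    _ = M ^ 2 * (stirLaw J a h * NN J t h) := by ring

theorem qq_sub {J : V → V → ℝ} (hJ : ∀ x y, 0 ≤ J x y) (hR : 0 < totalRate J)
    (N : Perm V → ℝ) (ε : ℝ) (hmul : ∀ g h, N (g * h) ≤ N g + N h)
    (hsw : ∀ x y, J x y ≠ 0 → N (swap x y) ≤ ε) (n : ℕ) :
    ∀ g, ((qq J)^[n] N) g ≤ N g + n * (ε / 2) := by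
  have htr : ∀ (A : Perm V → ℝ) (g : Perm V) (c : ℝ), (∀ x y, J x y ≠ 0 → A (swap x y * g) ≤ c) →
      tr J A g ≤ c := by
    intro A g c hA
    unfold tr
    rw [div_le_iff₀ hR]
    calc ∑ x, ∑ y, J x y / 2 * A (swap x y * g) ≤ ∑ x, ∑ y, J x y / 2 * c := by
          refine Finset.sum_le_sum fun x _ => Finset.sum_le_sum fun y _ => ?_
          by_cases h : J x y = 0
          · rw [h, zero_div, zero_mul, zero_mul]
          · exact mul_le_mul_of_nonneg_left (hA x y h) (div_nonneg (hJ x y) two_pos.le)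
      _ = c * totalRate J := by
          unfold totalRate
          simp only [← Finset.sum_mul]
          ring
  induction n with
  | zero =>
    intro g
    simp
  | succ n ih =>
    intro g
    rw [Function.iterate_succ', Function.comp_apply]
    have h3 : qq J ((qq J)^[n] N) g = (((qq J)^[n] N) g + tr J ((qq J)^[n] N) g) / 2 := rfl
    rw [h3]
    have h1 := ih g
    have h2 := htr ((qq J)^[n] N) g (N g + ε + n * (ε / 2)) (fun x y hxy => by
      have a1 := ih (swap x y * g)
      have a2 := hmul (swap x y) g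
      have a3 := hsw x y hxy
      linarith)
    push_cast
    linarith

theorem NN_le_two {J : V → V → ℝ} (hJ : ∀ x y, 0 ≤ J x y) {t : ℝ} (ht : 0 ≤ t) (h : Perm V) :
    NN J t h ≤ 2 := by
  unfold NN
  have h1 : ∑ g, stirLaw J t (h⁻¹ * g) = 1 :=
    (Equiv.sum_comp (Equiv.mulLeft h⁻¹) (stirLaw J t)).trans (Pool.Agent.Y998.CN.law_sum J t)
  calc ∑ g, |stirLaw J t (h⁻¹ * g) - stirLaw J t g| ≤
        ∑ g, (stirLaw J t (h⁻¹ * g) + stirLaw J t g) := by
        refine Finset.sum_le_sum fun g _ => ?_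
        have a1 := law_nonneg hJ ht (h⁻¹ * g)
        have a2 := law_nonneg hJ ht g
        rw [abs_le]
        constructor <;> linarith
    _ = 2 := by
        rw [Finset.sum_add_distrib, h1, Pool.Agent.Y998.CN.law_sum]
        norm_num

/-- mean distance moved -/
theorem fut_NN {J : V → V → ℝ} (hJ : ∀ x y, 0 ≤ J x y) (hR : 0 < totalRate J) (l : ℝ)
    (hl : 0 < l) (a : ℝ) (ha : 2 * (a * totalRate J) = l) (t : ℝ) (ht : 0 ≤ t) (ε : ℝ)
    (hε : 0 ≤ ε) (hns : ∀ x y, J x y ≠ 0 → NN J t (swap x y) ≤ ε) (n₁ : ℕ) :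
    fut J a (NN J t) 1 ≤ n₁ * ε + 2 * (1 - ∑ n ∈ Finset.range n₁, po l n) := by
  have hs := mix J hR.ne' a (NN J t) 1
  rw [ha] at hs
  have e3 : fut J a (NN J t) 1 = ∑ h, stirLaw J a h * NN J t (h * 1) := rfl
  rw [← e3] at hs
  have hpo := fun n => po_nonneg hl.le n
  have hq : ∀ n, ((qq J)^[n] (NN J t)) 1 ≤ n * (ε / 2) := by
    intro n
    have := qq_sub hJ hR (NN J t) ε (NN_mul J t) hns n 1
    rwa [NN_one, zero_add] at this
  have hq2 : ∀ n, ((qq J)^[n] (NN J t)) 1 ≤ 2 := by
    intro n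
    have hb : ∀ g, |NN J t g / 2| ≤ 1 := by
      intro g
      rw [abs_of_nonneg (div_nonneg (NN_nonneg J t g) two_pos.le)]
      linarith [NN_le_two hJ ht g]
    have h1 := qq_abs hJ hR (fun g => NN J t g / 2) hb n 1
    have h2 : ∀ n g, ((qq J)^[n] (fun g => NN J t g / 2)) g = ((qq J)^[n] (NN J t)) g / 2 := by
      intro n
      induction n with
      | zero => intro g; rfl
      | succ n ih =>
        intro g
        rw [Function.iterate_succ', Function.comp_apply, Function.comp_apply]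
        have h3 : ∀ X : Perm V → ℝ, qq J X g = (X g + tr J X g) / 2 := fun X => rfl
        rw [h3, h3, ih g]
        have h4 : tr J ((qq J)^[n] fun g => NN J t g / 2) g = tr J ((qq J)^[n] (NN J t)) g / 2 := by
          unfold tr
          simp only [ih]
          have e5 : ∑ x, ∑ y, J x y / 2 * (((qq J)^[n] (NN J t)) (swap x y * g) / 2) =
              (∑ x, ∑ y, J x y / 2 * ((qq J)^[n] (NN J t)) (swap x y * g)) / 2 := by
            simp only [Finset.sum_div]
            exact Finset.sum_congr rfl fun x _ => Finset.sum_congr rfl fun y _ => by ring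
          rw [e5]
          ring
        rw [h4]
        ring
    rw [h2, abs_le] at h1
    linarith [h1.2]
  -- `2 - q` has nonnegative terms
  have hs2 := ((po_sum l).mul_left 2).sub hs
  have h3 := sum_le_hasSum (Finset.range n₁) (fun n _ => by
    have : 0 ≤ po l n * (2 - ((qq J)^[n] (NN J t)) 1) :=
      mul_nonneg (hpo n) (by linarith [hq2 n])
    linarith) hs2
  rw [Finset.sum_sub_distrib, ← Finset.mul_sum] at h3
  have h4 : ∑ n ∈ Finset.range n₁, po l n * ((qq J)^[n] (NN J t)) 1 ≤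
      ∑ n ∈ Finset.range n₁, po l n * (n₁ * ε) := by
    refine Finset.sum_le_sum fun n hn => mul_le_mul_of_nonneg_left ?_ (hpo n)
    have h5 : (n : ℝ) ≤ n₁ := by exact_mod_cast (Finset.mem_range.1 hn).le
    have h6 := hq n
    have h7 : (n : ℝ) * (ε / 2) ≤ n₁ * ε := by
      have : (n : ℝ) * (ε / 2) ≤ n₁ * (ε / 2) := mul_le_mul_of_nonneg_right h5 (by positivity)
      have h8 : 0 ≤ (n₁ : ℝ) * ε := by positivity
      linarith
    linarith
  have hT1 : ∑ n ∈ Finset.range n₁, po l n ≤ 1 :=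
    sum_le_hasSum _ (fun n _ => hpo n) (po_sum l)
  rw [← Finset.sum_mul] at h4
  have h5 : (∑ n ∈ Finset.range n₁, po l n) * (n₁ * ε) ≤ 1 * (n₁ * ε) :=
    mul_le_mul_of_nonneg_right hT1 (by positivity)
  linarith

end

/-- The law of the ordered cycle lengths at time `t + s` given the permutation at time `t`. -/
theorem que (hK : S_KPT) (d : ℕ) (hd : 3 ≤ d) : ∃ m₀ : ℕ, ∀ (m : ℕ) (f : (Fin m → ℝ) → ℝ),
    Continuous f → ∀ C : ℝ, (∀ u, |f u| ≤ C) → ∀ η : ℝ, 0 < η → ∃ (K : ℝ) (L₀ : ℕ), 0 < K ∧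
    ∀ (L : ℕ) [NeZero L], L₀ ≤ L → ∀ t : ℝ, (Real.log L) ^ m₀ ≤ t →
    ∀ s : ℝ, K ≤ s * (L : ℝ) ^ d →
    stirExp (nnRate d L) t (fun g => |fut (nnRate d L) s
      (fun g => f (fun i => top (frac g) i)) g - pdm f|) ≤ η := by
  classical
  obtain ⟨m₁, hdec⟩ := dec hK d hd
  obtain ⟨C', hC'0, hdist⟩ := Pool.Agent.Y998.LQ.t_dist d (by omega)
  refine ⟨m₁ + 1, fun m f hfc C hC η hη => ?_⟩
  have hd0 : (0 : ℝ) < d := by exact_mod_cast (by omega : 0 < d)
  have hC0 : 0 ≤ C := (abs_nonneg _).trans (hC (fun _ => 0))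
  have hC1 : 0 < C + 1 := by linarith
  obtain ⟨η', hη'⟩ : ∃ η' : ℝ, η' = η ^ 2 / (16 * (C + 1)) := ⟨_, rfl⟩
  have hη'0 : 0 < η' := by rw [hη']; positivity
  obtain ⟨K, L₁, hK0, hdec⟩ := hdec m f hfc C hC η' hη'0
  obtain ⟨l, hl⟩ : ∃ l : ℝ, l = 2 * d * K := ⟨_, rfl⟩
  have hl0 : 0 < l := by rw [hl]; positivity
  obtain ⟨n₁, hn₁⟩ := po_tail (l := l) (η ^ 2 / (64 * (C + 1) ^ 2)) (by positivity)
  obtain ⟨ε₀, hε₀⟩ : ∃ ε₀ : ℝ, ε₀ = η ^ 2 / (32 * (C + 1) ^ 2 * (n₁ + 1)) := ⟨_, rfl⟩
  have hε0 : 0 < ε₀ := by rw [hε₀]; positivity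
  obtain ⟨B, hB⟩ : ∃ B : ℝ, B = C' * (2 * d) / ε₀ := ⟨_, rfl⟩
  have hB0 : 0 ≤ B := by rw [hB]; positivity
  refine ⟨K, max L₁ (max 3 ⌈Real.exp (B ^ 2)⌉₊), hK0, fun L _ hL t ht s hs => ?_⟩
  have hL1 : L₁ ≤ L := (le_max_left _ _).trans hL
  have hL3 : 3 ≤ L := (le_max_left _ _).trans ((le_max_right _ _).trans hL)
  have hL4 : ⌈Real.exp (B ^ 2)⌉₊ ≤ L := (le_max_right _ _).trans ((le_max_right _ _).trans hL)
  have hL0 : (0 : ℝ) < L := by exact_mod_cast (by omega : 0 < L)
  have hlog : 1 ≤ Real.log L := log_ge L hL3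
  have hlogB : B ^ 2 ≤ Real.log L := by
    rw [Real.le_log_iff_exp_le hL0]
    exact (Nat.le_ceil _).trans (by exact_mod_cast hL4)
  have hLd : (0 : ℝ) < (L : ℝ) ^ d := by positivity
  obtain ⟨J, hJdef⟩ : ∃ J, J = nnRate d L := ⟨_, rfl⟩
  have hJ : ∀ x y, 0 ≤ J x y := by rw [hJdef]; exact nn_nonneg
  have hR : totalRate J = d * (L : ℝ) ^ d := by rw [hJdef]; exact tr_nn d L hL3
  have hR0 : 0 < totalRate J := by rw [hR]; positivity
  obtain ⟨a, ha⟩ : ∃ a : ℝ, a = K / (L : ℝ) ^ d := ⟨_, rfl⟩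
  have ha0 : 0 ≤ a := by rw [ha]; positivity
  have haK : a * (L : ℝ) ^ d = K := by rw [ha]; field_simp
  have has : a ≤ s := by rw [ha, div_le_iff₀ hLd]; exact hs
  obtain ⟨F, hF⟩ : ∃ F : Perm (Fin d → ZMod L) → ℝ, F = fun g => f (fun i => top (frac g) i) :=
    ⟨_, rfl⟩
  have hFC : ∀ g, |F g| ≤ C := fun g => by rw [hF]; exact hC _
  obtain ⟨c, hc⟩ : ∃ c : ℝ, c = pdm f := ⟨_, rfl⟩
  -- facts for all times
  have main : ∀ t : ℝ, (Real.log L) ^ (m₁ + 1) ≤ t →
      stirExp J t (fun g => (fut J a F g - c) ^ 2) ≤ η ^ 2 := by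
    intro t ht
    have ht1 : Real.log L ≤ t := by
      refine le_trans ?_ ht
      exact le_self_pow₀ hlog (by omega)
    have ht2 : (Real.log L) ^ m₁ ≤ t := (pow_le_pow_right₀ hlog (by omega)).trans ht
    have ht0 : 0 < t := by linarith
    have hst : 0 < Real.sqrt t := Real.sqrt_pos.2 ht0
    have hBt : B ≤ Real.sqrt t := Real.le_sqrt_of_sq_le (hlogB.trans ht1)
    have hns : ∀ x y, J x y ≠ 0 → NN J t (swap x y) ≤ ε₀ := by
      intro x y hxy
      rw [hJdef]
      refine (hdist L hL3 t ht0 x y).trans ?_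
      rw [hJdef] at hxy
      have h2 : (tdist x y : ℝ) ≤ 2 * d := by
        have := tdist_nn hL3 x y hxy
        have h3 : (tdist x y : ℝ) ≤ ((d * 2 : ℕ) : ℝ) := by exact_mod_cast this
        push_cast at h3
        linarith
      rw [div_le_iff₀ hst]
      have h3 : C' * (2 * d) / ε₀ ≤ Real.sqrt t := by
        rw [← hB]
        exact hBt
      rw [div_le_iff₀ hε0] at h3
      nlinarith [mul_le_mul_of_nonneg_left h2 hC'0.le]
    -- one time
    have hone : ∀ u : ℝ, 0 ≤ u → |stirExp J (t + u) F - c| ≤ η' := by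
      intro u hu
      have h1 := hdec L hL1 (t + u) (by linarith) a haK.ge (fun _ => 1) (by simp)
      have h2 : ∀ (v : ℝ) (g : Perm (Fin d → ZMod L)),
          fut (nnRate d L) v (fun _ => 1) g = 1 := by
        intro v g
        unfold fut
        simp only [mul_one]
        exact Pool.Agent.Y998.CN.law_sum _ _
      have h3 : stirExp (nnRate d L) (t + u + a) (fun _ => 1) = 1 := by
        rw [fut_one, h2]
      simp only [h2, mul_one, h3] at h1
      rw [hJdef, hF, hc]
      exact h1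
    -- two times
    have htwo : |stirExp J t (fun g => F g * fut J (a + a) F g) - c * stirExp J (t + (a + a)) F| ≤
        (C + 1) * η' := by
      have h1 := hdec L hL1 t ht2 (a + a) (by nlinarith) (fun g => F g / (C + 1)) (fun g => by
        rw [abs_div, abs_of_pos hC1, div_le_one hC1]
        linarith [hFC g])
      have h2 : ∀ g, fut (nnRate d L) (a + a) (fun g => F g / (C + 1)) g =
          fut J (a + a) F g / (C + 1) := by
        intro g
        rw [hJdef]
        unfold fut
        rw [Finset.sum_div]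
        exact Finset.sum_congr rfl fun h _ => by ring
      have h3 : stirExp (nnRate d L) (t + (a + a)) (fun g => F g / (C + 1)) =
          stirExp J (t + (a + a)) F / (C + 1) := by
        rw [hJdef]
        unfold stirExp
        rw [Finset.sum_div]
        exact Finset.sum_congr rfl fun h _ => by ring
      have h4 : stirExp (nnRate d L) t (fun g => f (fun i => top (frac g) i) *
          fut (nnRate d L) (a + a) (fun g => F g / (C + 1)) g) =
          stirExp J t (fun g => F g * fut J (a + a) F g) / (C + 1) := by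
        simp only [h2]
        unfold stirExp
        rw [Finset.sum_div, hJdef, hF]
        exact Finset.sum_congr rfl fun h _ => by ring
      rw [h4, h3, ← hc] at h1
      have h5 : stirExp J t (fun g => F g * fut J (a + a) F g) / (C + 1) -
          c * (stirExp J (t + (a + a)) F / (C + 1)) =
          (stirExp J t (fun g => F g * fut J (a + a) F g) -
            c * stirExp J (t + (a + a)) F) / (C + 1) := by ring
      rw [h5, abs_div, abs_of_pos hC1, div_le_iff₀ hC1] at h1
      linarith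
    -- reversibility
    have hself := fut_self J hJ a ha0 t F (fut J a F) C hFC (fut_abs hJ ha0 F C hFC)
    have hNN := fut_NN hJ hR0 l hl0 a (by rw [hR, hl]; nlinarith) t ht0.le ε₀ hε0.le hns n₁
    have hfa : ∀ g, fut J a (fut J a F) g = fut J (a + a) F g := fun g => (fut_add J a a F g).symm
    simp only [hfa] at hself
    have hcC : |c| ≤ C + η' := by
      have h1 := hone 0 le_rfl
      have h2 : |stirExp J (t + 0) F| ≤ C := by
        rw [fut_one]
        exact fut_abs hJ (by linarith) F C hFC 1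
      rw [abs_le] at h1 h2 ⊢
      constructor <;> linarith [h1.1, h1.2, h2.1, h2.2]
    have hcC' : |c| ≤ C := by
      rw [hc]
      have h1 := Pool.Agent.TH268.PD.Unif.lim_um pdl hfc hC
      refine le_of_tendsto' h1.abs fun k => ?_
      exact mn_abs k _ C (fun π => hC _)
    -- expand
    have hexp : stirExp J t (fun g => (fut J a F g - c) ^ 2) =
        stirExp J t (fun g => fut J a F g * fut J a F g) - 2 * c * stirExp J (t + a) F + c ^ 2 := by
      have h1 : stirExp J (t + a) F = ∑ g, stirLaw J t g * fut J a F g := by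
        rw [add_comm, fut_one, fut_add, ← fut_one]
        rfl
      have h2 : c ^ 2 = ∑ g, stirLaw J t g * c ^ 2 := by
        rw [← Finset.sum_mul, Pool.Agent.Y998.CN.law_sum, one_mul]
      rw [h1, h2]
      unfold stirExp
      rw [Finset.mul_sum, ← Finset.sum_sub_distrib, ← Finset.sum_add_distrib]
      exact Finset.sum_congr rfl fun g _ => by ring
    have h1 := hone a ha0
    have h2 := hone (a + a) (by linarith)
    have hC2 : C ^ 2 * fut J a (NN J t) 1 ≤ η ^ 2 / 16 := by
      have e1 : n₁ * ε₀ ≤ η ^ 2 / (32 * (C + 1) ^ 2) := by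
        have e : (n₁ : ℝ) * ε₀ = (n₁ * η ^ 2) / (32 * (C + 1) ^ 2 * (n₁ + 1)) := by
          rw [hε₀]
          ring
        rw [e, div_le_div_iff₀ (by positivity) (by positivity)]
        nlinarith [mul_nonneg (sq_nonneg η) (sq_nonneg (C + 1))]
      have e2 : 2 * (1 - ∑ n ∈ Finset.range n₁, po l n) ≤ η ^ 2 / (32 * (C + 1) ^ 2) := by
        have e : η ^ 2 / (32 * (C + 1) ^ 2) = 2 * (η ^ 2 / (64 * (C + 1) ^ 2)) := by
          field_simp
          norm_num
        rw [e]
        linarith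
      have e3 : fut J a (NN J t) 1 ≤ η ^ 2 / (16 * (C + 1) ^ 2) := by
        have e : η ^ 2 / (16 * (C + 1) ^ 2) =
            η ^ 2 / (32 * (C + 1) ^ 2) + η ^ 2 / (32 * (C + 1) ^ 2) := by
          field_simp
          norm_num
        rw [e]
        linarith
      calc C ^ 2 * fut J a (NN J t) 1 ≤ (C + 1) ^ 2 * (η ^ 2 / (16 * (C + 1) ^ 2)) := by
            refine mul_le_mul (by nlinarith) e3 ?_ (by positivity)
            unfold fut
            exact Finset.sum_nonneg fun h _ => mul_nonneg (law_nonneg hJ ha0 h)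
              (NN_nonneg J t _)
        _ = η ^ 2 / 16 := by field_simp
    have hηη : (C + 1) * η' = η ^ 2 / 16 := by
      rw [hη']
      field_simp
    have hcη : ∀ x : ℝ, |x| ≤ η' → |c * x| ≤ η ^ 2 / 16 := by
      intro x hx
      rw [abs_mul, ← hηη]
      exact mul_le_mul (by linarith) hx (abs_nonneg _) hC1.le
    have h3 := hcη _ h1
    have h4 := hcη _ h2
    rw [mul_sub] at h3 h4
    have hself' : |stirExp J t (fun g => F g * fut J (a + a) F g) -
        stirExp J t (fun g => fut J a F g * fut J a F g)| ≤ η ^ 2 / 16 := by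
      unfold stirExp
      exact hself.trans hC2
    rw [hexp]
    rw [hηη] at htwo
    rw [abs_le] at h3 h4 htwo hself'
    nlinarith [h3.1, h3.2, h4.1, h4.2, htwo.1, htwo.2, hself'.1, hself'.2, sq_nonneg η]
  -- conclusion
  have ht0 : 0 ≤ t := le_trans (by positivity) ht
  have h1 := main (t + (s - a)) (by linarith)
  have hX : stirExp J (t + (s - a)) (fun g => |fut J a F g - c|) ≤ η := by
    have h2 : ∀ g, |fut J a F g - c| ≤ η / 2 + (fut J a F g - c) ^ 2 / (2 * η) := by
      intro g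
      obtain ⟨z, hz⟩ : ∃ z : ℝ, z = |fut J a F g - c| := ⟨_, rfl⟩
      rw [← sq_abs (fut J a F g - c), ← hz]
      have h2 : 0 ≤ (z - η) ^ 2 / (2 * η) := by positivity
      have h3 : (z - η) ^ 2 / (2 * η) = η / 2 + z ^ 2 / (2 * η) - z := by
        field_simp
        ring
      linarith
    have h3 : stirExp J (t + (s - a)) (fun g => |fut J a F g - c|) ≤
        ∑ g, stirLaw J (t + (s - a)) g * (η / 2 + (fut J a F g - c) ^ 2 / (2 * η)) :=
      Finset.sum_le_sum fun g _ => mul_le_mul_of_nonneg_left (h2 g)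
        (law_nonneg hJ (by linarith) g)
    refine h3.trans ?_
    have h4 : ∑ g, stirLaw J (t + (s - a)) g * (η / 2 + (fut J a F g - c) ^ 2 / (2 * η)) =
        η / 2 + stirExp J (t + (s - a)) (fun g => (fut J a F g - c) ^ 2) / (2 * η) := by
      simp only [mul_add, Finset.sum_add_distrib]
      rw [← Finset.sum_mul, Pool.Agent.Y998.CN.law_sum, one_mul]
      congr 1
      unfold stirExp
      rw [Finset.sum_div]
      exact Finset.sum_congr rfl fun g _ => by ring
    rw [h4]
    have h5 : stirExp J (t + (s - a)) (fun g => (fut J a F g - c) ^ 2) / (2 * η) ≤ η / 2 := by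
      rw [div_le_iff₀ (by positivity)]
      nlinarith
    linarith
  have h2 : ∀ g, |fut J s F g - c| ≤ fut J (s - a) (fun g => |fut J a F g - c|) g := by
    intro g
    have e1 : fut J s F g = fut J (s - a) (fut J a F) g := by
      have := fut_add J a (s - a) F g
      rwa [add_sub_cancel] at this
    have e2 : c = ∑ h, stirLaw J (s - a) h * c := by
      rw [← Finset.sum_mul, Pool.Agent.Y998.CN.law_sum, one_mul]
    rw [e1]
    nth_rw 1 [e2]
    unfold fut
    rw [← Finset.sum_sub_distrib]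
    refine (Finset.abs_sum_le_sum_abs _ _).trans (Finset.sum_le_sum fun h _ => ?_)
    rw [← mul_sub, abs_mul, abs_of_nonneg (law_nonneg hJ (by linarith) h)]
  have h3 : stirExp J t (fun g => |fut J s F g - c|) ≤
      stirExp J t (fut J (s - a) (fun g => |fut J a F g - c|)) :=
    Finset.sum_le_sum fun g _ => mul_le_mul_of_nonneg_left (h2 g) (law_nonneg hJ ht0 g)
  have h4 : stirExp J t (fut J (s - a) (fun g => |fut J a F g - c|)) =
      stirExp J (t + (s - a)) (fun g => |fut J a F g - c|) := by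
    rw [add_comm, fut_one J (s - a + t), fut_add, ← fut_one]
  rw [h4] at h3
  have h5 := h3.trans hX
  rw [hJdef, hF, hc] at h5
  exact h5

end Run7.h565.SM
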