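import Pool.Agent.Run7.h565.SM.PtsD
import Pool.Agent.Run7.h565.SM.Que

/-!
# Project SM: the observables of `k` points given the past and the future
-/

set_option autoImplicit false

namespace Run7.h565.SM

open Finset Equiv
open Pool.Agent.TH268.PD (ret ret_spec)
open Pool.Agent.Y998.LP (NN tdist)
open Pool.Agent.Y998.ST (stirExp stirLaw nnRate law_nonneg nn_nonneg totalRate nn_row)
open Run7.h565.LC (S_KPT)

section

variable {V : Type} [Fintype V] [DecidableEq V]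

theorem e1_mul {J : V → V → ℝ} (hJ : ∀ x y, 0 ≤ J x y) (hR : 0 < totalRate J)
    (μ : Perm V → ℝ) (hμ : ∀ g, 0 ≤ μ g) (A B : Perm V → ℝ) (hA : ∀ g, |A g| ≤ 1)
    (hB : ∀ g, |B g| ≤ 1) : e1 J μ (fun g => A g * B g) ≤ e1 J μ A + e1 J μ B := by
  unfold e1
  rw [← Finset.sum_add_distrib]
  refine Finset.sum_le_sum fun g _ => ?_
  rw [← mul_add]
  refine mul_le_mul_of_nonneg_left ?_ (hμ g)
  rw [← add_div]
  refine div_le_div_of_nonneg_right ?_ hR.le
  rw [← Finset.sum_add_distrib]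
  refine Finset.sum_le_sum fun x _ => ?_
  rw [← Finset.sum_add_distrib]
  refine Finset.sum_le_sum fun y _ => ?_
  rw [← mul_add]
  refine mul_le_mul_of_nonneg_left ?_ (div_nonneg (hJ x y) two_pos.le)
  have e : A (swap x y * g) * B (swap x y * g) - A g * B g =
      (A (swap x y * g) - A g) * B (swap x y * g) + A g * (B (swap x y * g) - B g) := by ring
  rw [e]
  refine (abs_add_le _ _).trans ?_
  rw [abs_mul, abs_mul]
  have h1 : |A (swap x y * g) - A g| * |B (swap x y * g)| ≤ |A (swap x y * g) - A g| * 1 :=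
    mul_le_mul_of_nonneg_left (hB _) (abs_nonneg _)
  have h2 : |A g| * |B (swap x y * g) - B g| ≤ 1 * |B (swap x y * g) - B g| :=
    mul_le_mul_of_nonneg_right (hA _) (abs_nonneg _)
  linarith

theorem fut_const {J : V → V → ℝ} (s c : ℝ) (g : Perm V) : fut J s (fun _ => c) g = c := by
  unfold fut
  rw [← Finset.sum_mul, Pool.Agent.Y998.CN.law_sum, one_mul]

theorem fut_le {J : V → V → ℝ} (hJ : ∀ x y, 0 ≤ J x y) {s : ℝ} (hs : 0 ≤ s)
    (A B : Perm V → ℝ) (h : ∀ g, A g ≤ B g) (g : Perm V) : fut J s A g ≤ fut J s B g :=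
  Finset.sum_le_sum fun k _ => mul_le_mul_of_nonneg_left (h _) (law_nonneg hJ hs k)

theorem fut_abs_le {J : V → V → ℝ} (hJ : ∀ x y, 0 ≤ J x y) {s : ℝ} (hs : 0 ≤ s)
    (A : Perm V → ℝ) (g : Perm V) : |fut J s A g| ≤ fut J s (fun g => |A g|) g := by
  unfold fut
  refine (Finset.abs_sum_le_sum_abs _ _).trans (Finset.sum_le_sum fun k _ => ?_)
  rw [abs_mul, abs_of_nonneg (law_nonneg hJ hs k)]

theorem se_fut (J : V → V → ℝ) (t s : ℝ) (A : Perm V → ℝ) :
    stirExp J t (fut J s A) = stirExp J (t + s) A := by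
  rw [add_comm, fut_one J (s + t), fut_add, ← fut_one]

end

/-- nearest neighbour stirring: near invariance under single transpositions -/
theorem nn_inv (d : ℕ) (hd : 2 ≤ d) (ε : ℝ) (hε : 0 < ε) : ∃ L₀ : ℕ, 3 ≤ L₀ ∧
    ∀ (L : ℕ) [NeZero L], L₀ ≤ L → ∀ t : ℝ, Real.log L ≤ t →
    ∀ x y, nnRate d L x y ≠ 0 → NN (nnRate d L) t (swap x y) ≤ ε := by
  obtain ⟨C', hC'0, hdist⟩ := Pool.Agent.Y998.LQ.t_dist d (by omega)
  obtain ⟨B, hB⟩ : ∃ B : ℝ, B = C' * (2 * d) / ε := ⟨_, rfl⟩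
  have hB0 : 0 ≤ B := by rw [hB]; positivity
  refine ⟨max 3 ⌈Real.exp (B ^ 2)⌉₊, le_max_left _ _, fun L _ hL t ht x y hxy => ?_⟩
  have hL3 : 3 ≤ L := (le_max_left _ _).trans hL
  have hL4 : ⌈Real.exp (B ^ 2)⌉₊ ≤ L := (le_max_right _ _).trans hL
  have hL0 : (0 : ℝ) < L := by exact_mod_cast (by omega : 0 < L)
  have hlog : 1 ≤ Real.log L := log_ge L hL3
  have hlogB : B ^ 2 ≤ Real.log L := by
    rw [Real.le_log_iff_exp_le hL0]
    exact (Nat.le_ceil _).trans (by exact_mod_cast hL4)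
  have ht0 : 0 < t := by linarith
  have hst : 0 < Real.sqrt t := Real.sqrt_pos.2 ht0
  have hBt : B ≤ Real.sqrt t := Real.le_sqrt_of_sq_le (hlogB.trans ht)
  refine (hdist L hL3 t ht0 x y).trans ?_
  have h2 : (tdist x y : ℝ) ≤ 2 * d := by
    have := tdist_nn hL3 x y hxy
    have h3 : (tdist x y : ℝ) ≤ ((d * 2 : ℕ) : ℝ) := by exact_mod_cast this
    push_cast at h3
    linarith
  rw [div_le_iff₀ hst]
  have h3 : C' * (2 * d) / ε ≤ Real.sqrt t := by
    rw [← hB]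
    exact hBt
  rw [div_le_iff₀ hε] at h3
  nlinarith [mul_le_mul_of_nonneg_left h2 hC'0.le]

/-- functions of the future have small energy -/
theorem fut_en (d : ℕ) (hd : 2 ≤ d) (κ : ℝ) (hκ : 0 < κ) : ∃ (K : ℝ) (L₀ : ℕ), 0 < K ∧ 3 ≤ L₀ ∧
    ∀ (L : ℕ) [NeZero L], L₀ ≤ L → ∀ t : ℝ, Real.log L ≤ t → ∀ s : ℝ, K ≤ s * (L : ℝ) ^ d →
    ∀ G : Perm (Fin d → ZMod L) → ℝ, (∀ g, |G g| ≤ 1) →
    e1 (nnRate d L) (fun g => stirLaw (nnRate d L) t g) (fut (nnRate d L) s G) ≤ κ := by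
  obtain ⟨l, ε₀, hl, hε₀, hen⟩ := energy κ hκ
  obtain ⟨L₀, hL₀, hns⟩ := nn_inv d hd ε₀ hε₀
  have hd0 : (0 : ℝ) < d := by exact_mod_cast (by omega : 0 < d)
  refine ⟨l / (2 * d), L₀, by positivity, hL₀, fun L _ hL t ht s hs G hG => ?_⟩
  have hL3 : 3 ≤ L := hL₀.trans hL
  have hL0 : (0 : ℝ) < L := by exact_mod_cast (by omega : 0 < L)
  have hLd : (0 : ℝ) < (L : ℝ) ^ d := by positivity
  have hlog : 1 ≤ Real.log L := log_ge L hL3
  have ht0 : 0 < t := by linarith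
  obtain ⟨J, hJdef⟩ : ∃ J, J = nnRate d L := ⟨_, rfl⟩
  have hJ : ∀ x y, 0 ≤ J x y := by rw [hJdef]; exact nn_nonneg
  have hR : totalRate J = d * (L : ℝ) ^ d := by rw [hJdef]; exact tr_nn d L hL3
  have hR0 : 0 < totalRate J := by rw [hR]; positivity
  obtain ⟨a, ha⟩ : ∃ a : ℝ, a = l / (2 * d) / (L : ℝ) ^ d := ⟨_, rfl⟩
  have ha0 : 0 ≤ a := by rw [ha]; positivity
  have has : a ≤ s := by rw [ha, div_le_iff₀ hLd]; exact hs
  rw [← hJdef]
  have h1 : fut J s G = fun g => ∑ h, stirLaw J a h * fut J (s - a) G (h * g) := by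
    funext g
    have h2 := fut_add J (s - a) a G g
    rw [sub_add_cancel] at h2
    rw [h2]
    rfl
  rw [h1]
  refine hen (Fin d → ZMod L) J hJ hR0 (fun g => stirLaw J t g) (law_nonneg hJ ht0.le)
    (Pool.Agent.Y998.CN.law_sum _ _) (fun x y hxy => ?_) a ?_ (fut J (s - a) G)
    (fut_abs hJ (by linarith) G 1 hG)
  · have h2 : ∑ g, |stirLaw J t (swap x y * g) - stirLaw J t g| = NN J t (swap x y) := by
      unfold NN
      rw [swap_inv]
    rw [h2, hJdef]
    rw [hJdef] at hxy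
    exact hns L hL t ht x y hxy
  · rw [hR, ha]
    field_simp

/-- The observables of `k` points at a time are asymptotically independent of the past and of the
future of the process. -/
theorem que_obs (hK : S_KPT) (d : ℕ) (hd : 3 ≤ d) : ∃ m₀ : ℕ, ∀ (k M : ℕ) (D : Fin M → Ds k)
    (F : (Fin M → ℝ) → ℝ), Continuous F → (∀ u, |F u| ≤ 1) → ∀ η : ℝ, 0 < η →
    ∃ (c K : ℝ) (L₀ : ℕ), |c| ≤ 1 ∧ 0 < K ∧
    (∀ (L : ℕ) [NeZero L], L₀ ≤ L → ∀ t : ℝ, (Real.log L) ^ m₀ ≤ t →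
      ∀ s s' : ℝ, K ≤ s * (L : ℝ) ^ d → K ≤ s' * (L : ℝ) ^ d →
      ∀ b : Fin k ↪ (Fin d → ZMod L), ∀ G : Perm (Fin d → ZMod L) → ℝ, (∀ g, |G g| ≤ 1) →
      stirExp (nnRate d L) t (fun g => |fut (nnRate d L) s
        (fun h => (F (fun a => (D a).val b h) - c) * fut (nnRate d L) s' G h) g|) ≤ η) ∧
    (∀ (W : Type) [Fintype W] [DecidableEq W], L₀ ≤ Fintype.card W → ∀ b : Fin k ↪ W,
      |um (fun g => F (fun a => (D a).val b g)) - c| ≤ η) := by
  classical
  obtain ⟨m₁, hdec⟩ := dec_e hK d hd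
  refine ⟨m₁ + 1, fun k M D f hfc hf1 η₁ hη₁ => ?_⟩
  have hd0 : (0 : ℝ) < d := by exact_mod_cast (by omega : 0 < d)
  -- may assume `η ≤ 1`
  obtain ⟨η, hη, hηη₁, hη1⟩ : ∃ η : ℝ, 0 < η ∧ η ≤ η₁ ∧ η ≤ 1 :=
    ⟨min η₁ 1, lt_min hη₁ one_pos, min_le_left _ _, min_le_right _ _⟩
  obtain ⟨η', hη'⟩ : ∃ η' : ℝ, η' = η ^ 2 / 16 := ⟨_, rfl⟩
  have hη'0 : 0 < η' := by rw [hη']; positivity
  obtain ⟨c, κ, L₁, hc1, hκ0, hdec, hum⟩ := hdec k M D f hfc hf1 η' hη'0
  obtain ⟨K, L₂, hK0, hL₂3, hen⟩ := fut_en d (by omega) (κ / 2) (by positivity)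
  obtain ⟨l, hl⟩ : ∃ l : ℝ, l = 2 * d * K := ⟨_, rfl⟩
  have hl0 : 0 < l := by rw [hl]; positivity
  obtain ⟨n₁, hn₁⟩ := po_tail (l := l) (η ^ 2 / 64) (by positivity)
  obtain ⟨ε₀, hε₀⟩ : ∃ ε₀ : ℝ, ε₀ = η ^ 2 / (32 * (n₁ + 1)) := ⟨_, rfl⟩
  have hε0 : 0 < ε₀ := by rw [hε₀]; positivity
  obtain ⟨L₃, hL₃3, hns⟩ := nn_inv d (by omega) ε₀ hε0
  refine ⟨c, K, max L₁ (max L₂ L₃), hc1, hK0, fun L _ hL t ht s s' hs hs' b G hG => ?_,
    fun W _ _ hW b => (hum W ((le_max_left _ _).trans hW) b).trans ?_⟩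
  swap
  · rw [hη']
    nlinarith
  have hL1 : L₁ ≤ L := (le_max_left _ _).trans hL
  have hL2 : L₂ ≤ L := (le_max_left _ _).trans ((le_max_right _ _).trans hL)
  have hL3' : L₃ ≤ L := (le_max_right _ _).trans ((le_max_right _ _).trans hL)
  have hL3 : 3 ≤ L := hL₂3.trans hL2
  have hL0 : (0 : ℝ) < L := by exact_mod_cast (by omega : 0 < L)
  have hlog : 1 ≤ Real.log L := log_ge L hL3
  have hLd : (0 : ℝ) < (L : ℝ) ^ d := by positivity
  obtain ⟨J, hJdef⟩ : ∃ J, J = nnRate d L := ⟨_, rfl⟩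
  have hJ : ∀ x y, 0 ≤ J x y := by rw [hJdef]; exact nn_nonneg
  have hR : totalRate J = d * (L : ℝ) ^ d := by rw [hJdef]; exact tr_nn d L hL3
  have hR0 : 0 < totalRate J := by rw [hR]; positivity
  obtain ⟨a, ha⟩ : ∃ a : ℝ, a = K / (L : ℝ) ^ d := ⟨_, rfl⟩
  have ha0 : 0 ≤ a := by rw [ha]; positivity
  have haK : a * (L : ℝ) ^ d = K := by rw [ha]; field_simp
  have has : a ≤ s := by rw [ha, div_le_iff₀ hLd]; exact hs
  have hs'0 : 0 ≤ s' := by
    by_contra hc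
    push Not at hc
    nlinarith
  obtain ⟨F, hF⟩ : ∃ F : Perm (Fin d → ZMod L) → ℝ, F = fun g => f (fun a => (D a).val b g) :=
    ⟨_, rfl⟩
  have hF1 : ∀ g, |F g| ≤ 1 := fun g => by rw [hF]; exact hf1 _
  obtain ⟨Γ, hΓ⟩ : ∃ Γ : Perm (Fin d → ZMod L) → ℝ, Γ = fut J s' G := ⟨_, rfl⟩
  have hΓ1 : ∀ g, |Γ g| ≤ 1 := fun g => by rw [hΓ]; exact fut_abs hJ hs'0 G 1 hG g
  obtain ⟨A, hA⟩ : ∃ A : Perm (Fin d → ZMod L) → ℝ, A = fun g => (F g - c) * Γ g / 2 := ⟨_, rfl⟩
  have hA1 : ∀ g, |A g| ≤ 1 := by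
    intro g
    rw [hA]
    beta_reduce
    rw [abs_div, abs_mul, abs_of_pos (by norm_num : (0 : ℝ) < 2), div_le_one (by norm_num)]
    have h1 : |F g - c| ≤ 2 := by
      have h2 := hF1 g
      rw [abs_le] at h2 hc1 ⊢
      constructor <;> linarith [h2.1, h2.2, hc1.1, hc1.2]
    calc |F g - c| * |Γ g| ≤ 2 * 1 := mul_le_mul h1 (hΓ1 g) (abs_nonneg _) (by norm_num)
      _ = 2 := by norm_num
  -- facts for all times
  have main : ∀ t : ℝ, (Real.log L) ^ (m₁ + 1) ≤ t →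
      stirExp J t (fun g => (fut J a A g) ^ 2) ≤ η ^ 2 / 4 := by
    intro t ht
    have ht1 : Real.log L ≤ t := by
      refine le_trans ?_ ht
      exact le_self_pow₀ hlog (by omega)
    have ht2 : (Real.log L) ^ m₁ ≤ t := (pow_le_pow_right₀ hlog (by omega)).trans ht
    have ht0 : 0 < t := by linarith
    obtain ⟨H, hH⟩ : ∃ H : Perm (Fin d → ZMod L) → ℝ, H = fun g => Γ g * fut J (a + a) A g :=
      ⟨_, rfl⟩
    have haa1 : ∀ g, |fut J (a + a) A g| ≤ 1 := fut_abs hJ (by linarith) A 1 hA1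
    have hH1 : ∀ g, |H g| ≤ 1 := by
      intro g
      rw [hH]
      beta_reduce
      rw [abs_mul]
      calc |Γ g| * |fut J (a + a) A g| ≤ 1 * 1 :=
            mul_le_mul (hΓ1 g) (haa1 g) (abs_nonneg _) zero_le_one
        _ = 1 := one_mul _
    have hHe : e1 J (fun g => stirLaw J t g) H ≤ κ := by
      rw [hH]
      refine (e1_mul hJ hR0 _ (law_nonneg hJ ht0.le) _ _ hΓ1 haa1).trans ?_
      have h1 := hen L hL2 t ht1 s' hs' G hG
      have h2 := hen L hL2 t ht1 (a + a) (by nlinarith) A hA1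
      rw [← hJdef] at h1 h2
      rw [hΓ]
      linarith
    -- two times
    have htwo : |stirExp J t (fun g => A g * fut J (a + a) A g)| ≤ η' := by
      have h1 := hdec L hL1 t ht2 b H hH1 (by rw [← hJdef]; exact hHe)
      rw [← hJdef] at h1
      have h2 : stirExp J t (fun g => A g * fut J (a + a) A g) =
          (stirExp J t (fun g => f (fun a => (D a).val b g) * H g) - c * stirExp J t H) / 2 := by
        unfold stirExp
        rw [Finset.mul_sum, ← Finset.sum_sub_distrib, Finset.sum_div]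
        refine Finset.sum_congr rfl fun g _ => ?_
        rw [hH, hA, hF]
        ring
      rw [h2, abs_div, abs_of_pos (by norm_num : (0 : ℝ) < 2), div_le_iff₀ (by norm_num)]
      linarith
    -- reversibility
    have hself := fut_self J hJ a ha0 t A (fut J a A) 1 hA1 (fut_abs hJ ha0 A 1 hA1)
    have hNN := fut_NN hJ hR0 l hl0 a (by rw [hR, hl]; nlinarith) t ht0.le ε₀ hε0.le
      (fun x y hxy => by
        rw [hJdef] at hxy ⊢
        exact hns L hL3' t ht1 x y hxy) n₁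
    have hfa : ∀ g, fut J a (fut J a A) g = fut J (a + a) A g := fun g => (fut_add J a a A g).symm
    simp only [hfa] at hself
    have hexp : stirExp J t (fun g => (fut J a A g) ^ 2) =
        ∑ g, stirLaw J t g * (fut J a A g * fut J a A g) := by
      unfold stirExp
      exact Finset.sum_congr rfl fun g _ => by ring
    have hC2 : fut J a (NN J t) 1 ≤ η ^ 2 / 16 := by
      have e1 : n₁ * ε₀ ≤ η ^ 2 / 32 := by
        have e : (n₁ : ℝ) * ε₀ = (n₁ * η ^ 2) / (32 * (n₁ + 1)) := by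
          rw [hε₀]
          ring
        rw [e, div_le_div_iff₀ (by positivity) (by positivity)]
        nlinarith [sq_nonneg η]
      have e2 : 2 * (1 - ∑ n ∈ Finset.range n₁, po l n) ≤ η ^ 2 / 32 := by linarith
      linarith
    rw [hexp]
    rw [hη'] at htwo
    have htwo' : |∑ g, stirLaw J t g * (A g * fut J (a + a) A g)| ≤ η ^ 2 / 16 := htwo
    rw [abs_le] at htwo' hself
    nlinarith [htwo'.1, htwo'.2, hself.1, hself.2, sq_nonneg η]
  -- conclusion
  have ht0 : 0 ≤ t := le_trans (by positivity) ht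
  have h1 := main (t + (s - a)) (by linarith)
  have hX : stirExp J (t + (s - a)) (fun g => |fut J a A g|) ≤ η / 2 := by
    have h2 : ∀ g, |fut J a A g| ≤ η / 4 + (fut J a A g) ^ 2 / η := by
      intro g
      obtain ⟨z, hz⟩ : ∃ z : ℝ, z = |fut J a A g| := ⟨_, rfl⟩
      rw [← sq_abs (fut J a A g), ← hz]
      have h2 : 0 ≤ (z - η / 2) ^ 2 / η := by positivity
      have h3 : (z - η / 2) ^ 2 / η = η / 4 + z ^ 2 / η - z := by
        field_simp
        ring
      linarith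
    have h3 : stirExp J (t + (s - a)) (fun g => |fut J a A g|) ≤
        ∑ g, stirLaw J (t + (s - a)) g * (η / 4 + (fut J a A g) ^ 2 / η) :=
      Finset.sum_le_sum fun g _ => mul_le_mul_of_nonneg_left (h2 g)
        (law_nonneg hJ (by linarith) g)
    refine h3.trans ?_
    have h4 : ∑ g, stirLaw J (t + (s - a)) g * (η / 4 + (fut J a A g) ^ 2 / η) =
        η / 4 + stirExp J (t + (s - a)) (fun g => (fut J a A g) ^ 2) / η := by
      simp only [mul_add, Finset.sum_add_distrib]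
      rw [← Finset.sum_mul, Pool.Agent.Y998.CN.law_sum, one_mul]
      congr 1
      unfold stirExp
      rw [Finset.sum_div]
      exact Finset.sum_congr rfl fun g _ => by ring
    rw [h4]
    have h5 : stirExp J (t + (s - a)) (fun g => (fut J a A g) ^ 2) / η ≤ η / 4 := by
      rw [div_le_iff₀ hη]
      nlinarith
    linarith
  have h2 : ∀ g, |fut J s (fun h => (F h - c) * Γ h) g| ≤
      2 * fut J (s - a) (fun g => |fut J a A g|) g := by
    intro g
    have e0 : fut J s (fun h => (F h - c) * Γ h) g = 2 * fut J s A g := by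
      unfold fut
      rw [Finset.mul_sum, hA]
      exact Finset.sum_congr rfl fun h _ => by ring
    have e1 : fut J s A g = fut J (s - a) (fut J a A) g := by
      have := fut_add J a (s - a) A g
      rwa [add_sub_cancel] at this
    rw [e0, e1, abs_mul, abs_of_pos (by norm_num : (0 : ℝ) < 2)]
    exact mul_le_mul_of_nonneg_left (fut_abs_le hJ (by linarith) _ g) (by norm_num)
  have h3 : stirExp J t (fun g => |fut J s (fun h => (F h - c) * Γ h) g|) ≤
      stirExp J t (fun g => 2 * fut J (s - a) (fun g => |fut J a A g|) g) :=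
    Finset.sum_le_sum fun g _ => mul_le_mul_of_nonneg_left (h2 g) (law_nonneg hJ ht0 g)
  have h4 : stirExp J t (fun g => 2 * fut J (s - a) (fun g => |fut J a A g|) g) =
      2 * stirExp J (t + (s - a)) (fun g => |fut J a A g|) := by
    rw [← se_fut]
    unfold stirExp
    rw [Finset.mul_sum]
    exact Finset.sum_congr rfl fun g _ => by ring
  rw [h4] at h3
  have h5 : stirExp J t (fun g => |fut J s (fun h => (F h - c) * Γ h) g|) ≤ η₁ := by linarith
  rw [hJdef, hF, hΓ, hJdef] at h5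
  exact h5

end Run7.h565.SM
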