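import Pool.Agent.Run7.h565.SM.ArcFin
import Pool.Agent.Run7.h565.SM.QueP

/-!
# Project SM: the arcs between `k` points given the past and the future
-/

set_option autoImplicit false

namespace Run7.h565.SM

open Finset Equiv
open Pool.Agent.TH268.PD (ret ret_spec)
open Pool.Agent.Y998.ST (stirExp stirLaw nnRate law_nonneg nn_nonneg)
open Run7.h565.LC (S_KPT)

open Classical in
/-- the event -/
noncomputable def evA {V : Type} [Fintype V] [DecidableEq V] {k : ℕ} (b : Fin k → V)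
    (π : Perm (Fin k)) (α : Fin k → ℝ) (g : Perm V) : ℝ :=
  if ret k b g = π then
    (if ∀ i, α i < (arcL b g i : ℝ) / Fintype.card V then (1 : ℝ) else 0) else 0

/-- the test function -/
noncomputable def tA {V : Type} [Fintype V] [DecidableEq V] {k : ℕ} (b : Fin k → V) (n₀ : ℕ)
    (π : Perm (Fin k)) (β : Fin k → ℕ) (g : Perm V) : ℝ :=
  if ret k b g = π then tF n₀ β (fun i => (arcL b g i : ℝ) / Fintype.card V) else 0

theorem evA_mem {V : Type} [Fintype V] [DecidableEq V] {k : ℕ} (b : Fin k → V)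
    (π : Perm (Fin k)) (α : Fin k → ℝ) (g : Perm V) : 0 ≤ evA b π α g ∧ evA b π α g ≤ 1 := by
  unfold evA
  split_ifs <;> norm_num

theorem ev_le {V : Type} [Fintype V] [DecidableEq V] {k : ℕ} (b : Fin k ↪ V) (n₀ : ℕ)
    (π : Perm (Fin k)) (β : Fin k → ℕ) (α : Fin k → ℝ) (h : ∀ i, (β i : ℝ) ≤ α i * n₀)
    (g : Perm V) : evA b π α g ≤ tA b n₀ π β g := by
  unfold evA tA
  by_cases h4 : ret k b g = π
  · rw [if_pos h4, if_pos h4]
    exact tF_ge n₀ β _ α h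
  · rw [if_neg h4, if_neg h4]

theorem le_ev {V : Type} [Fintype V] [DecidableEq V] {k : ℕ} (b : Fin k ↪ V) (n₀ : ℕ)
    (hn : 0 < n₀) (π : Perm (Fin k)) (β : Fin k → ℕ) (α : Fin k → ℝ)
    (h : ∀ i, α i * n₀ ≤ max 0 ((β i : ℝ) - 1)) (g : Perm V) :
    tA b n₀ π β g ≤ evA b π α g := by
  unfold evA tA
  by_cases h4 : ret k b g = π
  · rw [if_pos h4, if_pos h4]
    refine tF_le n₀ hn β _ α (fun i => ?_) h
    have h5 := (arcL_spec b.injective g i).1
    have h7 : (0 : ℝ) < arcL b g i := by exact_mod_cast h5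
    have : Nonempty V := ⟨b i⟩
    have h8 : (0 : ℝ) < Fintype.card V := by exact_mod_cast Fintype.card_pos
    positivity
  · rw [if_neg h4, if_neg h4]

/-- approximation of the events by continuous functions of the arcs -/
theorem sand (k : ℕ) (δ : ℝ) (hδ : 0 < δ) : ∃ n₀ : ℕ, 0 < n₀ ∧
    ∀ (c : Perm (Fin k) → (Fin k → Fin (n₀ + 3)) → ℝ) (A : ℕ),
    (∀ π β, ∀ (W : Type) [Fintype W] [DecidableEq W], A ≤ Fintype.card W → ∀ b : Fin k ↪ W,
      |um (tA b n₀ π (fun i => (β i : ℕ))) - c π β| ≤ δ) →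
    ∀ (π : Perm (Fin k)) (α : Fin k → ℝ), (∀ i, 0 ≤ α i) → (∀ i, α i ≤ 1) →
    ∃ β β' : Fin k → Fin (n₀ + 3), |c π β - Ph k (∑ i, α i)| ≤ 3 * δ ∧
      |c π β' - Ph k (∑ i, α i)| ≤ 3 * δ ∧
      ∀ (V : Type) [Fintype V] [DecidableEq V] (b : Fin k ↪ V) (g : Perm V),
        tA b n₀ π (fun i => (β' i : ℕ)) g ≤ evA b π α g ∧
        evA b π α g ≤ tA b n₀ π (fun i => (β i : ℕ)) g := by
  -- the mesh
  obtain ⟨n₁, hn₁⟩ := exists_nat_gt (2 * (k : ℝ) ^ 2 / δ)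
  obtain ⟨n₀, hn₀⟩ : ∃ n₀, n₀ = n₁ + 1 := ⟨_, rfl⟩
  have hn0 : 0 < n₀ := by omega
  have hnR : (0 : ℝ) < n₀ := by exact_mod_cast hn0
  have hmesh : (k : ℝ) * (2 * k / n₀) ≤ δ := by
    have h1 : (n₁ : ℝ) ≤ n₀ := by exact_mod_cast (by omega : n₁ ≤ n₀)
    rw [div_lt_iff₀ hδ] at hn₁
    have e : (k : ℝ) * (2 * k / n₀) = 2 * (k : ℝ) ^ 2 / n₀ := by ring
    rw [e, div_le_iff₀ hnR]
    nlinarith
  refine ⟨n₀, hn0, fun c A₁ hc2 π α hα0 hα1 => ?_⟩
  -- uniform permutations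
  obtain ⟨N₁, hN₁⟩ := exists_nat_gt (2 * (k : ℝ) ^ 2 / δ)
  obtain ⟨N, hN⟩ : ∃ N, N = A₁ + N₁ + k + 1 := ⟨_, rfl⟩
  have hN0 : 0 < N := by omega
  have hNR : (0 : ℝ) < N := by exact_mod_cast hN0
  have hcN : Fintype.card (Fin N) = N := Fintype.card_fin N
  have hNe : 2 * (k : ℝ) ^ 2 / N ≤ δ := by
    have h1 : (N₁ : ℝ) ≤ N := by exact_mod_cast (by omega : N₁ ≤ N)
    rw [div_lt_iff₀ hδ] at hN₁
    rw [div_le_iff₀ hNR]
    nlinarith
  obtain ⟨b₀⟩ : Nonempty (Fin k ↪ Fin N) := ⟨Fin.castLEEmb (by omega)⟩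
  have hcu : ∀ (β : Fin k → Fin (n₀ + 3)) (γ : Fin k → ℝ), (∀ i, 0 ≤ γ i) →
      (∀ i, γ i * n₀ ≤ max 0 (((β i : ℕ) : ℝ) - 1)) → c π β ≤ Ph k (∑ i, γ i) + 2 * δ := by
    intro β γ hγ0 hγ
    have h1 := hc2 π β (Fin N) (by rw [hcN]; omega) b₀
    have h2 := um_arc b₀ (by rw [hcN]; exact hN0) π γ hγ0
    have h3 := um_mono (tA b₀ n₀ π (fun i => (β i : ℕ))) (evA b₀ π γ)
      (le_ev b₀ n₀ hn0 π _ γ hγ)
    rw [hcN] at h2
    have h4 : um (evA b₀ π γ) = um (fun g => if ret k b₀ g = π then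
      (if ∀ i, γ i < (arcL b₀ g i : ℝ) / (N : ℝ) then (1 : ℝ) else 0) else 0) := by
      unfold evA
      rw [hcN]
    rw [← h4] at h2
    rw [abs_le] at h1 h2
    linarith [h1.1, h1.2, h2.1, h2.2]
  have hcl : ∀ (β : Fin k → Fin (n₀ + 3)) (γ : Fin k → ℝ), (∀ i, 0 ≤ γ i) →
      (∀ i, ((β i : ℕ) : ℝ) ≤ γ i * n₀) → Ph k (∑ i, γ i) - 2 * δ ≤ c π β := by
    intro β γ hγ0 hγ
    have h1 := hc2 π β (Fin N) (by rw [hcN]; omega) b₀
    have h2 := um_arc b₀ (by rw [hcN]; exact hN0) π γ hγ0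
    have h3 := um_mono (evA b₀ π γ) (tA b₀ n₀ π (fun i => (β i : ℕ)))
      (ev_le b₀ n₀ π _ γ hγ)
    rw [hcN] at h2
    have h4 : um (evA b₀ π γ) = um (fun g => if ret k b₀ g = π then
      (if ∀ i, γ i < (arcL b₀ g i : ℝ) / (N : ℝ) then (1 : ℝ) else 0) else 0) := by
      unfold evA
      rw [hcN]
    rw [← h4] at h2
    rw [abs_le] at h1 h2
    linarith [h1.1, h1.2, h2.1, h2.2]
  have hfl1 : ∀ i, (⌊α i * n₀⌋₊ : ℝ) ≤ α i * n₀ := fun i =>
    Nat.floor_le (mul_nonneg (hα0 i) hnR.le)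
  have hfl2 : ∀ i, α i * n₀ < ⌊α i * n₀⌋₊ + 1 := fun i => Nat.lt_floor_add_one _
  have hfl3 : ∀ i, ⌊α i * n₀⌋₊ ≤ n₀ := fun i => by
    have h1 : (⌊α i * n₀⌋₊ : ℝ) ≤ n₀ := (hfl1 i).trans (by nlinarith [hα1 i])
    exact_mod_cast h1
  have hsum0 : 0 ≤ ∑ i, α i := Finset.sum_nonneg fun i _ => hα0 i
  obtain ⟨β, hβ⟩ : ∃ β : Fin k → Fin (n₀ + 3),
      β = fun i => ⟨⌊α i * n₀⌋₊, by have := hfl3 i; omega⟩ := ⟨_, rfl⟩
  have hβ2 : ∀ i, ((β i : ℕ) : ℝ) = (⌊α i * n₀⌋₊ : ℝ) := fun i => by rw [hβ]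
  obtain ⟨β', hβ'⟩ : ∃ β' : Fin k → Fin (n₀ + 3),
      β' = fun i => ⟨⌊α i * n₀⌋₊ + 2, by have := hfl3 i; omega⟩ := ⟨_, rfl⟩
  have hβ'2 : ∀ i, ((β' i : ℕ) : ℝ) = (⌊α i * n₀⌋₊ : ℝ) + 2 := fun i => by
    rw [hβ']
    push_cast
    rfl
  have hsumle : ∀ γ : Fin k → ℝ, (∀ i, |γ i - α i| ≤ 2 / n₀) →
      |∑ i, γ i - ∑ i, α i| ≤ 2 * k / n₀ := by
    intro γ hγα
    rw [← Finset.sum_sub_distrib]
    refine (Finset.abs_sum_le_sum_abs _ _).trans ((Finset.sum_le_sum fun i _ => hγα i).trans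
      (le_of_eq ?_))
    rw [Finset.sum_const, Finset.card_univ, Fintype.card_fin, nsmul_eq_mul]
    ring
  refine ⟨β, β', ?_, ?_, fun V _ _ b g => ⟨?_, ?_⟩⟩
  · rw [abs_le]
    constructor
    · have h1 := hcl β α hα0 (fun i => by rw [hβ2]; exact hfl1 i)
      linarith
    · obtain ⟨γ, hγ⟩ : ∃ γ : Fin k → ℝ, γ = fun i => max 0 (((⌊α i * n₀⌋₊ : ℝ) - 1) / n₀) :=
        ⟨_, rfl⟩
      have hγ0 : ∀ i, 0 ≤ γ i := fun i => by rw [hγ]; exact le_max_left _ _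
      have h3 := hcu β γ hγ0 (fun i => by
        rw [hβ2, hγ]
        beta_reduce
        rw [max_mul_of_nonneg _ _ hnR.le, zero_mul, div_mul_cancel₀ _ hnR.ne'])
      have hγα : ∀ i, |γ i - α i| ≤ 2 / n₀ := by
        intro i
        have e1 : ((⌊α i * n₀⌋₊ : ℝ) - 1) / n₀ ≤ α i := by
          rw [div_le_iff₀ hnR]
          linarith [hfl1 i]
        have e2 : α i - 2 / n₀ ≤ ((⌊α i * n₀⌋₊ : ℝ) - 1) / n₀ := by
          rw [le_div_iff₀ hnR, sub_mul, div_mul_cancel₀ _ hnR.ne']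
          linarith [hfl2 i]
        have e3 : γ i ≤ α i := by rw [hγ]; exact max_le (hα0 i) e1
        have e4 : ((⌊α i * n₀⌋₊ : ℝ) - 1) / n₀ ≤ γ i := by rw [hγ]; exact le_max_right _ _
        have e5 : (0 : ℝ) ≤ 2 / n₀ := by positivity
        rw [abs_le]
        constructor <;> linarith
      have h4 := Ph_lip k (Finset.sum_nonneg fun i _ => hγ0 i : 0 ≤ ∑ i, γ i) hsum0
      have h6 := mul_le_mul_of_nonneg_left (hsumle γ hγα) (Nat.cast_nonneg (α := ℝ) k)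
      rw [abs_le] at h4
      linarith [h4.1, h4.2]
  · rw [abs_le]
    constructor
    · obtain ⟨γ, hγ⟩ : ∃ γ : Fin k → ℝ, γ = fun i => ((⌊α i * n₀⌋₊ : ℝ) + 2) / n₀ := ⟨_, rfl⟩
      have hγ0 : ∀ i, 0 ≤ γ i := fun i => by rw [hγ]; positivity
      have h3 := hcl β' γ hγ0 (fun i => by
        rw [hβ'2, hγ]
        beta_reduce
        rw [div_mul_cancel₀ _ hnR.ne'])
      have hγα : ∀ i, |γ i - α i| ≤ 2 / n₀ := by
        intro i
        have e1 : γ i ≤ α i + 2 / n₀ := by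
          rw [hγ]
          beta_reduce
          rw [div_le_iff₀ hnR, add_mul, div_mul_cancel₀ _ hnR.ne']
          linarith [hfl1 i]
        have e2 : α i ≤ γ i := by
          rw [hγ]
          beta_reduce
          rw [le_div_iff₀ hnR]
          linarith [hfl2 i]
        have e5 : (0 : ℝ) ≤ 2 / n₀ := by positivity
        rw [abs_le]
        constructor <;> linarith
      have h4 := Ph_lip k (Finset.sum_nonneg fun i _ => hγ0 i : 0 ≤ ∑ i, γ i) hsum0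
      have h6 := mul_le_mul_of_nonneg_left (hsumle γ hγα) (Nat.cast_nonneg (α := ℝ) k)
      rw [abs_le] at h4
      linarith [h4.1, h4.2]
    · have h1 := hcu β' α hα0 (fun i => by
        rw [hβ'2]
        exact le_max_of_le_right (by linarith [hfl2 i]))
      linarith
  · exact le_ev b n₀ hn0 π _ α (fun i => by
      rw [hβ'2]
      exact le_max_of_le_right (by linarith [hfl2 i])) g
  · exact ev_le b n₀ π _ α (fun i => by rw [hβ2]; exact hfl1 i) g

/-- The arcs between `k` points at a time are asymptotically independent of the past and of the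
future of the process. -/
theorem arc_que (hK : S_KPT) (d : ℕ) (hd : 3 ≤ d) : ∃ m₀ : ℕ, ∀ (k : ℕ) (η : ℝ), 0 < η →
    ∃ (K : ℝ) (A : ℕ), 0 < K ∧ ∀ (L : ℕ) [NeZero L], A ≤ L → ∀ t : ℝ, (Real.log L) ^ m₀ ≤ t →
    ∀ s s' : ℝ, K ≤ s * (L : ℝ) ^ d → K ≤ s' * (L : ℝ) ^ d →
    ∀ (b : Fin k ↪ (Fin d → ZMod L)) (π : Perm (Fin k)) (α : Fin k → ℝ), (∀ i, 0 ≤ α i) →
      (∀ i, α i ≤ 1) → ∀ G : Perm (Fin d → ZMod L) → ℝ, (∀ g, |G g| ≤ 1) →
      stirExp (nnRate d L) t (fun g => |fut (nnRate d L) s (fun h =>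
        (evA b π α h - Ph k (∑ i, α i)) * fut (nnRate d L) s' G h) g|) ≤ η := by
  classical
  obtain ⟨m₀, h⟩ := que_obs hK d hd
  refine ⟨m₀, fun k η hη => ?_⟩
  obtain ⟨δ, hδ⟩ : ∃ δ : ℝ, δ = η / 16 := ⟨_, rfl⟩
  have hδ0 : 0 < δ := by rw [hδ]; positivity
  obtain ⟨n₀, hn0, hsand⟩ := sand k δ hδ0
  -- the test functions
  have hcont : ∀ β : Fin k → ℕ, Continuous (aF (tF n₀ β)) := by
    intro β
    have h1 := tF_cont n₀ β
    unfold aF
    fun_prop
  have hbd : ∀ (β : Fin k → ℕ) (v : Fin (k + 1) → ℝ), |aF (tF n₀ β) v| ≤ 1 := by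
    intro β v
    unfold aF
    have h1 : 0 ≤ max 0 (min 1 (v 0)) := le_max_left _ _
    have h2 : max 0 (min 1 (v 0)) ≤ 1 := max_le zero_le_one (min_le_left _ _)
    obtain ⟨h3, h4⟩ := tF_mem n₀ β (fun i => v i.succ)
    rw [abs_of_nonneg (mul_nonneg h1 h3)]
    exact mul_le_one₀ h2 h3 h4
  have hval : ∀ {V : Type} [Fintype V] [DecidableEq V] (β : Fin k → ℕ) (π : Perm (Fin k))
      (b : Fin k ↪ V) (g : Perm V), aF (tF n₀ β) (fun a => (aD π a).val b g) =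
      tA b n₀ π β g := by
    intro V _ _ β π b g
    rw [aF_val]
    rfl
  have hI := fun (π : Perm (Fin k)) (β : Fin k → Fin (n₀ + 3)) =>
    h k (k + 1) (aD π) (aF (tF n₀ (fun i => (β i : ℕ)))) (hcont _) (hbd _) δ hδ0
  simp only [hval] at hI
  choose c K L₁ hc hK0 hc1 hc2 using hI
  obtain ⟨A₁, hA₁⟩ : ∃ A₁, A₁ = ∑ π, ∑ β, L₁ π β := ⟨_, rfl⟩
  have hL₁ : ∀ π β, L₁ π β ≤ A₁ := fun π β => by
    rw [hA₁]
    exact (Finset.single_le_sum (f := fun β => L₁ π β) (fun _ _ => Nat.zero_le _)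
      (Finset.mem_univ β)).trans (Finset.single_le_sum (f := fun π => ∑ β, L₁ π β)
      (fun _ _ => Nat.zero_le _) (Finset.mem_univ π))
  obtain ⟨K₁, hK₁⟩ : ∃ K₁, K₁ = ∑ π, ∑ β, K π β := ⟨_, rfl⟩
  have hK₁' : ∀ π β, K π β ≤ K₁ := fun π β => by
    rw [hK₁]
    exact (Finset.single_le_sum (f := fun β => K π β) (fun β _ => (hK0 π β).le)
      (Finset.mem_univ β)).trans (Finset.single_le_sum (f := fun π => ∑ β, K π β)
      (fun π _ => Finset.sum_nonneg fun β _ => (hK0 π β).le) (Finset.mem_univ π))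
  have hK₁0 : 0 < K₁ := lt_of_lt_of_le (hK0 1 (fun _ => 0)) (hK₁' 1 (fun _ => 0))
  refine ⟨K₁, max A₁ 3, hK₁0, fun L _ hL t ht s s' hs hs' b π α hα0 hα1 G hG => ?_⟩
  have hLA : ∀ π β, L₁ π β ≤ L := fun π β => (hL₁ π β).trans ((le_max_left _ _).trans hL)
  have hL3 : 3 ≤ L := (le_max_right _ _).trans hL
  have hlog := log_ge L hL3
  have ht0 : 0 ≤ t := le_trans (by positivity) ht
  have hL0 : (0 : ℝ) < (L : ℝ) ^ d := by
    have : (0 : ℝ) < L := by exact_mod_cast (by omega : 0 < L)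
    positivity
  have hs0 : 0 ≤ s := by
    by_contra hc
    push Not at hc
    nlinarith
  have hs'0 : 0 ≤ s' := by
    by_contra hc
    push Not at hc
    nlinarith
  obtain ⟨β, β', hβ, hβ', hbb⟩ := hsand c A₁ (fun π β W _ _ hW b =>
    hc2 π β W ((hL₁ π β).trans hW) b) π α hα0 hα1
  obtain ⟨J, hJdef⟩ : ∃ J, J = nnRate d L := ⟨_, rfl⟩
  have hJ : ∀ x y, 0 ≤ J x y := by rw [hJdef]; exact nn_nonneg
  obtain ⟨P, hP⟩ : ∃ P, P = Ph k (∑ i, α i) := ⟨_, rfl⟩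
  obtain ⟨Γ, hΓ⟩ : ∃ Γ, Γ = fut J s' G := ⟨_, rfl⟩
  have hΓ1 : ∀ g, |Γ g| ≤ 1 := fun g => by rw [hΓ]; exact fut_abs hJ hs'0 G 1 hG g
  obtain ⟨T, hT⟩ : ∃ T : Perm (Fin d → ZMod L) → ℝ, T = tA b n₀ π (fun i => (β i : ℕ)) :=
    ⟨_, rfl⟩
  obtain ⟨T', hT'⟩ : ∃ T' : Perm (Fin d → ZMod L) → ℝ, T' = tA b n₀ π (fun i => (β' i : ℕ)) :=
    ⟨_, rfl⟩
  have h1 := hc1 π β L (hLA π β) t ht s s' ((hK₁' π β).trans hs) ((hK₁' π β).trans hs') b G hG
  have h2 := hc1 π β L (hLA π β) t ht s s' ((hK₁' π β).trans hs) ((hK₁' π β).trans hs') b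
    (fun _ => 1) (by simp)
  have h3 := hc1 π β' L (hLA π β') t ht s s' ((hK₁' π β').trans hs) ((hK₁' π β').trans hs') b
    (fun _ => 1) (by simp)
  simp only [fut_const, mul_one] at h2 h3
  rw [← hJdef, ← hT] at h1 h2
  rw [← hJdef, ← hT'] at h3
  rw [← hΓ] at h1
  rw [← hP] at hβ hβ'
  rw [← hP, ← hJdef, ← hΓ]
  -- pointwise
  have key : ∀ g, |fut J s (fun h => (evA b π α h - P) * Γ h) g| ≤
      |fut J s (fun h => (T h - c π β) * Γ h) g| + |fut J s (fun h => T h - c π β) g| +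
        |fut J s (fun h => T' h - c π β') g| + 9 * δ := by
    intro g
    have e1 : fut J s (fun h => (evA b π α h - P) * Γ h) g =
        fut J s (fun h => (T h - c π β) * Γ h) g +
        fut J s (fun h => (evA b π α h - T h) * Γ h) g + (c π β - P) * fut J s Γ g := by
      unfold fut
      rw [Finset.mul_sum, ← Finset.sum_add_distrib, ← Finset.sum_add_distrib]
      exact Finset.sum_congr rfl fun h _ => by ring
    have e2 : |fut J s (fun h => (evA b π α h - T h) * Γ h) g| ≤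
        fut J s (fun h => T h - c π β) g - fut J s (fun h => T' h - c π β') g +
          (c π β - c π β') := by
      refine (fut_abs_le hJ hs0 _ g).trans ?_
      have e3 : fut J s (fun h => T h - T' h) g =
          fut J s (fun h => T h - c π β) g - fut J s (fun h => T' h - c π β') g +
          (c π β - c π β') := by
        have e4 := fut_const (J := J) s (c π β - c π β') g
        rw [← e4]
        unfold fut
        rw [← Finset.sum_sub_distrib, ← Finset.sum_add_distrib]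
        exact Finset.sum_congr rfl fun h _ => by ring
      rw [← e3]
      refine fut_le hJ hs0 _ _ (fun h => ?_) g
      obtain ⟨a1, a2⟩ := hbb (Fin d → ZMod L) b h
      rw [← hT] at a2
      rw [← hT'] at a1
      rw [abs_mul]
      have a3 : |evA b π α h - T h| ≤ T h - T' h := by
        rw [abs_of_nonpos (by linarith)]
        linarith
      calc |evA b π α h - T h| * |Γ h| ≤ (T h - T' h) * 1 :=
            mul_le_mul a3 (hΓ1 h) (abs_nonneg _) (by linarith)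
        _ = T h - T' h := mul_one _
    have e5 : |(c π β - P) * fut J s Γ g| ≤ 3 * δ := by
      rw [abs_mul]
      calc |c π β - P| * |fut J s Γ g| ≤ 3 * δ * 1 :=
            mul_le_mul hβ (fut_abs hJ hs0 Γ 1 hΓ1 g) (abs_nonneg _) (by positivity)
        _ = 3 * δ := mul_one _
    rw [e1]
    have e6 := abs_add_le (fut J s (fun h => (T h - c π β) * Γ h) g +
        fut J s (fun h => (evA b π α h - T h) * Γ h) g) ((c π β - P) * fut J s Γ g)
    have e7 := abs_add_le (fut J s (fun h => (T h - c π β) * Γ h) g)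
        (fut J s (fun h => (evA b π α h - T h) * Γ h) g)
    have e8 := le_abs_self (fut J s (fun h => T h - c π β) g)
    have e9 := neg_abs_le (fut J s (fun h => T' h - c π β') g)
    rw [abs_le] at hβ hβ'
    linarith [hβ.1, hβ.2, hβ'.1, hβ'.2]
  have h4 : stirExp J t (fun g => |fut J s (fun h => (evA b π α h - P) * Γ h) g|) ≤
      stirExp J t (fun g => |fut J s (fun h => (T h - c π β) * Γ h) g| +
        |fut J s (fun h => T h - c π β) g| + |fut J s (fun h => T' h - c π β') g| + 9 * δ) :=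
    se_mono hJ ht0 _ _ key
  refine h4.trans ?_
  have h5 : stirExp J t (fun g => |fut J s (fun h => (T h - c π β) * Γ h) g| +
        |fut J s (fun h => T h - c π β) g| + |fut J s (fun h => T' h - c π β') g| + 9 * δ) =
      stirExp J t (fun g => |fut J s (fun h => (T h - c π β) * Γ h) g|) +
      stirExp J t (fun g => |fut J s (fun h => T h - c π β) g|) +
      stirExp J t (fun g => |fut J s (fun h => T' h - c π β') g|) + 9 * δ := by
    unfold stirExp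
    simp only [mul_add, Finset.sum_add_distrib]
    rw [← Finset.sum_mul, Pool.Agent.Y998.CN.law_sum, one_mul]
  rw [h5, hδ]
  rw [hδ] at h1 h2 h3
  linarith

end Run7.h565.SM
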