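import Pool.Agent.Run7.h565.SM.Jnt3
import Pool.Agent.Run7.h565.SM.ArcQue

/-!
# Project SM: the observables, the arcs and the ordered cycle lengths given the past and the future
-/

set_option autoImplicit false

namespace Run7.h565.SM

open Finset Equiv
open Pool.Agent.TH268.PD (ret ret_spec top frac pdm pdl)
open Pool.Agent.Y998.ST (stirExp stirLaw nnRate law_nonneg nn_nonneg totalRate nn_row)
open Run7.h565.LC (S_KPT)

/-- The observables of `k` points at a time, given the past and the future of the process. -/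
theorem jnt_obs (hK : S_KPT) (d : ℕ) (hd : 3 ≤ d) : ∃ m₀ : ℕ, ∀ (k M : ℕ) (D : Fin M → Ds k)
    (F : (Fin M → ℝ) → ℝ), Continuous F → (∀ u, |F u| ≤ 1) → ∀ η : ℝ, 0 < η →
    ∃ (c K : ℝ) (L₀ : ℕ), |c| ≤ 1 ∧ 0 < K ∧
    (∀ (L : ℕ) [NeZero L], L₀ ≤ L → ∀ t : ℝ, (Real.log L) ^ m₀ ≤ t →
      ∀ s s' : ℝ, K ≤ s * (L : ℝ) ^ d → K ≤ s' * (L : ℝ) ^ d →
      ∀ b : Fin k ↪ (Fin d → ZMod L),
      ∀ Φ : Perm (Fin d → ZMod L) → Perm (Fin d → ZMod L) → ℝ, (∀ g h, |Φ g h| ≤ 1) →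
      stirExp (nnRate d L) t (fun g => |fut (nnRate d L) s
        (fun h => (F (fun a => (D a).val b h) - c) * fut (nnRate d L) s' (Φ g) h) g|) ≤ η) ∧
    (∀ (W : Type) [Fintype W] [DecidableEq W], L₀ ≤ Fintype.card W → ∀ b : Fin k ↪ W,
      |um (fun g => F (fun a => (D a).val b g)) - c| ≤ η) := by
  classical
  obtain ⟨m₁, hdec⟩ := dec_e hK d hd
  refine ⟨m₁ + 1, fun k M D f hfc hf1 η₁ hη₁ => ?_⟩
  -- may assume `η ≤ 1`
  obtain ⟨η, hη, hηη₁, hη1⟩ : ∃ η : ℝ, 0 < η ∧ η ≤ η₁ ∧ η ≤ 1 :=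
    ⟨min η₁ 1, lt_min hη₁ one_pos, min_le_left _ _, min_le_right _ _⟩
  obtain ⟨c, κ, L₁, hc1, hκ0, hdec, hum⟩ := hdec k M D f hfc hf1 ((η / 2) ^ 2 / 16)
    (by positivity)
  obtain ⟨K, L₂, hK0, hL₂3, hj⟩ := jnt d (by omega) (η / 2) κ (by positivity) hκ0
  refine ⟨c, K, max L₁ L₂, hc1, hK0, fun L _ hL t ht s s' hs hs' b Φ hΦ => ?_,
    fun W _ _ hW b => (hum W ((le_max_left _ _).trans hW) b).trans ?_⟩
  swap
  · nlinarith
  have hL1 : L₁ ≤ L := (le_max_left _ _).trans hL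
  have hL2 : L₂ ≤ L := (le_max_right _ _).trans hL
  have hlog : 1 ≤ Real.log L := log_ge L (hL₂3.trans hL2)
  obtain ⟨A, hA⟩ : ∃ A : Perm (Fin d → ZMod L) → ℝ,
    A = fun g => (f (fun a => (D a).val b g) - c) / 2 := ⟨_, rfl⟩
  have hA1 : ∀ g, |A g| ≤ 1 := by
    intro g
    rw [hA]
    beta_reduce
    rw [abs_div, abs_of_pos (by norm_num : (0 : ℝ) < 2), div_le_one (by norm_num)]
    have h2 := hf1 (fun a => (D a).val b g)
    rw [abs_le] at h2 hc1 ⊢
    constructor <;> linarith [h2.1, h2.2, hc1.1, hc1.2]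
  have h1 := hj L hL2 ((Real.log L) ^ (m₁ + 1)) (le_self_pow₀ hlog (by omega)) A hA1
    (fun u hu H hH he => by
      have h2 := hdec L hL1 u ((pow_le_pow_right₀ hlog (by omega)).trans hu) b H hH he
      have h3 : stirExp (nnRate d L) u (fun g => A g * H g) =
          (stirExp (nnRate d L) u (fun g => f (fun a => (D a).val b g) * H g) -
            c * stirExp (nnRate d L) u H) / 2 := by
        unfold stirExp
        rw [Finset.mul_sum, ← Finset.sum_sub_distrib, Finset.sum_div]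
        refine Finset.sum_congr rfl fun g _ => ?_
        rw [hA]
        ring
      rw [h3, abs_div, abs_of_pos (by norm_num : (0 : ℝ) < 2), div_le_iff₀ (by norm_num)]
      have h4 : 0 ≤ (η / 2) ^ 2 / 16 := by positivity
      linarith) s s' hs hs' t ht Φ hΦ
  have h2 : stirExp (nnRate d L) t (fun g => |fut (nnRate d L) s
        (fun h => (f (fun a => (D a).val b h) - c) * fut (nnRate d L) s' (Φ g) h) g|) =
      2 * stirExp (nnRate d L) t (fun g => |fut (nnRate d L) s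
        (fun h => A h * fut (nnRate d L) s' (Φ g) h) g|) := by
    unfold stirExp
    rw [Finset.mul_sum]
    refine Finset.sum_congr rfl fun g _ => ?_
    have e : fut (nnRate d L) s
        (fun h => (f (fun a => (D a).val b h) - c) * fut (nnRate d L) s' (Φ g) h) g =
        2 * fut (nnRate d L) s (fun h => A h * fut (nnRate d L) s' (Φ g) h) g := by
      unfold fut
      rw [Finset.mul_sum, hA]
      exact Finset.sum_congr rfl fun h _ => by ring
    beta_reduce
    rw [e, abs_mul, abs_of_pos (by norm_num : (0 : ℝ) < 2)]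
    ring
  rw [h2]
  linarith

/-- The arcs between `k` points at a time, given the past and the future of the process. -/
theorem arc_jnt (hK : S_KPT) (d : ℕ) (hd : 3 ≤ d) : ∃ m₀ : ℕ, ∀ (k : ℕ) (η : ℝ), 0 < η →
    ∃ (K : ℝ) (A : ℕ), 0 < K ∧ ∀ (L : ℕ) [NeZero L], A ≤ L → ∀ t : ℝ, (Real.log L) ^ m₀ ≤ t →
    ∀ s s' : ℝ, K ≤ s * (L : ℝ) ^ d → K ≤ s' * (L : ℝ) ^ d →
    ∀ (b : Fin k ↪ (Fin d → ZMod L)) (π : Perm (Fin k)) (α : Fin k → ℝ), (∀ i, 0 ≤ α i) →
      (∀ i, α i ≤ 1) →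
      ∀ Φ : Perm (Fin d → ZMod L) → Perm (Fin d → ZMod L) → ℝ, (∀ g h, |Φ g h| ≤ 1) →
      stirExp (nnRate d L) t (fun g => |fut (nnRate d L) s (fun h =>
        (evA b π α h - Ph k (∑ i, α i)) * fut (nnRate d L) s' (Φ g) h) g|) ≤ η := by
  classical
  obtain ⟨m₀, h⟩ := jnt_obs hK d hd
  refine ⟨m₀, fun k η hη => ?_⟩
  obtain ⟨δ, hδ⟩ : ∃ δ : ℝ, δ = η / 16 := ⟨_, rfl⟩
  have hδ0 : 0 < δ := by rw [hδ]; positivity
  obtain ⟨n₀, hn0, hsand⟩ := sand k δ hδ0
  -- the test functions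
  have hcont : ∀ β : Fin k → ℕ, Continuous (aF (tF n₀ β)) := by
    intro β
    have h1 := tF_cont n₀ β
    unfold aF
    fun_prop
  have hbd : ∀ (β : Fin k → ℕ) (v : Fin (k + 1) → ℝ), |aF (tF n₀ β) v| ≤ 1 := by
    intro β v
    unfold aF
    have h1 : 0 ≤ max 0 (min 1 (v 0)) := le_max_left _ _
    have h2 : max 0 (min 1 (v 0)) ≤ 1 := max_le zero_le_one (min_le_left _ _)
    obtain ⟨h3, h4⟩ := tF_mem n₀ β (fun i => v i.succ)
    rw [abs_of_nonneg (mul_nonneg h1 h3)]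
    exact mul_le_one₀ h2 h3 h4
  have hval : ∀ {V : Type} [Fintype V] [DecidableEq V] (β : Fin k → ℕ) (π : Perm (Fin k))
      (b : Fin k ↪ V) (g : Perm V), aF (tF n₀ β) (fun a => (aD π a).val b g) =
      tA b n₀ π β g := by
    intro V _ _ β π b g
    rw [aF_val]
    rfl
  have hI := fun (π : Perm (Fin k)) (β : Fin k → Fin (n₀ + 3)) =>
    h k (k + 1) (aD π) (aF (tF n₀ (fun i => (β i : ℕ)))) (hcont _) (hbd _) δ hδ0
  simp only [hval] at hI
  choose c K L₁ hc hK0 hc1 hc2 using hI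
  obtain ⟨A₁, hA₁⟩ : ∃ A₁, A₁ = ∑ π, ∑ β, L₁ π β := ⟨_, rfl⟩
  have hL₁ : ∀ π β, L₁ π β ≤ A₁ := fun π β => by
    rw [hA₁]
    exact (Finset.single_le_sum (f := fun β => L₁ π β) (fun _ _ => Nat.zero_le _)
      (Finset.mem_univ β)).trans (Finset.single_le_sum (f := fun π => ∑ β, L₁ π β)
      (fun _ _ => Nat.zero_le _) (Finset.mem_univ π))
  obtain ⟨K₁, hK₁⟩ : ∃ K₁, K₁ = ∑ π, ∑ β, K π β := ⟨_, rfl⟩
  have hK₁' : ∀ π β, K π β ≤ K₁ := fun π β => by
    rw [hK₁]
    exact (Finset.single_le_sum (f := fun β => K π β) (fun β _ => (hK0 π β).le)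
      (Finset.mem_univ β)).trans (Finset.single_le_sum (f := fun π => ∑ β, K π β)
      (fun π _ => Finset.sum_nonneg fun β _ => (hK0 π β).le) (Finset.mem_univ π))
  have hK₁0 : 0 < K₁ := lt_of_lt_of_le (hK0 1 (fun _ => 0)) (hK₁' 1 (fun _ => 0))
  refine ⟨K₁, max A₁ 3, hK₁0, fun L _ hL t ht s s' hs hs' b π α hα0 hα1 Φ hΦ => ?_⟩
  have hL3 : 3 ≤ L := (le_max_right _ _).trans hL
  have hLA : ∀ π β, L₁ π β ≤ L := fun π β => (hL₁ π β).trans ((le_max_left _ _).trans hL)
  have hlog := log_ge L hL3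
  have ht0 : 0 ≤ t := le_trans (by positivity) ht
  have hL0 : (0 : ℝ) < (L : ℝ) ^ d := by
    have : (0 : ℝ) < L := by exact_mod_cast (by omega : 0 < L)
    positivity
  have hs0 : 0 ≤ s := by
    by_contra hc
    push Not at hc
    nlinarith
  have hs'0 : 0 ≤ s' := by
    by_contra hc
    push Not at hc
    nlinarith
  obtain ⟨β, β', hβ, hβ', hbb⟩ := hsand c A₁ (fun π β W _ _ hW b =>
    hc2 π β W ((hL₁ π β).trans hW) b) π α hα0 hα1
  obtain ⟨J, hJdef⟩ : ∃ J, J = nnRate d L := ⟨_, rfl⟩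
  have hJ : ∀ x y, 0 ≤ J x y := by rw [hJdef]; exact nn_nonneg
  obtain ⟨P, hP⟩ : ∃ P, P = Ph k (∑ i, α i) := ⟨_, rfl⟩
  obtain ⟨T, hT⟩ : ∃ T : Perm (Fin d → ZMod L) → ℝ, T = tA b n₀ π (fun i => (β i : ℕ)) :=
    ⟨_, rfl⟩
  obtain ⟨T', hT'⟩ : ∃ T' : Perm (Fin d → ZMod L) → ℝ, T' = tA b n₀ π (fun i => (β' i : ℕ)) :=
    ⟨_, rfl⟩
  have h1 := hc1 π β L (hLA π β) t ht s s' ((hK₁' π β).trans hs) ((hK₁' π β).trans hs') b Φ hΦ
  have h2 := hc1 π β L (hLA π β) t ht s s' ((hK₁' π β).trans hs) ((hK₁' π β).trans hs') b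
    (fun _ _ => 1) (by simp)
  have h3 := hc1 π β' L (hLA π β') t ht s s' ((hK₁' π β').trans hs) ((hK₁' π β').trans hs') b
    (fun _ _ => 1) (by simp)
  simp only [fut_const, mul_one] at h2 h3
  rw [← hJdef, ← hT] at h1 h2
  rw [← hJdef, ← hT'] at h3
  rw [← hP] at hβ hβ'
  rw [← hP, ← hJdef]
  -- pointwise
  have key : ∀ g, |fut J s (fun h => (evA b π α h - P) * fut J s' (Φ g) h) g| ≤
      |fut J s (fun h => (T h - c π β) * fut J s' (Φ g) h) g| +
        |fut J s (fun h => T h - c π β) g| +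
        |fut J s (fun h => T' h - c π β') g| + 9 * δ := by
    intro g
    obtain ⟨Γ, hΓ⟩ : ∃ Γ, Γ = fut J s' (Φ g) := ⟨_, rfl⟩
    have hΓ1 : ∀ g, |Γ g| ≤ 1 := fun h => by
      rw [hΓ]
      exact fut_abs hJ hs'0 (Φ g) 1 (hΦ g) h
    rw [← hΓ]
    have e1 : fut J s (fun h => (evA b π α h - P) * Γ h) g =
        fut J s (fun h => (T h - c π β) * Γ h) g +
        fut J s (fun h => (evA b π α h - T h) * Γ h) g + (c π β - P) * fut J s Γ g := by
      unfold fut
      rw [Finset.mul_sum, ← Finset.sum_add_distrib, ← Finset.sum_add_distrib]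
      exact Finset.sum_congr rfl fun h _ => by ring
    have e2 : |fut J s (fun h => (evA b π α h - T h) * Γ h) g| ≤
        fut J s (fun h => T h - c π β) g - fut J s (fun h => T' h - c π β') g +
          (c π β - c π β') := by
      refine (fut_abs_le hJ hs0 _ g).trans ?_
      have e3 : fut J s (fun h => T h - T' h) g =
          fut J s (fun h => T h - c π β) g - fut J s (fun h => T' h - c π β') g +
          (c π β - c π β') := by
        have e4 := fut_const (J := J) s (c π β - c π β') g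
        rw [← e4]
        unfold fut
        rw [← Finset.sum_sub_distrib, ← Finset.sum_add_distrib]
        exact Finset.sum_congr rfl fun h _ => by ring
      rw [← e3]
      refine fut_le hJ hs0 _ _ (fun h => ?_) g
      obtain ⟨a1, a2⟩ := hbb (Fin d → ZMod L) b h
      rw [← hT] at a2
      rw [← hT'] at a1
      rw [abs_mul]
      have a3 : |evA b π α h - T h| ≤ T h - T' h := by
        rw [abs_of_nonpos (by linarith)]
        linarith
      calc |evA b π α h - T h| * |Γ h| ≤ (T h - T' h) * 1 :=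
            mul_le_mul a3 (hΓ1 h) (abs_nonneg _) (by linarith)
        _ = T h - T' h := mul_one _
    have e5 : |(c π β - P) * fut J s Γ g| ≤ 3 * δ := by
      rw [abs_mul]
      calc |c π β - P| * |fut J s Γ g| ≤ 3 * δ * 1 :=
            mul_le_mul hβ (fut_abs hJ hs0 Γ 1 hΓ1 g) (abs_nonneg _) (by positivity)
        _ = 3 * δ := mul_one _
    rw [e1]
    have e6 := abs_add_le (fut J s (fun h => (T h - c π β) * Γ h) g +
        fut J s (fun h => (evA b π α h - T h) * Γ h) g) ((c π β - P) * fut J s Γ g)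
    have e7 := abs_add_le (fut J s (fun h => (T h - c π β) * Γ h) g)
        (fut J s (fun h => (evA b π α h - T h) * Γ h) g)
    have e8 := le_abs_self (fut J s (fun h => T h - c π β) g)
    have e9 := neg_abs_le (fut J s (fun h => T' h - c π β') g)
    rw [abs_le] at hβ hβ'
    linarith [hβ.1, hβ.2, hβ'.1, hβ'.2]
  have h4 := se_mono hJ ht0 _ _ key
  refine h4.trans ?_
  have h5 : stirExp J t (fun g => |fut J s (fun h => (T h - c π β) * fut J s' (Φ g) h) g| +
        |fut J s (fun h => T h - c π β) g| + |fut J s (fun h => T' h - c π β') g| + 9 * δ) =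
      stirExp J t (fun g => |fut J s (fun h => (T h - c π β) * fut J s' (Φ g) h) g|) +
      stirExp J t (fun g => |fut J s (fun h => T h - c π β) g|) +
      stirExp J t (fun g => |fut J s (fun h => T' h - c π β') g|) + 9 * δ := by
    unfold stirExp
    simp only [mul_add, Finset.sum_add_distrib]
    rw [← Finset.sum_mul, Pool.Agent.Y998.CN.law_sum, one_mul]
  rw [h5, hδ]
  rw [hδ] at h1 h2 h3
  linarith

/-- The ordered cycle lengths at a time, given the past and the future of the process. -/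
theorem top_jnt (hK : S_KPT) (d : ℕ) (hd : 3 ≤ d) : ∃ m₀ : ℕ, ∀ (m : ℕ)
    (f : (Fin m → ℝ) → ℝ), Continuous f → ∀ C : ℝ, (∀ u, |f u| ≤ C) → ∀ η : ℝ, 0 < η →
    ∃ (K : ℝ) (A : ℕ), 0 < K ∧ ∀ (L : ℕ) [NeZero L], A ≤ L → ∀ t : ℝ, (Real.log L) ^ m₀ ≤ t →
    ∀ s s' : ℝ, K ≤ s * (L : ℝ) ^ d → K ≤ s' * (L : ℝ) ^ d →
      ∀ Φ : Perm (Fin d → ZMod L) → Perm (Fin d → ZMod L) → ℝ, (∀ g h, |Φ g h| ≤ 1) →
      stirExp (nnRate d L) t (fun g => |fut (nnRate d L) s (fun h =>
        (f (fun i => top (frac h) i) - pdm f) * fut (nnRate d L) s' (Φ g) h) g|) ≤ η := by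
  classical
  obtain ⟨m₀, h⟩ := jnt_obs hK d hd
  refine ⟨m₀, fun m f hf C hC η hη => ?_⟩
  have hC0 : 0 ≤ C := (abs_nonneg _).trans (hC (fun _ => 0))
  have hC1 : 0 < C + 1 := by linarith
  obtain ⟨F, hF⟩ : ∃ F : (Fin m → ℝ) → ℝ, F = fun u => f u / (C + 1) := ⟨_, rfl⟩
  have hFc : Continuous F := by
    rw [hF]
    exact hf.div_const _
  have hF1 : ∀ u, |F u| ≤ 1 := by
    intro u
    rw [hF]
    beta_reduce
    rw [abs_div, abs_of_pos hC1, div_le_one hC1]
    linarith [hC u]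
  obtain ⟨δ, hδ⟩ : ∃ δ : ℝ, δ = η / (4 * (C + 1)) := ⟨_, rfl⟩
  have hδ0 : 0 < δ := by rw [hδ]; positivity
  have hval : ∀ {V : Type} [Fintype V] [DecidableEq V] (b : Fin 0 ↪ V) (g : Perm V),
      F (fun a : Fin m => (Ds.top 1 (a : ℕ) : Ds 0).val b g) =
        F (fun i => top (frac g) i) := by
    intro V _ _ b g
    congr 1
  obtain ⟨c, K, L₀, hc1, hK0, hj, hum⟩ := h 0 m (fun a => Ds.top 1 (a : ℕ)) F hFc hF1 δ hδ0
  simp only [hval] at hj hum
  -- the constant
  have hlimF := Pool.Agent.TH268.PD.Unif.lim_um pdl hFc hF1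
  have hlimf := Pool.Agent.TH268.PD.Unif.lim_um pdl hf hC
  have hpf : pdm f = (C + 1) * pdm F := by
    refine tendsto_nhds_unique hlimf ((hlimF.const_mul (C + 1)).congr fun N => ?_)
    unfold Pool.Agent.TH268.PD.um
    rw [hF, ← mul_div_assoc, Finset.mul_sum]
    congr 1
    refine Finset.sum_congr rfl fun σ _ => ?_
    field_simp
  have hcp : |c - pdm F| ≤ δ := by
    have h2 : Filter.Tendsto (fun N => |Pool.Agent.TH268.PD.um N F - c|) Filter.atTop
        (nhds |pdm F - c|) := (hlimF.sub_const c).abs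
    rw [abs_sub_comm]
    refine le_of_tendsto h2 ?_
    filter_upwards [Filter.eventually_ge_atTop L₀] with N hN
    have h3 := hum (Fin N) (by rw [Fintype.card_fin]; exact hN) ⟨fun i => i.elim0,
      fun i => i.elim0⟩
    refine le_trans (le_of_eq ?_) h3
    unfold um Pool.Agent.TH268.PD.um
    rw [Fintype.card_fin]
  refine ⟨K, max L₀ 3, hK0, fun L _ hL t ht s s' hs hs' Φ hΦ => ?_⟩
  have hL3 : 3 ≤ L := (le_max_right _ _).trans hL
  have hlog := log_ge L hL3
  have ht0 : 0 ≤ t := le_trans (by positivity) ht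
  have hL0 : (0 : ℝ) < (L : ℝ) ^ d := by
    have : (0 : ℝ) < L := by exact_mod_cast (by omega : 0 < L)
    positivity
  have hs0 : 0 ≤ s := by
    by_contra hc
    push Not at hc
    nlinarith
  have hs'0 : 0 ≤ s' := by
    by_contra hc
    push Not at hc
    nlinarith
  have hJ : ∀ x y, 0 ≤ nnRate d L x y := nn_nonneg
  have h1 := hj L ((le_max_left _ _).trans hL) t ht s s' hs hs'
    ⟨fun i => i.elim0, fun i => i.elim0⟩ Φ hΦ
  have key : ∀ g, |fut (nnRate d L) s (fun h =>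
      (f (fun i => top (frac h) i) - pdm f) * fut (nnRate d L) s' (Φ g) h) g| ≤
      (C + 1) * |fut (nnRate d L) s (fun h =>
        (F (fun i => top (frac h) i) - c) * fut (nnRate d L) s' (Φ g) h) g| +
        (C + 1) * δ := by
    intro g
    obtain ⟨Γ, hΓ⟩ : ∃ Γ, Γ = fut (nnRate d L) s' (Φ g) := ⟨_, rfl⟩
    have hΓ1 : ∀ g, |Γ g| ≤ 1 := fun h => by
      rw [hΓ]
      exact fut_abs hJ hs'0 (Φ g) 1 (hΦ g) h
    rw [← hΓ]
    have e1 : fut (nnRate d L) s (fun h => (f (fun i => top (frac h) i) - pdm f) * Γ h) g =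
        (C + 1) * (fut (nnRate d L) s (fun h => (F (fun i => top (frac h) i) - c) * Γ h) g +
          (c - pdm F) * fut (nnRate d L) s Γ g) := by
      unfold fut
      rw [Finset.mul_sum, ← Finset.sum_add_distrib, Finset.mul_sum]
      refine Finset.sum_congr rfl fun h _ => ?_
      rw [hpf, hF]
      field_simp
      ring
    rw [e1, abs_mul, abs_of_pos hC1, ← mul_add]
    refine mul_le_mul_of_nonneg_left ?_ hC1.le
    refine (abs_add_le _ _).trans ?_
    have e2 : |(c - pdm F) * fut (nnRate d L) s Γ g| ≤ δ := by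
      rw [abs_mul]
      calc |c - pdm F| * |fut (nnRate d L) s Γ g| ≤ δ * 1 :=
            mul_le_mul hcp (fut_abs hJ hs0 Γ 1 hΓ1 g) (abs_nonneg _) hδ0.le
        _ = δ := mul_one _
    linarith
  refine (se_mono hJ ht0 _ _ key).trans ?_
  have h5 : stirExp (nnRate d L) t (fun g => (C + 1) * |fut (nnRate d L) s (fun h =>
        (F (fun i => top (frac h) i) - c) * fut (nnRate d L) s' (Φ g) h) g| + (C + 1) * δ) =
      (C + 1) * stirExp (nnRate d L) t (fun g => |fut (nnRate d L) s (fun h =>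
        (F (fun i => top (frac h) i) - c) * fut (nnRate d L) s' (Φ g) h) g|) + (C + 1) * δ := by
    unfold stirExp
    simp only [mul_add, Finset.sum_add_distrib]
    rw [← Finset.sum_mul, Pool.Agent.Y998.CN.law_sum, one_mul, Finset.mul_sum]
    congr 1
    exact Finset.sum_congr rfl fun g _ => by ring
  rw [h5]
  have h6 := mul_le_mul_of_nonneg_left h1 hC1.le
  have h7 : (C + 1) * δ = η / 4 := by
    rw [hδ]
    field_simp
  linarith

end Run7.h565.SM
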