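import Pool.Agent.Run7.h565.SM.Gt

/-!
# Project SM: the ordered cycle lengths and the permutation induced on `k` points
-/

set_option autoImplicit false

namespace Run7.h565.SM

open Finset Equiv
open Pool.Agent.TH268.PD (ret ret_spec top frac Cyc cyOf lip_approx)
open Pool.Agent.Y998.LP (bfrac)
open Pool.Agent.Y998.ST (stirExp stirLaw nnRate law_nonneg nn_nonneg)
open Run7.h565.LC (S_KPT)

section

variable {V : Type} [Fintype V] [DecidableEq V]

open Classical in
theorem card_inj_ge (k : ℕ) (hV : 2 * k ^ 2 ≤ Fintype.card V) :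
    (Fintype.card V : ℝ) ^ k ≤ 2 * ∑ b : Fin k → V, (if Function.Injective b then (1 : ℝ) else 0) := by
  have h1 := Pool.Agent.Y259.LP.card_noninj (V := V) k
  have h2 : (Nat.card {b : Fin k → V // ¬ Function.Injective b} : ℝ) =
      ∑ b : Fin k → V, (if Function.Injective b then (0 : ℝ) else 1) := by
    rw [Nat.card_eq_fintype_card, Fintype.card_subtype, Finset.card_filter, Nat.cast_sum]
    refine Finset.sum_congr rfl fun b _ => ?_
    by_cases hb : Function.Injective b
    · simp [hb]
    · simp [hb]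
  have h3 : (Fintype.card V : ℝ) ^ k =
      ∑ b : Fin k → V, (if Function.Injective b then (1 : ℝ) else 0) +
      ∑ b : Fin k → V, (if Function.Injective b then (0 : ℝ) else 1) := by
    rw [← Finset.sum_add_distrib]
    have h4 : ∀ b : Fin k → V, (if Function.Injective b then (1 : ℝ) else 0) +
        (if Function.Injective b then (0 : ℝ) else 1) = 1 := by
      intro b
      split_ifs <;> norm_num
    rw [Finset.sum_congr rfl fun b _ => h4 b, Finset.sum_const, Finset.card_univ,
      Fintype.card_fun, Fintype.card_fin, nsmul_eq_mul, mul_one]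
    push_cast
    rfl
  have h5 : (k : ℝ) ^ 2 * (Fintype.card V : ℝ) ^ (k - 1) ≤ (Fintype.card V : ℝ) ^ k / 2 := by
    rcases Nat.eq_zero_or_pos k with hk | hk
    · subst hk
      simp
    · have h6 : (Fintype.card V : ℝ) ^ k = (Fintype.card V : ℝ) ^ (k - 1) * Fintype.card V := by
        rw [← pow_succ]
        congr 1
        omega
      have h7 : 2 * (k : ℝ) ^ 2 ≤ Fintype.card V := by exact_mod_cast hV
      rw [h6]
      have h8 : 0 ≤ (Fintype.card V : ℝ) ^ (k - 1) := by positivity
      nlinarith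
  rw [← h2] at h3
  linarith

/-- the distance of the ordered cycle lengths and those of the induced permutation -/
noncomputable def dst (i : ℕ) {k : ℕ} (b : Fin k → V) (g : Perm V) : ℝ :=
  |top (frac g) i - top (frac (ret k b g)) i|

theorem dst_mem (i : ℕ) {k : ℕ} (b : Fin k → V) (g : Perm V) : 0 ≤ dst i b g ∧ dst i b g ≤ 1 := by
  unfold dst
  refine ⟨abs_nonneg _, ?_⟩
  have h2 := fr_mem (ret k b g) i
  have h3 := fr_mem g i
  rw [abs_le]
  constructor <;> linarith [h2.1, h2.2, h3.1, h3.2]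

open Classical in
theorem dst_sum (i k : ℕ) (hk : 0 < k) (hV : 0 < Fintype.card V) (g : Perm V) :
    ∑ b : Fin k → V, (if Function.Injective b then dst i b g else 0) ≤
      (Fintype.card V : ℝ) ^ k * (1 / Real.sqrt k + (k : ℝ) ^ 2 / Fintype.card V) := by
  have h1 := samp_set k hk (Finset.univ : Finset V) (by rw [Finset.card_univ]; exact hV) g i
  rw [Finset.card_univ] at h1
  refine le_trans (le_of_eq ?_) h1
  have e1 : Fintype.piFinset (fun _ : Fin k => (Finset.univ : Finset V)) = Finset.univ := by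
    ext z
    simp
  rw [e1]
  refine Finset.sum_congr rfl fun z _ => ?_
  rw [← Run7.h565.LC.frac_bfrac]
  unfold dst
  rw [abs_sub_comm]

end

/-- the observables -/
noncomputable def cD (i k : ℕ) : Fin (Fintype.card (Perm (Fin k)) + 1) → Ds k :=
  Fin.cons (Ds.top 1 i) (fun a => Ds.ind ((Fintype.equivFin (Perm (Fin k))).symm a))

/-- the function -/
noncomputable def cF (i k : ℕ) (v : Fin (Fintype.card (Perm (Fin k)) + 1) → ℝ) : ℝ :=
  ∑ a : Fin (Fintype.card (Perm (Fin k))), max 0 (min 1 (v a.succ)) *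
    min 1 |v 0 - top (frac ((Fintype.equivFin (Perm (Fin k))).symm a)) i|

theorem cF_cont (i k : ℕ) : Continuous (cF i k) := by
  unfold cF
  fun_prop

theorem cF_abs (i k : ℕ) (v) : |cF i k v| ≤ Fintype.card (Perm (Fin k)) := by
  unfold cF
  refine (Finset.abs_sum_le_sum_abs _ _).trans ?_
  calc ∑ a : Fin (Fintype.card (Perm (Fin k))), abs (max 0 (min 1 (v a.succ)) *
      min 1 |v 0 - top (frac ((Fintype.equivFin (Perm (Fin k))).symm a)) i|)
      ≤ ∑ _a : Fin (Fintype.card (Perm (Fin k))), (1 : ℝ) := by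
        refine Finset.sum_le_sum fun a _ => ?_
        have h1 : 0 ≤ max 0 (min 1 (v a.succ)) := le_max_left _ _
        have h2 : max 0 (min 1 (v a.succ)) ≤ 1 := max_le zero_le_one (min_le_left _ _)
        have h3 : 0 ≤ min 1 |v 0 - top (frac ((Fintype.equivFin (Perm (Fin k))).symm a)) i| :=
          le_min zero_le_one (abs_nonneg _)
        have h4 : min 1 |v 0 - top (frac ((Fintype.equivFin (Perm (Fin k))).symm a)) i| ≤ 1 :=
          min_le_left _ _
        rw [abs_of_nonneg (mul_nonneg h1 h3)]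
        exact mul_le_one₀ h2 h3 h4
    _ = Fintype.card (Perm (Fin k)) := by
        rw [Finset.sum_const, Finset.card_univ, Fintype.card_fin, nsmul_eq_mul, mul_one]

theorem cF_val {V : Type} [Fintype V] [DecidableEq V] (i k : ℕ) (b : Fin k ↪ V) (g : Perm V) :
    cF i k (fun a => (cD i k a).val b g) = dst i b g := by
  unfold cF
  have h0 : (cD i k 0).val b g = top (frac g) i := by
    change top (frac (emb b 1 * g)) i = _
    rw [emb_one, one_mul]
  have h1 : ∀ a : Fin (Fintype.card (Perm (Fin k))), (cD i k a.succ).val b g =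
      if ret k b g = (Fintype.equivFin (Perm (Fin k))).symm a then 1 else 0 := by
    intro a
    unfold cD
    rw [Fin.cons_succ]
    rfl
  beta_reduce
  rw [h0, Finset.sum_eq_single (Fintype.equivFin (Perm (Fin k)) (ret k b g))]
  · rw [h1, Equiv.symm_apply_apply, if_pos rfl]
    have h2 := dst_mem i b g
    unfold dst at h2 ⊢
    rw [min_self, max_eq_right zero_le_one, one_mul]
    exact min_eq_right h2.2
  · intro a _ ha
    rw [h1, if_neg]
    · rw [min_eq_right zero_le_one, max_self, zero_mul]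
    · intro h2
      apply ha
      rw [h2, Equiv.apply_symm_apply]
  · intro h
    exact absurd (Finset.mem_univ _) h

/-- The ordered cycle lengths can be read off from the permutation induced on any `k` points. -/
theorem close (hK : S_KPT) (d : ℕ) (hd : 3 ≤ d) : ∃ m₀ : ℕ, ∀ (i : ℕ) (δ : ℝ), 0 < δ →
    ∃ k₀ : ℕ, ∀ k, k₀ ≤ k → 0 < k → ∃ L₀ : ℕ, ∀ (L : ℕ) [NeZero L], L₀ ≤ L →
    ∀ t : ℝ, (Real.log L) ^ m₀ ≤ t → ∀ b : Fin k ↪ (Fin d → ZMod L),
    stirExp (nnRate d L) t (fun g => dst i b g) ≤ δ := by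
  classical
  obtain ⟨m₀, h⟩ := gt hK d hd
  refine ⟨m₀, fun i δ hδ => ?_⟩
  obtain ⟨k₀, hk₀⟩ := exists_nat_gt ((16 / δ) ^ 2)
  refine ⟨k₀, fun k hk hk0 => ?_⟩
  obtain ⟨c, L₀, h1, h2⟩ := h k _ (cD i k) (cF i k) (cF_cont i k) _ (cF_abs i k) (δ / 4)
    (by positivity)
  refine ⟨L₀, fun L _ hL t ht b => ?_⟩
  have h3 := h1 L hL t ht b
  simp only [cF_val] at h3
  -- the constant
  obtain ⟨n₁, hn₁⟩ := exists_nat_gt (16 * (k : ℝ) ^ 2 / δ)
  obtain ⟨n, hn⟩ : ∃ n, n = max (max L₀ n₁) (2 * k ^ 2 + 1) := ⟨_, rfl⟩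
  have hnL : L₀ ≤ n := by rw [hn]; exact (le_max_left _ _).trans (le_max_left _ _)
  have hn1 : n₁ ≤ n := by rw [hn]; exact (le_max_right _ _).trans (le_max_left _ _)
  have hn2 : 2 * k ^ 2 + 1 ≤ n := by rw [hn]; exact le_max_right _ _
  have hn0 : (0 : ℝ) < n := by exact_mod_cast (by omega : 0 < n)
  have hcn : Fintype.card (Fin n) = n := Fintype.card_fin n
  have h4 : ∀ b : Fin k ↪ Fin n, |um (fun g => dst i b g) - c| ≤ δ / 4 := by
    intro b
    have h5 := h2 (Fin n) (by rw [hcn]; exact hnL) b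
    simp only [cF_val] at h5
    exact h5
  have hfac : (0 : ℝ) < ((Fintype.card (Fin n)).factorial : ℝ) := by
    exact_mod_cast (Fintype.card (Fin n)).factorial_pos
  obtain ⟨I, hI⟩ : ∃ I : ℝ, I = ∑ b : Fin k → Fin n,
    (if Function.Injective b then (1 : ℝ) else 0) := ⟨_, rfl⟩
  have hIge : (n : ℝ) ^ k ≤ 2 * I := by
    have h5 := card_inj_ge (V := Fin n) k (by rw [hcn]; omega)
    rw [hcn] at h5
    rw [hI]
    exact h5
  have h5 : I * (c - δ / 4) ≤ (n : ℝ) ^ k * (1 / Real.sqrt k + (k : ℝ) ^ 2 / n) := by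
    have h6 : I * (c - δ / 4) ≤ ∑ b : Fin k → Fin n,
        (if Function.Injective b then um (fun g => dst i b g) else 0) := by
      rw [hI, Finset.sum_mul]
      refine Finset.sum_le_sum fun b _ => ?_
      by_cases hb : Function.Injective b
      · rw [if_pos hb, if_pos hb, one_mul]
        have h7 := h4 ⟨b, hb⟩
        rw [abs_le] at h7
        have e : ((⟨b, hb⟩ : Fin k ↪ Fin n) : Fin k → Fin n) = b := rfl
        rw [e] at h7
        linarith [h7.1]
      · rw [if_neg hb, if_neg hb, zero_mul]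
    refine h6.trans ?_
    have h7 : ∑ b : Fin k → Fin n, (if Function.Injective b then um (fun g => dst i b g) else 0) =
        um (fun g => ∑ b : Fin k → Fin n, if Function.Injective b then dst i b g else 0) := by
      unfold um
      rw [Finset.sum_comm, Finset.sum_div]
      refine Finset.sum_congr rfl fun b _ => ?_
      split_ifs with hb
      · rfl
      · simp
    rw [h7]
    unfold um
    rw [div_le_iff₀ hfac]
    calc ∑ g : Perm (Fin n), ∑ b : Fin k → Fin n, (if Function.Injective b then dst i b g else 0)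
        ≤ ∑ _g : Perm (Fin n), (n : ℝ) ^ k * (1 / Real.sqrt k + (k : ℝ) ^ 2 / n) := by
          refine Finset.sum_le_sum fun g _ => ?_
          have h8 := dst_sum i k hk0 (by rw [hcn]; omega) g
          rw [hcn] at h8
          exact h8
      _ = _ := by
          rw [Finset.sum_const, Finset.card_univ, Fintype.card_perm, nsmul_eq_mul, mul_comm]
  have h6 : 1 / Real.sqrt k + (k : ℝ) ^ 2 / n ≤ δ / 8 := by
    have h7 : 16 / δ ≤ Real.sqrt k := by
      apply Real.le_sqrt_of_sq_le
      have : (k₀ : ℝ) ≤ k := by exact_mod_cast hk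
      linarith
    have hs : 0 < Real.sqrt k := lt_of_lt_of_le (by positivity) h7
    have h8 : 1 / Real.sqrt k ≤ δ / 16 := by
      rw [div_le_div_iff₀ hs (by norm_num)]
      rw [div_le_iff₀ hδ] at h7
      linarith
    have h9 : (k : ℝ) ^ 2 / n ≤ δ / 16 := by
      rw [div_le_div_iff₀ hn0 (by norm_num)]
      rw [div_lt_iff₀ hδ] at hn₁
      have : (n₁ : ℝ) ≤ n := by exact_mod_cast hn1
      nlinarith
    linarith
  have hI0 : 0 < I := by
    have : 0 < (n : ℝ) ^ k := by positivity
    linarith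
  have h7 : I * (c - δ / 4) ≤ I * (δ / 4) := by
    refine h5.trans ?_
    calc (n : ℝ) ^ k * (1 / Real.sqrt k + (k : ℝ) ^ 2 / n) ≤ (n : ℝ) ^ k * (δ / 8) :=
          mul_le_mul_of_nonneg_left h6 (by positivity)
      _ ≤ (2 * I) * (δ / 8) := mul_le_mul_of_nonneg_right hIge (by positivity)
      _ = I * (δ / 4) := by ring
  have h8 := le_of_mul_le_mul_left h7 hI0
  rw [abs_le] at h3
  linarith [h3.2]

end Run7.h565.SM
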