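import Pool.Agent.Run7.h565.SM.Path
import Pool.Agent.Run7.h565.SM.Close

/-!
# Project SM: decorrelation in time
-/

set_option autoImplicit false

namespace Run7.h565.SM

open Finset Equiv
open Pool.Agent.TH268.PD (ret ret_spec top frac Cyc cyOf lip_approx pdm pdl pdm_close)
open Pool.Agent.Y998.LP (bfrac NN tdist law_add)
open Pool.Agent.Y998.ST (stirExp stirLaw nnRate law_nonneg nn_nonneg totalRate nn_row)
open Run7.h565.LC (S_KPT tdist_box)

section

variable {V : Type} [Fintype V] [DecidableEq V]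

/-- the mean of `G` after a further time `s` -/
noncomputable def fut (J : V → V → ℝ) (s : ℝ) (G : Perm V → ℝ) (g : Perm V) : ℝ :=
  ∑ h, stirLaw J s h * G (h * g)

theorem fut_add (J : V → V → ℝ) (s t : ℝ) (G : Perm V → ℝ) (g : Perm V) :
    fut J (s + t) G g = fut J t (fut J s G) g := by
  unfold fut
  simp only [law_add, Finset.sum_mul, Finset.mul_sum]
  rw [Finset.sum_comm]
  have h1 : ∀ k : Perm V, ∑ h, stirLaw J s k * stirLaw J t (k⁻¹ * h) * G (h * g) =
      ∑ h, stirLaw J t h * (stirLaw J s k * G (k * (h * g))) := by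
    intro k
    rw [← Equiv.sum_comp (Equiv.mulLeft k)
      (fun h => stirLaw J s k * stirLaw J t (k⁻¹ * h) * G (h * g))]
    refine Finset.sum_congr rfl fun h _ => ?_
    have e : (Equiv.mulLeft k) h = k * h := rfl
    rw [e, inv_mul_cancel_left, mul_assoc k h g]
    ring
  rw [Finset.sum_congr rfl fun k _ => h1 k, Finset.sum_comm]

theorem fut_abs {J : V → V → ℝ} (hJ : ∀ x y, 0 ≤ J x y) {s : ℝ} (hs : 0 ≤ s) (G : Perm V → ℝ)
    (M : ℝ) (hG : ∀ g, |G g| ≤ M) (g : Perm V) : |fut J s G g| ≤ M := by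
  unfold fut
  refine (Finset.abs_sum_le_sum_abs _ _).trans ?_
  calc ∑ h, |stirLaw J s h * G (h * g)| ≤ ∑ h, stirLaw J s h * M := by
        refine Finset.sum_le_sum fun h _ => ?_
        rw [abs_mul, abs_of_nonneg (law_nonneg hJ hs h)]
        exact mul_le_mul_of_nonneg_left (hG _) (law_nonneg hJ hs h)
    _ = M := by rw [← Finset.sum_mul, Pool.Agent.Y998.CN.law_sum, one_mul]

theorem fut_one (J : V → V → ℝ) (t : ℝ) (G : Perm V → ℝ) : stirExp J t G = fut J t G 1 := by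
  unfold fut stirExp
  simp only [mul_one]

end

theorem tr_nn (d L : ℕ) [NeZero L] (hL : 3 ≤ L) : totalRate (nnRate d L) = d * (L : ℝ) ^ d := by
  unfold totalRate
  have h1 : ∀ x : Fin d → ZMod L, ∑ y, nnRate d L x y / 2 = d := by
    intro x
    rw [← Finset.sum_div, nn_row hL]
    ring
  rw [Finset.sum_congr rfl fun x _ => h1 x, Finset.sum_const, Finset.card_univ,
    Fintype.card_fun, ZMod.card, Fintype.card_fin, nsmul_eq_mul]
  push_cast
  ring

theorem pth_box {d L : ℕ} [NeZero L] (i₀ : Fin d) (z : Fin d → ZMod L) (a r : ℕ) (ha : a < r)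
    (hr : r ≤ L) : pth i₀ z a ∈ Q292.LC.box z r := by
  unfold Q292.LC.box
  rw [Finset.mem_filter]
  refine ⟨Finset.mem_univ _, fun i => ?_⟩
  by_cases hi : i = i₀
  · subst hi
    unfold pth
    rw [Function.update_self, add_sub_cancel_left, ZMod.val_natCast_of_lt (by omega)]
    exact ha
  · unfold pth
    rw [Function.update_of_ne hi, sub_self, ZMod.val_zero]
    omega

theorem tdist_nn {d L : ℕ} [NeZero L] (hL : 3 ≤ L) (x y : Fin d → ZMod L)
    (h : nnRate d L x y ≠ 0) : tdist x y ≤ d * 2 := by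
  unfold nnRate at h
  have h1 : ∃ a, y = Function.update x a (x a + 1) ∨ x = Function.update y a (y a + 1) := by
    by_contra hc
    rw [if_neg hc] at h
    exact h rfl
  obtain ⟨a, ha | ha⟩ := h1
  · have h2 : y = pth a x 1 := by
      rw [ha]
      unfold pth
      rw [Nat.cast_one]
    exact tdist_box x x y 2 (Run7.h565.LC.self_mem_box x 2 (by omega))
      (by rw [h2]; exact pth_box a x 1 2 (by omega) (by omega))
  · have h2 : x = pth a y 1 := by
      rw [ha]
      unfold pth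
      rw [Nat.cast_one]
    exact tdist_box y x y 2 (by rw [h2]; exact pth_box a y 1 2 (by omega) (by omega))
      (Run7.h565.LC.self_mem_box y 2 (by omega))

/-- the core estimate on the torus -/
theorem core {d L : ℕ} [NeZero L] (hL : 3 ≤ L) (i₀ : Fin d) (n : ℕ) (hn : n + 1 ≤ L)
    (μ H : Perm (Fin d → ZMod L) → ℝ) (hμ : ∀ g, 0 ≤ μ g) (hμ1 : ∑ g, μ g = 1)
    (hH : ∀ g, |H g| ≤ 1) (T : Perm (Fin d → ZMod L) → ℝ) (A : Perm (Fin (n + 1)) → ℝ) (C : ℝ)
    (hC0 : 0 ≤ C) (hA : ∀ π, |A π| ≤ C) (ρ : ℝ)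
    (hT : ∀ b : Fin (n + 1) ↪ (Fin d → ZMod L), ∑ g, μ g * |T g - A (ret (n + 1) b g)| ≤ ρ)
    (ν : ℝ) (hν0 : 0 ≤ ν) (hν : ∀ (z : Fin d → ZMod L) (τ : Perm (Fin (n + 1))),
      ∑ g, |μ ((emb (pe i₀ (n + 1) hn z) τ)⁻¹ * g) - μ g| ≤ ν)
    (mm : ℝ) (hmm : ∀ σ : Perm (Fin (n + 1)),
      ∑ z, ∑ g, μ g * |H (emb (pe i₀ (n + 1) hn z) σ * g) - H g| ≤
        Fintype.card (Fin d → ZMod L) * mm) :
    |∑ g, μ g * (T g * H g) - mn (n + 1) A * ∑ g, μ g * H g| ≤ ρ + C * ν + C * mm := by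
  obtain ⟨c, hc⟩ : ∃ c : ℝ, c = (Fintype.card (Fin d → ZMod L) : ℝ) := ⟨_, rfl⟩
  have hc0 : 0 < c := by rw [hc]; exact_mod_cast Fintype.card_pos
  have hfac : (0 : ℝ) < ((n + 1).factorial : ℝ) := by exact_mod_cast (n + 1).factorial_pos
  obtain ⟨S, hS⟩ : ∃ S, S = ∑ g, μ g * (T g * H g) := ⟨_, rfl⟩
  have h1 : ∀ (z : Fin d → ZMod L) (σ : Perm (Fin (n + 1))),
      |S - ∑ g, μ g * (A (σ * ret (n + 1) (pe i₀ (n + 1) hn z) g) * H g)| ≤ ρ + C * ν +
        C * ∑ g, μ g * |H (emb (pe i₀ (n + 1) hn z) σ * g) - H g| := by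
    intro z σ
    obtain ⟨u, hu⟩ : ∃ u, u = pe i₀ (n + 1) hn z := ⟨_, rfl⟩
    rw [← hu]
    have a1 : |S - ∑ g, μ g * (A (ret (n + 1) u g) * H g)| ≤ ρ := by
      rw [hS, ← Finset.sum_sub_distrib]
      refine (Finset.abs_sum_le_sum_abs _ _).trans ((Finset.sum_le_sum fun g _ => ?_).trans (hT u))
      rw [← mul_sub, ← sub_mul, abs_mul, abs_mul, abs_of_nonneg (hμ g)]
      exact mul_le_mul_of_nonneg_left (mul_le_of_le_one_right (abs_nonneg _) (hH g)) (hμ g)
    have a2 := shift_le μ (emb u σ) ν (by rw [hu]; exact hν z σ)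
      (fun g => A (ret (n + 1) u g) * H g) C (fun g => by
        rw [abs_mul]
        calc |A (ret (n + 1) u g)| * |H g| ≤ C * 1 :=
              mul_le_mul (hA _) (hH g) (abs_nonneg _) hC0
          _ = C := mul_one C)
    beta_reduce at a2
    have a3 : |∑ g, μ g * (A (ret (n + 1) u (emb u σ * g)) * H (emb u σ * g)) -
        ∑ g, μ g * (A (σ * ret (n + 1) u g) * H g)| ≤
        C * ∑ g, μ g * |H (emb u σ * g) - H g| := by
      rw [← Finset.sum_sub_distrib, Finset.mul_sum]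
      refine (Finset.abs_sum_le_sum_abs _ _).trans (Finset.sum_le_sum fun g _ => ?_)
      rw [ret_emb, ← mul_sub, ← mul_sub, abs_mul, abs_mul, abs_of_nonneg (hμ g)]
      calc μ g * (|A (σ * ret (n + 1) u g)| * |H (emb u σ * g) - H g|)
          ≤ μ g * (C * |H (emb u σ * g) - H g|) :=
            mul_le_mul_of_nonneg_left (mul_le_mul_of_nonneg_right (hA _) (abs_nonneg _)) (hμ g)
        _ = C * (μ g * |H (emb u σ * g) - H g|) := by ring
    rw [abs_le] at a1 a2 a3 ⊢
    constructor <;> linarith [a1.1, a1.2, a2.1, a2.2, a3.1, a3.2]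
  have h2 : ∀ z : Fin d → ZMod L, ∑ σ : Perm (Fin (n + 1)),
      ∑ g, μ g * (A (σ * ret (n + 1) (pe i₀ (n + 1) hn z) g) * H g) =
      (n + 1).factorial * (mn (n + 1) A * ∑ g, μ g * H g) := by
    intro z
    rw [Finset.sum_comm]
    have e1 : ∀ g, ∑ σ : Perm (Fin (n + 1)),
        μ g * (A (σ * ret (n + 1) (pe i₀ (n + 1) hn z) g) * H g) =
        (∑ π, A π) * (μ g * H g) := by
      intro g
      rw [Finset.sum_mul, ← Equiv.sum_comp (Equiv.mulRight (ret (n + 1) (pe i₀ (n + 1) hn z) g))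
        (fun π => A π * (μ g * H g))]
      refine Finset.sum_congr rfl fun σ _ => ?_
      have e : (Equiv.mulRight (ret (n + 1) (pe i₀ (n + 1) hn z) g)) σ =
        σ * ret (n + 1) (pe i₀ (n + 1) hn z) g := rfl
      rw [e]
      ring
    rw [Finset.sum_congr rfl fun g _ => e1 g, ← Finset.mul_sum]
    unfold mn
    field_simp
  have h3 : c * ((n + 1).factorial * |S - mn (n + 1) A * ∑ g, μ g * H g|) ≤
      c * ((n + 1).factorial * (ρ + C * ν + C * mm)) := by
    have e1 : c * ((n + 1).factorial * |S - mn (n + 1) A * ∑ g, μ g * H g|) =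
        ∑ z : Fin d → ZMod L, |∑ σ : Perm (Fin (n + 1)),
          (S - ∑ g, μ g * (A (σ * ret (n + 1) (pe i₀ (n + 1) hn z) g) * H g))| := by
      have e2 : ∀ z : Fin d → ZMod L, |∑ σ : Perm (Fin (n + 1)),
          (S - ∑ g, μ g * (A (σ * ret (n + 1) (pe i₀ (n + 1) hn z) g) * H g))| =
          (n + 1).factorial * |S - mn (n + 1) A * ∑ g, μ g * H g| := by
        intro z
        rw [Finset.sum_sub_distrib, h2 z, Finset.sum_const, Finset.card_univ, Fintype.card_perm,
          Fintype.card_fin, nsmul_eq_mul, ← mul_sub, abs_mul, abs_of_pos hfac]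
      rw [Finset.sum_congr rfl fun z _ => e2 z, Finset.sum_const, Finset.card_univ,
        nsmul_eq_mul, hc]
    rw [e1]
    calc ∑ z : Fin d → ZMod L, |∑ σ : Perm (Fin (n + 1)),
          (S - ∑ g, μ g * (A (σ * ret (n + 1) (pe i₀ (n + 1) hn z) g) * H g))|
        ≤ ∑ z : Fin d → ZMod L, ∑ σ : Perm (Fin (n + 1)), (ρ + C * ν +
        C * ∑ g, μ g * |H (emb (pe i₀ (n + 1) hn z) σ * g) - H g|) :=
          Finset.sum_le_sum fun z _ => (Finset.abs_sum_le_sum_abs _ _).trans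
            (Finset.sum_le_sum fun σ _ => h1 z σ)
      _ = ∑ σ : Perm (Fin (n + 1)), (c * (ρ + C * ν) + C * ∑ z : Fin d → ZMod L,
          ∑ g, μ g * |H (emb (pe i₀ (n + 1) hn z) σ * g) - H g|) := by
          rw [Finset.sum_comm]
          refine Finset.sum_congr rfl fun σ _ => ?_
          rw [Finset.sum_add_distrib, Finset.sum_const, Finset.card_univ, nsmul_eq_mul, hc,
            ← Finset.mul_sum]
      _ ≤ ∑ _σ : Perm (Fin (n + 1)), (c * (ρ + C * ν) + C * (c * mm)) := by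
          refine Finset.sum_le_sum fun σ _ => ?_
          have := mul_le_mul_of_nonneg_left (hmm σ) hC0
          rw [← hc] at this
          linarith
      _ = c * ((n + 1).factorial * (ρ + C * ν + C * mm)) := by
          rw [Finset.sum_const, Finset.card_univ, Fintype.card_perm, Fintype.card_fin,
            nsmul_eq_mul]
          ring
  rw [← hS]
  exact le_of_mul_le_mul_left (le_of_mul_le_mul_left h3 hc0) hfac

/-- Decorrelation: the ordered cycle lengths at time `t` are asymptotically independent of the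
permutation at time `t + s`, if many rings occur in between. -/
theorem dec (hK : S_KPT) (d : ℕ) (hd : 3 ≤ d) : ∃ m₀ : ℕ, ∀ (m : ℕ) (f : (Fin m → ℝ) → ℝ),
    Continuous f → ∀ C : ℝ, (∀ u, |f u| ≤ C) → ∀ η : ℝ, 0 < η → ∃ (K : ℝ) (L₀ : ℕ), 0 < K ∧
    ∀ (L : ℕ) [NeZero L], L₀ ≤ L → ∀ t : ℝ, (Real.log L) ^ m₀ ≤ t →
    ∀ s : ℝ, K ≤ s * (L : ℝ) ^ d → ∀ G : Perm (Fin d → ZMod L) → ℝ, (∀ g, |G g| ≤ 1) →
    |stirExp (nnRate d L) t (fun g => f (fun i => top (frac g) i) * fut (nnRate d L) s G g) -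
      pdm f * stirExp (nnRate d L) (t + s) G| ≤ η := by
  classical
  obtain ⟨m₁, hclose⟩ := close hK d hd
  obtain ⟨C', hC'0, hdist⟩ := Pool.Agent.Y998.LQ.t_dist d (by omega)
  refine ⟨m₁ + 1, fun m f hfc C hC η hη => ?_⟩
  have hd0 : (0 : ℝ) < d := by exact_mod_cast (by omega : 0 < d)
  have hC0 : 0 ≤ C := (abs_nonneg _).trans (hC (fun _ => 0))
  obtain ⟨i₀⟩ : Nonempty (Fin d) := ⟨⟨0, by omega⟩⟩
  obtain ⟨Λ, F, hΛ, hFc, hFC, hFL, hfF⟩ := lip_approx m f hfc C hC (η / 16) (by positivity)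
  -- the number of points
  have hlim := Pool.Agent.TH268.PD.Unif.lim_um pdl hFc hFC
  rw [Metric.tendsto_atTop] at hlim
  obtain ⟨k₁, hk₁⟩ := hlim (η / 16) (by positivity)
  obtain ⟨δ, hδ⟩ : ∃ δ : ℝ, δ = η / (16 * (Λ * m + 1)) := ⟨_, rfl⟩
  have hδ0 : 0 < δ := by rw [hδ]; positivity
  choose k₀ hk₀ using fun i : Fin m => hclose i δ hδ0
  obtain ⟨n, hn⟩ : ∃ n : ℕ, n = ∑ i, k₀ i + k₁ := ⟨_, rfl⟩
  have hkn : ∀ i, k₀ i ≤ n + 1 := by
    intro i
    have := Finset.single_le_sum (f := k₀) (fun _ _ => Nat.zero_le _) (Finset.mem_univ i)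
    omega
  have e2 : |Pool.Agent.TH268.PD.um (n + 1) F - pdm F| ≤ η / 16 := by
    have := hk₁ (n + 1) (by omega)
    rw [Real.dist_eq] at this
    exact this.le
  choose L₁ hL₁ using fun i : Fin m => hk₀ i (n + 1) (hkn i) (by omega)
  choose ms hms using fun σ : Perm (Fin (n + 1)) => om_le n σ
  obtain ⟨mm, hmm⟩ : ∃ mm : ℕ, mm = ∑ σ, ms σ := ⟨_, rfl⟩
  have hmsm : ∀ σ, (ms σ : ℝ) ≤ mm := by
    intro σ
    have := Finset.single_le_sum (f := ms) (fun _ _ => Nat.zero_le _) (Finset.mem_univ σ)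
    rw [hmm]
    exact_mod_cast this
  obtain ⟨m', hm'⟩ := emb_NN (n + 1)
  obtain ⟨κ, hκ⟩ : ∃ κ : ℝ, κ = η / (64 * (d * (C + 1) * (mm + 1))) := ⟨_, rfl⟩
  have hκ0 : 0 < κ := by rw [hκ]; positivity
  obtain ⟨l, ε₀, hl, hε₀, hen⟩ := energy κ hκ0
  -- near invariance
  obtain ⟨c, hc⟩ : ∃ c : ℝ, c = m' * (C' * (d * (n + 1 : ℕ))) := ⟨_, rfl⟩
  have hc0 : 0 ≤ c := by rw [hc]; positivity
  obtain ⟨B, hB⟩ : ∃ B : ℝ, B = c * (C + 1) * (1 + 2 * mm) * 16 / η + C' * (2 * d) / ε₀ :=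
    ⟨_, rfl⟩
  have hB0 : 0 ≤ B := by rw [hB]; positivity
  refine ⟨l / (2 * d), max (max (∑ i, L₁ i) (n + 1)) (max 3 ⌈Real.exp (B ^ 2)⌉₊),
    by positivity, fun L _ hL t ht s hs G hG => ?_⟩
  have hL1 : ∀ i, L₁ i ≤ L := by
    intro i
    have := Finset.single_le_sum (f := L₁) (fun _ _ => Nat.zero_le _) (Finset.mem_univ i)
    exact this.trans ((le_max_left _ _).trans ((le_max_left _ _).trans hL))
  have hL2 : n + 1 ≤ L := (le_max_right _ _).trans ((le_max_left _ _).trans hL)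
  have hL3 : 3 ≤ L := (le_max_left _ _).trans ((le_max_right _ _).trans hL)
  have hL4 : ⌈Real.exp (B ^ 2)⌉₊ ≤ L := (le_max_right _ _).trans ((le_max_right _ _).trans hL)
  have hL0 : (0 : ℝ) < L := by exact_mod_cast (by omega : 0 < L)
  have hlog : 1 ≤ Real.log L := log_ge L hL3
  have hlogB : B ^ 2 ≤ Real.log L := by
    rw [Real.le_log_iff_exp_le hL0]
    exact (Nat.le_ceil _).trans (by exact_mod_cast hL4)
  have ht1 : Real.log L ≤ t := by
    refine le_trans ?_ ht
    exact le_self_pow₀ hlog (by omega)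
  have ht2 : (Real.log L) ^ m₁ ≤ t := (pow_le_pow_right₀ hlog (by omega)).trans ht
  have ht0 : 0 < t := by linarith
  have hst : 0 < Real.sqrt t := Real.sqrt_pos.2 ht0
  have hBt : B ≤ Real.sqrt t := Real.le_sqrt_of_sq_le (hlogB.trans ht1)
  have hLd : (0 : ℝ) < (L : ℝ) ^ d := by positivity
  obtain ⟨J, hJdef⟩ : ∃ J, J = nnRate d L := ⟨_, rfl⟩
  have hJ : ∀ x y, 0 ≤ J x y := by rw [hJdef]; exact nn_nonneg
  have hR : totalRate J = d * (L : ℝ) ^ d := by rw [hJdef]; exact tr_nn d L hL3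
  have hR0 : 0 < totalRate J := by rw [hR]; positivity
  obtain ⟨μ, hμdef⟩ : ∃ μ, μ = fun g => stirLaw J t g := ⟨_, rfl⟩
  have hμ : ∀ g, 0 ≤ μ g := by
    intro g
    rw [hμdef]
    exact law_nonneg hJ ht0.le g
  have hμ1 : ∑ g, μ g = 1 := by
    rw [hμdef]
    exact Pool.Agent.Y998.CN.law_sum _ _
  -- the energy
  obtain ⟨a, ha⟩ : ∃ a : ℝ, a = l / (2 * d) / (L : ℝ) ^ d := ⟨_, rfl⟩
  have ha0 : 0 ≤ a := by rw [ha]; positivity
  have has : a ≤ s := by rw [ha, div_le_iff₀ hLd]; exact hs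
  have hs0 : 0 ≤ s := ha0.trans has
  obtain ⟨H, hH⟩ : ∃ H, H = fut J s G := ⟨_, rfl⟩
  have hH1 : ∀ g, |H g| ≤ 1 := by
    intro g
    rw [hH]
    exact fut_abs hJ hs0 G 1 hG g
  have hns : ∀ x y, J x y ≠ 0 → ∑ g, |μ (swap x y * g) - μ g| ≤ ε₀ := by
    intro x y hxy
    have h1 : ∑ g, |μ (swap x y * g) - μ g| = NN J t (swap x y) := by
      unfold NN
      rw [hμdef, swap_inv]
    rw [h1, hJdef]
    refine (hdist L hL3 t ht0 x y).trans ?_
    rw [hJdef] at hxy
    have h2 : (tdist x y : ℝ) ≤ 2 * d := by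
      have := tdist_nn hL3 x y hxy
      have h3 : (tdist x y : ℝ) ≤ ((d * 2 : ℕ) : ℝ) := by exact_mod_cast this
      push_cast at h3
      linarith
    rw [div_le_iff₀ hst]
    have h3 : C' * (2 * d) / ε₀ ≤ Real.sqrt t := by
      refine le_trans ?_ hBt
      rw [hB]
      have : 0 ≤ c * (C + 1) * (1 + 2 * mm) * 16 / η := by positivity
      linarith
    rw [div_le_iff₀ hε₀] at h3
    nlinarith [mul_le_mul_of_nonneg_left h2 hC'0.le]
  have he : e1 J μ H ≤ κ := by
    have h1 : H = fun g => ∑ h, stirLaw J a h * fut J (s - a) G (h * g) := by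
      rw [hH]
      funext g
      have h2 := fut_add J (s - a) a G g
      rw [sub_add_cancel] at h2
      rw [h2]
      rfl
    rw [h1]
    refine hen (Fin d → ZMod L) J hJ hR0 μ hμ hμ1 hns a ?_ (fut J (s - a) G)
      (fut_abs hJ (by linarith) G 1 hG)
    rw [hR, ha]
    field_simp
  -- near invariance on paths
  obtain ⟨ν, hν⟩ : ∃ ν : ℝ, ν = c / Real.sqrt t := ⟨_, rfl⟩
  have hν0 : 0 ≤ ν := by rw [hν]; positivity
  have hNN : ∀ (z : Fin d → ZMod L) (τ : Perm (Fin (n + 1))),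
      ∑ g, |μ ((emb (pe i₀ (n + 1) hL2 z) τ)⁻¹ * g) - μ g| ≤ ν := by
    intro z τ
    have h1 : ∑ g, |μ ((emb (pe i₀ (n + 1) hL2 z) τ)⁻¹ * g) - μ g| =
        NN J t (emb (pe i₀ (n + 1) hL2 z) τ) := by
      unfold NN
      rw [hμdef]
    rw [h1, hJdef]
    have h2 := hm' (Fin d → ZMod L) (nnRate d L) t (C' * (d * (n + 1 : ℕ)) / Real.sqrt t)
      (pe i₀ (n + 1) hL2 z) (by
      intro a a'
      refine (hdist L hL3 t ht0 _ _).trans ?_
      have h2 : (tdist (pe i₀ (n + 1) hL2 z a) (pe i₀ (n + 1) hL2 z a') : ℝ) ≤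
          d * (n + 1 : ℕ) := by
        exact_mod_cast tdist_box z _ _ (n + 1) (pth_box i₀ z a (n + 1) a.isLt hL2)
          (pth_box i₀ z a' (n + 1) a'.isLt hL2)
      gcongr) (by positivity) τ
    rw [hν, hc]
    refine h2.trans (le_of_eq ?_)
    ring
  have hX : ∀ σ : Perm (Fin (n + 1)),
      ∑ z, ∑ g, μ g * |H (emb (pe i₀ (n + 1) hL2 z) σ * g) - H g| ≤
        Fintype.card (Fin d → ZMod L) * (mm * (2 * d * κ + 2 * ν)) := by
    intro σ
    have h1 := hms σ d L i₀ hL2 μ H hμ hH1 (by rw [← hJdef]; exact hR0) ν hNN hν0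
    rw [← hJdef, hR] at h1
    have hcard : (Fintype.card (Fin d → ZMod L) : ℝ) = (L : ℝ) ^ d := by
      rw [Fintype.card_fun, ZMod.card, Fintype.card_fin]
      push_cast
      rfl
    rw [hcard] at h1 ⊢
    refine h1.trans ?_
    have he0 : 0 ≤ e1 J μ H := by
      unfold e1
      exact Finset.sum_nonneg fun g _ => mul_nonneg (hμ g) (div_nonneg
        (Finset.sum_nonneg fun x _ => Finset.sum_nonneg fun y _ =>
          mul_nonneg (div_nonneg (hJ x y) two_pos.le) (abs_nonneg _)) hR0.le)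
    calc (ms σ : ℝ) * (2 * (d * (L : ℝ) ^ d) * e1 J μ H + 2 * (L : ℝ) ^ d * ν)
        ≤ mm * (2 * (d * (L : ℝ) ^ d) * κ + 2 * (L : ℝ) ^ d * ν) := by
          refine mul_le_mul (hmsm σ) ?_ (by positivity) (Nat.cast_nonneg _)
          have := mul_le_mul_of_nonneg_left he (by positivity : 0 ≤ 2 * (d * (L : ℝ) ^ d))
          linarith
      _ = (L : ℝ) ^ d * (mm * (2 * d * κ + 2 * ν)) := by ring
  -- the ordered cycle lengths from paths
  have hT : ∀ b : Fin (n + 1) ↪ (Fin d → ZMod L), ∑ g, μ g * |F (fun i => top (frac g) i) -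
      (fun π : Perm (Fin (n + 1)) => F (fun i => top (frac π) i)) (ret (n + 1) b g)| ≤
      η / 16 := by
    intro b
    beta_reduce
    have h1 : ∀ g, |F (fun i => top (frac g) i) - F (fun i => top (frac (ret (n + 1) b g)) i)| ≤
        Λ * ∑ i : Fin m, dst i b g := by
      intro g
      refine hFL _ _ _ (Finset.sum_nonneg fun i _ => (dst_mem i b g).1) fun i => ?_
      exact Finset.single_le_sum (f := fun i : Fin m => dst i b g)
        (fun i _ => (dst_mem i b g).1) (Finset.mem_univ i)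
    calc ∑ g, μ g * |F (fun i => top (frac g) i) - F (fun i => top (frac (ret (n + 1) b g)) i)|
        ≤ ∑ g, μ g * (Λ * ∑ i : Fin m, dst i b g) :=
          Finset.sum_le_sum fun g _ => mul_le_mul_of_nonneg_left (h1 g) (hμ g)
      _ = Λ * ∑ i : Fin m, stirExp J t (fun g => dst i b g) := by
          unfold stirExp
          rw [Finset.sum_comm, Finset.mul_sum]
          refine Finset.sum_congr rfl fun g _ => ?_
          rw [hμdef, ← Finset.mul_sum]
          ring
      _ ≤ Λ * ∑ _i : Fin m, δ := by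
          refine mul_le_mul_of_nonneg_left (Finset.sum_le_sum fun i _ => ?_) hΛ
          rw [hJdef]
          exact hL₁ i L (hL1 i) t ht2 b
      _ ≤ η / 16 := by
          rw [Finset.sum_const, Finset.card_univ, Fintype.card_fin, nsmul_eq_mul, hδ]
          have e : Λ * (m * (η / (16 * (Λ * m + 1)))) = (Λ * m * η) / (16 * (Λ * m + 1)) := by
            ring
          have h0 : 0 ≤ Λ * m := by positivity
          rw [e, div_le_div_iff₀ (by positivity) (by norm_num)]
          nlinarith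
  have hcore := core hL3 i₀ n hL2 μ H hμ hμ1 hH1 (fun g => F (fun i => top (frac g) i))
    (fun π => F (fun i => top (frac π) i)) C hC0 (fun π => hFC _) (η / 16) hT ν hν0 hNN
    (mm * (2 * d * κ + 2 * ν)) hX
  have hmn : mn (n + 1) (fun π => F (fun i => top (frac π) i)) =
      Pool.Agent.TH268.PD.um (n + 1) F := rfl
  rw [hmn] at hcore
  -- the error terms
  have hκ2 : C * (mm * (2 * d * κ)) ≤ η / 32 := by
    have e : C * (mm * (2 * d * κ)) = (2 * d * (C * mm) * η) / (64 * (d * (C + 1) * (mm + 1))) := by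
      rw [hκ]
      ring
    rw [e, div_le_div_iff₀ (by positivity) (by norm_num)]
    have h1 : C * mm ≤ (C + 1) * (mm + 1) := by
      have : (0 : ℝ) ≤ mm := Nat.cast_nonneg _
      nlinarith
    have h2 : (d * η) * (C * mm) ≤ (d * η) * ((C + 1) * (mm + 1)) :=
      mul_le_mul_of_nonneg_left h1 (by positivity)
    nlinarith
  have hν2 : C * ν + C * (mm * (2 * ν)) ≤ η / 16 := by
    have h1 : c * (C + 1) * (1 + 2 * mm) * 16 / η ≤ Real.sqrt t := by
      refine le_trans ?_ hBt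
      rw [hB]
      have : 0 ≤ C' * (2 * d) / ε₀ := by positivity
      linarith
    have h2 : C * ν + C * (mm * (2 * ν)) = (c * C * (1 + 2 * mm)) / Real.sqrt t := by
      rw [hν]
      ring
    rw [h2, div_le_div_iff₀ hst (by norm_num)]
    rw [div_le_iff₀ hη] at h1
    have h3 : c * C * (1 + 2 * mm) ≤ c * (C + 1) * (1 + 2 * mm) := by
      have : 0 ≤ c * (1 + 2 * mm) := by positivity
      nlinarith
    linarith
  have e3 : |∑ g, μ g * (F (fun i => top (frac g) i) * H g) -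
      Pool.Agent.TH268.PD.um (n + 1) F * ∑ g, μ g * H g| ≤ η / 4 := by
    refine hcore.trans ?_
    have : C * (mm * (2 * d * κ + 2 * ν)) = C * (mm * (2 * d * κ)) + C * (mm * (2 * ν)) := by
      ring
    rw [this]
    linarith
  -- conclusion
  have hEH : ∑ g, μ g * H g = stirExp J (t + s) G := by
    rw [add_comm, fut_one, fut_add, ← fut_one, hH, hμdef]
    rfl
  have hEH1 : |∑ g, μ g * H g| ≤ 1 := by
    refine (Finset.abs_sum_le_sum_abs _ _).trans ?_
    rw [← hμ1]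
    refine Finset.sum_le_sum fun g _ => ?_
    rw [abs_mul, abs_of_nonneg (hμ g)]
    exact mul_le_of_le_one_right (hμ g) (hH1 g)
  have e4 : |∑ g, μ g * (f (fun i => top (frac g) i) * H g) -
      ∑ g, μ g * (F (fun i => top (frac g) i) * H g)| ≤ η / 16 := by
    rw [← Finset.sum_sub_distrib]
    refine (Finset.abs_sum_le_sum_abs _ _).trans ?_
    have h1 : ∀ g ∈ (Finset.univ : Finset (Perm (Fin d → ZMod L))),
        |μ g * (f (fun i => top (frac g) i) * H g) - μ g * (F (fun i => top (frac g) i) * H g)| ≤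
          μ g * (η / 16) := by
      intro g _
      rw [← mul_sub, ← sub_mul, abs_mul, abs_mul, abs_of_nonneg (hμ g)]
      refine mul_le_mul_of_nonneg_left ?_ (hμ g)
      calc |f (fun i => top (frac g) i) - F (fun i => top (frac g) i)| * |H g|
          ≤ η / 16 * 1 := mul_le_mul (hfF _ fun i => fr_mem g i) (hH1 g) (abs_nonneg _)
            (by positivity)
        _ = η / 16 := mul_one _
    refine (Finset.sum_le_sum h1).trans (le_of_eq ?_)
    rw [← Finset.sum_mul, hμ1, one_mul]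
  have e5 : |pdm f - pdm F| ≤ η / 16 := by
    have := pdm_close pdl m f F hfc hFc C hC hFC (η / 16) hfF 1 zero_le_one le_rfl
    simpa only [one_mul] using this
  have e6 : |(Pool.Agent.TH268.PD.um (n + 1) F - pdm f) * ∑ g, μ g * H g| ≤ η / 8 := by
    rw [abs_mul]
    have h1 : |Pool.Agent.TH268.PD.um (n + 1) F - pdm f| ≤ η / 8 := by
      rw [abs_le] at e2 e5 ⊢
      constructor <;> linarith [e2.1, e2.2, e5.1, e5.2]
    calc |Pool.Agent.TH268.PD.um (n + 1) F - pdm f| * |∑ g, μ g * H g| ≤ η / 8 * 1 :=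
          mul_le_mul h1 hEH1 (abs_nonneg _) (by positivity)
      _ = η / 8 := mul_one _
  have hgoal : stirExp (nnRate d L) t (fun g => f (fun i => top (frac g) i) *
      fut (nnRate d L) s G g) = ∑ g, μ g * (f (fun i => top (frac g) i) * H g) := by
    unfold stirExp
    rw [hμdef, hH, hJdef]
  rw [hgoal, ← hJdef, ← hEH]
  rw [sub_mul] at e6
  rw [abs_le] at e3 e4 e6 ⊢
  constructor <;> linarith [e3.1, e3.2, e4.1, e4.2, e6.1, e6.2]

end Run7.h565.SM
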