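import Pool.Agent.Run7.h565.SM.ArcLaw

/-!
# Project SM: the law of the arcs between `k` points of the torus
-/

set_option autoImplicit false

namespace Run7.h565.SM

open Finset Equiv
open Pool.Agent.TH268.PD (ret ret_spec)
open Pool.Agent.Y998.ST (stirExp stirLaw nnRate law_nonneg nn_nonneg)
open Run7.h565.LC (S_KPT)

theorem um_mono {V : Type} [Fintype V] [DecidableEq V] (F G : Perm V → ℝ) (h : ∀ g, F g ≤ G g) :
    um F ≤ um G := by
  unfold um
  exact div_le_div_of_nonneg_right (Finset.sum_le_sum fun g _ => h g) (Nat.cast_nonneg _)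

theorem se_mono {V : Type} [Fintype V] [DecidableEq V] {J : V → V → ℝ} (hJ : ∀ x y, 0 ≤ J x y)
    {t : ℝ} (ht : 0 ≤ t) (F G : Perm V → ℝ) (h : ∀ g, F g ≤ G g) :
    stirExp J t F ≤ stirExp J t G :=
  Finset.sum_le_sum fun g _ => mul_le_mul_of_nonneg_left (h g) (law_nonneg hJ ht g)

open Classical in
theorem arc_law (hK : S_KPT) (d : ℕ) (hd : 3 ≤ d) : ∃ m₀ : ℕ, ∀ (k : ℕ) (η : ℝ), 0 < η →
    ∃ A : ℕ, ∀ (L : ℕ) [NeZero L], A ≤ L → ∀ t : ℝ, (Real.log L) ^ m₀ ≤ t →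
    ∀ (b : Fin k ↪ (Fin d → ZMod L)) (π : Perm (Fin k)) (α : Fin k → ℝ), (∀ i, 0 ≤ α i) →
      (∀ i, α i ≤ 1) →
      |stirExp (nnRate d L) t (fun g => if ret k b g = π then
        (if ∀ i, α i < (arcL b g i : ℝ) / Fintype.card (Fin d → ZMod L) then (1 : ℝ) else 0)
        else 0) - Ph k (∑ i, α i)| ≤ η := by
  obtain ⟨m₀, h⟩ := arc_gt hK d hd
  refine ⟨m₀, fun k η hη => ?_⟩
  -- the mesh
  obtain ⟨n₁, hn₁⟩ := exists_nat_gt (8 * (k : ℝ) ^ 2 / η)
  obtain ⟨n₀, hn₀⟩ : ∃ n₀, n₀ = n₁ + 1 := ⟨_, rfl⟩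
  have hn0 : 0 < n₀ := by omega
  have hnR : (0 : ℝ) < n₀ := by exact_mod_cast hn0
  have hmesh : (k : ℝ) * (2 * k / n₀) ≤ η / 4 := by
    have h1 : (n₁ : ℝ) ≤ n₀ := by exact_mod_cast (by omega : n₁ ≤ n₀)
    rw [div_lt_iff₀ hη] at hn₁
    have e : (k : ℝ) * (2 * k / n₀) = 2 * (k : ℝ) ^ 2 / n₀ := by ring
    rw [e, div_le_div_iff₀ hnR (by norm_num)]
    nlinarith
  have hI := fun (p : Perm (Fin k) × (Fin k → Fin (n₀ + 3))) =>
    h k p.1 (tF n₀ (fun i => (p.2 i : ℕ))) (tF_cont _ _) (fun u => tF_mem _ _ u) (η / 8)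
      (by positivity)
  choose c L₁ hc1 hc2 using hI
  obtain ⟨A₁, hA₁⟩ : ∃ A₁, A₁ = ∑ p, L₁ p := ⟨_, rfl⟩
  have hL₁ : ∀ p, L₁ p ≤ A₁ := fun p => by
    rw [hA₁]
    exact Finset.single_le_sum (f := L₁) (fun _ _ => Nat.zero_le _) (Finset.mem_univ p)
  -- uniform permutations
  obtain ⟨N₁, hN₁⟩ := exists_nat_gt (16 * (k : ℝ) ^ 2 / η)
  obtain ⟨N, hN⟩ : ∃ N, N = A₁ + N₁ + k + 1 := ⟨_, rfl⟩
  have hN0 : 0 < N := by omega
  have hNR : (0 : ℝ) < N := by exact_mod_cast hN0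
  have hcN : Fintype.card (Fin N) = N := Fintype.card_fin N
  have hNe : 2 * (k : ℝ) ^ 2 / N ≤ η / 8 := by
    have h1 : (N₁ : ℝ) ≤ N := by exact_mod_cast (by omega : N₁ ≤ N)
    rw [div_lt_iff₀ hη] at hN₁
    rw [div_le_div_iff₀ hNR (by norm_num)]
    nlinarith
  obtain ⟨b₀⟩ : Nonempty (Fin k ↪ Fin N) := ⟨Fin.castLEEmb (by omega)⟩
  have hcu : ∀ (p : Perm (Fin k) × (Fin k → Fin (n₀ + 3))) (γ : Fin k → ℝ), (∀ i, 0 ≤ γ i) →
      (∀ i, γ i * n₀ ≤ max 0 (((p.2 i : ℕ) : ℝ) - 1)) → c p ≤ Ph k (∑ i, γ i) + η / 4 := by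
    intro p γ hγ0 hγ
    have h1 := hc2 p (Fin N) (by rw [hcN]; have := hL₁ p; omega) b₀
    have h2 := um_arc b₀ (by rw [hcN]; exact hN0) p.1 γ hγ0
    have h3 := um_mono (fun g => if ret k b₀ g = p.1 then
        tF n₀ (fun i => (p.2 i : ℕ)) (fun i => (arcL b₀ g i : ℝ) / Fintype.card (Fin N)) else 0)
      (fun g => if ret k b₀ g = p.1 then
        (if ∀ i, γ i < (arcL b₀ g i : ℝ) / Fintype.card (Fin N) then (1 : ℝ) else 0) else 0)
      (fun g => by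
        beta_reduce
        split_ifs with h4 h5
        · exact (tF_mem _ _ _).2
        · have h6 := tF_le n₀ hn0 (fun i => (p.2 i : ℕ))
            (fun i => (arcL b₀ g i : ℝ) / Fintype.card (Fin N)) γ (fun i => by
              have := (arcL_spec b₀.injective g i).1
              rw [hcN]
              have h7 : (0 : ℝ) < arcL b₀ g i := by exact_mod_cast this
              positivity) hγ
          rwa [if_neg h5] at h6
        · exact le_rfl)
    rw [hcN] at h1 h2 h3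
    rw [abs_le] at h1 h2
    linarith [h1.1, h1.2, h2.1, h2.2]
  have hcl : ∀ (p : Perm (Fin k) × (Fin k → Fin (n₀ + 3))) (γ : Fin k → ℝ), (∀ i, 0 ≤ γ i) →
      (∀ i, ((p.2 i : ℕ) : ℝ) ≤ γ i * n₀) → Ph k (∑ i, γ i) - η / 4 ≤ c p := by
    intro p γ hγ0 hγ
    have h1 := hc2 p (Fin N) (by rw [hcN]; have := hL₁ p; omega) b₀
    have h2 := um_arc b₀ (by rw [hcN]; exact hN0) p.1 γ hγ0
    have h3 := um_mono (fun g => if ret k b₀ g = p.1 then
        (if ∀ i, γ i < (arcL b₀ g i : ℝ) / Fintype.card (Fin N) then (1 : ℝ) else 0) else 0)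
      (fun g => if ret k b₀ g = p.1 then
        tF n₀ (fun i => (p.2 i : ℕ)) (fun i => (arcL b₀ g i : ℝ) / Fintype.card (Fin N)) else 0)
      (fun g => by
        beta_reduce
        by_cases h4 : ret k b₀ g = p.1
        · rw [if_pos h4, if_pos h4]
          exact tF_ge n₀ (fun i => (p.2 i : ℕ))
            (fun i => (arcL b₀ g i : ℝ) / Fintype.card (Fin N)) γ hγ
        · rw [if_neg h4, if_neg h4])
    rw [hcN] at h1 h2 h3
    rw [abs_le] at h1 h2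
    linarith [h1.1, h1.2, h2.1, h2.2]
  -- the torus
  refine ⟨max A₁ 3, fun L _ hL t ht b π α hα0 hα1 => ?_⟩
  have hlog := log_ge L ((le_max_right _ _).trans hL)
  have ht0 : 0 ≤ t := le_trans (by positivity) ht
  have hLA : ∀ p, L₁ p ≤ L := fun p => (hL₁ p).trans ((le_max_left _ _).trans hL)
  have hJ : ∀ x y, 0 ≤ nnRate d L x y := nn_nonneg
  have hfl1 : ∀ i, (⌊α i * n₀⌋₊ : ℝ) ≤ α i * n₀ := fun i =>
    Nat.floor_le (mul_nonneg (hα0 i) hnR.le)
  have hfl2 : ∀ i, α i * n₀ < ⌊α i * n₀⌋₊ + 1 := fun i => Nat.lt_floor_add_one _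
  have hfl3 : ∀ i, ⌊α i * n₀⌋₊ ≤ n₀ := fun i => by
    have h1 : (⌊α i * n₀⌋₊ : ℝ) ≤ n₀ := (hfl1 i).trans (by nlinarith [hα1 i])
    exact_mod_cast h1
  obtain ⟨X, hX⟩ : ∃ X, X = stirExp (nnRate d L) t (fun g => if ret k b g = π then
        (if ∀ i, α i < (arcL b g i : ℝ) / Fintype.card (Fin d → ZMod L) then (1 : ℝ) else 0)
        else 0) := ⟨_, rfl⟩
  rw [← hX]
  have hsum0 : 0 ≤ ∑ i, α i := Finset.sum_nonneg fun i _ => hα0 i
  -- upper bound
  have hup : X ≤ Ph k (∑ i, α i) + η := by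
    obtain ⟨p, hp⟩ : ∃ p : Perm (Fin k) × (Fin k → Fin (n₀ + 3)),
      p = (π, fun i => ⟨⌊α i * n₀⌋₊, by have := hfl3 i; omega⟩) := ⟨_, rfl⟩
    have hp1 : p.1 = π := by rw [hp]
    have hp2 : ∀ i, ((p.2 i : ℕ) : ℝ) = (⌊α i * n₀⌋₊ : ℝ) := fun i => by rw [hp]
    have h1 := hc1 p L (hLA p) t ht b
    have h2 : X ≤ stirExp (nnRate d L) t (fun g => if ret k b g = p.1 then
        tF n₀ (fun i => (p.2 i : ℕ)) (fun i => (arcL b g i : ℝ) /
          Fintype.card (Fin d → ZMod L)) else 0) := by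
      rw [hX, hp1]
      refine se_mono hJ ht0 _ _ fun g => ?_
      by_cases h4 : ret k b g = π
      · rw [if_pos h4, if_pos h4]
        refine tF_ge n₀ (fun i => (p.2 i : ℕ)) _ α fun i => ?_
        rw [hp2]
        exact hfl1 i
      · rw [if_neg h4, if_neg h4]
    obtain ⟨γ, hγ⟩ : ∃ γ : Fin k → ℝ, γ = fun i => max 0 (((⌊α i * n₀⌋₊ : ℝ) - 1) / n₀) :=
      ⟨_, rfl⟩
    have hγ0 : ∀ i, 0 ≤ γ i := fun i => by rw [hγ]; exact le_max_left _ _
    have h3 := hcu p γ hγ0 (fun i => by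
      rw [hp2, hγ]
      beta_reduce
      rw [max_mul_of_nonneg _ _ hnR.le, zero_mul, div_mul_cancel₀ _ hnR.ne'])
    have hγα : ∀ i, |γ i - α i| ≤ 2 / n₀ := by
      intro i
      have e1 : ((⌊α i * n₀⌋₊ : ℝ) - 1) / n₀ ≤ α i := by
        rw [div_le_iff₀ hnR]
        linarith [hfl1 i]
      have e2 : α i - 2 / n₀ ≤ ((⌊α i * n₀⌋₊ : ℝ) - 1) / n₀ := by
        rw [le_div_iff₀ hnR, sub_mul, div_mul_cancel₀ _ hnR.ne']
        linarith [hfl2 i]
      have e3 : γ i ≤ α i := by rw [hγ]; exact max_le (hα0 i) e1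
      have e4 : ((⌊α i * n₀⌋₊ : ℝ) - 1) / n₀ ≤ γ i := by rw [hγ]; exact le_max_right _ _
      have e5 : (0 : ℝ) ≤ 2 / n₀ := by positivity
      rw [abs_le]
      constructor <;> linarith
    have h4 := Ph_lip k (Finset.sum_nonneg fun i _ => hγ0 i : 0 ≤ ∑ i, γ i) hsum0
    have h5 : |∑ i, γ i - ∑ i, α i| ≤ 2 * k / n₀ := by
      rw [← Finset.sum_sub_distrib]
      refine (Finset.abs_sum_le_sum_abs _ _).trans ((Finset.sum_le_sum fun i _ => hγα i).trans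
        (le_of_eq ?_))
      rw [Finset.sum_const, Finset.card_univ, Fintype.card_fin, nsmul_eq_mul]
      ring
    have h6 := mul_le_mul_of_nonneg_left h5 (Nat.cast_nonneg (α := ℝ) k)
    rw [abs_le] at h1 h4
    linarith [h1.1, h1.2, h4.1, h4.2]
  -- lower bound
  have hlo : Ph k (∑ i, α i) - η ≤ X := by
    obtain ⟨p, hp⟩ : ∃ p : Perm (Fin k) × (Fin k → Fin (n₀ + 3)),
      p = (π, fun i => ⟨⌊α i * n₀⌋₊ + 2, by have := hfl3 i; omega⟩) := ⟨_, rfl⟩
    have hp1 : p.1 = π := by rw [hp]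
    have hp2 : ∀ i, ((p.2 i : ℕ) : ℝ) = (⌊α i * n₀⌋₊ : ℝ) + 2 := fun i => by
      rw [hp]
      push_cast
      rfl
    have h1 := hc1 p L (hLA p) t ht b
    have h2 : stirExp (nnRate d L) t (fun g => if ret k b g = p.1 then
        tF n₀ (fun i => (p.2 i : ℕ)) (fun i => (arcL b g i : ℝ) /
          Fintype.card (Fin d → ZMod L)) else 0) ≤ X := by
      rw [hX, hp1]
      refine se_mono hJ ht0 _ _ fun g => ?_
      by_cases h4 : ret k b g = π
      · rw [if_pos h4, if_pos h4]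
        refine tF_le n₀ hn0 (fun i => (p.2 i : ℕ)) _ α (fun i => ?_) fun i => ?_
        · have h5 := (arcL_spec b.injective g i).1
          have h7 : (0 : ℝ) < arcL b g i := by exact_mod_cast h5
          have h8 : (0 : ℝ) < Fintype.card (Fin d → ZMod L) := by exact_mod_cast Fintype.card_pos
          positivity
        · rw [hp2]
          exact le_max_of_le_right (by linarith [hfl2 i])
      · rw [if_neg h4, if_neg h4]
    obtain ⟨γ, hγ⟩ : ∃ γ : Fin k → ℝ, γ = fun i => ((⌊α i * n₀⌋₊ : ℝ) + 2) / n₀ := ⟨_, rfl⟩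
    have hγ0 : ∀ i, 0 ≤ γ i := fun i => by rw [hγ]; positivity
    have h3 := hcl p γ hγ0 (fun i => by
      rw [hp2, hγ]
      beta_reduce
      rw [div_mul_cancel₀ _ hnR.ne'])
    have hγα : ∀ i, |γ i - α i| ≤ 2 / n₀ := by
      intro i
      have e1 : γ i ≤ α i + 2 / n₀ := by
        rw [hγ]
        beta_reduce
        rw [div_le_iff₀ hnR, add_mul, div_mul_cancel₀ _ hnR.ne']
        linarith [hfl1 i]
      have e2 : α i ≤ γ i := by
        rw [hγ]
        beta_reduce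
        rw [le_div_iff₀ hnR]
        linarith [hfl2 i]
      have e5 : (0 : ℝ) ≤ 2 / n₀ := by positivity
      rw [abs_le]
      constructor <;> linarith
    have h4 := Ph_lip k (Finset.sum_nonneg fun i _ => hγ0 i : 0 ≤ ∑ i, γ i) hsum0
    have h5 : |∑ i, γ i - ∑ i, α i| ≤ 2 * k / n₀ := by
      rw [← Finset.sum_sub_distrib]
      refine (Finset.abs_sum_le_sum_abs _ _).trans ((Finset.sum_le_sum fun i _ => hγα i).trans
        (le_of_eq ?_))
      rw [Finset.sum_const, Finset.card_univ, Fintype.card_fin, nsmul_eq_mul]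
      ring
    have h6 := mul_le_mul_of_nonneg_left h5 (Nat.cast_nonneg (α := ℝ) k)
    rw [abs_le] at h1 h4
    linarith [h1.1, h1.2, h4.1, h4.2]
  rw [abs_le]
  constructor <;> linarith

end Run7.h565.SM
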