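import Pool.Agent.Run7.h565.SM.ArcObs

/-!
# Project SM: the law of the arcs between `k` points
-/

set_option autoImplicit false

namespace Run7.h565.SM

open Finset Equiv
open Pool.Agent.TH268.PD (ret ret_spec)
open Pool.Agent.Y998.ST (stirExp stirLaw nnRate law_nonneg nn_nonneg)
open Run7.h565.LC (S_KPT)

/-- the limit -/
noncomputable def Ph (k : ℕ) (s : ℝ) : ℝ := (max 0 (1 - s)) ^ k / (k.factorial : ℝ)

theorem pow_lip (k : ℕ) {a b : ℝ} (ha0 : 0 ≤ a) (ha1 : a ≤ 1) (hb0 : 0 ≤ b) (hb1 : b ≤ 1) :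
    |a ^ k - b ^ k| ≤ k * |a - b| := by
  have h1 := abs_pow_sub_pow_le a b k
  have h2 : max |a| |b| ^ (k - 1) ≤ 1 := by
    refine pow_le_one₀ (le_max_of_le_left (abs_nonneg _)) ?_
    rw [abs_of_nonneg ha0, abs_of_nonneg hb0]
    exact max_le ha1 hb1
  calc |a ^ k - b ^ k| ≤ |a - b| * k * max |a| |b| ^ (k - 1) := h1
    _ ≤ |a - b| * k * 1 := mul_le_mul_of_nonneg_left h2 (by positivity)
    _ = k * |a - b| := by ring

theorem Ph_lip (k : ℕ) {s r : ℝ} (hs : 0 ≤ s) (hr : 0 ≤ r) : |Ph k s - Ph k r| ≤ k * |s - r| := by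
  unfold Ph
  have hf : (1 : ℝ) ≤ (k.factorial : ℝ) := by exact_mod_cast Nat.succ_le_of_lt k.factorial_pos
  rw [← sub_div, abs_div, abs_of_pos (lt_of_lt_of_le one_pos hf), div_le_iff₀ (by linarith)]
  have h1 := pow_lip k (a := max 0 (1 - s)) (b := max 0 (1 - r)) (le_max_left _ _)
    (max_le zero_le_one (by linarith)) (le_max_left _ _) (max_le zero_le_one (by linarith))
  have h2 : |max 0 (1 - s) - max 0 (1 - r)| ≤ |s - r| := by
    have := abs_max_sub_max_le_max 0 (1 - s) 0 (1 - r)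
    refine this.trans (max_le (by rw [sub_self, abs_zero]; exact abs_nonneg _) ?_)
    rw [abs_sub_comm s r]
    exact le_of_eq (congrArg _ (by ring))
  have h3 : (k : ℝ) * |max 0 (1 - s) - max 0 (1 - r)| ≤ k * |s - r| :=
    mul_le_mul_of_nonneg_left h2 (Nat.cast_nonneg _)
  have h4 : 0 ≤ (k : ℝ) * |s - r| := by positivity
  nlinarith

theorem Ph_anti (k : ℕ) {s r : ℝ} (h : s ≤ r) : Ph k r ≤ Ph k s := by
  unfold Ph
  refine div_le_div_of_nonneg_right ?_ (Nat.cast_nonneg _)
  exact pow_le_pow_left₀ (le_max_left _ _) (max_le_max le_rfl (by linarith)) k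

theorem desc_le (k n N : ℕ) (h : n ≤ N) :
    n.descFactorial k * N ^ k ≤ n ^ k * N.descFactorial k := by
  induction k with
  | zero => simp
  | succ k ih =>
    rw [Nat.descFactorial_succ, Nat.descFactorial_succ, pow_succ, pow_succ]
    have h1 : (n - k) * N ≤ n * (N - k) := by
      rcases Nat.lt_or_ge n k with h2 | h2
      · rw [Nat.sub_eq_zero_of_le h2.le, zero_mul]
        exact Nat.zero_le _
      · obtain ⟨a, rfl⟩ := Nat.exists_eq_add_of_le h2
        obtain ⟨c, rfl⟩ := Nat.exists_eq_add_of_le h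
        have e1 : k + a - k = a := by omega
        have e2 : k + a + c - k = a + c := by omega
        rw [e1, e2]
        nlinarith [Nat.zero_le (k * c)]
    calc (n - k) * n.descFactorial k * (N ^ k * N) = ((n - k) * N) * (n.descFactorial k * N ^ k) := by
          ring
      _ ≤ (n * (N - k)) * (n ^ k * N.descFactorial k) := Nat.mul_le_mul h1 ih
      _ = n ^ k * n * ((N - k) * N.descFactorial k) := by ring

theorem desc_ratio (k n N : ℕ) (h : n ≤ N) (hk : k ≤ N) (hN : 0 < N) (z : ℝ) (hz0 : 0 ≤ z)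
    (hz1 : z ≤ 1) (hz : |(n : ℝ) / N - z| ≤ k / N) :
    |(n.descFactorial k : ℝ) / N.descFactorial k - z ^ k| ≤ 2 * (k : ℝ) ^ 2 / N := by
  have hNR : (0 : ℝ) < N := by exact_mod_cast hN
  have hD : 0 < N.descFactorial k := Nat.descFactorial_pos.2 hk
  have hDR : (0 : ℝ) < N.descFactorial k := by exact_mod_cast hD
  obtain ⟨y, hy⟩ : ∃ y : ℝ, y = (n : ℝ) / N := ⟨_, rfl⟩
  have hy0 : 0 ≤ y := by rw [hy]; positivity
  have hy1 : y ≤ 1 := by
    rw [hy, div_le_one hNR]
    exact_mod_cast h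
  rw [← hy] at hz
  have h1 : (n.descFactorial k : ℝ) / N.descFactorial k ≤ y ^ k := by
    rw [hy, div_pow, div_le_div_iff₀ hDR (by positivity)]
    exact_mod_cast desc_le k n N h
  obtain ⟨w, hw⟩ : ∃ w : ℝ, w = max 0 (y - k / N) := ⟨_, rfl⟩
  have hw0 : 0 ≤ w := by rw [hw]; exact le_max_left _ _
  have hkN : (0 : ℝ) ≤ k / N := by positivity
  have hw1 : w ≤ 1 := by rw [hw]; exact max_le zero_le_one (by linarith)
  have h2 : w ^ k ≤ (n.descFactorial k : ℝ) / N.descFactorial k := by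
    rw [le_div_iff₀ hDR]
    have h3 : (N.descFactorial k : ℝ) ≤ (N : ℝ) ^ k := by exact_mod_cast Nat.descFactorial_le_pow N k
    have h4 : (((n + 1 - k : ℕ) : ℝ)) ^ k ≤ n.descFactorial k := by
      exact_mod_cast Nat.pow_sub_le_descFactorial n k
    have h5 : w * N ≤ ((n + 1 - k : ℕ) : ℝ) := by
      rw [hw, max_mul_of_nonneg _ _ hNR.le, zero_mul]
      refine max_le (Nat.cast_nonneg _) ?_
      have e : (y - k / N) * N = n - k := by
        rw [hy]
        field_simp
      rw [e]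
      have h6 : n ≤ (n + 1 - k) + k := by omega
      have h7 : (n : ℝ) ≤ ((n + 1 - k : ℕ) : ℝ) + k := by exact_mod_cast h6
      linarith
    calc w ^ k * N.descFactorial k ≤ w ^ k * (N : ℝ) ^ k :=
          mul_le_mul_of_nonneg_left h3 (by positivity)
      _ = (w * N) ^ k := (mul_pow _ _ _).symm
      _ ≤ (((n + 1 - k : ℕ) : ℝ)) ^ k := pow_le_pow_left₀ (by positivity) h5 k
      _ ≤ n.descFactorial k := h4
  have h3 := pow_lip k hy0 hy1 hz0 hz1
  have h4 := pow_lip k hw0 hw1 hz0 hz1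
  have h5 : |w - z| ≤ 2 * (k / N) := by
    have h6 : |w - y| ≤ k / N := by
      rw [hw, abs_le]
      constructor
      · linarith [le_max_right 0 (y - k / N)]
      · have : max 0 (y - k / N) ≤ y := max_le hy0 (by linarith)
        linarith
    have := abs_sub_le w y z
    linarith
  have h6 : (k : ℝ) * |y - z| ≤ k * (k / N) := mul_le_mul_of_nonneg_left hz (Nat.cast_nonneg _)
  have h7 : (k : ℝ) * |w - z| ≤ k * (2 * (k / N)) :=
    mul_le_mul_of_nonneg_left h5 (Nat.cast_nonneg _)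
  have e1 : (k : ℝ) * (k / N) = (k : ℝ) ^ 2 / N := by ring
  have e2 : (k : ℝ) * (2 * (k / N)) = 2 * (k : ℝ) ^ 2 / N := by ring
  have e3 : (k : ℝ) ^ 2 / N ≤ 2 * (k : ℝ) ^ 2 / N := by
    have : 0 ≤ (k : ℝ) ^ 2 / N := by positivity
    have e : 2 * (k : ℝ) ^ 2 / N = (k : ℝ) ^ 2 / N + (k : ℝ) ^ 2 / N := by ring
    linarith
  rw [e1] at h6
  rw [e2] at h7
  rw [abs_le] at h3 h4 ⊢
  constructor <;> linarith [h3.1, h3.2, h4.1, h4.2]

section

variable {V : Type} [Fintype V] [DecidableEq V] {k : ℕ}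

open Classical in
/-- uniform permutations -/
theorem um_arc (b : Fin k ↪ V) (hV : 0 < Fintype.card V) (π : Perm (Fin k)) (γ : Fin k → ℝ)
    (hγ : ∀ i, 0 ≤ γ i) :
    |um (fun g => if ret k b g = π then
      (if ∀ i, γ i < (arcL b g i : ℝ) / Fintype.card V then (1 : ℝ) else 0) else 0) -
      Ph k (∑ i, γ i)| ≤ 2 * (k : ℝ) ^ 2 / Fintype.card V := by
  obtain ⟨N, hN⟩ : ∃ N, N = Fintype.card V := ⟨_, rfl⟩
  rw [← hN] at hV ⊢
  have hNR : (0 : ℝ) < N := by exact_mod_cast hV
  obtain ⟨m, hm⟩ : ∃ m : Fin k → ℕ, m = fun i => ⌊γ i * N⌋₊ := ⟨_, rfl⟩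
  have hm1 : ∀ i, (m i : ℝ) ≤ γ i * N := fun i => by
    rw [hm]
    exact Nat.floor_le (mul_nonneg (hγ i) hNR.le)
  have hm2 : ∀ i, γ i * N < m i + 1 := fun i => by
    rw [hm]
    exact Nat.lt_floor_add_one _
  have hkN : k ≤ N := by
    rw [hN]
    simpa using Fintype.card_le_of_embedding b
  have hfac : (0 : ℝ) < (k.factorial : ℝ) := by exact_mod_cast k.factorial_pos
  have hf1 : (1 : ℝ) ≤ (k.factorial : ℝ) := by exact_mod_cast Nat.succ_le_of_lt k.factorial_pos
  have hNfac : (0 : ℝ) < (N.factorial : ℝ) := by exact_mod_cast N.factorial_pos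
  have h1 : um (fun g => if ret k b g = π then
      (if ∀ i, γ i < (arcL b g i : ℝ) / N then (1 : ℝ) else 0) else 0) =
      ((Es b m).card : ℝ) / (k.factorial * N.factorial) := by
    have h2 := es_ret b m π
    have h3 : ∑ g : Perm V, (if ret k b g = π then
      (if ∀ i, γ i < (arcL b g i : ℝ) / N then (1 : ℝ) else 0) else 0) =
      (((Es b m).filter fun g => ret k b g = π).card : ℝ) := by
      rw [Finset.card_filter, Nat.cast_sum, Es, Finset.sum_filter]
      refine Finset.sum_congr rfl fun g _ => ?_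
      have h4 : (∀ i, γ i < (arcL b g i : ℝ) / N) ↔ Fr b m g := by
        rw [← arc_fr b.injective]
        refine forall_congr' fun i => ?_
        rw [lt_div_iff₀ hNR, hm, Nat.floor_lt (mul_nonneg (hγ i) hNR.le)]
      by_cases hr : ret k b g = π <;> by_cases hF : Fr b m g <;>
        simp [hr, hF, h4]
    unfold um
    rw [h3, ← hN, ← h2]
    push_cast
    field_simp
  rw [h1]
  obtain ⟨M, hM⟩ : ∃ M, M = ∑ i, m i := ⟨_, rfl⟩
  have hMR : (M : ℝ) = ∑ i, (m i : ℝ) := by rw [hM]; push_cast; rfl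
  have hMu : (M : ℝ) ≤ (∑ i, γ i) * N := by
    rw [hMR, Finset.sum_mul]
    exact Finset.sum_le_sum fun i _ => hm1 i
  have hMl : (∑ i, γ i) * N ≤ M + k := by
    rw [hMR, Finset.sum_mul]
    calc ∑ i, γ i * N ≤ ∑ i, ((m i : ℝ) + 1) := Finset.sum_le_sum fun i _ => (hm2 i).le
      _ = ∑ i, (m i : ℝ) + k := by
        rw [Finset.sum_add_distrib, Finset.sum_const, Finset.card_univ, Fintype.card_fin,
          nsmul_eq_mul, mul_one]
  have hs0 : 0 ≤ ∑ i, γ i := Finset.sum_nonneg fun i _ => hγ i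
  rcases Nat.lt_or_ge N M with hlt | hge
  · -- empty
    have h2 : Es b m = ∅ := es_empty b.injective m (by rw [← hM, ← hN]; omega)
    have hk0 : k ≠ 0 := by
      rintro rfl
      simp at hM
      omega
    have h3 : 1 < ∑ i, γ i := by
      have : (N : ℝ) < M := by exact_mod_cast hlt
      by_contra hc
      push Not at hc
      nlinarith
    have h4 : Ph k (∑ i, γ i) = 0 := by
      unfold Ph
      rw [max_eq_left (by linarith), zero_pow hk0, zero_div]
    rw [h2, h4, Finset.card_empty, Nat.cast_zero, zero_div, sub_self, abs_zero]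
    positivity
  · have h2 := es_card b.injective M (by rw [← hN]; exact hge) m hM.symm
    rw [← hN] at h2
    obtain ⟨n, hn⟩ : ∃ n, n = N - M := ⟨_, rfl⟩
    rw [← hn] at h2
    have hDR : (0 : ℝ) < N.descFactorial k := by
      exact_mod_cast Nat.descFactorial_pos.2 hkN
    have h3 : ((Es b m).card : ℝ) * N.descFactorial k = N.factorial * n.descFactorial k := by
      exact_mod_cast h2
    have h4 : ((Es b m).card : ℝ) / (k.factorial * N.factorial) =
        ((n.descFactorial k : ℝ) / N.descFactorial k) / k.factorial := by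
      rw [div_div, div_eq_div_iff (by positivity) (by positivity)]
      calc ((Es b m).card : ℝ) * (N.descFactorial k * k.factorial) =
            (((Es b m).card : ℝ) * N.descFactorial k) * k.factorial := by ring
        _ = _ := by rw [h3]; ring
    have hnR : (n : ℝ) = N - M := by rw [hn, Nat.cast_sub hge]
    have h5 := desc_ratio k n N (by omega) hkN hV (max 0 (1 - ∑ i, γ i)) (le_max_left _ _)
      (max_le zero_le_one (by linarith)) (by
        have h6 : (n : ℝ) / N = max 0 ((n : ℝ) / N) := (max_eq_right (by positivity)).symm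
        rw [h6]
        refine (abs_max_sub_max_le_max _ _ _ _).trans (max_le ?_ ?_)
        · rw [sub_self, abs_zero]
          positivity
        · have e : (n : ℝ) / N - (1 - ∑ i, γ i) = ((∑ i, γ i) * N - M) / N := by
            rw [hnR]
            field_simp
            ring
          rw [e, abs_div, abs_of_pos hNR]
          refine div_le_div_of_nonneg_right ?_ hNR.le
          rw [abs_le]
          constructor
          · have : (0 : ℝ) ≤ k := Nat.cast_nonneg _
            linarith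
          · linarith)
    rw [h4]
    unfold Ph
    rw [← sub_div, abs_div, abs_of_pos hfac, div_le_iff₀ hfac]
    have h6 : 0 ≤ 2 * (k : ℝ) ^ 2 / N := by positivity
    nlinarith

end

/-- ramp -/
noncomputable def rp (y : ℝ) : ℝ := max 0 (min 1 y)

theorem rp_mem (y : ℝ) : 0 ≤ rp y ∧ rp y ≤ 1 :=
  ⟨le_max_left _ _, max_le zero_le_one (min_le_left _ _)⟩

theorem rp_one {y : ℝ} (h : 1 ≤ y) : rp y = 1 := by
  unfold rp
  rw [min_eq_left h, max_eq_right zero_le_one]

theorem rp_zero {y : ℝ} (h : y ≤ 0) : rp y = 0 := by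
  unfold rp
  rw [min_eq_right (by linarith), max_eq_left h]

/-- the test functions -/
noncomputable def tF {k : ℕ} (n₀ : ℕ) (β : Fin k → ℕ) (x : Fin k → ℝ) : ℝ :=
  ∏ i, rp (x i * n₀ - (β i - 1))

theorem tF_mem {k : ℕ} (n₀ : ℕ) (β : Fin k → ℕ) (x : Fin k → ℝ) :
    0 ≤ tF n₀ β x ∧ tF n₀ β x ≤ 1 := by
  unfold tF
  exact ⟨Finset.prod_nonneg fun i _ => (rp_mem _).1,
    Finset.prod_le_one (fun i _ => (rp_mem _).1) fun i _ => (rp_mem _).2⟩

theorem tF_cont {k : ℕ} (n₀ : ℕ) (β : Fin k → ℕ) : Continuous (tF n₀ β) := by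
  unfold tF rp
  fun_prop

open Classical in
theorem tF_ge {k : ℕ} (n₀ : ℕ) (β : Fin k → ℕ) (x : Fin k → ℝ) (γ : Fin k → ℝ)
    (h : ∀ i, (β i : ℝ) ≤ γ i * n₀) :
    (if ∀ i, γ i < x i then (1 : ℝ) else 0) ≤ tF n₀ β x := by
  split_ifs with hx
  · unfold tF
    rw [Finset.prod_eq_one fun i _ => rp_one ?_]
    have h1 := h i
    have h2 : γ i * n₀ ≤ x i * n₀ := mul_le_mul_of_nonneg_right (hx i).le (Nat.cast_nonneg _)
    linarith
  · exact (tF_mem n₀ β x).1

open Classical in
theorem tF_le {k : ℕ} (n₀ : ℕ) (hn : 0 < n₀) (β : Fin k → ℕ) (x : Fin k → ℝ) (γ : Fin k → ℝ)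
    (hx0 : ∀ i, 0 < x i) (h : ∀ i, γ i * n₀ ≤ max 0 ((β i : ℝ) - 1)) :
    tF n₀ β x ≤ (if ∀ i, γ i < x i then (1 : ℝ) else 0) := by
  have hnR : (0 : ℝ) < n₀ := by exact_mod_cast hn
  split_ifs with hx
  · exact (tF_mem n₀ β x).2
  · push Not at hx
    obtain ⟨i, hi⟩ := hx
    refine le_of_eq ?_
    unfold tF
    refine Finset.prod_eq_zero (Finset.mem_univ i) (rp_zero ?_)
    have h1 := h i
    have h2 : x i * n₀ ≤ γ i * n₀ := mul_le_mul_of_nonneg_right hi hnR.le
    have h3 : 0 < x i * n₀ := mul_pos (hx0 i) hnR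
    rcases le_or_gt ((β i : ℝ) - 1) 0 with h4 | h4
    · rw [max_eq_left h4] at h1
      linarith
    · rw [max_eq_right h4.le] at h1
      linarith

end Run7.h565.SM
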