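import Pool.Agent.Run7.h565.SM.Cnt

/-!
# Project SM: the arcs between `k` points as observables
-/

set_option autoImplicit false

namespace Run7.h565.SM

open Finset Equiv
open Pool.Agent.TH268.PD (ret ret_spec)
open Pool.Agent.Y998.ST (stirExp stirLaw nnRate law_nonneg nn_nonneg)
open Run7.h565.LC (S_KPT)

/-- the number of steps from `b i` to the next of the points `b` -/
noncomputable def arcL {V : Type} {k : ℕ} (b : Fin k → V) (g : Perm V) (i : Fin k) : ℕ :=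
  sInf {n : ℕ | 1 ≤ n ∧ (g ^ n) (b i) ∈ Set.range b}

section

variable {V : Type} [Fintype V] [DecidableEq V] {k : ℕ}

theorem arcL_spec {b : Fin k → V} (hb : Function.Injective b) (g : Perm V) (i : Fin k) :
    1 ≤ arcL b g i ∧ (g ^ (arcL b g i)) (b i) = b (ret k b g i) ∧
      ∀ p, 1 ≤ p → p < arcL b g i → (g ^ p) (b i) ∉ Set.range b := by
  obtain ⟨n, h1, h2, h3⟩ := ret_nx g b hb i
  have hmem : n ∈ {n : ℕ | 1 ≤ n ∧ (g ^ n) (b i) ∈ Set.range b} := ⟨h1, ⟨_, h2.symm⟩⟩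
  have h4 : arcL b g i = n := by
    refine le_antisymm (Nat.sInf_le hmem) ?_
    have h5 : arcL b g i ∈ {n : ℕ | 1 ≤ n ∧ (g ^ n) (b i) ∈ Set.range b} := Nat.sInf_mem ⟨n, hmem⟩
    by_contra hc
    exact h3 _ h5.1 (by omega) h5.2
  rw [h4]
  exact ⟨h1, h2, h3⟩

theorem arc_fr {b : Fin k → V} (hb : Function.Injective b) (m : Fin k → ℕ) (g : Perm V) :
    (∀ i, m i < arcL b g i) ↔ Fr b m g := by
  constructor
  · intro h i j hj1 hj2
    exact (arcL_spec hb g i).2.2 j hj1 (lt_of_le_of_lt hj2 (h i))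
  · intro h i
    by_contra hc
    obtain ⟨h1, h2, _⟩ := arcL_spec hb g i
    exact h i _ h1 (by omega) ⟨_, h2.symm⟩

theorem arc_cfr (b : Fin k ↪ V) (g : Perm V) (i : Fin k) :
    cfr (emb b (ret k b g)⁻¹ * g) (b i) = (arcL b g i : ℝ) / Fintype.card V := by
  obtain ⟨N, hN⟩ : ∃ N, N = arcL b g i := ⟨_, rfl⟩
  obtain ⟨h1, h2, h3⟩ := arcL_spec b.injective g i
  rw [← hN] at h1 h2 h3 ⊢
  obtain ⟨h, hh⟩ : ∃ h, h = emb b (ret k b g)⁻¹ * g := ⟨_, rfl⟩
  rw [← hh]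
  have e1 : ∀ p, p < N → (h ^ p) (b i) = (g ^ p) (b i) := by
    intro p
    induction p with
    | zero => intro _; rfl
    | succ p ih =>
      intro hp
      rw [pow_succ', Perm.mul_apply, ih (by omega), hh, Perm.mul_apply, ← Perm.mul_apply g,
        ← pow_succ', emb_of b _ (h3 (p + 1) (by omega) hp)]
  have e2 : (h ^ N) (b i) = b i := by
    obtain ⟨q, hq⟩ : ∃ q, N = q + 1 := ⟨N - 1, by omega⟩
    rw [hq, pow_succ', Perm.mul_apply, e1 q (by omega), hh, Perm.mul_apply, ← Perm.mul_apply g,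
      ← pow_succ', ← hq, h2, emb_apply, ← Perm.mul_apply, inv_mul_cancel, Perm.one_apply]
  have e3 : ∀ n : ℕ, (h ^ (N * n)) (b i) = b i := by
    intro n
    induction n with
    | zero => rfl
    | succ n ih => rw [Nat.mul_succ, pow_add, Perm.mul_apply, e2, ih]
  unfold cfr
  congr 2
  have hf : ∀ p : Fin N, h.SameCycle (b i) ((h ^ (p : ℕ)) (b i)) := fun p =>
    ⟨(p : ℕ), by rw [zpow_natCast]⟩
  rw [← Nat.card_eq_of_bijective (fun p : Fin N => (⟨(h ^ (p : ℕ)) (b i), hf p⟩ :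
    {v : V // h.SameCycle (b i) v})) ⟨?_, ?_⟩, Nat.card_eq_fintype_card, Fintype.card_fin]
  · have key : ∀ p q : ℕ, p < q → q < N → (h ^ p) (b i) ≠ (h ^ q) (b i) := by
      intro p q hpq hq e
      rw [e1 p (by omega), e1 q hq] at e
      obtain ⟨r, rfl⟩ : ∃ r, q = p + r := ⟨q - p, by omega⟩
      rw [pow_add, Perm.mul_apply] at e
      exact h3 r (by omega) (by omega) ⟨i, (g ^ p).injective e⟩
    intro p q hpq
    have hpq' : (h ^ (p : ℕ)) (b i) = (h ^ (q : ℕ)) (b i) := congrArg Subtype.val hpq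
    rcases lt_trichotomy (p : ℕ) q with hlt | hlt | hlt
    · exact absurd hpq' (key p q hlt q.isLt)
    · exact Fin.ext hlt
    · exact absurd hpq'.symm (key q p hlt p.isLt)
  · rintro ⟨v, hv⟩
    obtain ⟨n, hn⟩ : ∃ n : ℕ, (h ^ n) (b i) = v := hv.exists_nat_pow_eq
    refine ⟨⟨n % N, Nat.mod_lt _ (by omega)⟩, Subtype.ext ?_⟩
    dsimp only
    rw [← hn]
    nth_rw 2 [← Nat.mod_add_div n N]
    rw [pow_add, Perm.mul_apply, e3]

end

/-- the observables -/
def aD {k : ℕ} (π : Perm (Fin k)) : Fin (k + 1) → Ds k :=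
  Fin.cons (Ds.ind π) (fun i => Ds.cyc π⁻¹ i)

/-- the function -/
noncomputable def aF {k : ℕ} (F : (Fin k → ℝ) → ℝ) (v : Fin (k + 1) → ℝ) : ℝ :=
  max 0 (min 1 (v 0)) * F (fun i => v i.succ)

theorem aF_val {V : Type} [Fintype V] [DecidableEq V] {k : ℕ} (F : (Fin k → ℝ) → ℝ)
    (π : Perm (Fin k)) (b : Fin k ↪ V) (g : Perm V) :
    aF F (fun a => (aD π a).val b g) =
      if ret k b g = π then F (fun i => (arcL b g i : ℝ) / Fintype.card V) else 0 := by
  unfold aF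
  have h0 : (aD π 0).val b g = if ret k b g = π then 1 else 0 := rfl
  have h1 : ∀ i : Fin k, (aD π i.succ).val b g = cfr (emb b π⁻¹ * g) (b i) := by
    intro i
    unfold aD
    rw [Fin.cons_succ]
    rfl
  beta_reduce
  rw [h0]
  by_cases h : ret k b g = π
  · rw [if_pos h, if_pos h, min_self, max_eq_right zero_le_one, one_mul]
    congr 1
    funext i
    rw [h1, ← h, arc_cfr]
  · rw [if_neg h, if_neg h, min_eq_right zero_le_one, max_self, zero_mul]

/-- functions of the arcs: comparison with uniform permutations -/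
theorem arc_gt (hK : S_KPT) (d : ℕ) (hd : 3 ≤ d) : ∃ m₀ : ℕ, ∀ (k : ℕ) (π : Perm (Fin k))
    (F : (Fin k → ℝ) → ℝ), Continuous F → (∀ u, 0 ≤ F u ∧ F u ≤ 1) → ∀ η : ℝ, 0 < η →
    ∃ (c : ℝ) (L₀ : ℕ), (∀ (L : ℕ) [NeZero L], L₀ ≤ L → ∀ t : ℝ, (Real.log L) ^ m₀ ≤ t →
      ∀ b : Fin k ↪ (Fin d → ZMod L),
      |stirExp (nnRate d L) t (fun g => if ret k b g = π then
        F (fun i => (arcL b g i : ℝ) / Fintype.card (Fin d → ZMod L)) else 0) - c| ≤ η) ∧
      (∀ (W : Type) [Fintype W] [DecidableEq W], L₀ ≤ Fintype.card W → ∀ b : Fin k ↪ W,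
        |um (fun g => if ret k b g = π then
          F (fun i => (arcL b g i : ℝ) / Fintype.card W) else 0) - c| ≤ η) := by
  obtain ⟨m₀, h⟩ := gt hK d hd
  refine ⟨m₀, fun k π F hF hF1 η hη => ?_⟩
  have hc : Continuous (aF F) := by
    unfold aF
    fun_prop
  have hb : ∀ v, |aF F v| ≤ 1 := by
    intro v
    unfold aF
    have h1 : 0 ≤ max 0 (min 1 (v 0)) := le_max_left _ _
    have h2 : max 0 (min 1 (v 0)) ≤ 1 := max_le zero_le_one (min_le_left _ _)
    obtain ⟨h3, h4⟩ := hF1 (fun i => v i.succ)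
    rw [abs_of_nonneg (mul_nonneg h1 h3)]
    exact mul_le_one₀ h2 h3 h4
  obtain ⟨c, L₀, h1, h2⟩ := h k _ (aD π) (aF F) hc 1 hb η hη
  simp only [aF_val] at h1 h2
  exact ⟨c, L₀, h1, h2⟩

end Run7.h565.SM
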