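import Pool.Agent.Run7.h565.LC.Hand3
import Pool.Agent.Run7.h565.SM.ArcFin

/-!
# Stirring on the torus: the arcs between any `k` points of the cycles

Nearest neighbour random stirring on `(ℤ / L)^d`, `d ≥ 3`, at times `t ≥ (log L) ^ m₀`. Any `k`
points, wherever they are, cut their cycles into `k` arcs. The permutation of the points induced
by the cycles is asymptotically uniform and independent of the arcs, and the lengths of the arcs
divided by `L ^ d`, together with the fraction of the points outside these cycles, are uniformly
distributed on the simplex, as for a uniform permutation.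

The proofs are in Pool/Agent/Run7/h565/SM (Cnt: the exact number of permutations with long arcs;
ArcObs, ArcLaw, ArcFin: the torus). They use the theorem on the cycle partition of `k` points
(Pool/Agent/Run7/h565/LC).
-/

set_option autoImplicit false

namespace Pool.Agent.Results.MP_6c3d62_pr.ArcsOfAnyPoints

open Finset Equiv
open Pool.Agent.Y998.ST (stirExp nnRate)

/-- The length of the arc which begins at `b i`: the number of steps along the cycle of the
permutation `g` from `b i` to the next of the points `b`. -/
noncomputable def arcLen {V : Type} {k : ℕ} (b : Fin k → V) (g : Perm V) (i : Fin k) : ℕ :=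
  sInf {n : ℕ | 1 ≤ n ∧ (g ^ n) (b i) ∈ Set.range b}

/-- `π` is the permutation induced by `g` on the points `b`: the next one of the points `b` in
the cycle of `b i` is `b (π i)`. -/
def Induces {V : Type} {k : ℕ} (b : Fin k → V) (g : Perm V) (π : Perm (Fin k)) : Prop :=
  ∀ i, (g ^ arcLen b g i) (b i) = b (π i)

open Classical in
/-- Nearest neighbour random stirring on the torus `(ℤ / L)^d` in dimension `d ≥ 3`, started at the
identity. There is `m₀`, depending only on `d`, such that uniformly over ALL times
`t ≥ (log L) ^ m₀`, over all `k` distinct points `b` of the torus, over the permutations `π` of the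
indices and over all `α ≥ 0` with sum at most one, as `L → ∞`: the probability that the cycles of
the permutation at time `t` induce `π` on the points `b` and that the arc from `b i` to the next of
the points is longer than `α i * L ^ d` for every `i` converges to `(1 - ∑ i, α i) ^ k / k!`.

So the induced permutation is uniform and independent of the arcs, and the fractions of the `k`
arcs and of the points in no cycle of a point `b i` are uniformly distributed on the simplex. For
`k = 1` the arc is the whole cycle: its length divided by `L ^ d` is uniform on `[0, 1]`. -/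
theorem result (d : ℕ) (hd : 3 ≤ d) : ∃ m₀ : ℕ,
    ∀ (k : ℕ) (η : ℝ), 0 < η → ∃ L₀ : ℕ, ∀ (L : ℕ) [NeZero L], L₀ ≤ L →
      ∀ t : ℝ, (Real.log L) ^ m₀ ≤ t →
      ∀ b : Fin k → Fin d → ZMod L, Function.Injective b →
      ∀ (π : Perm (Fin k)) (α : Fin k → ℝ), (∀ i, 0 ≤ α i) → ∑ i, α i ≤ 1 →
      |stirExp (nnRate d L) t (fun g =>
        if Induces b g π ∧ ∀ i, α i * (L : ℝ) ^ d < arcLen b g i then 1 else 0) -
        (1 - ∑ i, α i) ^ k / (k.factorial : ℝ)| ≤ η := by
  obtain ⟨m₀, h⟩ := Run7.h565.SM.arc_law Run7.h565.LC.t_KPT d hd
  refine ⟨m₀, fun k η hη => ?_⟩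
  obtain ⟨A, h⟩ := h k η hη
  refine ⟨A, fun L _ hL t ht b hb π α hα hs => ?_⟩
  have h1 := h L hL t ht ⟨b, hb⟩ π α hα (fun i =>
    (Finset.single_le_sum (f := α) (fun i _ => hα i) (Finset.mem_univ i)).trans hs)
  have hcard : (Fintype.card (Fin d → ZMod L) : ℝ) = (L : ℝ) ^ d := by
    rw [Fintype.card_fun, ZMod.card, Fintype.card_fin]
    push_cast
    rfl
  have hL0 : (0 : ℝ) < (L : ℝ) ^ d := by
    have : (0 : ℝ) < L := by exact_mod_cast Nat.pos_of_ne_zero (NeZero.ne L)
    positivity
  have h2 : (fun g : Perm (Fin d → ZMod L) =>
      if Induces b g π ∧ ∀ i, α i * (L : ℝ) ^ d < arcLen b g i then (1 : ℝ) else 0) =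
      fun g => if Pool.Agent.TH268.PD.ret k b g = π then
        (if ∀ i, α i < (Run7.h565.SM.arcL b g i : ℝ) / Fintype.card (Fin d → ZMod L)
          then (1 : ℝ) else 0) else 0 := by
    funext g
    have e1 : Induces b g π ↔ Pool.Agent.TH268.PD.ret k b g = π := by
      constructor
      · intro hi
        refine Equiv.ext fun i => hb ?_
        rw [← hi i]
        exact (Run7.h565.SM.arcL_spec hb g i).2.1.symm
      · rintro rfl i
        exact (Run7.h565.SM.arcL_spec hb g i).2.1
    have e2 : (∀ i, α i * (L : ℝ) ^ d < arcLen b g i) ↔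
        ∀ i, α i < (Run7.h565.SM.arcL b g i : ℝ) / Fintype.card (Fin d → ZMod L) := by
      refine forall_congr' fun i => ?_
      rw [hcard, lt_div_iff₀ hL0]
      rfl
    rw [← ite_and]
    exact if_congr (and_congr e1 e2) rfl rfl
  rw [h2]
  have h3 : Run7.h565.SM.Ph k (∑ i, α i) = (1 - ∑ i, α i) ^ k / (k.factorial : ℝ) := by
    unfold Run7.h565.SM.Ph
    rw [max_eq_right (by linarith)]
  rw [← h3]
  exact h1

end Pool.Agent.Results.MP_6c3d62_pr.ArcsOfAnyPoints
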