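import Pool.Agent.Run7.h565.SM.Gt

/-!
# Project SM: the arcs between `k` points in a uniform permutation
-/

set_option autoImplicit false

namespace Run7.h565.SM

open Finset Equiv
open Pool.Agent.TH268.PD (ret ret_spec)

section

variable {V : Type} {k : ℕ}

/-- the walks from the points `b i` do not meet the points in the first `m i` steps -/
def Fr (b : Fin k → V) (m : Fin k → ℕ) (g : Perm V) : Prop :=
  ∀ i j, 1 ≤ j → j ≤ m i → (g ^ j) (b i) ∉ Set.range b

/-- `w` is not one of the points of these walks -/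
def Av (b : Fin k → V) (m : Fin k → ℕ) (g : Perm V) (w : V) : Prop :=
  ∀ i j, 1 ≤ j → j ≤ m i → (g ^ j) (b i) ≠ w

theorem Fr.inj {b : Fin k → V} (hb : Function.Injective b) {m : Fin k → ℕ} {g : Perm V}
    (h : Fr b m g) {i i' : Fin k} {j j' : ℕ} (hj : j ≤ m i) (hj' : j' ≤ m i')
    (e : (g ^ j) (b i) = (g ^ j') (b i')) : i = i' ∧ j = j' := by
  have key : ∀ (i i' : Fin k) (j j' : ℕ), j' ≤ m i' → j ≤ j' →
      (g ^ j) (b i) = (g ^ j') (b i') → i = i' ∧ j = j' := by
    intro i i' j j' hj' hle e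
    obtain ⟨q, rfl⟩ : ∃ q, j' = j + q := ⟨j' - j, by omega⟩
    rw [pow_add, Perm.mul_apply] at e
    have h1 := (g ^ j).injective e
    rcases Nat.eq_zero_or_pos q with hq | hq
    · subst hq
      rw [pow_zero, Perm.one_apply] at h1
      exact ⟨hb h1, rfl⟩
    · exact absurd ⟨i, h1⟩ (h i' q hq (by omega))
  rcases le_total j j' with hle | hle
  · exact key i i' j j' hj' hle e
  · obtain ⟨h1, h2⟩ := key i' i j' j hj hle e.symm
    exact ⟨h1.symm, h2.symm⟩

variable [DecidableEq V]

theorem Fr.step {b : Fin k → V} (hb : Function.Injective b) {m : Fin k → ℕ} {g : Perm V}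
    (h : Fr b m g) (i₀ : Fin k) (w : V) (hw : Av b m g w) (i : Fin k) (j : ℕ) (hj : j ≤ m i) :
    ((swap ((g ^ (m i₀ + 1)) (b i₀)) w * g) ^ j) (b i) = (g ^ j) (b i) := by
  induction j with
  | zero => rfl
  | succ j ih =>
    rw [pow_succ', Perm.mul_apply, ih (by omega), Perm.mul_apply, ← Perm.mul_apply g,
      ← pow_succ']
    refine swap_apply_of_ne_of_ne (fun e => ?_) (hw i (j + 1) (by omega) hj)
    rw [pow_succ', pow_succ', Perm.mul_apply, Perm.mul_apply] at e
    obtain ⟨h1, h2⟩ := h.inj hb (by omega) le_rfl (g.injective e)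
    subst h1
    omega

/-- exchange of the next point with another one -/
def ex (b : Fin k → V) (m : Fin k → ℕ) (i₀ : Fin k) (p : Perm V × V) : Perm V × V :=
  (swap ((p.1 ^ (m i₀ + 1)) (b i₀)) p.2 * p.1, (p.1 ^ (m i₀ + 1)) (b i₀))

theorem ex_spec {b : Fin k → V} (hb : Function.Injective b) {m : Fin k → ℕ} (i₀ : Fin k)
    (p : Perm V × V) (h : Fr b m p.1) (hw : Av b m p.1 p.2) :
    Fr b m (ex b m i₀ p).1 ∧ Av b m (ex b m i₀ p).1 (ex b m i₀ p).2 ∧
      ((ex b m i₀ p).1 ^ (m i₀ + 1)) (b i₀) = p.2 ∧ ex b m i₀ (ex b m i₀ p) = p := by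
  obtain ⟨g, w⟩ := p
  have h1 := h.step hb i₀ w hw
  obtain ⟨g', hg'⟩ : ∃ g', g' = swap ((g ^ (m i₀ + 1)) (b i₀)) w * g := ⟨_, rfl⟩
  have h2 : ex b m i₀ (g, w) = (g', (g ^ (m i₀ + 1)) (b i₀)) := by rw [hg']; rfl
  dsimp only at h hw
  rw [h2]
  rw [← hg'] at h1
  have h3 : (g' ^ (m i₀ + 1)) (b i₀) = w := by
    rw [pow_succ', Perm.mul_apply, h1 i₀ (m i₀) le_rfl, hg', Perm.mul_apply, ← Perm.mul_apply g,
      ← pow_succ', swap_apply_left]
  refine ⟨?_, ?_, h3, ?_⟩
  · intro i j hj1 hj2
    change (g' ^ j) (b i) ∉ Set.range b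
    rw [h1 i j hj2]
    exact h i j hj1 hj2
  · intro i j hj1 hj2 e
    change (g' ^ j) (b i) = (g ^ (m i₀ + 1)) (b i₀) at e
    rw [h1 i j hj2] at e
    obtain ⟨q, rfl⟩ : ∃ q, j = q + 1 := ⟨j - 1, by omega⟩
    rw [pow_succ', pow_succ', Perm.mul_apply, Perm.mul_apply] at e
    obtain ⟨h4, h5⟩ := h.inj hb (by omega) le_rfl (g.injective e)
    subst h4
    omega
  · unfold ex
    dsimp only
    rw [h3, hg', ← mul_assoc, swap_comm w, swap_mul_self, one_mul]

variable [Fintype V]

open Classical in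
/-- the permutations with this property -/
noncomputable def Es (b : Fin k → V) (m : Fin k → ℕ) : Finset (Perm V) :=
  Finset.univ.filter fun g => Fr b m g

open Classical in
theorem card_av {b : Fin k → V} (hb : Function.Injective b) {m : Fin k → ℕ} {g : Perm V}
    (h : Fr b m g) : (Finset.univ.filter fun w => Av b m g w).card =
      Fintype.card V - ∑ i, m i ∧
    (Finset.univ.filter fun w => Av b m g w ∧ w ∉ Set.range b).card =
      Fintype.card V - ∑ i, m i - k := by
  obtain ⟨f, hf⟩ : ∃ f : (Σ i : Fin k, Fin (m i)) → V,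
    f = fun p => (g ^ (p.2.1 + 1)) (b p.1) := ⟨_, rfl⟩
  have hfi : Function.Injective f := by
    rintro ⟨i, j⟩ ⟨i', j'⟩ e
    rw [hf] at e
    obtain ⟨h1, h2⟩ := h.inj hb (by have := j.isLt; omega) (by have := j'.isLt; omega) e
    subst h1
    have h3 : j = j' := Fin.ext (by dsimp only at h2; omega)
    rw [h3]
  have hcard : (Finset.univ.image f).card = ∑ i, m i := by
    rw [Finset.card_image_of_injective _ hfi, Finset.card_univ, Fintype.card_sigma]
    simp
  have hav : ∀ w, Av b m g w ↔ w ∉ Finset.univ.image f := by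
    intro w
    rw [Finset.mem_image, hf]
    constructor
    · rintro hw ⟨⟨i, j⟩, _, e⟩
      exact hw i (j + 1) (by omega) (by have := j.isLt; omega) e
    · intro hw i j hj1 hj2 e
      refine hw ⟨⟨i, ⟨j - 1, by omega⟩⟩, Finset.mem_univ _, ?_⟩
      dsimp only
      rw [Nat.sub_add_cancel hj1]
      exact e
  constructor
  · have h1 : (Finset.univ.filter fun w => Av b m g w) = (Finset.univ.image f)ᶜ := by
      ext w
      rw [Finset.mem_filter, Finset.mem_compl, hav]
      simp
    rw [h1, Finset.card_compl, hcard]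
  · have h1 : (Finset.univ.filter fun w => Av b m g w ∧ w ∉ Set.range b) =
        (Finset.univ.image f ∪ Finset.univ.image b)ᶜ := by
      ext w
      rw [Finset.mem_filter, Finset.mem_compl, hav, Finset.mem_union]
      simp
    have h2 : Disjoint (Finset.univ.image f) (Finset.univ.image b) := by
      rw [Finset.disjoint_left]
      intro w hw hw2
      obtain ⟨⟨i, j⟩, _, rfl⟩ := Finset.mem_image.1 hw
      obtain ⟨i', _, e⟩ := Finset.mem_image.1 hw2
      rw [hf] at e
      exact h i (j + 1) (by omega) (by have := j.isLt; omega) ⟨i', e⟩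
    rw [h1, Finset.card_compl, Finset.card_union_of_disjoint h2, hcard,
      Finset.card_image_of_injective _ hb, Finset.card_univ, Fintype.card_fin]
    omega

open Classical in
theorem es_rec {b : Fin k → V} (hb : Function.Injective b) (m : Fin k → ℕ) (i₀ : Fin k) :
    (Es b (Function.update m i₀ (m i₀ + 1))).card * (Fintype.card V - ∑ i, m i) =
      (Es b m).card * (Fintype.card V - ∑ i, m i - k) := by
  obtain ⟨S1, hS1⟩ : ∃ S1 : Finset (Perm V × V), S1 = Finset.univ.filter
    fun p => (Fr b m p.1 ∧ Av b m p.1 p.2) ∧ p.2 ∉ Set.range b := ⟨_, rfl⟩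
  obtain ⟨S2, hS2⟩ : ∃ S2 : Finset (Perm V × V), S2 = Finset.univ.filter
    fun p => (Fr b m p.1 ∧ Av b m p.1 p.2) ∧ (p.1 ^ (m i₀ + 1)) (b i₀) ∉ Set.range b := ⟨_, rfl⟩
  have h12 : S1.card = S2.card := by
    refine Finset.card_nbij' (ex b m i₀) (ex b m i₀) ?_ ?_ ?_ ?_
    · intro p hp
      rw [hS1, Finset.coe_filter, Set.mem_ofPred_eq] at hp
      obtain ⟨a1, a2, a3, a4⟩ := ex_spec hb i₀ p hp.2.1.1 hp.2.1.2
      rw [hS2, Finset.coe_filter, Set.mem_ofPred_eq, a3]
      exact ⟨Finset.mem_univ _, ⟨a1, a2⟩, hp.2.2⟩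
    · intro p hp
      rw [hS2, Finset.coe_filter, Set.mem_ofPred_eq] at hp
      obtain ⟨a1, a2, a3, a4⟩ := ex_spec hb i₀ p hp.2.1.1 hp.2.1.2
      rw [hS1, Finset.coe_filter, Set.mem_ofPred_eq]
      exact ⟨Finset.mem_univ _, ⟨a1, a2⟩, hp.2.2⟩
    · intro p hp
      rw [hS1, Finset.mem_coe, Finset.mem_filter] at hp
      exact (ex_spec hb i₀ p hp.2.1.1 hp.2.1.2).2.2.2
    · intro p hp
      rw [hS2, Finset.mem_coe, Finset.mem_filter] at hp
      exact (ex_spec hb i₀ p hp.2.1.1 hp.2.1.2).2.2.2
  have e1 : S1.card = (Es b m).card * (Fintype.card V - ∑ i, m i - k) := by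
    rw [hS1, Finset.card_filter, Fintype.sum_prod_type, Es, Finset.card_filter, Finset.sum_mul]
    refine Finset.sum_congr rfl fun g _ => ?_
    dsimp only
    by_cases hg : Fr b m g
    · rw [if_pos hg, one_mul, ← (card_av hb hg).2, Finset.card_filter]
      refine Finset.sum_congr rfl fun w _ => ?_
      by_cases h : Av b m g w ∧ w ∉ Set.range b
      · rw [if_pos h, if_pos ⟨⟨hg, h.1⟩, h.2⟩]
      · rw [if_neg h, if_neg (fun h' => h ⟨h'.1.2, h'.2⟩)]
    · rw [if_neg hg, zero_mul]
      exact Finset.sum_eq_zero fun w _ => if_neg fun h => hg h.1.1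
  have e2 : S2.card = (Es b (Function.update m i₀ (m i₀ + 1))).card *
      (Fintype.card V - ∑ i, m i) := by
    rw [hS2, Finset.card_filter, Fintype.sum_prod_type, Es, Finset.card_filter, Finset.sum_mul]
    refine Finset.sum_congr rfl fun g _ => ?_
    dsimp only
    have hiff : Fr b (Function.update m i₀ (m i₀ + 1)) g ↔
        Fr b m g ∧ (g ^ (m i₀ + 1)) (b i₀) ∉ Set.range b := by
      constructor
      · intro h
        refine ⟨fun i j hj1 hj2 => h i j hj1 ?_, h i₀ (m i₀ + 1) (by omega) ?_⟩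
        · by_cases hi : i = i₀
          · subst hi
            rw [Function.update_self]
            omega
          · rwa [Function.update_of_ne hi]
        · rw [Function.update_self]
      · rintro ⟨h1, h2⟩ i j hj1 hj2
        by_cases hi : i = i₀
        · subst hi
          rw [Function.update_self] at hj2
          rcases Nat.lt_or_ge j (m i + 1) with h3 | h3
          · exact h1 i j hj1 (by omega)
          · have h4 : j = m i + 1 := by omega
            rw [h4]
            exact h2
        · rw [Function.update_of_ne hi] at hj2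
          exact h1 i j hj1 hj2
    by_cases hg : Fr b (Function.update m i₀ (m i₀ + 1)) g
    · obtain ⟨h1, h2⟩ := hiff.1 hg
      rw [if_pos hg, one_mul, ← (card_av hb h1).1, Finset.card_filter]
      refine Finset.sum_congr rfl fun w _ => ?_
      by_cases h : Av b m g w
      · rw [if_pos h, if_pos ⟨⟨h1, h⟩, h2⟩]
      · rw [if_neg h, if_neg (fun h' => h h'.1.2)]
    · rw [if_neg hg, zero_mul]
      exact Finset.sum_eq_zero fun w _ => if_neg fun h => hg (hiff.2 ⟨h.1.1, h.2⟩)
  rw [← e1, ← e2, h12]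

/-- the number of these permutations -/
theorem es_card {b : Fin k → V} (hb : Function.Injective b) (n : ℕ) (hn : n ≤ Fintype.card V) :
    ∀ m : Fin k → ℕ, ∑ i, m i = n → (Es b m).card * (Fintype.card V).descFactorial k =
      (Fintype.card V).factorial * (Fintype.card V - n).descFactorial k := by
  classical
  induction n with
  | zero =>
    intro m hm
    have h1 : ∀ i, m i = 0 := fun i => by
      have := Finset.single_le_sum (f := m) (fun _ _ => Nat.zero_le _) (Finset.mem_univ i)
      omega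
    have h2 : Es b m = Finset.univ := by
      unfold Es
      rw [Finset.filter_eq_self]
      intro g _ i j hj1 hj2
      rw [h1 i] at hj2
      omega
    rw [h2, Finset.card_univ, Fintype.card_perm, Nat.sub_zero]
  | succ n ih =>
    intro m hm
    obtain ⟨i₀, hi₀⟩ : ∃ i₀, 1 ≤ m i₀ := by
      by_contra hc
      push Not at hc
      have : ∑ i, m i = 0 := Finset.sum_eq_zero fun i _ => by have := hc i; omega
      omega
    obtain ⟨m', hm'⟩ : ∃ m', m' = Function.update m i₀ (m i₀ - 1) := ⟨_, rfl⟩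
    have e1 : Function.update m' i₀ (m' i₀ + 1) = m := by
      rw [hm', Function.update_self, Function.update_idem, Nat.sub_add_cancel hi₀,
        Function.update_eq_self]
    have e2 : ∑ i, m' i = n := by
      have h1 : ∑ i, m i = m i₀ + ∑ i ∈ Finset.univ.erase i₀, m i :=
        (Finset.add_sum_erase _ _ (Finset.mem_univ i₀)).symm
      have h2 : ∑ i, m' i = m' i₀ + ∑ i ∈ Finset.univ.erase i₀, m' i :=
        (Finset.add_sum_erase _ _ (Finset.mem_univ i₀)).symm
      have h3 : ∑ i ∈ Finset.univ.erase i₀, m' i = ∑ i ∈ Finset.univ.erase i₀, m i :=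
        Finset.sum_congr rfl fun i hi => by
          rw [hm', Function.update_of_ne (Finset.ne_of_mem_erase hi)]
      have h4 : m' i₀ = m i₀ - 1 := by rw [hm', Function.update_self]
      omega
    have h1 := ih (by omega) m' e2
    have h2 := es_rec hb m' i₀
    rw [e1, e2] at h2
    obtain ⟨q, hq⟩ : ∃ q, Fintype.card V - n = q + 1 := ⟨Fintype.card V - n - 1, by omega⟩
    have hq2 : Fintype.card V - (n + 1) = q := by omega
    rw [hq] at h1 h2
    rw [hq2]
    have h3 : (q + 1) * q.descFactorial k = (q + 1 - k) * (q + 1).descFactorial k := by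
      rw [← Nat.succ_descFactorial_succ, Nat.descFactorial_succ]
    refine Nat.eq_of_mul_eq_mul_right (Nat.succ_pos q) ?_
    calc (Es b m).card * (Fintype.card V).descFactorial k * (q + 1)
        = (Es b m).card * (q + 1) * (Fintype.card V).descFactorial k := by ring
      _ = (Es b m').card * (Fintype.card V).descFactorial k * (q + 1 - k) := by rw [h2]; ring
      _ = (Fintype.card V).factorial * ((q + 1 - k) * (q + 1).descFactorial k) := by rw [h1]; ring
      _ = (Fintype.card V).factorial * q.descFactorial k * (q + 1) := by rw [← h3]; ring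

theorem es_empty {b : Fin k → V} (hb : Function.Injective b) (m : Fin k → ℕ)
    (h : Fintype.card V < ∑ i, m i + k) : Es b m = ∅ := by
  classical
  unfold Es
  rw [Finset.filter_eq_empty_iff]
  intro g _ hg
  obtain ⟨f, hf⟩ : ∃ f : (Σ i : Fin k, Fin (m i + 1)) → V,
    f = fun p => (g ^ p.2.1) (b p.1) := ⟨_, rfl⟩
  have hfi : Function.Injective f := by
    rintro ⟨i, j⟩ ⟨i', j'⟩ e
    rw [hf] at e
    obtain ⟨h1, h2⟩ := hg.inj hb (by have := j.isLt; omega) (by have := j'.isLt; omega) e
    subst h1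
    have h3 : j = j' := Fin.ext (by dsimp only at h2; omega)
    rw [h3]
  have := Fintype.card_le_of_injective f hfi
  rw [Fintype.card_sigma] at this
  simp [Finset.sum_add_distrib] at this
  omega

theorem Fr.emb {b : Fin k ↪ V} {m : Fin k → ℕ} {g : Perm V} (h : Fr b m g)
    (σ : Perm (Fin k)) : Fr b m (emb b σ * g) := by
  have h1 : ∀ i j, j ≤ m i → ((Run7.h565.SM.emb b σ * g) ^ j) (b i) = (g ^ j) (b i) := by
    intro i j
    induction j with
    | zero => intro _; rfl
    | succ j ih =>
      intro hj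
      rw [pow_succ', Perm.mul_apply, ih (by omega), Perm.mul_apply, ← Perm.mul_apply g,
        ← pow_succ', emb_of b σ (h i (j + 1) (by omega) hj)]
  intro i j hj1 hj2
  rw [h1 i j hj2]
  exact h i j hj1 hj2

open Classical in
theorem es_ret (b : Fin k ↪ V) (m : Fin k → ℕ) (π : Perm (Fin k)) :
    k.factorial * ((Es b m).filter fun g => ret k b g = π).card = (Es b m).card := by
  have h1 : ∀ σ : Perm (Fin k), ((Es b m).filter fun g => ret k b g = σ * π).card =
      ((Es b m).filter fun g => ret k b g = π).card := by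
    intro σ
    symm
    refine Finset.card_nbij' (fun g => emb b σ * g) (fun g => emb b σ⁻¹ * g) ?_ ?_ ?_ ?_
    · intro g hg
      rw [Finset.coe_filter, Set.mem_ofPred_eq] at hg ⊢
      rw [Es, Finset.mem_filter] at hg ⊢
      refine ⟨⟨Finset.mem_univ _, hg.1.2.emb σ⟩, ?_⟩
      rw [ret_emb, hg.2]
    · intro g hg
      rw [Finset.coe_filter, Set.mem_ofPred_eq] at hg ⊢
      rw [Es, Finset.mem_filter] at hg ⊢
      refine ⟨⟨Finset.mem_univ _, hg.1.2.emb σ⁻¹⟩, ?_⟩
      rw [ret_emb, hg.2, inv_mul_cancel_left]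
    · intro g _
      beta_reduce
      rw [← mul_assoc, ← emb_mul, inv_mul_cancel, emb_one, one_mul]
    · intro g _
      beta_reduce
      rw [← mul_assoc, ← emb_mul, mul_inv_cancel, emb_one, one_mul]
  have h2 : (Es b m).card = ∑ ρ : Perm (Fin k), ((Es b m).filter fun g => ret k b g = ρ).card :=
    Finset.card_eq_sum_card_fiberwise fun g _ => Finset.mem_coe.2 (Finset.mem_univ _)
  rw [h2, ← Equiv.sum_comp (Equiv.mulRight π)]
  have h3 : ∀ σ : Perm (Fin k), (Equiv.mulRight π) σ = σ * π := fun _ => rfl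
  simp only [h3, h1]
  rw [Finset.sum_const, Finset.card_univ, Fintype.card_perm, Fintype.card_fin, smul_eq_mul]

end

end Run7.h565.SM
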