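import Pool.Agent.Run7.h565.SM.Arc

/-!
# Project SM, part 2: the induced permutation of any points, general weights
-/

set_option autoImplicit false

namespace Run7.h565.SM

open Finset Equiv
open Pool.Agent.TH268.PD (ret ret_spec)

variable {V : Type} [Fintype V] [DecidableEq V]

/-- the mean over permutations of `k` points -/
noncomputable def mn (k : ℕ) (G : Perm (Fin k) → ℝ) : ℝ := (∑ π, G π) / (k.factorial : ℝ)

theorem mn_abs (k : ℕ) (G : Perm (Fin k) → ℝ) (M : ℝ) (hG : ∀ π, |G π| ≤ M) : |mn k G| ≤ M := by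
  have hfac : (0 : ℝ) < (k.factorial : ℝ) := by exact_mod_cast k.factorial_pos
  unfold mn
  rw [abs_div, abs_of_pos hfac, div_le_iff₀ hfac]
  refine (Finset.abs_sum_le_sum_abs _ _).trans ?_
  refine (Finset.sum_le_sum fun σ _ => hG σ).trans (le_of_eq ?_)
  rw [Finset.sum_const, Finset.card_univ, Fintype.card_perm, Fintype.card_fin, nsmul_eq_mul,
    mul_comm]

/-- the induced permutation of a uniform permutation is uniform -/
theorem unif_ret (k : ℕ) (b : Fin k → V) (hb : Function.Injective b) (G : Perm (Fin k) → ℝ) :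
    ∑ g : Perm V, G (ret k b g) = (Fintype.card V).factorial * mn k G := by
  have hfac : (0 : ℝ) < (k.factorial : ℝ) := by exact_mod_cast k.factorial_pos
  obtain ⟨u, hu⟩ : ∃ u : Fin k ↪ V, u = ⟨b, hb⟩ := ⟨_, rfl⟩
  have hub : (u : Fin k → V) = b := by rw [hu]; rfl
  have h1 : ∀ σ : Perm (Fin k), ∑ g : Perm V, G (ret k b g) =
      ∑ g : Perm V, G (σ * ret k b g) := by
    intro σ
    rw [← Equiv.sum_comp (Equiv.mulLeft (emb u σ))]
    refine Finset.sum_congr rfl fun g _ => ?_
    have e : (Equiv.mulLeft (emb u σ)) g = emb u σ * g := rfl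
    rw [e, ← hub, ret_emb]
  have h2 : ∑ σ : Perm (Fin k), ∑ g : Perm V, G (ret k b g) =
      ∑ σ : Perm (Fin k), ∑ g : Perm V, G (σ * ret k b g) :=
    Finset.sum_congr rfl fun σ _ => h1 σ
  rw [Finset.sum_const, Finset.card_univ, Fintype.card_perm, Fintype.card_fin, nsmul_eq_mul,
    Finset.sum_comm] at h2
  have h3 : ∀ g : Perm V, ∑ σ : Perm (Fin k), G (σ * ret k b g) = ∑ π, G π := fun g =>
    Equiv.sum_comp (Equiv.mulRight (ret k b g)) G
  rw [Finset.sum_congr rfl fun g _ => h3 g, Finset.sum_const, Finset.card_univ,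
    Fintype.card_perm, nsmul_eq_mul] at h2
  unfold mn
  rw [mul_div_assoc', ← h2]
  field_simp

/-- the points `u` are in distinct cycles, and the points `b` are in distinct ones of these cycles -/
def EE {n k : ℕ} (u : Fin n → V) (b : Fin k → V) (g : Perm V) : Prop :=
  Dst u g ∧ ∃ j : Fin k → Fin n, Function.Injective j ∧ ∀ i, g.SameCycle (u (j i)) (b i)

theorem shift_le (w : Perm V → ℝ) (s : Perm V) (θ : ℝ)
    (hθ : ∑ g, |w (s⁻¹ * g) - w g| ≤ θ) (F : Perm V → ℝ) (M : ℝ) (hM : ∀ g, |F g| ≤ M) :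
    |∑ g, w g * F (s * g) - ∑ g, w g * F g| ≤ M * θ := by
  have hM0 : 0 ≤ M := (abs_nonneg _).trans (hM 1)
  have e1 : ∑ g, w g * F (s * g) = ∑ g, w (s⁻¹ * g) * F g := by
    rw [← Equiv.sum_comp (Equiv.mulLeft s) (fun g => w (s⁻¹ * g) * F g)]
    refine Finset.sum_congr rfl fun g _ => ?_
    have e : (Equiv.mulLeft s) g = s * g := rfl
    rw [e, inv_mul_cancel_left]
  rw [e1, ← Finset.sum_sub_distrib]
  refine (Finset.abs_sum_le_sum_abs _ _).trans ?_
  refine le_trans ?_ (mul_le_mul_of_nonneg_left hθ hM0)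
  rw [Finset.mul_sum]
  refine Finset.sum_le_sum fun g _ => ?_
  rw [← sub_mul, abs_mul, mul_comm]
  exact mul_le_mul_of_nonneg_right (hM g) (abs_nonneg _)

open Classical in
/-- the induced permutation of any points, general weights -/
theorem ind_any (w : Perm V → ℝ) (hw : ∀ g, 0 ≤ w g) (hw1 : ∑ g, w g = 1) {n k : ℕ}
    (u : Fin n ↪ V) (b : Fin k → V) (hb : Function.Injective b) (hbu : ∀ i, b i ∉ Set.range u)
    (θ : ℝ) (hθ : ∀ σ : Perm (Fin n), ∑ g, |w ((emb u σ)⁻¹ * g) - w g| ≤ θ) (p : ℝ)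
    (hp : p ≤ ∑ g, w g * (if EE u b g then 1 else 0)) (G : Perm (Fin k) → ℝ)
    (hG : ∀ π, |G π| ≤ 1) :
    |∑ g, w g * G (ret k b g) - mn k G| ≤ θ + 2 * (1 - n.factorial * (p - θ)) := by
  have hfac : (0 : ℝ) < (n.factorial : ℝ) := by exact_mod_cast n.factorial_pos
  -- normal form
  obtain ⟨nf, hnf⟩ : ∃ nf : Perm V → Perm V, nf = fun g => emb u (ret n u g)⁻¹ * g := ⟨_, rfl⟩
  have hnf1 : ∀ g, ret n u (nf g) = 1 := by
    intro g
    rw [hnf]
    beta_reduce
    rw [ret_emb, inv_mul_cancel]
  have hnfD : ∀ g, Dst u (nf g) := fun g => (ret_dst u u.injective _).2 (hnf1 g)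
  have hg : ∀ g, emb u (ret n u g) * nf g = g := by
    intro g
    rw [hnf]
    beta_reduce
    rw [emb_inv, mul_inv_cancel_left]
  -- the indicator
  have hone : ∀ g, ∑ σ : Perm (Fin n), (if EE u b (emb u σ⁻¹ * g) then (1 : ℝ) else 0) =
      if EE u b (nf g) then 1 else 0 := by
    intro g
    have h1 : ∀ σ : Perm (Fin n), EE u b (emb u σ⁻¹ * g) → σ = ret n u g := by
      intro σ h
      have h2 := (ret_dst u u.injective _).1 h.1
      rw [ret_emb] at h2
      exact (inv_mul_eq_one.1 h2)
    rw [Finset.sum_eq_single (ret n u g)]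
    · rw [hnf]
    · intro σ _ hσ
      rw [if_neg fun h => hσ (h1 σ h)]
    · intro h
      exact absurd (Finset.mem_univ _) h
  -- the probability
  have hD : n.factorial * (p - θ) ≤ ∑ g, w g * (if EE u b (nf g) then 1 else 0) := by
    have e1 : ∑ g, w g * (if EE u b (nf g) then (1 : ℝ) else 0) = ∑ σ : Perm (Fin n),
        ∑ g, w g * (if EE u b (emb u σ⁻¹ * g) then (1 : ℝ) else 0) := by
      rw [Finset.sum_comm]
      refine Finset.sum_congr rfl fun g _ => ?_
      rw [← Finset.mul_sum, hone]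
    rw [e1]
    have e2 : (n.factorial : ℝ) * (p - θ) = ∑ _σ : Perm (Fin n), (p - θ) := by
      rw [Finset.sum_const, Finset.card_univ, Fintype.card_perm, Fintype.card_fin, nsmul_eq_mul]
    rw [e2]
    refine Finset.sum_le_sum fun σ _ => ?_
    have h3 := shift_le w (emb u σ⁻¹) θ (hθ σ⁻¹) (fun g => if EE u b g then 1 else 0) 1 (by
      intro g
      beta_reduce
      split_ifs <;> norm_num)
    rw [abs_le] at h3
    linarith [h3.1]
  -- averaging
  have hav : |n.factorial * ∑ g, w g * G (ret k b g) -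
      ∑ g, w g * ∑ σ : Perm (Fin n), G (ret k b (emb u σ * g))| ≤ n.factorial * θ := by
    have e1 : (n.factorial : ℝ) * ∑ g, w g * G (ret k b g) = ∑ _σ : Perm (Fin n),
        ∑ g, w g * G (ret k b g) := by
      rw [Finset.sum_const, Finset.card_univ, Fintype.card_perm, Fintype.card_fin, nsmul_eq_mul]
    have e2 : ∑ g, w g * ∑ σ : Perm (Fin n), G (ret k b (emb u σ * g)) =
        ∑ σ : Perm (Fin n), ∑ g, w g * G (ret k b (emb u σ * g)) := by
      rw [Finset.sum_comm]
      exact Finset.sum_congr rfl fun g _ => Finset.mul_sum _ _ _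
    have e3 : (n.factorial : ℝ) * θ = ∑ _σ : Perm (Fin n), θ := by
      rw [Finset.sum_const, Finset.card_univ, Fintype.card_perm, Fintype.card_fin, nsmul_eq_mul]
    rw [e1, e2, e3, ← Finset.sum_sub_distrib]
    refine (Finset.abs_sum_le_sum_abs _ _).trans (Finset.sum_le_sum fun σ _ => ?_)
    have h3 := shift_le w (emb u σ) θ (hθ σ) (fun g => G (ret k b g)) 1 (fun g => hG _)
    rw [one_mul] at h3
    rw [abs_sub_comm]
    exact h3
  -- the average for one `g`
  have hmn : |mn k G| ≤ 1 := mn_abs k G 1 hG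
  have hgg : ∀ g, |∑ σ : Perm (Fin n), G (ret k b (emb u σ * g)) - n.factorial * mn k G| ≤
      2 * n.factorial * (1 - if EE u b (nf g) then (1 : ℝ) else 0) := by
    intro g
    by_cases hE : EE u b (nf g)
    · rw [if_pos hE, sub_self, mul_zero]
      obtain ⟨j, hj, hjb⟩ := hE.2
      have e1 : ∑ σ : Perm (Fin n), G (ret k b (emb u σ * g)) =
          ∑ ρ : Perm (Fin n), G (ret k j ρ) := by
        rw [← Equiv.sum_comp (Equiv.mulRight (ret n u g)) (fun ρ => G (ret k j ρ))]
        refine Finset.sum_congr rfl fun σ _ => ?_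
        have e : (Equiv.mulRight (ret n u g)) σ = σ * ret n u g := rfl
        rw [e, ← arc u (nf g) (hnfD g) b hb hbu j hj hjb, emb_mul, mul_assoc, hg]
      rw [e1, unif_ret k j hj G, Fintype.card_fin, sub_self, abs_zero]
    · rw [if_neg hE, sub_zero, mul_one]
      have h3 : |∑ σ : Perm (Fin n), G (ret k b (emb u σ * g))| ≤ n.factorial := by
        refine (Finset.abs_sum_le_sum_abs _ _).trans ?_
        refine (Finset.sum_le_sum fun σ _ => hG _).trans (le_of_eq ?_)
        rw [Finset.sum_const, Finset.card_univ, Fintype.card_perm, Fintype.card_fin,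
          nsmul_eq_mul, mul_one]
      have h4 : |(n.factorial : ℝ) * mn k G| ≤ n.factorial := by
        rw [abs_mul, abs_of_pos hfac]
        exact mul_le_of_le_one_right hfac.le hmn
      rw [abs_le] at h3 h4 ⊢
      constructor <;> linarith [h3.1, h3.2, h4.1, h4.2]
  have htot : |∑ g, w g * ∑ σ : Perm (Fin n), G (ret k b (emb u σ * g)) -
      n.factorial * mn k G| ≤ 2 * n.factorial * (1 - n.factorial * (p - θ)) := by
    have e1 : (n.factorial : ℝ) * mn k G = ∑ g, w g * (n.factorial * mn k G) := by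
      rw [← Finset.sum_mul, hw1, one_mul]
    rw [e1, ← Finset.sum_sub_distrib]
    refine (Finset.abs_sum_le_sum_abs _ _).trans ?_
    have h3 : ∀ g ∈ (Finset.univ : Finset (Perm V)), |w g * ∑ σ : Perm (Fin n),
        G (ret k b (emb u σ * g)) - w g * (n.factorial * mn k G)| ≤
        2 * n.factorial * (w g - w g * if EE u b (nf g) then (1 : ℝ) else 0) := by
      intro g _
      rw [← mul_sub, abs_mul, abs_of_nonneg (hw g)]
      refine (mul_le_mul_of_nonneg_left (hgg g) (hw g)).trans (le_of_eq ?_)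
      ring
    refine (Finset.sum_le_sum h3).trans ?_
    rw [← Finset.mul_sum, Finset.sum_sub_distrib, hw1]
    refine mul_le_mul_of_nonneg_left ?_ (by positivity)
    linarith
  have hfin : n.factorial * |∑ g, w g * G (ret k b g) - mn k G| ≤
      n.factorial * (θ + 2 * (1 - n.factorial * (p - θ))) := by
    have e1 : n.factorial * |∑ g, w g * G (ret k b g) - mn k G| =
        |n.factorial * ∑ g, w g * G (ret k b g) - n.factorial * mn k G| := by
      rw [← mul_sub, abs_mul, abs_of_pos hfac]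
    rw [e1]
    rw [abs_le] at hav htot ⊢
    constructor <;> nlinarith [hav.1, hav.2, htot.1, htot.2]
  exact le_of_mul_le_mul_left hfin hfac

/-! ### a lower bound in the uniform case -/

/-- the involution that exchanges `i` and `j i` -/
noncomputable def invo {n k : ℕ} (j : Fin k → Fin n) : Fin n ⊕ Fin k → Fin n ⊕ Fin k
  | Sum.inl a => open Classical in if h : ∃ i, j i = a then Sum.inr h.choose else Sum.inl a
  | Sum.inr i => Sum.inl (j i)

theorem invo_inr {n k : ℕ} (j : Fin k → Fin n) (i : Fin k) :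
    invo j (Sum.inr i) = Sum.inl (j i) := rfl

theorem invo_inl {n k : ℕ} (j : Fin k → Fin n) (hj : Function.Injective j) (i : Fin k) :
    invo j (Sum.inl (j i)) = Sum.inr i := by
  have h : ∃ i', j i' = j i := ⟨i, rfl⟩
  have h1 : invo j (Sum.inl (j i)) = Sum.inr h.choose := by
    unfold invo
    exact dif_pos h
  rw [h1, hj h.choose_spec]

theorem invo_inl' {n k : ℕ} (j : Fin k → Fin n) (a : Fin n) (ha : ¬ ∃ i, j i = a) :
    invo j (Sum.inl a) = Sum.inl a := by
  unfold invo
  exact dif_neg ha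

theorem invo_invo {n k : ℕ} (j : Fin k → Fin n) (hj : Function.Injective j) :
    Function.Involutive (invo j) := by
  intro x
  rcases x with a | i
  · by_cases ha : ∃ i, j i = a
    · obtain ⟨i, rfl⟩ := ha
      rw [invo_inl j hj, invo_inr]
    · rw [invo_inl' j a ha, invo_inl' j a ha]
  · rw [invo_inr, invo_inl j hj]

/-- number of permutations of `n + k` points in which the first `n` points are in distinct cycles
and the last `k` are in distinct ones of these cycles -/
theorem count_EE (n k : ℕ) : (n.descFactorial k : ℝ) ≤ (∑ π : Perm (Fin (n + k)),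
    (open Classical in if (Dst (Fin.castAdd k : Fin n → Fin (n + k)) π ∧
      ∃ j : Fin k → Fin n, Function.Injective j ∧
        ∀ i, π.SameCycle (Fin.castAdd k (j i)) (Fin.natAdd n i)) then (1 : ℝ) else 0)) := by
  classical
  rw [← Finset.sum_filter, Finset.sum_const, nsmul_eq_mul, mul_one]
  have h1 : (n.descFactorial k) = Fintype.card (Fin k ↪ Fin n) := by
    rw [Fintype.card_embedding_eq, Fintype.card_fin, Fintype.card_fin]
  rw [h1, ← Finset.card_univ]
  obtain ⟨e, he⟩ : ∃ e : Fin n ⊕ Fin k ≃ Fin (n + k), e = finSumFinEquiv := ⟨_, rfl⟩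
  have hel : ∀ a, Fin.castAdd k a = e (Sum.inl a) := fun a => by rw [he]; rfl
  have her : ∀ a, Fin.natAdd n a = e (Sum.inr a) := fun a => by rw [he]; rfl
  obtain ⟨P, hP⟩ : ∃ P : (Fin k ↪ Fin n) → Perm (Fin (n + k)), P =
      fun (j : Fin k ↪ Fin n) => e.permCongr
        (Function.Involutive.toPerm (invo j) (invo_invo j j.injective)) := ⟨_, rfl⟩
  have hPe : ∀ (j : Fin k ↪ Fin n) (x : Fin n ⊕ Fin k), P j (e x) = e (invo j x) := by
    intro j x
    rw [hP]
    beta_reduce
    rw [Equiv.permCongr_apply, Equiv.symm_apply_apply]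
    rfl
  have hPP : ∀ (j : Fin k ↪ Fin n) (x : Fin (n + k)), P j (P j x) = x := by
    intro j x
    obtain ⟨y, rfl⟩ := e.surjective x
    rw [hPe, hPe, invo_invo j j.injective y]
  have hcyc : ∀ (j : Fin k ↪ Fin n) (x y : Fin (n + k)), (P j).SameCycle x y →
      y = x ∨ y = P j x := by
    intro j x y h
    obtain ⟨q, hq⟩ := h.exists_nat_pow_eq
    have h3 : ∀ q : ℕ, ((P j) ^ q) x = x ∨ ((P j) ^ q) x = P j x := by
      intro q
      induction q with
      | zero => left; rfl
      | succ q ih =>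
        rw [pow_succ', Perm.mul_apply]
        rcases ih with h | h
        · right; rw [h]
        · left; rw [h, hPP]
    rcases h3 q with h4 | h4
    · left; rw [← hq, h4]
    · right; rw [← hq, h4]
  norm_cast
  refine Finset.card_le_card_of_injOn P ?_ ?_
  · intro j _
    rw [Finset.mem_coe, Finset.mem_filter]
    refine ⟨Finset.mem_univ _, ?_, (j : Fin k → Fin n), j.injective, ?_⟩
    · intro a c h
      rcases hcyc j _ _ h with h5 | h5
      · exact (Fin.castAdd_injective n k h5).symm
      · rw [hel, hel, hPe] at h5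
        have h6 := e.injective h5
        by_cases ha : ∃ i, j i = a
        · obtain ⟨i, rfl⟩ := ha
          rw [invo_inl j j.injective] at h6
          exact absurd h6 (by simp)
        · rw [invo_inl' j a ha] at h6
          exact (Sum.inl_injective h6).symm
    · intro i
      refine ⟨1, ?_⟩
      rw [zpow_one, hel, her, hPe, invo_inl j j.injective]
  · intro j _ j' _ h
    refine Function.Embedding.ext fun i => ?_
    have h3 := Equiv.congr_fun h (e (Sum.inr i))
    rw [hPe, hPe, invo_inr, invo_inr] at h3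
    exact Sum.inl_injective (e.injective h3)

theorem ratio (n k : ℕ) : 1 - (k : ℝ) ^ 2 / (n + 1) ≤
    n.factorial * (n.descFactorial k : ℝ) / ((n + k).factorial : ℝ) ∧
    n.factorial * (n.descFactorial k : ℝ) / ((n + k).factorial : ℝ) ≤ 1 := by
  induction k with
  | zero =>
    have h : (n.factorial : ℝ) ≠ 0 := by exact_mod_cast n.factorial_ne_zero
    simp [h]
  | succ k ih =>
    obtain ⟨a, ha⟩ : ∃ a : ℝ, a = n.factorial * (n.descFactorial k : ℝ) /
      ((n + k).factorial : ℝ) := ⟨_, rfl⟩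
    rw [← ha] at ih
    have ha0 : 0 ≤ a := by rw [ha]; positivity
    have hn : (0 : ℝ) < n + k + 1 := by positivity
    have hn1 : (0 : ℝ) < (n : ℝ) + 1 := by positivity
    have hf : ((n + k).factorial : ℝ) ≠ 0 := by exact_mod_cast (n + k).factorial_ne_zero
    have e1 : n.factorial * (n.descFactorial (k + 1) : ℝ) / ((n + (k + 1)).factorial : ℝ) =
        a * ((n - k : ℕ) : ℝ) / (n + k + 1) := by
      rw [ha, Nat.descFactorial_succ, ← add_assoc, Nat.factorial_succ]
      push_cast
      field_simp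
    rw [e1]
    have h1 : (n : ℝ) - k ≤ ((n - k : ℕ) : ℝ) := by
      rw [sub_le_iff_le_add]
      have h0 : n ≤ (n - k) + k := by omega
      exact_mod_cast h0
    have h2 : ((n - k : ℕ) : ℝ) ≤ n := by exact_mod_cast Nat.sub_le n k
    constructor
    · rw [le_div_iff₀ hn]
      have h3 : a * ((n : ℝ) - k) ≤ a * ((n - k : ℕ) : ℝ) := mul_le_mul_of_nonneg_left h1 ha0
      refine le_trans ?_ h3
      have h4 : a * ((n : ℝ) - k) = a * (n + k + 1) - a * (2 * k + 1) := by ring
      rw [h4]
      have h5 : a * (2 * k + 1) ≤ 2 * k + 1 := mul_le_of_le_one_left (by positivity) ih.2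
      have h6 : (1 - (k : ℝ) ^ 2 / (n + 1)) * (n + k + 1) ≤ a * (n + k + 1) :=
        mul_le_mul_of_nonneg_right ih.1 hn.le
      have h7 : (1 : ℝ) ≤ (n + k + 1) / (n + 1) := by
        rw [one_le_div hn1]
        have : (0 : ℝ) ≤ k := Nat.cast_nonneg k
        linarith
      have h8 : (1 - ((k + 1 : ℕ) : ℝ) ^ 2 / (n + 1)) * (n + k + 1) =
          (1 - (k : ℝ) ^ 2 / (n + 1)) * (n + k + 1) -
            (2 * k + 1) * ((n + k + 1) / (n + 1)) := by
        push_cast
        field_simp
        ring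
      rw [h8]
      have h9 : (2 * (k : ℝ) + 1) * 1 ≤ (2 * k + 1) * ((n + k + 1) / (n + 1)) :=
        mul_le_mul_of_nonneg_left h7 (by positivity)
      linarith
    · rw [div_le_one hn]
      have h3 : a * ((n - k : ℕ) : ℝ) ≤ 1 * n := mul_le_mul ih.2 h2 (Nat.cast_nonneg _) zero_le_one
      have : (0 : ℝ) ≤ k := Nat.cast_nonneg k
      linarith

end Run7.h565.SM
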