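import Pool.Agent.Run7.h565.SM.Mix
import Pool.Agent.Run7.h565.SM.Ind

/-!
# Project SM: functions of the permutation after a time with many rings are nearly invariant
under one more transposition
-/

set_option autoImplicit false

namespace Run7.h565.SM

open Finset Equiv Filter Topology
open Pool.Agent.Y998.ST (stirExp stirLaw totalRate)

variable {V : Type} [Fintype V] [DecidableEq V]

/-- mean change of `A` under a random transposition -/
noncomputable def e1 (J : V → V → ℝ) (μ A : Perm V → ℝ) : ℝ :=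
  ∑ g, μ g * ((∑ x, ∑ y, J x y / 2 * |A (swap x y * g) - A g|) / totalRate J)

/-- mean square change of `A` under a random transposition -/
noncomputable def e2 (J : V → V → ℝ) (μ A : Perm V → ℝ) : ℝ :=
  ∑ g, μ g * ((∑ x, ∑ y, J x y / 2 * (A (swap x y * g) - A g) ^ 2) / totalRate J)

theorem tr_abs {J : V → V → ℝ} (hJ : ∀ x y, 0 ≤ J x y) (hR : 0 < totalRate J) (B : Perm V → ℝ)
    (M : ℝ) (hB : ∀ g, |B g| ≤ M) (g : Perm V) : |tr J B g| ≤ M := by
  unfold tr
  rw [abs_div, abs_of_pos hR, div_le_iff₀ hR]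
  calc |∑ x, ∑ y, J x y / 2 * B (swap x y * g)|
      ≤ ∑ x, ∑ y, J x y / 2 * M := by
        refine (Finset.abs_sum_le_sum_abs _ _).trans (Finset.sum_le_sum fun x _ => ?_)
        refine (Finset.abs_sum_le_sum_abs _ _).trans (Finset.sum_le_sum fun y _ => ?_)
        rw [abs_mul, abs_of_nonneg (div_nonneg (hJ x y) two_pos.le)]
        exact mul_le_mul_of_nonneg_left (hB _) (div_nonneg (hJ x y) two_pos.le)
    _ = M * totalRate J := by
        unfold totalRate
        simp only [← Finset.sum_mul]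
        ring

theorem qq_abs {J : V → V → ℝ} (hJ : ∀ x y, 0 ≤ J x y) (hR : 0 < totalRate J) (B : Perm V → ℝ)
    (hB : ∀ g, |B g| ≤ 1) (n : ℕ) : ∀ g, |((qq J)^[n] B) g| ≤ 1 := by
  induction n with
  | zero => exact hB
  | succ n ih =>
    intro g
    rw [Function.iterate_succ', Function.comp_apply]
    have h1 := ih g
    have h2 := tr_abs hJ hR ((qq J)^[n] B) 1 ih g
    have h3 : qq J ((qq J)^[n] B) g = (((qq J)^[n] B) g + tr J ((qq J)^[n] B) g) / 2 := rfl
    rw [h3]
    rw [abs_le] at h1 h2 ⊢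
    constructor <;> linarith [h1.1, h1.2, h2.1, h2.2]

theorem ns {J : V → V → ℝ} (hJ : ∀ x y, 0 ≤ J x y) (hR : 0 < totalRate J) (μ : Perm V → ℝ)
    (ε₀ : ℝ) (hns : ∀ x y, J x y ≠ 0 → ∑ g, |μ (swap x y * g) - μ g| ≤ ε₀)
    (B : Perm V → ℝ) (hB : ∀ g, |B g| ≤ 1) :
    |∑ g, μ g * tr J B g - ∑ g, μ g * B g| ≤ ε₀ := by
  have h1 : ∑ g, μ g * tr J B g - ∑ g, μ g * B g =
      (∑ x, ∑ y, J x y / 2 * (∑ g, μ g * B (swap x y * g) - ∑ g, μ g * B g)) /
        totalRate J := by
    have e1 : ∑ x, ∑ y, J x y / 2 * (∑ g, μ g * B (swap x y * g) - ∑ g, μ g * B g) =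
        ∑ x, ∑ y, J x y / 2 * ∑ g, μ g * B (swap x y * g) -
          totalRate J * ∑ g, μ g * B g := by
      simp only [mul_sub, Finset.sum_sub_distrib]
      congr 1
      unfold totalRate
      simp only [← Finset.sum_mul]
    have e2 : ∑ g, μ g * tr J B g =
        (∑ x, ∑ y, J x y / 2 * ∑ g, μ g * B (swap x y * g)) / totalRate J := by
      unfold tr
      simp only [mul_div_assoc', ← Finset.sum_div]
      congr 1
      simp only [Finset.mul_sum]
      rw [Finset.sum_comm]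
      refine Finset.sum_congr rfl fun x _ => ?_
      rw [Finset.sum_comm]
      refine Finset.sum_congr rfl fun y _ => Finset.sum_congr rfl fun g _ => ?_
      ring
    rw [e1, e2, sub_div, mul_div_assoc]
    field_simp
  rw [h1, abs_div, abs_of_pos hR, div_le_iff₀ hR]
  calc |∑ x, ∑ y, J x y / 2 * (∑ g, μ g * B (swap x y * g) - ∑ g, μ g * B g)|
      ≤ ∑ x, ∑ y, J x y / 2 * ε₀ := by
        refine (Finset.abs_sum_le_sum_abs _ _).trans (Finset.sum_le_sum fun x _ => ?_)
        refine (Finset.abs_sum_le_sum_abs _ _).trans (Finset.sum_le_sum fun y _ => ?_)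
        rw [abs_mul, abs_of_nonneg (div_nonneg (hJ x y) two_pos.le)]
        by_cases hxy : J x y = 0
        · rw [hxy, zero_div, zero_mul, zero_mul]
        refine mul_le_mul_of_nonneg_left ?_ (div_nonneg (hJ x y) two_pos.le)
        have h2 := shift_le μ (swap x y) ε₀ (by rw [swap_inv]; exact hns x y hxy) B 1 hB
        rw [one_mul] at h2
        exact h2
    _ = ε₀ * totalRate J := by
        unfold totalRate
        simp only [← Finset.sum_mul]
        ring

/-- the energy inequality -/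
theorem energy_step {J : V → V → ℝ} (hJ : ∀ x y, 0 ≤ J x y) (hR : 0 < totalRate J)
    (μ : Perm V → ℝ) (hμ : ∀ g, 0 ≤ μ g)
    (ε₀ : ℝ) (hε : 0 ≤ ε₀) (hns : ∀ x y, J x y ≠ 0 → ∑ g, |μ (swap x y * g) - μ g| ≤ ε₀)
    (A : Perm V → ℝ) (hA : ∀ g, |A g| ≤ 1) :
    e2 J μ A ≤ 4 * (∑ g, μ g * A g ^ 2 - ∑ g, μ g * qq J A g ^ 2) + 2 * ε₀ := by
  have hp : ∀ g, (∑ x, ∑ y, J x y / 2 * (A (swap x y * g) - A g) ^ 2) / totalRate J ≤
      2 * A g ^ 2 + 2 * tr J (fun g => A g ^ 2) g - 4 * qq J A g ^ 2 := by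
    intro g
    have e1 : ∀ c : ℝ, (∑ x, ∑ y, J x y / 2 * (A (swap x y * g) - c) ^ 2) / totalRate J =
        tr J (fun g => A g ^ 2) g - 2 * c * tr J A g + c ^ 2 := by
      intro c
      have e3 : ∑ x, ∑ y, J x y / 2 * (A (swap x y * g) - c) ^ 2 =
          ∑ x, ∑ y, J x y / 2 * A (swap x y * g) ^ 2 -
          2 * c * ∑ x, ∑ y, J x y / 2 * A (swap x y * g) + c ^ 2 * totalRate J := by
        unfold totalRate
        simp only [Finset.mul_sum, ← Finset.sum_sub_distrib, ← Finset.sum_add_distrib]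
        refine Finset.sum_congr rfl fun x _ => Finset.sum_congr rfl fun y _ => ?_
        ring
      rw [e3]
      unfold tr
      field_simp
    have h1 : 0 ≤ (∑ x, ∑ y, J x y / 2 * (A (swap x y * g) - tr J A g) ^ 2) / totalRate J :=
      div_nonneg (Finset.sum_nonneg fun x _ => Finset.sum_nonneg fun y _ =>
        mul_nonneg (div_nonneg (hJ x y) two_pos.le) (sq_nonneg _)) hR.le
    rw [e1] at h1 ⊢
    unfold qq
    nlinarith
  have h2 := ns hJ hR μ ε₀ hns (fun g => A g ^ 2) (fun g => by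
    rw [abs_of_nonneg (sq_nonneg _)]
    have := hA g
    rw [abs_le] at this
    nlinarith)
  have h3 : e2 J μ A ≤ ∑ g, μ g * (2 * A g ^ 2 + 2 * tr J (fun g => A g ^ 2) g -
      4 * qq J A g ^ 2) := by
    unfold e2
    exact Finset.sum_le_sum fun g _ => mul_le_mul_of_nonneg_left (hp g) (hμ g)
  have h4 : ∑ g, μ g * (2 * A g ^ 2 + 2 * tr J (fun g => A g ^ 2) g - 4 * qq J A g ^ 2) =
      2 * ∑ g, μ g * A g ^ 2 + 2 * ∑ g, μ g * tr J (fun g => A g ^ 2) g -
        4 * ∑ g, μ g * qq J A g ^ 2 := by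
    simp only [Finset.mul_sum, ← Finset.sum_sub_distrib, ← Finset.sum_add_distrib]
    exact Finset.sum_congr rfl fun g _ => by ring
  rw [h4] at h3
  rw [abs_le] at h2
  linarith [h2.2]

theorem energy_sum {J : V → V → ℝ} (hJ : ∀ x y, 0 ≤ J x y) (hR : 0 < totalRate J)
    (μ : Perm V → ℝ) (hμ : ∀ g, 0 ≤ μ g) (hμ1 : ∑ g, μ g = 1)
    (ε₀ : ℝ) (hε : 0 ≤ ε₀) (hns : ∀ x y, J x y ≠ 0 → ∑ g, |μ (swap x y * g) - μ g| ≤ ε₀)
    (G : Perm V → ℝ) (hG : ∀ g, |G g| ≤ 1) (N : ℕ) :
    ∑ n ∈ Finset.range N, e2 J μ ((qq J)^[n] G) ≤ 4 + 2 * ε₀ * N := by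
  have h1 : ∑ n ∈ Finset.range N, e2 J μ ((qq J)^[n] G) ≤
      4 * (∑ g, μ g * G g ^ 2 - ∑ g, μ g * ((qq J)^[N] G) g ^ 2) + 2 * ε₀ * N := by
    induction N with
    | zero => simp
    | succ N ih =>
      rw [Finset.sum_range_succ]
      have h2 := energy_step hJ hR μ hμ ε₀ hε hns _ (qq_abs hJ hR G hG N)
      rw [← Function.comp_apply (f := qq J) (g := (qq J)^[N]), ← Function.iterate_succ'] at h2
      push_cast
      linarith
  have h2 : ∑ g, μ g * G g ^ 2 ≤ 1 := by
    rw [← hμ1]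
    refine Finset.sum_le_sum fun g _ => ?_
    have := hG g
    rw [abs_le] at this
    exact mul_le_of_le_one_right (hμ g) (by nlinarith)
  have h3 : 0 ≤ ∑ g, μ g * ((qq J)^[N] G) g ^ 2 :=
    Finset.sum_nonneg fun g _ => mul_nonneg (hμ g) (sq_nonneg _)
  linarith

theorem e1_le {J : V → V → ℝ} (hJ : ∀ x y, 0 ≤ J x y) (hR : 0 < totalRate J)
    (μ : Perm V → ℝ) (hμ : ∀ g, 0 ≤ μ g) (hμ1 : ∑ g, μ g = 1) (A : Perm V → ℝ) (δ : ℝ)
    (hδ : 0 < δ) : e1 J μ A ≤ δ / 2 + e2 J μ A / (2 * δ) := by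
  have h1 : δ / 2 + e2 J μ A / (2 * δ) = ∑ g, μ g * ((∑ x, ∑ y, J x y / 2 *
      (δ / 2 + (A (swap x y * g) - A g) ^ 2 / (2 * δ))) / totalRate J) := by
    have e3 : ∀ g, (∑ x, ∑ y, J x y / 2 *
      (δ / 2 + (A (swap x y * g) - A g) ^ 2 / (2 * δ))) / totalRate J = δ / 2 +
        ((∑ x, ∑ y, J x y / 2 * (A (swap x y * g) - A g) ^ 2) / totalRate J) / (2 * δ) := by
      intro g
      have e4 : ∑ x, ∑ y, J x y / 2 * (δ / 2 + (A (swap x y * g) - A g) ^ 2 / (2 * δ)) =
          δ / 2 * totalRate J +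
            (∑ x, ∑ y, J x y / 2 * (A (swap x y * g) - A g) ^ 2) / (2 * δ) := by
        unfold totalRate
        simp only [Finset.mul_sum, Finset.sum_div, ← Finset.sum_add_distrib]
        refine Finset.sum_congr rfl fun x _ => Finset.sum_congr rfl fun y _ => ?_
        ring
      rw [e4]
      field_simp
    rw [Finset.sum_congr rfl fun g _ => by rw [e3 g]]
    simp only [mul_add, Finset.sum_add_distrib]
    rw [← Finset.sum_mul, hμ1, one_mul]
    congr 1
    unfold e2
    rw [Finset.sum_div]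
    exact Finset.sum_congr rfl fun g _ => by ring
  rw [h1]
  unfold e1
  refine Finset.sum_le_sum fun g _ => mul_le_mul_of_nonneg_left ?_ (hμ g)
  refine div_le_div_of_nonneg_right ?_ hR.le
  refine Finset.sum_le_sum fun x _ => Finset.sum_le_sum fun y _ =>
    mul_le_mul_of_nonneg_left ?_ (div_nonneg (hJ x y) two_pos.le)
  obtain ⟨z, hz⟩ : ∃ z : ℝ, z = |A (swap x y * g) - A g| := ⟨_, rfl⟩
  rw [← sq_abs (A (swap x y * g) - A g), ← hz]
  have h2 : 0 ≤ (z - δ) ^ 2 / (2 * δ) := by positivity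
  have h3 : (z - δ) ^ 2 / (2 * δ) = δ / 2 + z ^ 2 / (2 * δ) - z := by
    field_simp
    ring
  linarith

/-- Functions of the permutation after a time with many rings are nearly invariant under one more
random transposition. -/
theorem energy (κ : ℝ) (hκ : 0 < κ) : ∃ l ε₀ : ℝ, 0 < l ∧ 0 < ε₀ ∧
    ∀ (V : Type) [Fintype V] [DecidableEq V] (J : V → V → ℝ), (∀ x y, 0 ≤ J x y) →
    0 < totalRate J → ∀ μ : Perm V → ℝ, (∀ g, 0 ≤ μ g) → ∑ g, μ g = 1 →
    (∀ x y, J x y ≠ 0 → ∑ g, |μ (swap x y * g) - μ g| ≤ ε₀) →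
    ∀ a : ℝ, 2 * (a * totalRate J) = l → ∀ G : Perm V → ℝ, (∀ g, |G g| ≤ 1) →
    e1 J μ (fun g => ∑ h, stirLaw J a h * G (h * g)) ≤ κ := by
  obtain ⟨l, hl, hsup⟩ := po_sup (κ ^ 2 / 24) (by positivity)
  obtain ⟨N, hN⟩ := po_tail (l := l) (κ / 8) (by positivity)
  refine ⟨l, 1 / (N + 1), hl, by positivity, ?_⟩
  intro V _ _ J hJ hR μ hμ hμ1 hns a ha G hG
  obtain ⟨ε₀, hε₀⟩ : ∃ ε₀ : ℝ, ε₀ = 1 / (N + 1) := ⟨_, rfl⟩
  rw [← hε₀] at hns
  have hε0 : 0 ≤ ε₀ := by rw [hε₀]; positivity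
  have hεN : ε₀ * N ≤ 1 := by
    rw [hε₀, div_mul_eq_mul_div, one_mul, div_le_one (by positivity)]
    linarith
  obtain ⟨A, hA⟩ : ∃ A : Perm V → ℝ, A = fun g => ∑ h, stirLaw J a h * G (h * g) := ⟨_, rfl⟩
  have hpo := fun n => po_nonneg hl.le n
  obtain ⟨T, hT⟩ : ∃ T : ℝ, T = ∑ n ∈ Finset.range N, po l n := ⟨_, rfl⟩
  have hQ : ∀ n g, |((qq J)^[n] G) g| ≤ 1 := fun n => qq_abs hJ hR G hG n
  -- the mixture
  have h1 : ∀ g, |A g - ∑ n ∈ Finset.range N, po l n * ((qq J)^[n] G) g| ≤ 1 - T := by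
    intro g
    have hs := mix J hR.ne' a G g
    rw [ha] at hs
    have hsum := po_sum l
    have e3 : A g = ∑ h, stirLaw J a h * G (h * g) := by rw [hA]
    rw [← e3] at hs
    have hs1 := hsum.sub hs
    have hs2 := hsum.add hs
    have h3 := sum_le_hasSum (Finset.range N) (fun n _ => by
      have h4 := hQ n g
      rw [abs_le] at h4
      have : 0 ≤ po l n * (1 - ((qq J)^[n] G) g) := mul_nonneg (hpo n) (by linarith [h4.2])
      linarith) hs1
    have h5 := sum_le_hasSum (Finset.range N) (fun n _ => by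
      have h4 := hQ n g
      rw [abs_le] at h4
      have : 0 ≤ po l n * (1 + ((qq J)^[n] G) g) := mul_nonneg (hpo n) (by linarith [h4.1])
      linarith) hs2
    rw [Finset.sum_sub_distrib, ← hT] at h3
    rw [Finset.sum_add_distrib, ← hT] at h5
    rw [abs_le]
    constructor <;> linarith
  have h2 : ∀ g s, |A (s * g) - A g| ≤ ∑ n ∈ Finset.range N, po l n *
      |((qq J)^[n] G) (s * g) - ((qq J)^[n] G) g| + 2 * (1 - T) := by
    intro g s
    have h3 := h1 g
    have h4 := h1 (s * g)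
    have h5 : |∑ n ∈ Finset.range N, po l n * ((qq J)^[n] G) (s * g) -
        ∑ n ∈ Finset.range N, po l n * ((qq J)^[n] G) g| ≤ ∑ n ∈ Finset.range N, po l n *
      |((qq J)^[n] G) (s * g) - ((qq J)^[n] G) g| := by
      rw [← Finset.sum_sub_distrib]
      refine (Finset.abs_sum_le_sum_abs _ _).trans (Finset.sum_le_sum fun n _ => ?_)
      rw [← mul_sub, abs_mul, abs_of_nonneg (hpo n)]
    rw [abs_le] at h3 h4 h5 ⊢
    constructor <;> linarith [h3.1, h3.2, h4.1, h4.2, h5.1, h5.2]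
  have h3 : e1 J μ A ≤ ∑ n ∈ Finset.range N, po l n * e1 J μ ((qq J)^[n] G) + 2 * (1 - T) := by
    have e3 : ∑ n ∈ Finset.range N, po l n * e1 J μ ((qq J)^[n] G) + 2 * (1 - T) =
        ∑ g, μ g * ((∑ x, ∑ y, J x y / 2 * (∑ n ∈ Finset.range N, po l n *
          |((qq J)^[n] G) (swap x y * g) - ((qq J)^[n] G) g| + 2 * (1 - T))) /
            totalRate J) := by
      have e4 : ∀ g, (∑ x, ∑ y, J x y / 2 * (∑ n ∈ Finset.range N, po l n *
          |((qq J)^[n] G) (swap x y * g) - ((qq J)^[n] G) g| + 2 * (1 - T))) / totalRate J =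
          ∑ n ∈ Finset.range N, po l n * ((∑ x, ∑ y, J x y / 2 *
            |((qq J)^[n] G) (swap x y * g) - ((qq J)^[n] G) g|) / totalRate J) +
            2 * (1 - T) := by
        intro g
        have e5 : ∑ x, ∑ y, J x y / 2 * (∑ n ∈ Finset.range N, po l n *
          |((qq J)^[n] G) (swap x y * g) - ((qq J)^[n] G) g| + 2 * (1 - T)) =
            ∑ n ∈ Finset.range N, po l n * (∑ x, ∑ y, J x y / 2 *
            |((qq J)^[n] G) (swap x y * g) - ((qq J)^[n] G) g|) +
              2 * (1 - T) * totalRate J := by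
          simp only [mul_add, Finset.sum_add_distrib]
          congr 1
          · simp only [Finset.mul_sum]
            have e6 : ∀ x : V, ∑ y : V, ∑ n ∈ Finset.range N, J x y / 2 * (po l n *
                |((qq J)^[n] G) (swap x y * g) - ((qq J)^[n] G) g|) =
                ∑ n ∈ Finset.range N, ∑ y : V, J x y / 2 * (po l n *
                |((qq J)^[n] G) (swap x y * g) - ((qq J)^[n] G) g|) := fun x =>
              Finset.sum_comm
            simp only [e6]
            rw [Finset.sum_comm]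
            refine Finset.sum_congr rfl fun n _ => Finset.sum_congr rfl fun x _ =>
              Finset.sum_congr rfl fun y _ => ?_
            ring
          · unfold totalRate
            simp only [Finset.mul_sum]
            refine Finset.sum_congr rfl fun x _ => Finset.sum_congr rfl fun y _ => ?_
            ring
        rw [e5, add_div, Finset.sum_div]
        congr 1
        · refine Finset.sum_congr rfl fun n _ => ?_
          ring
        · field_simp
      refine Eq.trans ?_ (Finset.sum_congr (s₁ := (Finset.univ : Finset (Perm V))) rfl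
        fun g _ => congrArg (fun z => μ g * z) (e4 g)).symm
      simp only [mul_add, Finset.sum_add_distrib]
      rw [← Finset.sum_mul, hμ1, one_mul]
      congr 1
      unfold e1
      simp only [Finset.mul_sum]
      rw [Finset.sum_comm]
      refine Finset.sum_congr rfl fun g _ => Finset.sum_congr rfl fun n _ => ?_
      ring
    rw [e3]
    unfold e1
    refine Finset.sum_le_sum fun g _ => mul_le_mul_of_nonneg_left ?_ (hμ g)
    refine div_le_div_of_nonneg_right ?_ hR.le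
    exact Finset.sum_le_sum fun x _ => Finset.sum_le_sum fun y _ =>
      mul_le_mul_of_nonneg_left (h2 g (swap x y)) (div_nonneg (hJ x y) two_pos.le)
  have h4 : ∑ n ∈ Finset.range N, po l n * e1 J μ ((qq J)^[n] G) ≤
      κ / 2 * T + (κ ^ 2 / 24) * (4 + 2 * ε₀ * N) / (2 * κ) := by
    have h5 : ∀ n ∈ Finset.range N, po l n * e1 J μ ((qq J)^[n] G) ≤
        κ / 2 * po l n + (κ ^ 2 / 24) * e2 J μ ((qq J)^[n] G) / (2 * κ) := by
      intro n _
      have h6 := mul_le_mul_of_nonneg_left (e1_le hJ hR μ hμ hμ1 ((qq J)^[n] G) κ hκ) (hpo n)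
      have h7 : 0 ≤ e2 J μ ((qq J)^[n] G) := by
        unfold e2
        exact Finset.sum_nonneg fun g _ => mul_nonneg (hμ g) (div_nonneg
          (Finset.sum_nonneg fun x _ => Finset.sum_nonneg fun y _ =>
            mul_nonneg (div_nonneg (hJ x y) two_pos.le) (sq_nonneg _)) hR.le)
      have h8 : po l n * (e2 J μ ((qq J)^[n] G) / (2 * κ)) ≤
          (κ ^ 2 / 24) * (e2 J μ ((qq J)^[n] G) / (2 * κ)) :=
        mul_le_mul_of_nonneg_right (hsup n) (by positivity)
      have h9 : (κ ^ 2 / 24) * (e2 J μ ((qq J)^[n] G) / (2 * κ)) =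
          (κ ^ 2 / 24) * e2 J μ ((qq J)^[n] G) / (2 * κ) := by ring
      linarith
    refine (Finset.sum_le_sum h5).trans ?_
    rw [Finset.sum_add_distrib, ← Finset.mul_sum, ← hT, ← Finset.sum_div, ← Finset.mul_sum]
    have h6 := energy_sum hJ hR μ hμ hμ1 ε₀ hε0 hns G hG N
    have h7 : (κ ^ 2 / 24) * ∑ n ∈ Finset.range N, e2 J μ ((qq J)^[n] G) / (2 * κ) ≤
        (κ ^ 2 / 24) * (4 + 2 * ε₀ * N) / (2 * κ) := by
      rw [← Finset.sum_div, ← mul_div_assoc]
      exact div_le_div_of_nonneg_right (mul_le_mul_of_nonneg_left h6 (by positivity))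
        (by positivity)
    rw [← Finset.sum_div] at h7
    have h8 : (κ ^ 2 / 24) * ∑ n ∈ Finset.range N, e2 J μ ((qq J)^[n] G) / (2 * κ) =
        (κ ^ 2 / 24) * ((∑ n ∈ Finset.range N, e2 J μ ((qq J)^[n] G)) / (2 * κ)) := by
      rw [Finset.sum_div]
    rw [← mul_div_assoc] at h7
    linarith
  have hT1 : T ≤ 1 := by
    rw [hT]
    exact sum_le_hasSum _ (fun n _ => hpo n) (po_sum l)
  rw [← hT] at hN
  have h5 : (κ ^ 2 / 24) * (4 + 2 * ε₀ * N) / (2 * κ) ≤ κ / 8 := by
    rw [div_le_iff₀ (by positivity)]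
    nlinarith [sq_nonneg κ]
  rw [← hA]
  nlinarith

end Run7.h565.SM
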