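import Pool.Agent.Run7.h565.SM.Equ5
import Pool.Agent.Run7.h565.SM.Jnt4

/-!
# Equidistribution with respect to sets determined by the past and the future, part 1
-/

set_option autoImplicit false

namespace Run7.h565.SM

open Finset Equiv Run7.h565.LC
open Pool.Agent.TH268.PD (ret ret_spec)
open Pool.Agent.Y998.ST (stirExp stirLaw nnRate law_nonneg nn_nonneg cycleLen)

section e3

variable {V : Type} [Fintype V] [DecidableEq V]

/-- mean of a function of the permutations at the times `t`, `t + s` and `t + s + s'` -/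
noncomputable def E3 (J : V → V → ℝ) (t s s' : ℝ) (F : Perm V → Perm V → Perm V → ℝ) : ℝ :=
  stirExp J t (fun g => fut J s (fun h => fut J s' (F g h) h) g)

variable {J : V → V → ℝ} {t s s' : ℝ}

theorem E3_eq (F : Perm V → Perm V → Perm V → ℝ) : E3 J t s s' F =
    ∑ g, ∑ a, ∑ b, stirLaw J t g * stirLaw J s a * stirLaw J s' b *
      F g (a * g) (b * (a * g)) := by
  unfold E3 stirExp fut
  refine Finset.sum_congr rfl fun g _ => ?_
  rw [Finset.mul_sum]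
  refine Finset.sum_congr rfl fun a _ => ?_
  rw [Finset.mul_sum, Finset.mul_sum]
  exact Finset.sum_congr rfl fun b _ => by ring

theorem E3_mono (hJ : ∀ x y, 0 ≤ J x y) (ht : 0 ≤ t) (hs : 0 ≤ s) (hs' : 0 ≤ s')
    {F G : Perm V → Perm V → Perm V → ℝ} (h : ∀ g a b, F g a b ≤ G g a b) :
    E3 J t s s' F ≤ E3 J t s s' G := by
  rw [E3_eq, E3_eq]
  refine Finset.sum_le_sum fun g _ => Finset.sum_le_sum fun a _ =>
    Finset.sum_le_sum fun b _ => mul_le_mul_of_nonneg_left (h _ _ _) ?_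
  exact mul_nonneg (mul_nonneg (law_nonneg hJ ht g) (law_nonneg hJ hs a)) (law_nonneg hJ hs' b)

theorem E3_add (F G : Perm V → Perm V → Perm V → ℝ) :
    E3 J t s s' (fun g h k => F g h k + G g h k) = E3 J t s s' F + E3 J t s s' G := by
  rw [E3_eq, E3_eq, E3_eq]
  simp only [mul_add, Finset.sum_add_distrib]

theorem E3_mul (c : ℝ) (F : Perm V → Perm V → Perm V → ℝ) :
    E3 J t s s' (fun g h k => c * F g h k) = c * E3 J t s s' F := by
  rw [E3_eq, E3_eq]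
  simp only [Finset.mul_sum]
  refine Finset.sum_congr rfl fun g _ => Finset.sum_congr rfl fun a _ =>
    Finset.sum_congr rfl fun b _ => by ring

theorem E3_sum {ι : Type} (I : Finset ι) (F : ι → Perm V → Perm V → Perm V → ℝ) :
    E3 J t s s' (fun g h k => ∑ i ∈ I, F i g h k) = ∑ i ∈ I, E3 J t s s' (F i) := by
  classical
  induction I using Finset.induction_on with
  | empty =>
    simp only [Finset.sum_empty]
    rw [E3_eq]
    simp
  | insert i I hi ih =>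
    simp only [Finset.sum_insert hi]
    rw [E3_add, ih]

theorem E3_one : E3 J t s s' (fun _ _ _ => 1) = 1 := by
  unfold E3 fut stirExp
  simp only [mul_one, Pool.Agent.Y998.CN.law_sum]

theorem E3_mid (A : Perm V → ℝ) : E3 J t s s' (fun _ h _ => A h) = stirExp J (t + s) A := by
  have h1 : ∀ h : Perm V, fut J s' (fun _ => A h) h = A h := by
    intro h
    unfold fut
    rw [← Finset.sum_mul, Pool.Agent.Y998.CN.law_sum, one_mul]
  unfold E3
  simp only [h1]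
  exact se_fut J t s A

theorem E3_pull (A : Perm V → ℝ) (Φ : Perm V → Perm V → ℝ) :
    E3 J t s s' (fun g h k => A h * Φ g k) =
      stirExp J t (fun g => fut J s (fun h => A h * fut J s' (Φ g) h) g) := by
  have h1 : ∀ g h : Perm V, fut J s' (fun k => A h * Φ g k) h = A h * fut J s' (Φ g) h := by
    intro g h
    unfold fut
    rw [Finset.mul_sum]
    exact Finset.sum_congr rfl fun b _ => by ring
  unfold E3
  simp only [h1]

theorem E3_bd (hJ : ∀ x y, 0 ≤ J x y) (ht : 0 ≤ t) (hs : 0 ≤ s) (hs' : 0 ≤ s')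
    (F : Perm V → Perm V → Perm V → ℝ) (C : ℝ) (h : ∀ g a b, |F g a b| ≤ C) :
    |E3 J t s s' F| ≤ C := by
  have h1 : E3 J t s s' (fun _ _ _ => C * 1) = C := by rw [E3_mul, E3_one, mul_one]
  have h2 : E3 J t s s' (fun _ _ _ => (-C) * 1) = -C := by rw [E3_mul, E3_one, mul_one]
  rw [abs_le]
  constructor
  · rw [← h2]
    exact E3_mono hJ ht hs hs' fun g a b => by rw [mul_one]; exact (abs_le.1 (h g a b)).1
  · rw [← h1]
    exact E3_mono hJ ht hs hs' fun g a b => by rw [mul_one]; exact (abs_le.1 (h g a b)).2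

theorem E3_cheb (hJ : ∀ x y, 0 ≤ J x y) (ht : 0 ≤ t) (hs : 0 ≤ s) (hs' : 0 ≤ s')
    (P : Perm V → Perm V → Perm V → Prop) [∀ g h k, Decidable (P g h k)]
    (Q : Perm V → Perm V → Perm V → ℝ) (a : ℝ) (ha : 0 < a) (hQ : ∀ g h k, 0 ≤ Q g h k)
    (h : ∀ g h k, P g h k → a ≤ Q g h k) :
    E3 J t s s' (fun g h k => if P g h k then 1 else 0) ≤ E3 J t s s' Q / a := by
  rw [le_div_iff₀ ha, mul_comm, ← E3_mul]
  refine E3_mono hJ ht hs hs' fun g h' k => ?_
  split_ifs with hp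
  · rw [mul_one]; exact h g h' k hp
  · rw [mul_zero]; exact hQ g h' k

theorem quad3 (hJ : ∀ x y, 0 ≤ J x y) (ht : 0 ≤ t) (hs : 0 ≤ s) (hs' : 0 ≤ s')
    (S : Finset V) (R : V → V → Perm V → ℝ) (u : Perm V → Perm V → V → ℝ) (c e : ℝ)
    (he : 0 ≤ e)
    (h1 : ∀ y ∈ S, ∀ z ∈ S, y ≠ z →
      |E3 J t s s' (fun g h k => (R y z h - c) * (u g k y * u g k z))| ≤ e)
    (h2 : ∀ y ∈ S, |E3 J t s s' (fun g h k => (R y y h - c) * (u g k y * u g k y))| ≤ 3)
    (h3 : ∀ g k, (∑ y ∈ S, u g k y) ^ 2 ≤ 1) (hc : |c| ≤ 2) :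
    E3 J t s s' (fun g h k => ∑ y ∈ S, ∑ z ∈ S, u g k y * u g k z * R y z h) ≤
      e * (S.card : ℝ) ^ 2 + 3 * S.card + 2 := by
  have e1 : E3 J t s s' (fun g h k => ∑ y ∈ S, ∑ z ∈ S, u g k y * u g k z * R y z h) =
      (∑ y ∈ S, ∑ z ∈ S, E3 J t s s' (fun g h k => (R y z h - c) * (u g k y * u g k z))) +
      c * E3 J t s s' (fun g _ k => (∑ y ∈ S, u g k y) ^ 2) := by
    rw [← E3_mul]
    simp only [← E3_sum]
    rw [← E3_add]
    congr 1
    funext g h k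
    rw [pow_two, Finset.sum_mul_sum, Finset.mul_sum, ← Finset.sum_add_distrib]
    refine Finset.sum_congr rfl fun y _ => ?_
    rw [Finset.mul_sum, ← Finset.sum_add_distrib]
    exact Finset.sum_congr rfl fun z _ => by ring
  rw [e1]
  have e2 : c * E3 J t s s' (fun g _ k => (∑ y ∈ S, u g k y) ^ 2) ≤ 2 := by
    have a1 := E3_bd hJ ht hs hs' (fun g _ k => (∑ y ∈ S, u g k y) ^ 2) 1 (fun g _ k => by
      rw [abs_of_nonneg (sq_nonneg _)]; exact h3 g k)
    have a2 : |c * E3 J t s s' (fun g _ k => (∑ y ∈ S, u g k y) ^ 2)| ≤ 2 * 1 := by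
      rw [abs_mul]
      exact mul_le_mul hc a1 (abs_nonneg _) (by norm_num)
    linarith [le_abs_self (c * E3 J t s s' (fun g _ k => (∑ y ∈ S, u g k y) ^ 2))]
  have e3 : ∑ y ∈ S, ∑ z ∈ S, E3 J t s s' (fun g h k => (R y z h - c) * (u g k y * u g k z)) ≤
      ∑ y ∈ S, ((∑ z ∈ S, e) + 3) := by
    refine Finset.sum_le_sum fun y hy => ?_
    have b1 : ∀ z ∈ S, E3 J t s s' (fun g h k => (R y z h - c) * (u g k y * u g k z)) ≤
        e + if y = z then 3 else 0 := by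
      intro z hz
      by_cases hyz : y = z
      · subst hyz
        rw [if_pos rfl]
        linarith [le_abs_self (E3 J t s s' (fun g h k => (R y y h - c) * (u g k y * u g k y))),
          h2 y hy]
      · rw [if_neg hyz]
        linarith [le_abs_self (E3 J t s s' (fun g h k => (R y z h - c) * (u g k y * u g k z))),
          h1 y hy z hz hyz]
    refine (Finset.sum_le_sum b1).trans ?_
    rw [Finset.sum_add_distrib, Finset.sum_ite_eq, if_pos hy]
  have e4 : ∑ y ∈ S, ((∑ z ∈ S, e) + 3) = e * (S.card : ℝ) ^ 2 + 3 * S.card := by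
    rw [Finset.sum_const, Finset.sum_const, nsmul_eq_mul, nsmul_eq_mul]
    ring
  linarith

end e3

/-- two points on an arc, given the past and the future -/
theorem psi_jnt (hK : S_KPT) (d : ℕ) (hd : 3 ≤ d) : ∃ m₀ : ℕ, ∀ φ : ℝ → ℝ, Continuous φ →
    (∀ u, 0 ≤ φ u ∧ φ u ≤ 1) → ∀ η : ℝ, 0 < η → ∃ (c K : ℝ) (L₀ : ℕ), |c| ≤ 2 ∧ 0 < K ∧
    ∀ (L : ℕ) [NeZero L], L₀ ≤ L → ∀ t : ℝ, (Real.log L) ^ m₀ ≤ t →
    ∀ s s' : ℝ, K ≤ s * (L : ℝ) ^ d → K ≤ s' * (L : ℝ) ^ d →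
    ∀ Φ : Perm (Fin d → ZMod L) → Perm (Fin d → ZMod L) → ℝ, (∀ g h, |Φ g h| ≤ 1) →
    ∀ x y z : Fin d → ZMod L, x ≠ y → x ≠ z → y ≠ z →
    |E3 (nnRate d L) t s s' (fun g h k => (psi φ h x y * psi φ h x z - c) * Φ g k)| ≤ η := by
  obtain ⟨m₀, h⟩ := jnt_obs hK d hd
  refine ⟨m₀, fun φ hφ hφ1 η hη => ?_⟩
  have hc : ∀ F : (Fin 3 → ℝ) → ℝ, Continuous F → Continuous (aF F) := by
    intro F hF
    unfold aF
    fun_prop
  have hb : ∀ F : (Fin 3 → ℝ) → ℝ, (∀ u, 0 ≤ F u ∧ F u ≤ 1) → ∀ v, |aF F v| ≤ 1 := by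
    intro F hF v
    unfold aF
    have a0 : 0 ≤ max 0 (min 1 (v 0)) := le_max_left _ _
    have a1 : max 0 (min 1 (v 0)) ≤ 1 := max_le zero_le_one (min_le_left _ _)
    rw [abs_of_nonneg (mul_nonneg a0 (hF _).1)]
    exact mul_le_one₀ a1 (hF _).1 (hF _).2
  obtain ⟨F₁, hF₁⟩ : ∃ F : (Fin 3 → ℝ) → ℝ, F = fun u => φ (u 0) * φ (u 0 + u 1) := ⟨_, rfl⟩
  obtain ⟨F₂, hF₂⟩ : ∃ F : (Fin 3 → ℝ) → ℝ, F = fun u => φ (u 0) * φ (u 0 + u 2) := ⟨_, rfl⟩
  have hc₁ : Continuous F₁ := by rw [hF₁]; fun_prop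
  have hc₂ : Continuous F₂ := by rw [hF₂]; fun_prop
  have hm₁ : ∀ u, 0 ≤ F₁ u ∧ F₁ u ≤ 1 := by
    rw [hF₁]
    exact fun u => ⟨mul_nonneg (hφ1 _).1 (hφ1 _).1, mul_le_one₀ (hφ1 _).2 (hφ1 _).1 (hφ1 _).2⟩
  have hm₂ : ∀ u, 0 ≤ F₂ u ∧ F₂ u ≤ 1 := by
    rw [hF₂]
    exact fun u => ⟨mul_nonneg (hφ1 _).1 (hφ1 _).1, mul_le_one₀ (hφ1 _).2 (hφ1 _).1 (hφ1 _).2⟩
  obtain ⟨c₁, K₁, L₁, hcc₁, hK₁, h1, _⟩ := h 3 4 (aD (finRotate 3)) (aF F₁) (hc _ hc₁)
    (hb _ hm₁) (η / 2) (by positivity)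
  obtain ⟨c₂, K₂, L₂, hcc₂, hK₂, h2, _⟩ := h 3 4 (aD (finRotate 3)⁻¹) (aF F₂) (hc _ hc₂)
    (hb _ hm₂) (η / 2) (by positivity)
  refine ⟨c₁ + c₂, max K₁ K₂, max (max L₁ L₂) 3, (abs_add_le _ _).trans (by linarith),
    lt_of_lt_of_le hK₁ (le_max_left _ _), fun L _ hL t ht s s' hs hs' Φ hΦ x y z hxy hxz hyz =>
    ?_⟩
  have hL1 : L₁ ≤ L := (le_max_left _ _).trans ((le_max_left _ _).trans hL)
  have hL2 : L₂ ≤ L := (le_max_right _ _).trans ((le_max_left _ _).trans hL)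
  have hL3 : 3 ≤ L := (le_max_right _ _).trans hL
  have hlog := log_ge L hL3
  have ht0 : 0 ≤ t := le_trans (by positivity) ht
  have hJ : ∀ x y : Fin d → ZMod L, 0 ≤ nnRate d L x y := nn_nonneg
  have hinj : Function.Injective ![x, y, z] := by
    intro i j hij
    fin_cases i <;> fin_cases j
    · rfl
    · exact absurd hij hxy
    · exact absurd hij hxz
    · exact absurd hij (Ne.symm hxy)
    · rfl
    · exact absurd hij hyz
    · exact absurd hij (Ne.symm hxz)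
    · exact absurd hij (Ne.symm hyz)
    · rfl
  obtain ⟨b, hb⟩ : ∃ b : Fin 3 ↪ (Fin d → ZMod L), b = ⟨![x, y, z], hinj⟩ := ⟨_, rfl⟩
  have a1 := h1 L hL1 t ht s s' ((le_max_left _ _).trans hs) ((le_max_left _ _).trans hs') b Φ hΦ
  have a2 := h2 L hL2 t ht s s' ((le_max_right _ _).trans hs) ((le_max_right _ _).trans hs')
    b Φ hΦ
  have a1' : |E3 (nnRate d L) t s s' (fun g h k =>
      (aF F₁ (fun a => (aD (finRotate 3) a).val b h) - c₁) * Φ g k)| ≤ η / 2 := by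
    rw [E3_pull]
    refine le_trans ?_ a1
    unfold stirExp
    refine (Finset.abs_sum_le_sum_abs _ _).trans (Finset.sum_le_sum fun g _ => ?_)
    rw [abs_mul, abs_of_nonneg (law_nonneg hJ ht0 g)]
  have a2' : |E3 (nnRate d L) t s s' (fun g h k =>
      (aF F₂ (fun a => (aD (finRotate 3)⁻¹ a).val b h) - c₂) * Φ g k)| ≤ η / 2 := by
    rw [E3_pull]
    refine le_trans ?_ a2
    unfold stirExp
    refine (Finset.abs_sum_le_sum_abs _ _).trans (Finset.sum_le_sum fun g _ => ?_)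
    rw [abs_mul, abs_of_nonneg (law_nonneg hJ ht0 g)]
  have e1 : ∀ h : Perm (Fin d → ZMod L), psi φ h x y * psi φ h x z =
      aF F₁ (fun a => (aD (finRotate 3) a).val b h) +
      aF F₂ (fun a => (aD (finRotate 3)⁻¹ a).val b h) := by
    intro h
    have := psi_two φ h b
    rw [aF_val, aF_val, hF₁, hF₂, ← this, hb]
    rfl
  have e2 : (fun g h k : Perm (Fin d → ZMod L) =>
      (psi φ h x y * psi φ h x z - (c₁ + c₂)) * Φ g k) = fun g h k =>
      (aF F₁ (fun a => (aD (finRotate 3) a).val b h) - c₁) * Φ g k +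
        (aF F₂ (fun a => (aD (finRotate 3)⁻¹ a).val b h) - c₂) * Φ g k := by
    funext g h k
    rw [e1 h]
    ring
  rw [e2, E3_add]
  refine (abs_add_le _ _).trans ?_
  linarith

end Run7.h565.SM
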