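import Pool.Agent.Run7.h565.SM.Eqp1

/-!
# Equidistribution with respect to sets determined by the past and the future, part 2
-/

set_option autoImplicit false

namespace Run7.h565.SM

open Finset Equiv Run7.h565.LC
open Pool.Agent.Y998.ST (stirExp stirLaw nnRate law_nonneg nn_nonneg cycleLen)

section det

variable {V : Type} [Fintype V] [DecidableEq V]

/-- centred indicator -/
noncomputable def uw (B : Finset V) (y : V) : ℝ :=
  (if y ∈ B then 1 else 0) - (B.card : ℝ) / Fintype.card V

theorem uw_abs (B : Finset V) (y : V) : |uw B y| ≤ 1 := by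
  unfold uw
  have h1 : (B.card : ℝ) / Fintype.card V ≤ 1 := by
    refine div_le_one_of_le₀ ?_ (Nat.cast_nonneg _)
    exact_mod_cast Finset.card_le_univ B
  have h2 : 0 ≤ (B.card : ℝ) / Fintype.card V := by positivity
  rw [abs_le]
  split_ifs <;> constructor <;> linarith

theorem uw_sum (B : Finset V) : ∑ y, uw B y = 0 := by
  unfold uw
  rw [Finset.sum_sub_distrib, Finset.sum_boole, Finset.filter_mem_eq_inter, Finset.univ_inter,
    Finset.sum_const, nsmul_eq_mul, Finset.card_univ]
  rcases isEmpty_or_nonempty V with hV | hV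
  · have : B = ∅ := by
      ext y
      exact (IsEmpty.false y).elim
    subst this
    simp
  · have : (0 : ℝ) < Fintype.card V := by exact_mod_cast Fintype.card_pos
    field_simp
    ring

theorem uw_erase (B : Finset V) (x : V) : (∑ y ∈ Finset.univ.erase x, uw B y) ^ 2 ≤ 1 := by
  have := Finset.sum_erase_add Finset.univ (uw B) (Finset.mem_univ x)
  rw [uw_sum B] at this
  have h2 : ∑ y ∈ Finset.univ.erase x, uw B y = - uw B x := by linarith
  rw [h2, neg_sq, ← sq_abs]
  exact pow_le_one₀ (abs_nonneg _) (uw_abs B x)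

theorem sandwich2 (B : Finset V) (g : Perm V) (x : V) (K : ℕ) (hK : 0 < K)
    (e : ℝ) (he : 0 ≤ e) (h : ∀ a < K + 3,
      |∑ y ∈ Finset.univ.erase x, uw B y * psi (ct K a) g x y| ≤ e * Fintype.card V)
    (n : ℕ) (hn : n ≤ cycleLen g x) :
    |(cnt B g x n : ℝ) / Fintype.card V - (B.card : ℝ) / Fintype.card V *
      (n / Fintype.card V)| ≤ e + 2 / K + 2 / Fintype.card V := by
  obtain ⟨c, hc1, hcl, hc2, _, hc3, hc4⟩ := per g x
  rw [hcl] at hn
  obtain ⟨N, hN⟩ : ∃ N, N = Fintype.card V := ⟨_, rfl⟩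
  obtain ⟨β, hβ⟩ : ∃ β : ℝ, β = (B.card : ℝ) / Fintype.card V := ⟨_, rfl⟩
  have hβ0 : 0 ≤ β := by rw [hβ]; positivity
  have hβ1 : β ≤ 1 := by
    rw [hβ]
    refine div_le_one_of_le₀ ?_ (Nat.cast_nonneg _)
    exact_mod_cast Finset.card_le_univ B
  have hNpos : 0 < N := by
    rw [hN]
    have : Nonempty V := ⟨x⟩
    exact Fintype.card_pos
  have hNR : (0 : ℝ) < N := by exact_mod_cast hNpos
  have hKR : (0 : ℝ) < K := by exact_mod_cast hK
  have hcN : c ≤ N := by
    rw [hN, ← hcl]
    unfold cycleLen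
    exact (Nat.card_eq_fintype_card (α := V)) ▸ Finite.card_subtype_le _
  rw [← hβ, ← hN]
  rcases Nat.eq_zero_or_pos n with h0 | h0
  · subst h0
    unfold cnt
    rw [Finset.range_zero, Finset.filter_empty, Finset.card_empty, Nat.cast_zero, zero_div,
      mul_zero, sub_zero, abs_zero]
    positivity
  obtain ⟨m, rfl⟩ : ∃ m, n = m + 1 := ⟨n - 1, by omega⟩
  obtain ⟨f, hf⟩ : ∃ f : ℕ → ℝ, f = fun j => (if (g ^ j) x ∈ B then (1 : ℝ) else 0) / N :=
    ⟨_, rfl⟩
  have hf0 : ∀ j, 0 ≤ f j := by
    intro j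
    rw [hf]
    dsimp only
    split_ifs <;> positivity
  obtain ⟨A, hA⟩ : ∃ A : ℝ, A = ∑ j ∈ Finset.Ico 1 (m + 1), f j := ⟨_, rfl⟩
  -- the sums
  have hS : ∀ a < K + 3, |∑ j ∈ Finset.Ico 1 c, f j * ct K a (j / N) -
      ∑ j ∈ Finset.Ico 1 c, β / N * ct K a (j / N)| ≤ e := by
    intro a ha
    have h1 := h a ha
    rw [psi_orb hc1 hc2 hc3 hc4] at h1
    rw [← Finset.sum_sub_distrib]
    have e2 : ∑ j ∈ Finset.Ico 1 c, (f j * ct K a (j / N) - β / N * ct K a (j / N)) =
        (∑ j ∈ Finset.Ico 1 c, uw B ((g ^ j) x) * ct K a ((j : ℝ) / Fintype.card V)) / N := by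
      rw [Finset.sum_div]
      refine Finset.sum_congr rfl fun j _ => ?_
      unfold uw
      rw [hf, ← hβ, ← hN]
      ring
    rw [e2, abs_div, abs_of_pos hNR, div_le_iff₀ hNR]
    rw [← hN] at h1 ⊢
    exact h1
  obtain ⟨i, hi⟩ : ∃ i, i = K * m / N := ⟨_, rfl⟩
  have hi1 : i * N ≤ K * m := by rw [hi]; exact Nat.div_mul_le_self _ _
  have hi2 : K * m < (i + 1) * N := by
    rw [hi]
    have := Nat.lt_div_mul_add (a := K * m) hNpos
    linarith [this, Nat.succ_mul (K * m / N) N]
  have hiK : i ≤ K := by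
    rw [hi]
    refine Nat.div_le_of_le_mul ?_
    rw [mul_comm N K]
    exact Nat.mul_le_mul_left K (by omega)
  have hi1R : (i : ℝ) * N ≤ K * m := by exact_mod_cast hi1
  have hi2R : (K : ℝ) * m < (i + 1) * N := by exact_mod_cast hi2
  -- upper bound
  have hup : A ≤ β * (m / N) + e + 2 / K := by
    have a1 : A ≤ ∑ j ∈ Finset.Ico 1 c, f j * ct K (i + 2) (j / N) := by
      rw [hA]
      have b1 : ∑ j ∈ Finset.Ico 1 (m + 1), f j ≤
          ∑ j ∈ Finset.Ico 1 (m + 1), f j * ct K (i + 2) (j / N) := by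
        refine Finset.sum_le_sum fun j hj => ?_
        rw [Finset.mem_Ico] at hj
        have b2 : ct K (i + 2) ((j : ℝ) / N) = 1 := by
          unfold ct
          refine rp_one ?_
          push_cast
          have hjm : (j : ℝ) ≤ m := by exact_mod_cast (by omega : j ≤ m)
          have b3 : (K : ℝ) * (j / N) ≤ i + 1 := by
            rw [← mul_div_assoc, div_le_iff₀ hNR]
            have : (K : ℝ) * j ≤ K * m := mul_le_mul_of_nonneg_left hjm hKR.le
            linarith
          linarith
        rw [b2, mul_one]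
      refine b1.trans ?_
      exact Finset.sum_le_sum_of_subset_of_nonneg (Finset.Ico_subset_Ico le_rfl hn)
        fun j _ _ => mul_nonneg (hf0 j) (rp_mem _).1
    have a2 := (abs_le.1 (hS (i + 2) (by omega))).2
    have a3 : ∑ j ∈ Finset.Ico 1 c, 1 / (N : ℝ) * ct K (i + 2) (j / N) ≤ (i + 2) / K := by
      obtain ⟨q, hq⟩ : ∃ q, q = (i + 2) * N / K := ⟨_, rfl⟩
      have b1 : ∀ j ∈ Finset.Ico 1 c, 1 / (N : ℝ) * ct K (i + 2) (j / N) ≤
          1 / N * if j ≤ q then 1 else 0 := by
        intro j _
        refine mul_le_mul_of_nonneg_left ?_ (by positivity)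
        split_ifs with hjq
        · exact (rp_mem _).2
        · unfold ct
          rw [rp_zero]
          have b2 : (i + 2) * N < K * j := by
            rw [hq, not_le, Nat.div_lt_iff_lt_mul hK] at hjq
            rw [mul_comm K j]
            exact hjq
          have b3 : ((i : ℝ) + 2) * N < K * j := by exact_mod_cast b2
          have b4 : (i : ℝ) + 2 ≤ K * (j / N) := by
            rw [← mul_div_assoc, le_div_iff₀ hNR]
            exact b3.le
          push_cast
          linarith
      refine (Finset.sum_le_sum b1).trans ?_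
      rw [← Finset.mul_sum, Finset.sum_boole]
      have b5 : ((Finset.Ico 1 c).filter fun j => j ≤ q).card ≤ q := by
        have : ((Finset.Ico 1 c).filter fun j => j ≤ q) ⊆ Finset.Ioc 0 q := by
          intro j hj
          rw [Finset.mem_filter, Finset.mem_Ico] at hj
          rw [Finset.mem_Ioc]
          omega
        refine (Finset.card_le_card this).trans ?_
        rw [Nat.card_Ioc]
        omega
      have b6 : q * K ≤ (i + 2) * N := by rw [hq]; exact Nat.div_mul_le_self _ _
      have b7 : (q : ℝ) * K ≤ (i + 2) * N := by exact_mod_cast b6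
      have b8 : ((((Finset.Ico 1 c).filter fun j => j ≤ q).card : ℕ) : ℝ) ≤ q := by
        exact_mod_cast b5
      rw [one_div, inv_mul_le_iff₀ hNR, mul_div_assoc', le_div_iff₀ hKR]
      calc _ ≤ (q : ℝ) * K := mul_le_mul_of_nonneg_right b8 hKR.le
        _ ≤ _ := by linarith
    have a4 : ((i : ℝ) + 2) / K ≤ m / N + 2 / K := by
      rw [add_div]
      have : (i : ℝ) / K ≤ m / N := by
        rw [div_le_div_iff₀ hKR hNR]
        linarith
      linarith
    have a5 : ∑ j ∈ Finset.Ico 1 c, β / (N : ℝ) * ct K (i + 2) (j / N) =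
        β * ∑ j ∈ Finset.Ico 1 c, 1 / (N : ℝ) * ct K (i + 2) (j / N) := by
      rw [Finset.mul_sum]
      exact Finset.sum_congr rfl fun j _ => by ring
    have a6 : β * ∑ j ∈ Finset.Ico 1 c, 1 / (N : ℝ) * ct K (i + 2) (j / N) ≤
        β * (m / N + 2 / K) := mul_le_mul_of_nonneg_left (a3.trans a4) hβ0
    have a7 : β * (2 / K) ≤ 2 / K := mul_le_of_le_one_left (by positivity) hβ1
    rw [a5] at a2
    rw [mul_add] at a6
    linarith
  -- lower bound
  have hlo : β * (m / N) - e - 2 / K - 1 / N ≤ A := by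
    have a1 : ∑ j ∈ Finset.Ico 1 c, f j * ct K i (j / N) ≤ A := by
      rw [hA]
      have b1 : ∑ j ∈ Finset.Ico 1 c, f j * ct K i (j / N) ≤
          ∑ j ∈ Finset.Ico 1 c, if j < m + 1 then f j else 0 := by
        refine Finset.sum_le_sum fun j hj => ?_
        split_ifs with hjm
        · exact mul_le_of_le_one_right (hf0 j) (rp_mem _).2
        · have b2 : ct K i ((j : ℝ) / N) = 0 := by
            unfold ct
            refine rp_zero ?_
            have hjm' : (m : ℝ) ≤ j := by exact_mod_cast (by omega : m ≤ j)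
            have b3 : (i : ℝ) ≤ K * (j / N) := by
              rw [← mul_div_assoc, le_div_iff₀ hNR]
              have : (K : ℝ) * m ≤ K * j := mul_le_mul_of_nonneg_left hjm' hKR.le
              linarith
            linarith
          rw [b2, mul_zero]
      refine b1.trans (le_of_eq ?_)
      rw [← Finset.sum_filter]
      refine Finset.sum_congr ?_ fun j _ => rfl
      ext j
      rw [Finset.mem_filter, Finset.mem_Ico, Finset.mem_Ico]
      omega
    have a2 := (abs_le.1 (hS i (by omega))).1
    have a3 : (m : ℝ) / N - 2 / K - 1 / N ≤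
        ∑ j ∈ Finset.Ico 1 c, 1 / (N : ℝ) * ct K i (j / N) := by
      obtain ⟨q, hq⟩ : ∃ q, q = (i - 1) * N / K := ⟨_, rfl⟩
      have b1 : q * K ≤ (i - 1) * N := by rw [hq]; exact Nat.div_mul_le_self _ _
      have b1' : (i - 1) * N < q * K + K := by
        rw [hq]; exact Nat.lt_div_mul_add hK
      have b2 : q ≤ m := by
        have : q * K ≤ m * K := by
          calc q * K ≤ (i - 1) * N := b1
            _ ≤ i * N := Nat.mul_le_mul_right N (by omega)
            _ ≤ K * m := hi1
            _ = m * K := mul_comm _ _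
        exact Nat.le_of_mul_le_mul_right this hK
      have b3 : (i : ℝ) - 1 ≤ ((i - 1 : ℕ) : ℝ) := by
        rcases Nat.eq_zero_or_pos i with h0 | h0
        · subst h0; norm_num
        · rw [Nat.cast_sub h0]; norm_num
      have b4 : (q : ℝ) / N ≤ ∑ j ∈ Finset.Ico 1 c, 1 / (N : ℝ) * ct K i (j / N) := by
        have c1 : ∑ j ∈ Finset.Ico 1 (q + 1), 1 / (N : ℝ) * ct K i (j / N) = q / N := by
          have c2 : ∀ j ∈ Finset.Ico 1 (q + 1), 1 / (N : ℝ) * ct K i (j / N) = 1 / N := by
            intro j hj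
            rw [Finset.mem_Ico] at hj
            have hi0 : 1 ≤ i := by
              by_contra hc
              have : i - 1 = 0 := by omega
              rw [this, zero_mul, Nat.zero_div] at hq
              omega
            unfold ct
            rw [rp_one, mul_one]
            have c3 : j * K ≤ (i - 1) * N := by
              refine le_trans (Nat.mul_le_mul_right K (by omega : j ≤ q)) b1
            have c4 : (j : ℝ) * K ≤ (i - 1) * N := by
              have : ((j * K : ℕ) : ℝ) ≤ (((i - 1) * N : ℕ) : ℝ) := by exact_mod_cast c3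
              push_cast at this
              rw [Nat.cast_sub hi0] at this
              push_cast at this
              exact this
            have c5 : (K : ℝ) * (j / N) ≤ i - 1 := by
              rw [← mul_div_assoc, div_le_iff₀ hNR]
              linarith
            linarith
          rw [Finset.sum_congr rfl c2, Finset.sum_const, Nat.card_Ico, nsmul_eq_mul]
          rw [Nat.add_sub_cancel, mul_one_div]
        rw [← c1]
        exact Finset.sum_le_sum_of_subset_of_nonneg
          (Finset.Ico_subset_Ico le_rfl (by omega)) fun j _ _ =>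
            mul_nonneg (by positivity) (rp_mem _).1
      refine le_trans ?_ b4
      have b5 : ((i : ℝ) - 1) * N ≤ q * K + K := by
        have c1 : (((i - 1) * N : ℕ) : ℝ) ≤ ((q * K + K : ℕ) : ℝ) := by exact_mod_cast b1'.le
        push_cast at c1
        have c2 : ((i : ℝ) - 1) * N ≤ ((i - 1 : ℕ) : ℝ) * N :=
          mul_le_mul_of_nonneg_right b3 hNR.le
        linarith
      have b6 : (m : ℝ) / N - 2 / K - 1 / N = (K * m - 2 * N - K) / (K * N) := by
        field_simp
      rw [b6, div_le_div_iff₀ (by positivity) hNR]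
      have b7 : (K : ℝ) * m - 2 * N - K ≤ q * K := by linarith
      calc ((K : ℝ) * m - 2 * N - K) * N ≤ q * K * N := mul_le_mul_of_nonneg_right b7 hNR.le
        _ = q * (K * N) := by ring
    have a5 : ∑ j ∈ Finset.Ico 1 c, β / (N : ℝ) * ct K i (j / N) =
        β * ∑ j ∈ Finset.Ico 1 c, 1 / (N : ℝ) * ct K i (j / N) := by
      rw [Finset.mul_sum]
      exact Finset.sum_congr rfl fun j _ => by ring
    have a6 : β * (m / N - 2 / K - 1 / N) ≤
        β * ∑ j ∈ Finset.Ico 1 c, 1 / (N : ℝ) * ct K i (j / N) :=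
      mul_le_mul_of_nonneg_left a3 hβ0
    have a7 : β * (2 / K) ≤ 2 / K := mul_le_of_le_one_left (by positivity) hβ1
    have a8 : β * (1 / N) ≤ 1 / N := mul_le_of_le_one_left (by positivity) hβ1
    rw [a5] at a2
    rw [mul_sub, mul_sub] at a6
    linarith
  -- the first point
  have hcnt : (cnt B g x (m + 1) : ℝ) / N = f 0 + A := by
    rw [cnt_sum, Finset.sum_div, Finset.range_eq_Ico, Finset.sum_eq_sum_Ico_succ_bot (by omega)]
    rw [hA, hf]
  have hf1 : f 0 ≤ 1 / N := by
    rw [hf]
    dsimp only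
    refine div_le_div_of_nonneg_right ?_ hNR.le
    split_ifs
    · exact le_rfl
    · exact zero_le_one
  rw [hcnt]
  push_cast
  rw [add_div, mul_add, abs_le]
  have h2B : 2 / (N : ℝ) = 1 / N + 1 / N := by ring
  have h1N : 0 ≤ 1 / (N : ℝ) := by positivity
  have a7 : β * (1 / N) ≤ 1 / N := mul_le_of_le_one_left (by positivity) hβ1
  have a8 : 0 ≤ β * (1 / (N : ℝ)) := by positivity
  have := hf0 0
  constructor
  · linarith
  · linarith

/-- the discrepancy -/
noncomputable def dsc (B : Finset V) (g : Perm V) (x : V) (n : ℕ) : ℝ :=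
  (cnt B g x n : ℝ) / Fintype.card V - (B.card : ℝ) / Fintype.card V * (n / Fintype.card V)

theorem dsc_add (B : Finset V) (g : Perm V) (x : V) (m n : ℕ) :
    dsc B g x (m + n) = dsc B g x m + dsc B g ((g ^ m) x) n := by
  unfold dsc
  rw [cnt_add]
  push_cast
  ring

theorem all_arcs2 {B B' : Finset V} {g : Perm V} {e : ℝ} (he : 0 ≤ e)
    (h1 : ∀ p ∈ B', ∀ n ≤ cycleLen g p, |dsc B g p n| ≤ e)
    (h3 : ∀ x, |∑ y, wt B' y * sc g x y| ≤ e)
    (x : V) (n : ℕ) (hn : n ≤ cycleLen g x) : |dsc B g x n| ≤ 3 * e := by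
  by_cases hx : ∃ p ∈ B', g.SameCycle x p
  · obtain ⟨p, hp, hxp⟩ := hx
    obtain ⟨c, hc1, hcl, hc2, _, hc3, hc4⟩ := per g p
    obtain ⟨m, hm, hmx⟩ := hc4 x hxp.symm
    have hcx : cycleLen g x = c := by
      rw [← hcl]
      unfold cycleLen
      exact Nat.card_congr (Equiv.subtypeEquivRight fun w =>
        ⟨fun hw => hxp.symm.trans hw, fun hw => hxp.trans hw⟩)
    rw [hcx] at hn
    have hd : ∀ k ≤ c, |dsc B g p k| ≤ e := fun k hk => h1 p hp k (by rw [hcl]; exact hk)
    have e1 : dsc B g x n = dsc B g p (m + n) - dsc B g p m := by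
      rw [dsc_add, hmx]
      ring
    have e2 : |dsc B g p (m + n)| ≤ 2 * e := by
      rcases Nat.lt_or_ge c (m + n) with hlt | hge
      · obtain ⟨k, hk⟩ : ∃ k, m + n = c + k := ⟨m + n - c, by omega⟩
        rw [hk, dsc_add, hc2]
        have a1 := hd c le_rfl
        have a2 := hd k (by omega)
        have a3 := abs_add_le (dsc B g p c) (dsc B g p k)
        linarith
      · have := hd (m + n) hge
        linarith
    rw [e1]
    have a1 := hd m hm.le
    have a2 := abs_sub (dsc B g p (m + n)) (dsc B g p m)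
    linarith
  · push Not at hx
    have a1 := h3 x
    rw [sc_zero hx] at a1
    obtain ⟨N, hN⟩ : ∃ N, N = Fintype.card V := ⟨_, rfl⟩
    rw [← hN] at a1
    have a4 : (n : ℝ) / N ≤ (cycleLen g x : ℝ) / N :=
      div_le_div_of_nonneg_right (by exact_mod_cast hn) (Nat.cast_nonneg _)
    have a5 : (cycleLen g x : ℝ) / N ≤ e := by
      rw [neg_div, abs_neg, abs_le] at a1
      exact a1.2
    have a6 : 0 ≤ (n : ℝ) / N := by positivity
    have a7 : 0 ≤ (cnt B g x n : ℝ) / N := by positivity
    have a8 : (cnt B g x n : ℝ) / N ≤ n / N := by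
      refine div_le_div_of_nonneg_right ?_ (Nat.cast_nonneg _)
      have : cnt B g x n ≤ n := by
        unfold cnt
        exact (Finset.card_filter_le _ _).trans (le_of_eq (Finset.card_range n))
      exact_mod_cast this
    have b1 : (B.card : ℝ) / N ≤ 1 := by
      refine div_le_one_of_le₀ ?_ (Nat.cast_nonneg _)
      rw [hN]
      exact_mod_cast Finset.card_le_univ B
    have b2 : 0 ≤ (B.card : ℝ) / N := by positivity
    have b3 : (B.card : ℝ) / N * (n / N) ≤ n / N := mul_le_of_le_one_left a6 b1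
    have b4 : 0 ≤ (B.card : ℝ) / N * (n / N) := mul_nonneg b2 a6
    unfold dsc
    rw [← hN, abs_le]
    constructor <;> linarith

end det

end Run7.h565.SM
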