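import Pool.Agent.Run7.h565.SM.Ind
import Pool.Agent.Run7.h565.LC.Hand3

/-!
# Project SM, part 3: the induced permutation of any points of the torus
-/

set_option autoImplicit false

namespace Run7.h565.SM

open Finset Equiv
open Pool.Agent.TH268.PD (ret ret_spec)
open Pool.Agent.Y998.LP (NN tdist NN_one NN_mul NN_nonneg)
open Pool.Agent.Y998.ST (stirExp stirLaw nnRate law_nonneg nn_nonneg)
open Run7.h565.LC (rel uni S_KPT tdist_box)

theorem emb_NN (n : ℕ) : ∃ m : ℕ, ∀ (V : Type) [Fintype V] [DecidableEq V] (J : V → V → ℝ)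
    (t θ : ℝ) (u : Fin n ↪ V), (∀ a c, NN J t (swap (u a) (u c)) ≤ θ) → 0 ≤ θ →
    ∀ σ : Perm (Fin n), NN J t (emb u σ) ≤ m * θ := by
  have h1 : ∀ σ : Perm (Fin n), ∃ m : ℕ, ∀ (V : Type) [Fintype V] [DecidableEq V]
      (J : V → V → ℝ) (t θ : ℝ) (u : Fin n ↪ V), (∀ a c, NN J t (swap (u a) (u c)) ≤ θ) →
      0 ≤ θ → NN J t (emb u σ) ≤ m * θ := by
    intro σ
    induction σ using Perm.swap_induction_on with
    | one =>
      refine ⟨0, fun V _ _ J t θ u _ hθ => ?_⟩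
      rw [emb_one, NN_one]
      simp
    | swap_mul f x y _ ih =>
      obtain ⟨m, hm⟩ := ih
      refine ⟨m + 1, fun V _ _ J t θ u h hθ => ?_⟩
      rw [emb_mul, emb_swap]
      refine (NN_mul J t _ _).trans ?_
      have h2 := hm V J t θ u h hθ
      have h3 := h x y
      push_cast
      linarith
  choose m hm using h1
  refine ⟨∑ σ, m σ, fun V _ _ J t θ u h hθ σ => (hm σ V J t θ u h hθ).trans ?_⟩
  refine mul_le_mul_of_nonneg_right ?_ hθ
  exact_mod_cast Finset.single_le_sum (f := m) (fun _ _ => Nat.zero_le _) (Finset.mem_univ σ)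

theorem log_ge (L : ℕ) (hL : 3 ≤ L) : 1 ≤ Real.log L := by
  rw [Real.le_log_iff_exp_le (by positivity)]
  have h3 : (3 : ℝ) ≤ L := by exact_mod_cast hL
  have := Real.exp_one_lt_d9
  linarith

/-- the induced permutation of any `k` points of the torus is nearly uniform -/
theorem ind_torus (hK : S_KPT) (d : ℕ) (hd : 3 ≤ d) : ∃ m₀ : ℕ, ∀ (k : ℕ) (η : ℝ), 0 < η →
    ∃ L₀ : ℕ, ∀ (L : ℕ) [NeZero L], L₀ ≤ L → ∀ t : ℝ, (Real.log L) ^ m₀ ≤ t →
    ∀ b : Fin k → Fin d → ZMod L, Function.Injective b → ∀ G : Perm (Fin k) → ℝ,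
    (∀ π, |G π| ≤ 1) → |∑ g, stirLaw (nnRate d L) t g * G (ret k b g) - mn k G| ≤ η := by
  classical
  obtain ⟨m₀, hK⟩ := hK d hd
  obtain ⟨C, hC0, hdist⟩ := Pool.Agent.Y998.LQ.t_dist d (by omega)
  refine ⟨m₀ + 1, fun k η hη => ?_⟩
  obtain ⟨n, hn⟩ : ∃ n : ℕ, n = ⌈8 * (k : ℝ) ^ 2 / η⌉₊ := ⟨_, rfl⟩
  have hn1 : 8 * (k : ℝ) ^ 2 ≤ η * (n + 1) := by
    have h1 := Nat.le_ceil (8 * (k : ℝ) ^ 2 / η)
    rw [div_le_iff₀ hη, ← hn] at h1
    nlinarith
  have hfac : (0 : ℝ) < (n.factorial : ℝ) := by exact_mod_cast n.factorial_pos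
  obtain ⟨η', hη'⟩ : ∃ η' : ℝ, η' = η / (8 * n.factorial) := ⟨_, rfl⟩
  have hη'0 : 0 < η' := by rw [hη']; positivity
  obtain ⟨m, hm⟩ := emb_NN n
  obtain ⟨c, hc⟩ : ∃ c : ℝ, c = m * (C * (d * (n + k : ℕ))) := ⟨_, rfl⟩
  have hc0 : 0 ≤ c := by rw [hc]; positivity
  obtain ⟨A, hA⟩ : ∃ A : ℝ, A = c * (1 + 2 * n.factorial) * 2 / η := ⟨_, rfl⟩
  have hA0 : 0 ≤ A := by rw [hA]; positivity
  obtain ⟨L₁, hK⟩ := hK (n + k) η' hη'0
  refine ⟨max (max L₁ (n + k)) (max 3 ⌈Real.exp (A ^ 2)⌉₊), fun L _ hL t ht b hb G hG => ?_⟩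
  have hL1 : L₁ ≤ L := (le_max_left _ _).trans ((le_max_left _ _).trans hL)
  have hL2 : n + k ≤ L := (le_max_right _ _).trans ((le_max_left _ _).trans hL)
  have hL3 : 3 ≤ L := (le_max_left _ _).trans ((le_max_right _ _).trans hL)
  have hL4 : ⌈Real.exp (A ^ 2)⌉₊ ≤ L := (le_max_right _ _).trans ((le_max_right _ _).trans hL)
  have hL0 : (0 : ℝ) < L := by exact_mod_cast (by omega : 0 < L)
  have hlog : 1 ≤ Real.log L := log_ge L hL3
  have hlogA : A ^ 2 ≤ Real.log L := by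
    rw [Real.le_log_iff_exp_le hL0]
    exact (Nat.le_ceil _).trans (by exact_mod_cast hL4)
  have ht1 : Real.log L ≤ t := by
    refine le_trans ?_ ht
    exact le_self_pow₀ hlog (by omega)
  have ht2 : (Real.log L) ^ m₀ ≤ t := (pow_le_pow_right₀ hlog (by omega)).trans ht
  have ht0 : 0 < t := by linarith
  have hst : 0 < Real.sqrt t := Real.sqrt_pos.2 ht0
  have hAt : A ≤ Real.sqrt t := Real.le_sqrt_of_sq_le (hlogA.trans ht1)
  -- auxiliary points
  obtain ⟨B, hB⟩ : ∃ B : Finset (Fin d → ZMod L), B = Q292.LC.box 0 (n + k) \ Finset.univ.image b :=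
    ⟨_, rfl⟩
  have hBc : n ≤ B.card := by
    have h1 : (n + k) ≤ (Q292.LC.box (0 : Fin d → ZMod L) (n + k)).card := by
      rw [Pool.Agent.Q187.LC.Nas.card_box 0 (n + k) hL2]
      exact Nat.le_self_pow (by omega) _
    have h2 : (Finset.univ.image b).card ≤ k := by
      refine Finset.card_image_le.trans ?_
      rw [Finset.card_univ, Fintype.card_fin]
    have h3 := Finset.le_card_sdiff (Finset.univ.image b) (Q292.LC.box (0 : Fin d → ZMod L) (n + k))
    rw [hB]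
    omega
  obtain ⟨u₀⟩ : Nonempty (Fin n ↪ {x // x ∈ B}) := Function.Embedding.nonempty_of_card_le (by
    rw [Fintype.card_fin, Fintype.card_coe]
    exact hBc)
  obtain ⟨u, hu⟩ : ∃ u : Fin n ↪ (Fin d → ZMod L), u = u₀.trans (Function.Embedding.subtype _) :=
    ⟨_, rfl⟩
  have huB : ∀ a, u a ∈ B := fun a => by rw [hu]; exact (u₀ a).2
  have hub : ∀ i, b i ∉ Set.range u := by
    rintro i ⟨a, ha⟩
    have h1 := huB a
    rw [hB, Finset.mem_sdiff] at h1
    exact h1.2 (Finset.mem_image.2 ⟨i, Finset.mem_univ _, ha.symm⟩)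
  have hubox : ∀ a, u a ∈ Q292.LC.box (0 : Fin d → ZMod L) (n + k) := by
    intro a
    have h1 := huB a
    rw [hB, Finset.mem_sdiff] at h1
    exact h1.1
  -- near invariance
  obtain ⟨θ, hθ⟩ : ∃ θ : ℝ, θ = c / Real.sqrt t := ⟨_, rfl⟩
  have hNN : ∀ σ : Perm (Fin n), NN (nnRate d L) t (emb u σ) ≤ θ := by
    intro σ
    have h1 := hm (Fin d → ZMod L) (nnRate d L) t (C * (d * (n + k : ℕ)) / Real.sqrt t) u (by
      intro a a'
      refine (hdist L hL3 t ht0 (u a) (u a')).trans ?_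
      have h2 : (tdist (u a) (u a') : ℝ) ≤ d * (n + k : ℕ) := by
        exact_mod_cast tdist_box 0 (u a) (u a') (n + k) (hubox a) (hubox a')
      gcongr) (by positivity) σ
    rw [hθ, hc]
    refine h1.trans (le_of_eq ?_)
    ring
  -- the event
  obtain ⟨Ψ, hΨ⟩ : ∃ Ψ : (Fin (n + k) → Fin (n + k) → Prop) → ℝ, Ψ = fun R =>
      if (∀ a c : Fin n, R (Fin.castAdd k a) (Fin.castAdd k c) → a = c) ∧
        ∃ j : Fin k → Fin n, Function.Injective j ∧
          ∀ i, R (Fin.castAdd k (j i)) (Fin.natAdd n i) then 1 else 0 := ⟨_, rfl⟩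
  have hΨ1 : ∀ R, |Ψ R| ≤ 1 := by
    intro R
    rw [hΨ]
    beta_reduce
    split_ifs <;> norm_num
  have hinj : Function.Injective (Fin.append (u : Fin n → Fin d → ZMod L) b) := by
    rw [Fin.append_injective_iff]
    exact ⟨u.injective, hb, fun a i h => hub i ⟨a, h⟩⟩
  have hk1 := hK L hL1 t ht2 _ hinj Ψ hΨ1
  have hΨE : ∀ g : Perm (Fin d → ZMod L), Ψ (rel g (Fin.append (u : Fin n → Fin d → ZMod L) b)) =
      if EE u b g then 1 else 0 := by
    intro g
    rw [hΨ]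
    unfold rel EE Dst
    simp only [Fin.append_left, Fin.append_right]
    congr 1
  have hk2 : stirExp (nnRate d L) t (fun g => Ψ (rel g (Fin.append (u : Fin n → Fin d → ZMod L) b))) =
      ∑ g, stirLaw (nnRate d L) t g * (if EE u b g then 1 else 0) := by
    unfold stirExp
    exact Finset.sum_congr rfl fun g _ => by beta_reduce; rw [hΨE]
  have hk3 : (n.descFactorial k : ℝ) / ((n + k).factorial : ℝ) ≤ uni (n + k) Ψ := by
    unfold uni
    refine div_le_div_of_nonneg_right ((count_EE n k).trans (le_of_eq ?_)) (Nat.cast_nonneg _)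
    refine Finset.sum_congr rfl fun π _ => ?_
    rw [hΨ]
    unfold Dst
    beta_reduce
    congr 1
  rw [hk2] at hk1
  have h1 := ind_any (fun g => stirLaw (nnRate d L) t g)
    (fun g => law_nonneg nn_nonneg ht0.le g)
    (Pool.Agent.Y998.CN.law_sum _ _) u b hb hub θ (fun σ => hNN σ)
    ((n.descFactorial k : ℝ) / ((n + k).factorial : ℝ) - η') (by
      rw [abs_le] at hk1
      linarith [hk1.1]) G hG
  refine h1.trans ?_
  have h2 := (ratio n k).1
  have e1 : (n.factorial : ℝ) * ((n.descFactorial k : ℝ) / ((n + k).factorial : ℝ)) =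
      n.factorial * (n.descFactorial k : ℝ) / ((n + k).factorial : ℝ) := by ring
  have e2 : (n.factorial : ℝ) * η' = η / 8 := by
    rw [hη']
    field_simp
  have e3 : (k : ℝ) ^ 2 / (n + 1) ≤ η / 8 := by
    rw [div_le_div_iff₀ (by positivity) (by norm_num)]
    linarith
  have e4 : θ * (1 + 2 * n.factorial) ≤ η / 2 := by
    rw [hθ, div_mul_eq_mul_div, div_le_iff₀ hst]
    have h3 : A * η = c * (1 + 2 * n.factorial) * 2 := by
      rw [hA]
      field_simp
    nlinarith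
  nlinarith

end Run7.h565.SM
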