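import Pool.Agent.Run7.h565.LC.Kpt
import Pool.Agent.Run7.h565.SM.Tor

/-!
# Equidistribution of the cycles in space, part 1
-/

set_option autoImplicit false

namespace Run7.h565.SM

open Finset Equiv Run7.h565.LC
open Pool.Agent.TH268.PD (Cyc cyOf)
open Pool.Agent.Y998.ST (stirExp stirLaw nnRate law_nonneg nn_nonneg)

section gen

variable {V : Type} [Fintype V] [DecidableEq V]

theorem quad_exp (J : V → V → ℝ) (t : ℝ) (S : Finset V) (R : V → V → Perm V → ℝ)
    (w : V → ℝ) (c e : ℝ) (h1 : ∀ y ∈ S, ∀ z ∈ S, y ≠ z → |stirExp J t (R y z) - c| ≤ e)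
    (h2 : ∀ y ∈ S, |stirExp J t (R y y) - c| ≤ 2) (he : 0 ≤ e) :
    |stirExp J t (fun g => ∑ y ∈ S, ∑ z ∈ S, w y * w z * R y z g) - c * (∑ y ∈ S, w y) ^ 2| ≤
      e * (∑ y ∈ S, |w y|) ^ 2 + 2 * ∑ y ∈ S, w y ^ 2 := by
  have e1 : stirExp J t (fun g => ∑ y ∈ S, ∑ z ∈ S, w y * w z * R y z g) =
      ∑ y ∈ S, ∑ z ∈ S, w y * w z * stirExp J t (R y z) := by
    unfold stirExp
    simp only [Finset.mul_sum]
    rw [Finset.sum_comm]
    refine Finset.sum_congr rfl fun y _ => ?_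
    rw [Finset.sum_comm]
    refine Finset.sum_congr rfl fun z _ => ?_
    exact Finset.sum_congr rfl fun g _ => by ring
  have e2 : c * (∑ y ∈ S, w y) ^ 2 = ∑ y ∈ S, ∑ z ∈ S, w y * w z * c := by
    rw [pow_two, Finset.sum_mul_sum, Finset.mul_sum]
    refine Finset.sum_congr rfl fun y _ => ?_
    rw [Finset.mul_sum]
    exact Finset.sum_congr rfl fun z _ => by ring
  rw [e1, e2, ← Finset.sum_sub_distrib]
  refine (Finset.abs_sum_le_sum_abs _ _).trans ?_
  have e3 : e * (∑ y ∈ S, |w y|) ^ 2 + 2 * ∑ y ∈ S, w y ^ 2 =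
      ∑ y ∈ S, ((∑ z ∈ S, |w y| * |w z| * e) + 2 * w y ^ 2) := by
    rw [pow_two, Finset.sum_mul_sum, Finset.mul_sum, Finset.mul_sum, ← Finset.sum_add_distrib]
    refine Finset.sum_congr rfl fun y _ => ?_
    rw [Finset.mul_sum]
    congr 1
    exact Finset.sum_congr rfl fun z _ => by ring
  rw [e3]
  refine Finset.sum_le_sum fun y hy => ?_
  rw [← Finset.sum_sub_distrib]
  refine (Finset.abs_sum_le_sum_abs _ _).trans ?_
  have e4 : ∀ z ∈ S, |w y * w z * stirExp J t (R y z) - w y * w z * c| ≤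
      |w y| * |w z| * e + if y = z then 2 * w y ^ 2 else 0 := by
    intro z hz
    rw [← mul_sub, abs_mul, abs_mul]
    by_cases hyz : y = z
    · subst hyz
      rw [if_pos rfl]
      have a1 : |w y| * |w y| * |stirExp J t (R y y) - c| ≤ |w y| * |w y| * 2 :=
        mul_le_mul_of_nonneg_left (h2 y hy) (by positivity)
      have a2 : |w y| * |w y| = w y ^ 2 := by rw [← abs_mul, ← pow_two, abs_pow, sq_abs]
      rw [a2] at a1 ⊢
      have a3 : 0 ≤ w y ^ 2 * e := by positivity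
      linarith
    · rw [if_neg hyz, add_zero]
      exact mul_le_mul_of_nonneg_left (h1 y hy z hz hyz) (by positivity)
  refine (Finset.sum_le_sum e4).trans ?_
  rw [Finset.sum_add_distrib, Finset.sum_ite_eq, if_pos hy]

theorem quad_cyc (w : V → ℝ) (g : Perm V) :
    ∑ γ : Cyc g, (∑ x, open Classical in if cyOf g x = γ then w x else 0) ^ 2 =
      ∑ x, ∑ y, w x * w y * sc g x y := by
  classical
  have h0 : ∀ γ : Cyc g, (∑ x, if cyOf g x = γ then w x else 0) ^ 2 =
      ∑ x, ∑ y, (if cyOf g x = γ then w x else 0) * (if cyOf g y = γ then w y else 0) := by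
    intro γ
    rw [pow_two, Finset.sum_mul_sum]
  rw [Finset.sum_congr rfl fun γ _ => h0 γ]
  rw [Finset.sum_comm]
  refine Finset.sum_congr rfl fun x _ => ?_
  rw [Finset.sum_comm]
  refine Finset.sum_congr rfl fun y _ => ?_
  have h2 : ∀ γ : Cyc g, (if cyOf g x = γ then w x else 0) * (if cyOf g y = γ then w y else 0) =
      if cyOf g x = γ then (if cyOf g y = cyOf g x then w x * w y else 0) else 0 := by
    intro γ
    by_cases hx : cyOf g x = γ
    · subst hx; simp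
    · simp [hx]
  rw [Finset.sum_congr rfl fun γ _ => h2 γ, Finset.sum_ite_eq, if_pos (Finset.mem_univ _)]
  unfold sc
  by_cases hxy : g.SameCycle x y
  · rw [if_pos hxy, if_pos ((LC.cyOf_eq g y x).2 hxy.symm), mul_one]
  · rw [if_neg hxy, if_neg (fun h => hxy ((LC.cyOf_eq g y x).1 h).symm), mul_zero]

theorem quad_ge (w : V → ℝ) (g : Perm V) (x : V) :
    (∑ y, w y * sc g x y) ^ 2 ≤ ∑ x, ∑ y, w x * w y * sc g x y := by
  classical
  rw [← quad_cyc]
  have h1 : ∑ y, w y * sc g x y = ∑ y, if cyOf g y = cyOf g x then w y else 0 := by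
    refine Finset.sum_congr rfl fun y _ => ?_
    unfold sc
    by_cases hxy : g.SameCycle x y
    · rw [if_pos hxy, if_pos ((LC.cyOf_eq g y x).2 hxy.symm), mul_one]
    · rw [if_neg hxy, if_neg (fun h => hxy ((LC.cyOf_eq g y x).1 h).symm), mul_zero]
  rw [h1]
  have := Finset.single_le_sum (f := fun γ : Cyc g =>
    (∑ x, if cyOf g x = γ then w x else 0) ^ 2) (fun i _ => sq_nonneg _)
    (Finset.mem_univ (cyOf g x))
  convert this using 3

theorem cheb {J : V → V → ℝ} (hJ : ∀ x y, 0 ≤ J x y) {t : ℝ} (ht : 0 ≤ t) (P : Perm V → Prop)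
    [DecidablePred P] (Q : Perm V → ℝ) (a : ℝ) (ha : 0 < a) (hQ : ∀ g, 0 ≤ Q g) (h : ∀ g, P g → a ≤ Q g) :
    stirExp J t (fun g => if P g then 1 else 0) ≤ stirExp J t Q / a := by
  unfold stirExp
  rw [Finset.sum_div]
  refine Finset.sum_le_sum fun g _ => ?_
  have h0 := law_nonneg hJ ht g
  rw [le_div_iff₀ ha, mul_assoc]
  refine mul_le_mul_of_nonneg_left ?_ h0
  change (if P g then (1 : ℝ) else 0) * a ≤ Q g
  split_ifs with hp
  · rw [one_mul]; exact h g hp
  · rw [zero_mul]; exact hQ g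

/-- the weights -/
noncomputable def wt (B : Finset V) (y : V) : ℝ :=
  (if y ∈ B then 1 else 0) / B.card - 1 / Fintype.card V

theorem wt_ind (B : Finset V) : ∑ y : V, (if y ∈ B then (1 : ℝ) else 0) / B.card =
    B.card / B.card := by
  rw [← Finset.sum_div, Finset.sum_boole, Finset.filter_mem_eq_inter, Finset.univ_inter]

theorem wt_abs (B : Finset V) : ∑ y : V, |wt B y| ≤ 2 := by
  have h1 : ∀ y : V, |wt B y| ≤ (if y ∈ B then (1 : ℝ) else 0) / B.card + 1 / Fintype.card V := by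
    intro y
    unfold wt
    refine (abs_sub _ _).trans ?_
    rw [abs_of_nonneg (by positivity : (0 : ℝ) ≤ 1 / Fintype.card V), abs_of_nonneg]
    split_ifs <;> positivity
  refine (Finset.sum_le_sum fun y _ => h1 y).trans ?_
  rw [Finset.sum_add_distrib, wt_ind, Finset.sum_const, nsmul_eq_mul, Finset.card_univ,
    mul_one_div]
  have := div_self_le_one (B.card : ℝ)
  have := div_self_le_one (Fintype.card V : ℝ)
  linarith

theorem wt_sum (B : Finset V) (hB : B.Nonempty) : ∑ y : V, wt B y = 0 := by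
  unfold wt
  have h1 : (0 : ℝ) < B.card := by exact_mod_cast hB.card_pos
  have h2 : (0 : ℝ) < Fintype.card V := by
    have : Nonempty V := ⟨hB.choose⟩
    exact_mod_cast Fintype.card_pos
  rw [Finset.sum_sub_distrib, wt_ind, Finset.sum_const, nsmul_eq_mul, Finset.card_univ]
  field_simp
  ring

theorem wt_le (B : Finset V) (hB : B.Nonempty) (y : V) : |wt B y| ≤ 1 / B.card := by
  unfold wt
  have h1 : (0 : ℝ) < B.card := by exact_mod_cast hB.card_pos
  have h2 : (B.card : ℝ) ≤ Fintype.card V := by exact_mod_cast Finset.card_le_univ B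
  have h3 : 1 / (Fintype.card V : ℝ) ≤ 1 / B.card := one_div_le_one_div_of_le h1 h2
  have h4 : (0 : ℝ) ≤ 1 / (Fintype.card V : ℝ) := by positivity
  rw [abs_le]
  split_ifs
  · constructor <;> linarith
  · rw [zero_div]
    constructor <;> linarith

theorem wt_sq (B : Finset V) (hB : B.Nonempty) (S : Finset V) :
    ∑ y ∈ S, wt B y ^ 2 ≤ 2 / B.card := by
  have h0 : ∑ y ∈ S, wt B y ^ 2 ≤ ∑ y, wt B y ^ 2 :=
    Finset.sum_le_sum_of_subset_of_nonneg (Finset.subset_univ S) fun y _ _ => sq_nonneg _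
  refine h0.trans ?_
  have h1 : ∀ y : V, wt B y ^ 2 ≤ 1 / B.card * |wt B y| := by
    intro y
    rw [← sq_abs, pow_two]
    exact mul_le_mul_of_nonneg_right (wt_le B hB y) (abs_nonneg _)
  refine (Finset.sum_le_sum fun y _ => h1 y).trans ?_
  rw [← Finset.mul_sum]
  have := mul_le_mul_of_nonneg_left (wt_abs B) (by positivity : (0 : ℝ) ≤ 1 / B.card)
  refine this.trans (le_of_eq ?_)
  ring

end gen

theorem uni_two : uni 2 (fun R => open Classical in if R 0 1 then 1 else 0) = 1 / 2 := by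
  classical
  unfold uni
  have h1 : (Finset.univ.filter fun π : Perm (Fin 2) => π.SameCycle 0 1).card = 1 := by decide
  have h2 : ∑ π : Perm (Fin 2), (if π.SameCycle 0 1 then (1 : ℝ) else 0) = 1 := by
    rw [Finset.sum_boole, h1, Nat.cast_one]
  have h3 : ((2 : ℕ).factorial : ℝ) = 2 := by norm_num [Nat.factorial]
  rw [h3]
  congr 1
  refine Eq.trans (Finset.sum_congr rfl fun π _ => ?_) h2
  beta_reduce
  by_cases h : π.SameCycle 0 1
  · rw [if_pos h, if_pos h]
  · rw [if_neg h, if_neg h]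

theorem two_pt (hK : S_KPT) (d : ℕ) (hd : 3 ≤ d) : ∃ m₀ : ℕ, ∀ η : ℝ, 0 < η → ∃ L₀ : ℕ,
    ∀ (L : ℕ) [NeZero L], L₀ ≤ L → ∀ t : ℝ, (Real.log L) ^ m₀ ≤ t →
    ∀ x y : Fin d → ZMod L, x ≠ y → |stirExp (nnRate d L) t (fun g => sc g x y) - 1 / 2| ≤ η := by
  classical
  obtain ⟨m₀, h⟩ := hK d hd
  refine ⟨m₀, fun η hη => ?_⟩
  obtain ⟨L₀, h⟩ := h 2 η hη
  refine ⟨L₀, fun L _ hL t ht x y hxy => ?_⟩
  have hinj : Function.Injective ![x, y] := by
    intro i j hij
    fin_cases i <;> fin_cases j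
    · rfl
    · exact absurd hij hxy
    · exact absurd hij (Ne.symm hxy)
    · rfl
  have h1 := h L hL t ht ![x, y] hinj (fun R => if R 0 1 then 1 else 0) (fun R => by
    split_ifs
    · rw [abs_one]
    · rw [abs_zero]; exact zero_le_one)
  have h2 := uni_two
  have h3 : (fun g : Perm (Fin d → ZMod L) => (if rel g ![x, y] 0 1 then (1 : ℝ) else 0)) =
      fun g => sc g x y := by
    funext g
    unfold rel sc
    rfl
  rw [h3] at h1
  have h4 : uni 2 (fun R => if R 0 1 then (1 : ℝ) else 0) = 1 / 2 := by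
    rw [← h2]
  rw [h4] at h1
  exact h1

open Classical in
/-- the cycles are equidistributed -/
theorem cyc_equi (hK : S_KPT) (d : ℕ) (hd : 3 ≤ d) : ∃ m₀ : ℕ, ∀ η : ℝ, 0 < η → ∃ N₀ L₀ : ℕ,
    0 < N₀ ∧ ∀ (L : ℕ) [NeZero L], L₀ ≤ L → ∀ t : ℝ, (Real.log L) ^ m₀ ≤ t →
    ∀ B : Finset (Fin d → ZMod L), N₀ ≤ B.card →
      stirExp (nnRate d L) t (fun g => if ∃ x, η < |∑ y, wt B y * sc g x y| then 1 else 0) ≤
        η := by
  obtain ⟨m₀, h⟩ := two_pt hK d hd
  refine ⟨m₀, fun η hη => ?_⟩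
  obtain ⟨L₀, h⟩ := h (η ^ 3 / 8) (by positivity)
  obtain ⟨N₁, hN₁⟩ := exists_nat_ge (8 / η ^ 3)
  refine ⟨N₁ + 1, max L₀ 3, by omega, fun L _ hL t ht B hB => ?_⟩
  have hL3 : 3 ≤ L := (le_max_right _ _).trans hL
  have hlog := log_ge L hL3
  have ht0 : 0 ≤ t := le_trans (by positivity) ht
  have hJ : ∀ x y : Fin d → ZMod L, 0 ≤ nnRate d L x y := nn_nonneg
  have hBne : B.Nonempty := by
    rw [← Finset.card_pos]
    omega
  have hBc : 8 / η ^ 3 ≤ B.card := by
    refine hN₁.trans ?_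
    exact_mod_cast (by omega : N₁ ≤ B.card)
  have hB0 : (0 : ℝ) < B.card := by exact_mod_cast hBne.card_pos
  have h1 := quad_exp (nnRate d L) t Finset.univ (fun y z g => sc g y z) (wt B) (1 / 2)
    (η ^ 3 / 8) (fun y _ z _ hyz => h L ((le_max_left _ _).trans hL) t ht y z hyz)
    (fun y _ => by
      have e1 : (fun g : Perm (Fin d → ZMod L) => sc g y y) = fun _ => 1 := by
        funext g
        unfold sc
        rw [if_pos (Perm.SameCycle.refl g y)]
      rw [e1]
      unfold stirExp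
      rw [← Finset.sum_mul, Pool.Agent.Y998.CN.law_sum]
      norm_num) (by positivity)
  rw [wt_sum B hBne] at h1
  have h2 : stirExp (nnRate d L) t (fun g => ∑ y, ∑ z, wt B y * wt B z * sc g y z) ≤
      η ^ 3 := by
    have a1 := (abs_le.1 h1).2
    have a2 := wt_sq B hBne Finset.univ
    have a3 : (∑ y : Fin d → ZMod L, |wt B y|) ^ 2 ≤ 2 ^ 2 :=
      pow_le_pow_left₀ (Finset.sum_nonneg fun y _ => abs_nonneg _) (wt_abs B) 2
    have a4 : η ^ 3 / 8 * (∑ y : Fin d → ZMod L, |wt B y|) ^ 2 ≤ η ^ 3 / 8 * 2 ^ 2 :=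
      mul_le_mul_of_nonneg_left a3 (by positivity)
    have a5 : 2 / (B.card : ℝ) ≤ η ^ 3 / 4 := by
      rw [div_le_iff₀ (by positivity)] at hBc
      rw [div_le_div_iff₀ hB0 (by norm_num)]
      linarith
    linarith
  refine (cheb hJ ht0 _ (fun g => ∑ y, ∑ z, wt B y * wt B z * sc g y z) (η ^ 2)
    (by positivity) (fun g => ?_) fun g => ?_).trans ?_
  · rw [← quad_cyc]
    exact Finset.sum_nonneg fun _ _ => sq_nonneg _
  · rintro ⟨x, hx⟩
    refine le_trans ?_ (quad_ge (wt B) g x)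
    rw [← sq_abs (∑ y, wt B y * sc g x y)]
    exact pow_le_pow_left₀ hη.le hx.le 2
  · rw [div_le_iff₀ (by positivity)]
    calc _ ≤ η ^ 3 := h2
      _ = η * η ^ 2 := by ring

end Run7.h565.SM
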