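import Pool.Agent.Run7.h565.SM.Equ1
import Pool.Agent.Run7.h565.SM.ArcFin

/-!
# Equidistribution of the cycles in space, part 2: the orbit of a point
-/

set_option autoImplicit false

namespace Run7.h565.SM

open Finset Equiv Run7.h565.LC
open Pool.Agent.TH268.PD (ret ret_spec)
open Pool.Agent.Y998.ST (stirExp stirLaw nnRate law_nonneg nn_nonneg cycleLen)

section orb

variable {V : Type} [Fintype V] [DecidableEq V]

/-- the number of steps from `x` to `y` -/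
noncomputable def dd (g : Perm V) (x y : V) : ℕ := sInf {n : ℕ | 1 ≤ n ∧ (g ^ n) x = y}

theorem dd_eq {g : Perm V} {x y : V} {n : ℕ} (h1 : 1 ≤ n) (h2 : (g ^ n) x = y)
    (h3 : ∀ p, 1 ≤ p → p < n → (g ^ p) x ≠ y) : dd g x y = n := by
  have hmem : n ∈ {n : ℕ | 1 ≤ n ∧ (g ^ n) x = y} := ⟨h1, h2⟩
  refine le_antisymm (Nat.sInf_le hmem) ?_
  have h5 : dd g x y ∈ {n : ℕ | 1 ≤ n ∧ (g ^ n) x = y} := Nat.sInf_mem ⟨n, hmem⟩
  by_contra hc
  exact h3 _ h5.1 (by omega) h5.2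

/-- the period -/
theorem per (g : Perm V) (x : V) : ∃ c : ℕ, 1 ≤ c ∧ cycleLen g x = c ∧ (g ^ c) x = x ∧
    (∀ p, 1 ≤ p → p < c → (g ^ p) x ≠ x) ∧
    (∀ p q, p < q → q < c → (g ^ p) x ≠ (g ^ q) x) ∧
    (∀ y, g.SameCycle x y → ∃ p < c, (g ^ p) x = y) := by
  obtain ⟨N, hN⟩ : ∃ N, N = dd g x x := ⟨_, rfl⟩
  have hne : {n : ℕ | 1 ≤ n ∧ (g ^ n) x = x}.Nonempty :=
    ⟨orderOf g, orderOf_pos g, by rw [pow_orderOf_eq_one]; rfl⟩
  have h5 : N ∈ {n : ℕ | 1 ≤ n ∧ (g ^ n) x = x} := by rw [hN]; exact Nat.sInf_mem hne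
  obtain ⟨h1, h2⟩ := h5
  have h3 : ∀ p, 1 ≤ p → p < N → (g ^ p) x ≠ x := by
    intro p hp1 hp2 he
    have : N ≤ p := by rw [hN]; exact Nat.sInf_le ⟨hp1, he⟩
    omega
  have e3 : ∀ n : ℕ, (g ^ (N * n)) x = x := by
    intro n
    induction n with
    | zero => rfl
    | succ n ih => rw [Nat.mul_succ, pow_add, Perm.mul_apply, h2, ih]
  have key : ∀ p q : ℕ, p < q → q < N → (g ^ p) x ≠ (g ^ q) x := by
    intro p q hpq hq e
    obtain ⟨r, rfl⟩ : ∃ r, q = p + r := ⟨q - p, by omega⟩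
    rw [pow_add, Perm.mul_apply] at e
    exact h3 r (by omega) (by omega) ((g ^ p).injective e).symm
  have sur : ∀ y, g.SameCycle x y → ∃ p < N, (g ^ p) x = y := by
    intro y hy
    obtain ⟨n, hn⟩ : ∃ n : ℕ, (g ^ n) x = y := hy.exists_nat_pow_eq
    refine ⟨n % N, Nat.mod_lt _ (by omega), ?_⟩
    rw [← hn]
    nth_rw 2 [← Nat.mod_add_div n N]
    rw [pow_add, Perm.mul_apply, e3]
  refine ⟨N, h1, ?_, h2, h3, key, sur⟩
  unfold cycleLen
  have hf : ∀ p : Fin N, g.SameCycle x ((g ^ (p : ℕ)) x) := fun p =>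
    ⟨(p : ℕ), by rw [zpow_natCast]⟩
  rw [← Nat.card_eq_of_bijective (fun p : Fin N => (⟨(g ^ (p : ℕ)) x, hf p⟩ :
    {v : V // g.SameCycle x v})) ⟨?_, ?_⟩, Nat.card_eq_fintype_card, Fintype.card_fin]
  · intro p q hpq
    have hpq' : (g ^ (p : ℕ)) x = (g ^ (q : ℕ)) x := congrArg Subtype.val hpq
    rcases lt_trichotomy (p : ℕ) q with hlt | hlt | hlt
    · exact absurd hpq' (key p q hlt q.isLt)
    · exact Fin.ext hlt
    · exact absurd hpq'.symm (key q p hlt p.isLt)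
  · rintro ⟨v, hv⟩
    obtain ⟨p, hp, hpv⟩ := sur v hv
    exact ⟨⟨p, hp⟩, Subtype.ext hpv⟩

open Classical in
/-- sums over the orbit -/
theorem orb_sum {g : Perm V} {x : V} {c : ℕ} (h1 : 1 ≤ c) (h2 : (g ^ c) x = x)
    (h3 : ∀ p q, p < q → q < c → (g ^ p) x ≠ (g ^ q) x)
    (h4 : ∀ y, g.SameCycle x y → ∃ p < c, (g ^ p) x = y) (f : V → ℝ) :
    ∑ y ∈ Finset.univ.erase x, (if g.SameCycle x y then f y else 0) =
      ∑ j ∈ Finset.Ico 1 c, f ((g ^ j) x) := by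
  rw [← Finset.sum_filter]
  symm
  refine Finset.sum_nbij (fun j => (g ^ j) x) ?_ ?_ ?_ (fun j _ => rfl)
  · intro j hj
    rw [Finset.mem_Ico] at hj
    rw [Finset.mem_filter, Finset.mem_erase]
    refine ⟨⟨?_, Finset.mem_univ _⟩, ⟨(j : ℕ), by rw [zpow_natCast]⟩⟩
    have := h3 0 j (by omega) hj.2
    rw [pow_zero, Perm.one_apply] at this
    exact this.symm
  · intro p hp q hq hpq
    rw [Finset.mem_coe, Finset.mem_Ico] at hp hq
    dsimp only at hpq
    rcases lt_trichotomy p q with hlt | hlt | hlt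
    · exact absurd hpq (h3 p q hlt hq.2)
    · exact hlt
    · exact absurd hpq.symm (h3 q p hlt hp.2)
  · intro y hy
    rw [Finset.mem_coe, Finset.mem_filter, Finset.mem_erase] at hy
    obtain ⟨p, hp, hpy⟩ := h4 y hy.2
    refine ⟨p, ?_, hpy⟩
    rw [Finset.mem_coe, Finset.mem_Ico]
    refine ⟨?_, hp⟩
    by_contra hc
    have : p = 0 := by omega
    subst this
    rw [pow_zero, Perm.one_apply] at hpy
    exact hy.1.1 hpy.symm

/-- the number of visits to `B` in the first `n` steps -/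
def cnt (B : Finset V) (g : Perm V) (x : V) (n : ℕ) : ℕ :=
  ((Finset.range n).filter fun j => (g ^ j) x ∈ B).card

theorem cnt_add (B : Finset V) (g : Perm V) (x : V) (m n : ℕ) :
    cnt B g x (m + n) = cnt B g x m + cnt B g ((g ^ m) x) n := by
  unfold cnt
  rw [Finset.card_filter, Finset.card_filter, Finset.card_filter, Finset.sum_range_add]
  congr 1
  refine Finset.sum_congr rfl fun j _ => ?_
  rw [← Perm.mul_apply, ← pow_add, add_comm j m]

end orb

end Run7.h565.SM
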