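import Pool.Agent.Run7.h565.SM.Equ2

/-!
# Equidistribution of the cycles in space, part 3: two points on an arc
-/

set_option autoImplicit false

namespace Run7.h565.SM

open Finset Equiv Run7.h565.LC
open Pool.Agent.TH268.PD (ret ret_spec)
open Pool.Agent.Y998.ST (stirExp stirLaw nnRate law_nonneg nn_nonneg cycleLen)

section ar

variable {V : Type} [Fintype V] [DecidableEq V]

theorem dd_one {k : ℕ} {b : Fin k → V} (hb : Function.Injective b) (g : Perm V) {i j : Fin k}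
    (h : ret k b g i = j) : dd g (b i) (b j) = arcL b g i := by
  obtain ⟨h1, h2, h3⟩ := arcL_spec hb g i
  rw [h] at h2
  exact dd_eq h1 h2 fun p hp1 hp2 he => h3 p hp1 hp2 ⟨j, he.symm⟩

theorem dd_two {k : ℕ} {b : Fin k → V} (hb : Function.Injective b) (g : Perm V) {i j l : Fin k}
    (h : ret k b g i = j) (h' : ret k b g j = l) (hjl : j ≠ l) :
    dd g (b i) (b l) = arcL b g i + arcL b g j := by
  obtain ⟨h1, h2, h3⟩ := arcL_spec hb g i
  obtain ⟨h4, h5, h6⟩ := arcL_spec hb g j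
  rw [h] at h2
  rw [h'] at h5
  refine dd_eq (by omega) ?_ fun p hp1 hp2 he => ?_
  · rw [add_comm, pow_add, Perm.mul_apply, h2, h5]
  · rcases lt_trichotomy p (arcL b g i) with hlt | hlt | hlt
    · exact h3 p hp1 hlt ⟨l, he.symm⟩
    · rw [hlt, h2] at he
      exact hjl (hb he)
    · obtain ⟨q, rfl⟩ : ∃ q, p = q + arcL b g i := ⟨p - arcL b g i, by omega⟩
      rw [pow_add, Perm.mul_apply, h2] at he
      exact h6 q (by omega) (by omega) ⟨l, he.symm⟩

/-- the test observable -/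
noncomputable def psi (φ : ℝ → ℝ) (g : Perm V) (x y : V) : ℝ :=
  open Classical in if g.SameCycle x y then φ ((dd g x y : ℝ) / Fintype.card V) else 0

theorem psi_mem {φ : ℝ → ℝ} (hφ : ∀ u, 0 ≤ φ u ∧ φ u ≤ 1) (g : Perm V) (x y : V) :
    0 ≤ psi φ g x y ∧ psi φ g x y ≤ 1 := by
  unfold psi
  split_ifs
  · exact hφ _
  · exact ⟨le_rfl, zero_le_one⟩

theorem perm3 : ∀ ρ : Perm (Fin 3), ρ.SameCycle 0 1 → ρ.SameCycle 0 2 →
    ρ = finRotate 3 ∨ ρ = (finRotate 3)⁻¹ := by decide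

theorem rot_ne : finRotate 3 ≠ (finRotate 3)⁻¹ := by decide

theorem psi_two (φ : ℝ → ℝ) (g : Perm V) (b : Fin 3 ↪ V) :
    psi φ g (b 0) (b 1) * psi φ g (b 0) (b 2) =
      (if ret 3 b g = finRotate 3 then (fun u : Fin 3 → ℝ => φ (u 0) * φ (u 0 + u 1))
        (fun i => (arcL b g i : ℝ) / Fintype.card V) else 0) +
      (if ret 3 b g = (finRotate 3)⁻¹ then (fun u : Fin 3 → ℝ => φ (u 0) * φ (u 0 + u 2))
        (fun i => (arcL b g i : ℝ) / Fintype.card V) else 0) := by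
  have hs := (ret_spec 3 b b.injective).2.2.2 g
  by_cases h1 : ret 3 b g = finRotate 3
  · rw [if_pos h1, if_neg (by rw [h1]; exact rot_ne), add_zero]
    have e01 : g.SameCycle (b 0) (b 1) := (hs 0 1).1 (by rw [h1]; decide)
    have e02 : g.SameCycle (b 0) (b 2) := (hs 0 2).1 (by rw [h1]; decide)
    unfold psi
    rw [if_pos e01, if_pos e02, dd_one b.injective g (i := 0) (j := 1) (by rw [h1]; decide),
      dd_two b.injective g (i := 0) (j := 1) (l := 2) (by rw [h1]; decide) (by rw [h1]; decide)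
        (by decide)]
    push_cast
    rw [add_div]
  · rw [if_neg h1, zero_add]
    by_cases h2 : ret 3 b g = (finRotate 3)⁻¹
    · rw [if_pos h2]
      have e01 : g.SameCycle (b 0) (b 1) := (hs 0 1).1 (by rw [h2]; decide)
      have e02 : g.SameCycle (b 0) (b 2) := (hs 0 2).1 (by rw [h2]; decide)
      unfold psi
      rw [if_pos e01, if_pos e02, dd_one b.injective g (i := 0) (j := 2) (by rw [h2]; decide),
        dd_two b.injective g (i := 0) (j := 2) (l := 1) (by rw [h2]; decide) (by rw [h2]; decide)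
          (by decide)]
      push_cast
      rw [add_div, mul_comm]
    · rw [if_neg h2]
      by_cases e01 : g.SameCycle (b 0) (b 1)
      · by_cases e02 : g.SameCycle (b 0) (b 2)
        · rcases perm3 _ ((hs 0 1).2 e01) ((hs 0 2).2 e02) with h | h
          · exact absurd h h1
          · exact absurd h h2
        · unfold psi
          rw [if_neg e02, mul_zero]
      · unfold psi
        rw [if_neg e01, zero_mul]

theorem se_mem {J : V → V → ℝ} (hJ : ∀ x y, 0 ≤ J x y) {t : ℝ} (ht : 0 ≤ t) (F : Perm V → ℝ)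
    (hF : ∀ g, 0 ≤ F g ∧ F g ≤ 1) : 0 ≤ stirExp J t F ∧ stirExp J t F ≤ 1 := by
  constructor
  · exact Finset.sum_nonneg fun g _ => mul_nonneg (law_nonneg hJ ht g) (hF g).1
  · have h1 : stirExp J t F ≤ ∑ g, stirLaw J t g :=
      Finset.sum_le_sum fun g _ => mul_le_of_le_one_right (law_nonneg hJ ht g) (hF g).2
    rwa [Pool.Agent.Y998.CN.law_sum] at h1

theorem se_add (J : V → V → ℝ) (t : ℝ) (F G : Perm V → ℝ) :
    stirExp J t (fun g => F g + G g) = stirExp J t F + stirExp J t G := by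
  unfold stirExp
  rw [← Finset.sum_add_distrib]
  exact Finset.sum_congr rfl fun g _ => mul_add _ _ _

end ar

theorem arc_two (hK : S_KPT) (d : ℕ) (hd : 3 ≤ d) : ∃ m₀ : ℕ, ∀ φ : ℝ → ℝ, Continuous φ →
    (∀ u, 0 ≤ φ u ∧ φ u ≤ 1) → ∀ η : ℝ, 0 < η → ∃ (c : ℝ) (L₀ : ℕ),
    ∀ (L : ℕ) [NeZero L], L₀ ≤ L → ∀ t : ℝ, (Real.log L) ^ m₀ ≤ t →
    ∀ x y z : Fin d → ZMod L, x ≠ y → x ≠ z → y ≠ z →
    |stirExp (nnRate d L) t (fun g => psi φ g x y * psi φ g x z) - c| ≤ η := by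
  obtain ⟨m₀, h⟩ := arc_gt hK d hd
  refine ⟨m₀, fun φ hφ hφ1 η hη => ?_⟩
  obtain ⟨c₁, L₁, h1, _⟩ := h 3 (finRotate 3) (fun u => φ (u 0) * φ (u 0 + u 1))
    (by fun_prop) (fun u => ⟨mul_nonneg (hφ1 _).1 (hφ1 _).1,
      mul_le_one₀ (hφ1 _).2 (hφ1 _).1 (hφ1 _).2⟩) (η / 2) (by positivity)
  obtain ⟨c₂, L₂, h2, _⟩ := h 3 (finRotate 3)⁻¹ (fun u => φ (u 0) * φ (u 0 + u 2))
    (by fun_prop) (fun u => ⟨mul_nonneg (hφ1 _).1 (hφ1 _).1,
      mul_le_one₀ (hφ1 _).2 (hφ1 _).1 (hφ1 _).2⟩) (η / 2) (by positivity)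
  refine ⟨c₁ + c₂, max L₁ L₂, fun L _ hL t ht x y z hxy hxz hyz => ?_⟩
  have hinj : Function.Injective ![x, y, z] := by
    intro i j hij
    fin_cases i <;> fin_cases j
    · rfl
    · exact absurd hij hxy
    · exact absurd hij hxz
    · exact absurd hij (Ne.symm hxy)
    · rfl
    · exact absurd hij hyz
    · exact absurd hij (Ne.symm hxz)
    · exact absurd hij (Ne.symm hyz)
    · rfl
  have a1 := h1 L ((le_max_left _ _).trans hL) t ht ⟨![x, y, z], hinj⟩
  have a2 := h2 L ((le_max_right _ _).trans hL) t ht ⟨![x, y, z], hinj⟩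
  have a3 : stirExp (nnRate d L) t (fun g => psi φ g x y * psi φ g x z) = _ :=
    (congrArg (stirExp (nnRate d L) t) (funext fun g => psi_two φ g ⟨![x, y, z], hinj⟩)).trans
      (se_add _ _ _ _)
  rw [a3]
  rw [abs_le] at a1 a2 ⊢
  constructor <;> linarith [a1.1, a1.2, a2.1, a2.2]

/-- a smoothed arc from a given point sees `B` with the right weight -/
theorem arc_fix (hK : S_KPT) (d : ℕ) (hd : 3 ≤ d) : ∃ m₀ : ℕ, ∀ φ : ℝ → ℝ, Continuous φ →
    (∀ u, 0 ≤ φ u ∧ φ u ≤ 1) → ∀ η : ℝ, 0 < η → ∃ N₀ L₀ : ℕ,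
    ∀ (L : ℕ) [NeZero L], L₀ ≤ L → ∀ t : ℝ, (Real.log L) ^ m₀ ≤ t →
    ∀ B : Finset (Fin d → ZMod L), N₀ ≤ B.card → ∀ x : Fin d → ZMod L,
    stirExp (nnRate d L) t (fun g => (∑ y ∈ Finset.univ.erase x, wt B y * psi φ g x y) ^ 2) ≤
      η := by
  obtain ⟨m₀, h⟩ := arc_two hK d hd
  refine ⟨m₀, fun φ hφ hφ1 η hη => ?_⟩
  obtain ⟨e, he⟩ : ∃ e : ℝ, e = min 1 (η / 8) := ⟨_, rfl⟩
  have he0 : 0 < e := by rw [he]; positivity
  have he1 : e ≤ 1 := by rw [he]; exact min_le_left _ _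
  have he2 : e ≤ η / 8 := by rw [he]; exact min_le_right _ _
  obtain ⟨c, L₀, h⟩ := h φ hφ hφ1 e he0
  obtain ⟨N₁, hN₁⟩ := exists_nat_ge (12 / η)
  refine ⟨N₁ + 3, max L₀ 3, fun L _ hL t ht B hB x => ?_⟩
  have hL3 : 3 ≤ L := (le_max_right _ _).trans hL
  have hlog := log_ge L hL3
  have ht0 : 0 ≤ t := le_trans (by positivity) ht
  have hJ : ∀ x y : Fin d → ZMod L, 0 ≤ nnRate d L x y := nn_nonneg
  have hBne : B.Nonempty := by
    rw [← Finset.card_pos]
    omega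
  have hB0 : (0 : ℝ) < B.card := by exact_mod_cast hBne.card_pos
  have hB1 : (1 : ℝ) ≤ B.card := by exact_mod_cast hBne.card_pos
  have hBc : 12 / η ≤ B.card := by
    refine hN₁.trans ?_
    exact_mod_cast (by omega : N₁ ≤ B.card)
  have hm : ∀ y z : Fin d → ZMod L,
      0 ≤ stirExp (nnRate d L) t (fun g => psi φ g x y * psi φ g x z) ∧
      stirExp (nnRate d L) t (fun g => psi φ g x y * psi φ g x z) ≤ 1 := fun y z =>
    se_mem hJ ht0 _ fun g => ⟨mul_nonneg (psi_mem hφ1 g x y).1 (psi_mem hφ1 g x z).1,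
      mul_le_one₀ (psi_mem hφ1 g x y).2 (psi_mem hφ1 g x z).1 (psi_mem hφ1 g x z).2⟩
  have hc : |c| ≤ 2 ∧ -1 ≤ c := by
    obtain ⟨y, hy, z, hz, hyz⟩ : ∃ y ∈ B.erase x, ∃ z ∈ B.erase x, y ≠ z := by
      refine Finset.one_lt_card.1 ?_
      have := Finset.pred_card_le_card_erase (s := B) (a := x)
      omega
    have a1 := h L ((le_max_left _ _).trans hL) t ht x y z (Finset.ne_of_mem_erase hy).symm
      (Finset.ne_of_mem_erase hz).symm hyz
    have a2 := hm y z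
    rw [abs_le] at a1 ⊢
    exact ⟨⟨by linarith [a1.2, a2.1], by linarith [a1.1, a2.2]⟩, by linarith [a1.2, a2.1]⟩
  have h1 := quad_exp (nnRate d L) t (Finset.univ.erase x)
    (fun y z g => psi φ g x y * psi φ g x z) (wt B) c e
    (fun y hy z hz hyz => h L ((le_max_left _ _).trans hL) t ht x y z
      (Finset.ne_of_mem_erase hy).symm (Finset.ne_of_mem_erase hz).symm hyz)
    (fun y _ => by
      have a2 := hm y y
      have a3 := abs_le.1 hc.1
      rw [abs_le]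
      exact ⟨by linarith [a2.1, a3.2], by linarith [a2.2, hc.2]⟩) he0.le
  have h2 : (fun g : Perm (Fin d → ZMod L) => ∑ y ∈ Finset.univ.erase x,
      ∑ z ∈ Finset.univ.erase x, wt B y * wt B z * (psi φ g x y * psi φ g x z)) =
      fun g => (∑ y ∈ Finset.univ.erase x, wt B y * psi φ g x y) ^ 2 := by
    funext g
    rw [pow_two, Finset.sum_mul_sum]
    refine Finset.sum_congr rfl fun y _ => Finset.sum_congr rfl fun z _ => ?_
    ring
  rw [h2] at h1
  have h3 : ∑ y ∈ Finset.univ.erase x, wt B y = - wt B x := by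
    have := Finset.sum_erase_add Finset.univ (wt B) (Finset.mem_univ x)
    rw [wt_sum B hBne] at this
    linarith
  have h4 : (∑ y ∈ Finset.univ.erase x, |wt B y|) ^ 2 ≤ 2 ^ 2 := by
    refine pow_le_pow_left₀ (Finset.sum_nonneg fun y _ => abs_nonneg _) ?_ 2
    exact (Finset.sum_le_sum_of_subset_of_nonneg (Finset.subset_univ _)
      fun y _ _ => abs_nonneg _).trans (wt_abs B)
  have h5 := wt_sq B hBne (Finset.univ.erase x)
  have h6 : wt B x ^ 2 ≤ 1 / B.card := by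
    have a1 := wt_le B hBne x
    have a2 : 1 / (B.card : ℝ) ≤ 1 := by rw [div_le_one hB0]; exact hB1
    rw [← sq_abs, pow_two]
    calc |wt B x| * |wt B x| ≤ 1 / B.card * 1 :=
          mul_le_mul a1 (a1.trans a2) (abs_nonneg _) (by positivity)
      _ = 1 / B.card := mul_one _
  have h7 : c * (∑ y ∈ Finset.univ.erase x, wt B y) ^ 2 ≤ 2 * (1 / B.card) := by
    rw [h3, neg_sq]
    have a3 := (abs_le.1 hc.1).2
    calc c * wt B x ^ 2 ≤ 2 * wt B x ^ 2 := mul_le_mul_of_nonneg_right a3 (sq_nonneg _)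
      _ ≤ 2 * (1 / B.card) := mul_le_mul_of_nonneg_left h6 (by norm_num)
  have h8 : e * (∑ y ∈ Finset.univ.erase x, |wt B y|) ^ 2 ≤ η / 8 * 2 ^ 2 :=
    mul_le_mul he2 h4 (sq_nonneg _) (by positivity)
  have h9 : 6 * (1 / (B.card : ℝ)) ≤ η / 2 := by
    rw [div_le_iff₀ hη] at hBc
    rw [mul_one_div, div_le_div_iff₀ hB0 (by norm_num)]
    linarith
  have h10 := (abs_le.1 h1).2
  have h11 : 2 / (B.card : ℝ) = 2 * (1 / B.card) := by ring
  rw [h11] at h5
  linarith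

end Run7.h565.SM
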