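import Pool.Agent.Run7.h565.SM.Equ3

/-!
# Equidistribution of the cycles in space, part 4: all arcs from a given point
-/

set_option autoImplicit false

namespace Run7.h565.SM

open Finset Equiv Run7.h565.LC
open Pool.Agent.TH268.PD (ret ret_spec)
open Pool.Agent.Y998.ST (stirExp stirLaw nnRate law_nonneg nn_nonneg cycleLen)

/-- cutoff -/
noncomputable def ct (K a : ℕ) (u : ℝ) : ℝ := rp (a - K * u)

theorem ct_cont (K a : ℕ) : Continuous (ct K a) := by
  unfold ct rp
  fun_prop

section det

variable {V : Type} [Fintype V] [DecidableEq V]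

theorem psi_orb {g : Perm V} {x : V} {c : ℕ} (h1 : 1 ≤ c) (h2 : (g ^ c) x = x)
    (h3 : ∀ p q, p < q → q < c → (g ^ p) x ≠ (g ^ q) x)
    (h4 : ∀ y, g.SameCycle x y → ∃ p < c, (g ^ p) x = y) (φ : ℝ → ℝ) (w : V → ℝ) :
    ∑ y ∈ Finset.univ.erase x, w y * psi φ g x y =
      ∑ j ∈ Finset.Ico 1 c, w ((g ^ j) x) * φ ((j : ℝ) / Fintype.card V) := by
  classical
  have e1 : ∀ y ∈ Finset.univ.erase x, w y * psi φ g x y =
      if g.SameCycle x y then w y * φ ((dd g x y : ℝ) / Fintype.card V) else 0 := by
    intro y _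
    unfold psi
    split_ifs
    · rfl
    · rw [mul_zero]
  rw [Finset.sum_congr rfl e1]
  have e2 := orb_sum h1 h2 h3 h4 (fun y => w y * φ ((dd g x y : ℝ) / Fintype.card V))
  have e3 : ∑ j ∈ Finset.Ico 1 c, w ((g ^ j) x) * φ ((j : ℝ) / Fintype.card V) =
      ∑ j ∈ Finset.Ico 1 c, w ((g ^ j) x) * φ ((dd g x ((g ^ j) x) : ℝ) / Fintype.card V) := by
    refine Finset.sum_congr rfl fun j hj => ?_
    rw [Finset.mem_Ico] at hj
    rw [dd_eq hj.1 rfl fun p hp1 hp2 => h3 p j hp2 hj.2]
  rw [e3, ← e2]

theorem cnt_sum (B : Finset V) (g : Perm V) (x : V) (n : ℕ) :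
    (cnt B g x n : ℝ) = ∑ j ∈ Finset.range n, if (g ^ j) x ∈ B then (1 : ℝ) else 0 := by
  unfold cnt
  rw [Finset.sum_boole]

theorem sandwich (B : Finset V) (hB : B.Nonempty) (g : Perm V) (x : V) (K : ℕ) (hK : 0 < K)
    (e : ℝ) (he : 0 ≤ e) (h : ∀ a < K + 3, |∑ y ∈ Finset.univ.erase x, wt B y * psi (ct K a) g x y| ≤ e)
    (n : ℕ) (hn : n ≤ cycleLen g x) :
    |(cnt B g x n : ℝ) / B.card - n / Fintype.card V| ≤ e + 2 / K + 2 / B.card := by
  obtain ⟨c, hc1, hcl, hc2, _, hc3, hc4⟩ := per g x
  rw [hcl] at hn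
  obtain ⟨N, hN⟩ : ∃ N, N = Fintype.card V := ⟨_, rfl⟩
  have hNpos : 0 < N := by
    rw [hN]
    have : Nonempty V := ⟨x⟩
    exact Fintype.card_pos
  have hNR : (0 : ℝ) < N := by exact_mod_cast hNpos
  have hKR : (0 : ℝ) < K := by exact_mod_cast hK
  have hBR : (0 : ℝ) < B.card := by exact_mod_cast hB.card_pos
  have hcN : c ≤ N := by
    rw [hN, ← hcl]
    unfold cycleLen
    exact (Nat.card_eq_fintype_card (α := V)) ▸ Finite.card_subtype_le _
  have hBN : 1 / (N : ℝ) ≤ 1 / B.card := by
    refine one_div_le_one_div_of_le hBR ?_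
    rw [hN]
    exact_mod_cast Finset.card_le_univ B
  rw [← hN]
  rcases Nat.eq_zero_or_pos n with h0 | h0
  · subst h0
    unfold cnt
    rw [Finset.range_zero, Finset.filter_empty, Finset.card_empty, Nat.cast_zero, zero_div,
      zero_div, sub_zero, abs_zero]
    positivity
  obtain ⟨m, rfl⟩ : ∃ m, n = m + 1 := ⟨n - 1, by omega⟩
  obtain ⟨f, hf⟩ : ∃ f : ℕ → ℝ, f = fun j => (if (g ^ j) x ∈ B then (1 : ℝ) else 0) / B.card :=
    ⟨_, rfl⟩
  have hf0 : ∀ j, 0 ≤ f j := by
    intro j
    rw [hf]
    dsimp only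
    split_ifs <;> positivity
  obtain ⟨A, hA⟩ : ∃ A : ℝ, A = ∑ j ∈ Finset.Ico 1 (m + 1), f j := ⟨_, rfl⟩
  -- the sums
  have hS : ∀ a < K + 3, |∑ j ∈ Finset.Ico 1 c, f j * ct K a (j / N) -
      ∑ j ∈ Finset.Ico 1 c, 1 / N * ct K a (j / N)| ≤ e := by
    intro a ha
    have h1 := h a ha
    rw [psi_orb hc1 hc2 hc3 hc4] at h1
    rw [← Finset.sum_sub_distrib]
    have e2 : ∑ j ∈ Finset.Ico 1 c, (f j * ct K a (j / N) - 1 / N * ct K a (j / N)) =
        ∑ j ∈ Finset.Ico 1 c, wt B ((g ^ j) x) * ct K a ((j : ℝ) / Fintype.card V) := by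
      refine Finset.sum_congr rfl fun j _ => ?_
      unfold wt
      rw [hf, ← hN]
      ring
    rw [e2]
    exact h1
  obtain ⟨i, hi⟩ : ∃ i, i = K * m / N := ⟨_, rfl⟩
  have hi1 : i * N ≤ K * m := by rw [hi]; exact Nat.div_mul_le_self _ _
  have hi2 : K * m < (i + 1) * N := by
    rw [hi]
    have := Nat.lt_div_mul_add (a := K * m) hNpos
    linarith [this, Nat.succ_mul (K * m / N) N]
  have hiK : i ≤ K := by
    rw [hi]
    refine Nat.div_le_of_le_mul ?_
    rw [mul_comm N K]
    exact Nat.mul_le_mul_left K (by omega)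
  have hi1R : (i : ℝ) * N ≤ K * m := by exact_mod_cast hi1
  have hi2R : (K : ℝ) * m < (i + 1) * N := by exact_mod_cast hi2
  -- upper bound
  have hup : A ≤ m / N + e + 2 / K := by
    have a1 : A ≤ ∑ j ∈ Finset.Ico 1 c, f j * ct K (i + 2) (j / N) := by
      rw [hA]
      have b1 : ∑ j ∈ Finset.Ico 1 (m + 1), f j ≤
          ∑ j ∈ Finset.Ico 1 (m + 1), f j * ct K (i + 2) (j / N) := by
        refine Finset.sum_le_sum fun j hj => ?_
        rw [Finset.mem_Ico] at hj
        have b2 : ct K (i + 2) ((j : ℝ) / N) = 1 := by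
          unfold ct
          refine rp_one ?_
          push_cast
          have hjm : (j : ℝ) ≤ m := by exact_mod_cast (by omega : j ≤ m)
          have b3 : (K : ℝ) * (j / N) ≤ i + 1 := by
            rw [← mul_div_assoc, div_le_iff₀ hNR]
            have : (K : ℝ) * j ≤ K * m := mul_le_mul_of_nonneg_left hjm hKR.le
            linarith
          linarith
        rw [b2, mul_one]
      refine b1.trans ?_
      exact Finset.sum_le_sum_of_subset_of_nonneg (Finset.Ico_subset_Ico le_rfl hn)
        fun j _ _ => mul_nonneg (hf0 j) (rp_mem _).1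
    have a2 := (abs_le.1 (hS (i + 2) (by omega))).2
    have a3 : ∑ j ∈ Finset.Ico 1 c, 1 / (N : ℝ) * ct K (i + 2) (j / N) ≤ (i + 2) / K := by
      obtain ⟨q, hq⟩ : ∃ q, q = (i + 2) * N / K := ⟨_, rfl⟩
      have b1 : ∀ j ∈ Finset.Ico 1 c, 1 / (N : ℝ) * ct K (i + 2) (j / N) ≤
          1 / N * if j ≤ q then 1 else 0 := by
        intro j _
        refine mul_le_mul_of_nonneg_left ?_ (by positivity)
        split_ifs with hjq
        · exact (rp_mem _).2
        · unfold ct
          rw [rp_zero]
          have b2 : (i + 2) * N < K * j := by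
            rw [hq, not_le, Nat.div_lt_iff_lt_mul hK] at hjq
            rw [mul_comm K j]
            exact hjq
          have b3 : ((i : ℝ) + 2) * N < K * j := by exact_mod_cast b2
          have b4 : (i : ℝ) + 2 ≤ K * (j / N) := by
            rw [← mul_div_assoc, le_div_iff₀ hNR]
            exact b3.le
          push_cast
          linarith
      refine (Finset.sum_le_sum b1).trans ?_
      rw [← Finset.mul_sum, Finset.sum_boole]
      have b5 : ((Finset.Ico 1 c).filter fun j => j ≤ q).card ≤ q := by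
        have : ((Finset.Ico 1 c).filter fun j => j ≤ q) ⊆ Finset.Ioc 0 q := by
          intro j hj
          rw [Finset.mem_filter, Finset.mem_Ico] at hj
          rw [Finset.mem_Ioc]
          omega
        refine (Finset.card_le_card this).trans ?_
        rw [Nat.card_Ioc]
        omega
      have b6 : q * K ≤ (i + 2) * N := by rw [hq]; exact Nat.div_mul_le_self _ _
      have b7 : (q : ℝ) * K ≤ (i + 2) * N := by exact_mod_cast b6
      have b8 : ((((Finset.Ico 1 c).filter fun j => j ≤ q).card : ℕ) : ℝ) ≤ q := by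
        exact_mod_cast b5
      rw [one_div, inv_mul_le_iff₀ hNR, mul_div_assoc', le_div_iff₀ hKR]
      calc _ ≤ (q : ℝ) * K := mul_le_mul_of_nonneg_right b8 hKR.le
        _ ≤ _ := by linarith
    have a4 : ((i : ℝ) + 2) / K ≤ m / N + 2 / K := by
      rw [add_div]
      have : (i : ℝ) / K ≤ m / N := by
        rw [div_le_div_iff₀ hKR hNR]
        linarith
      linarith
    linarith
  -- lower bound
  have hlo : (m : ℝ) / N - e - 2 / K - 1 / N ≤ A := by
    have a1 : ∑ j ∈ Finset.Ico 1 c, f j * ct K i (j / N) ≤ A := by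
      rw [hA]
      have b1 : ∑ j ∈ Finset.Ico 1 c, f j * ct K i (j / N) ≤
          ∑ j ∈ Finset.Ico 1 c, if j < m + 1 then f j else 0 := by
        refine Finset.sum_le_sum fun j hj => ?_
        split_ifs with hjm
        · exact mul_le_of_le_one_right (hf0 j) (rp_mem _).2
        · have b2 : ct K i ((j : ℝ) / N) = 0 := by
            unfold ct
            refine rp_zero ?_
            have hjm' : (m : ℝ) ≤ j := by exact_mod_cast (by omega : m ≤ j)
            have b3 : (i : ℝ) ≤ K * (j / N) := by
              rw [← mul_div_assoc, le_div_iff₀ hNR]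
              have : (K : ℝ) * m ≤ K * j := mul_le_mul_of_nonneg_left hjm' hKR.le
              linarith
            linarith
          rw [b2, mul_zero]
      refine b1.trans (le_of_eq ?_)
      rw [← Finset.sum_filter]
      refine Finset.sum_congr ?_ fun j _ => rfl
      ext j
      rw [Finset.mem_filter, Finset.mem_Ico, Finset.mem_Ico]
      omega
    have a2 := (abs_le.1 (hS i (by omega))).1
    have a3 : (m : ℝ) / N - 2 / K - 1 / N ≤
        ∑ j ∈ Finset.Ico 1 c, 1 / (N : ℝ) * ct K i (j / N) := by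
      obtain ⟨q, hq⟩ : ∃ q, q = (i - 1) * N / K := ⟨_, rfl⟩
      have b1 : q * K ≤ (i - 1) * N := by rw [hq]; exact Nat.div_mul_le_self _ _
      have b1' : (i - 1) * N < q * K + K := by
        rw [hq]; exact Nat.lt_div_mul_add hK
      have b2 : q ≤ m := by
        have : q * K ≤ m * K := by
          calc q * K ≤ (i - 1) * N := b1
            _ ≤ i * N := Nat.mul_le_mul_right N (by omega)
            _ ≤ K * m := hi1
            _ = m * K := mul_comm _ _
        exact Nat.le_of_mul_le_mul_right this hK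
      have b3 : (i : ℝ) - 1 ≤ ((i - 1 : ℕ) : ℝ) := by
        rcases Nat.eq_zero_or_pos i with h0 | h0
        · subst h0; norm_num
        · rw [Nat.cast_sub h0]; norm_num
      have b4 : (q : ℝ) / N ≤ ∑ j ∈ Finset.Ico 1 c, 1 / (N : ℝ) * ct K i (j / N) := by
        have c1 : ∑ j ∈ Finset.Ico 1 (q + 1), 1 / (N : ℝ) * ct K i (j / N) = q / N := by
          have c2 : ∀ j ∈ Finset.Ico 1 (q + 1), 1 / (N : ℝ) * ct K i (j / N) = 1 / N := by
            intro j hj
            rw [Finset.mem_Ico] at hj
            have hi0 : 1 ≤ i := by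
              by_contra hc
              have : i - 1 = 0 := by omega
              rw [this, zero_mul, Nat.zero_div] at hq
              omega
            unfold ct
            rw [rp_one, mul_one]
            have c3 : j * K ≤ (i - 1) * N := by
              refine le_trans (Nat.mul_le_mul_right K (by omega : j ≤ q)) b1
            have c4 : (j : ℝ) * K ≤ (i - 1) * N := by
              have : ((j * K : ℕ) : ℝ) ≤ (((i - 1) * N : ℕ) : ℝ) := by exact_mod_cast c3
              push_cast at this
              rw [Nat.cast_sub hi0] at this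
              push_cast at this
              exact this
            have c5 : (K : ℝ) * (j / N) ≤ i - 1 := by
              rw [← mul_div_assoc, div_le_iff₀ hNR]
              linarith
            linarith
          rw [Finset.sum_congr rfl c2, Finset.sum_const, Nat.card_Ico, nsmul_eq_mul]
          rw [Nat.add_sub_cancel, mul_one_div]
        rw [← c1]
        exact Finset.sum_le_sum_of_subset_of_nonneg
          (Finset.Ico_subset_Ico le_rfl (by omega)) fun j _ _ =>
            mul_nonneg (by positivity) (rp_mem _).1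
      refine le_trans ?_ b4
      have b5 : ((i : ℝ) - 1) * N ≤ q * K + K := by
        have c1 : (((i - 1) * N : ℕ) : ℝ) ≤ ((q * K + K : ℕ) : ℝ) := by exact_mod_cast b1'.le
        push_cast at c1
        have c2 : ((i : ℝ) - 1) * N ≤ ((i - 1 : ℕ) : ℝ) * N :=
          mul_le_mul_of_nonneg_right b3 hNR.le
        linarith
      have b6 : (m : ℝ) / N - 2 / K - 1 / N = (K * m - 2 * N - K) / (K * N) := by
        field_simp
      rw [b6, div_le_div_iff₀ (by positivity) hNR]
      have b7 : (K : ℝ) * m - 2 * N - K ≤ q * K := by linarith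
      calc ((K : ℝ) * m - 2 * N - K) * N ≤ q * K * N := mul_le_mul_of_nonneg_right b7 hNR.le
        _ = q * (K * N) := by ring
    linarith
  -- the first point
  have hcnt : (cnt B g x (m + 1) : ℝ) / B.card = f 0 + A := by
    rw [cnt_sum, Finset.sum_div, Finset.range_eq_Ico, Finset.sum_eq_sum_Ico_succ_bot (by omega)]
    rw [hA, hf]
  have hf1 : f 0 ≤ 1 / B.card := by
    rw [hf]
    dsimp only
    refine div_le_div_of_nonneg_right ?_ hBR.le
    split_ifs
    · exact le_rfl
    · exact zero_le_one
  rw [hcnt]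
  push_cast
  rw [add_div, abs_le]
  have h2B : 2 / (B.card : ℝ) = 1 / B.card + 1 / B.card := by ring
  have h1N : 0 ≤ 1 / (N : ℝ) := by positivity
  have := hf0 0
  constructor
  · linarith
  · linarith

end det

end Run7.h565.SM
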