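import Pool.Agent.Run7.h565.SM.Obs
import Pool.Agent.Run7.h565.SM.Tor

/-!
# Project SM, part 6: comparison with a uniform permutation
-/

set_option autoImplicit false

namespace Run7.h565.SM

open Finset Equiv
open Pool.Agent.TH268.PD (ret ret_spec top frac Cyc cyOf lip_approx)
open Pool.Agent.Y998.LP (bfrac)
open Pool.Agent.Y998.ST (stirExp stirLaw nnRate law_nonneg nn_nonneg)
open Run7.h565.LC (S_KPT)

theorem Nx.mono {V : Type} {g : Perm V} {S T : Set V} {x y : V} (h : Nx g T x y) (hS : S ⊆ T) :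
    Nx g S x y := by
  obtain ⟨n, h1, h2, h3⟩ := h
  exact ⟨n, h1, h2, fun p hp1 hp2 hp => h3 p hp1 hp2 (hS hp)⟩

section

variable {V : Type} [Fintype V] [DecidableEq V]

/-- inducing in two steps -/
theorem ret_tower {n k : ℕ} (u : Fin n → V) (hu : Function.Injective u) (j : Fin k → Fin n)
    (hj : Function.Injective j) (g : Perm V) : ret k (u ∘ j) g = ret k j (ret n u g) := by
  refine ret_eq g (u ∘ j) (hu.comp hj) _ fun i => ?_
  obtain ⟨ρ, hρ⟩ : ∃ ρ, ρ = ret n u g := ⟨_, rfl⟩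
  rw [← hρ]
  obtain ⟨m, hm1, hm2, hm3⟩ := ret_nx ρ j hj i
  have hS : Set.range (u ∘ j) ⊆ Set.range u := by
    rintro _ ⟨i, rfl⟩
    exact ⟨j i, rfl⟩
  have h1 : ∀ a, Nx g (Set.range (u ∘ j)) (u a) (u (ρ a)) := fun a => by
    rw [hρ]
    exact (ret_nx g u hu a).mono hS
  have h3 : ∀ p, 1 ≤ p → p ≤ m → Nx g (Set.range (u ∘ j)) (u (j i)) (u ((ρ ^ p) (j i))) := by
    intro p
    induction p with
    | zero => intro h0; omega
    | succ p ih =>
      intro _ hp
      rcases Nat.eq_zero_or_pos p with h4 | h4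
      · subst h4
        rw [zero_add, pow_one]
        exact h1 _
      · rw [pow_succ', Perm.mul_apply]
        refine (ih h4 (by omega)).trans ?_ (h1 _)
        rintro ⟨i', hi'⟩
        exact hm3 p h4 (by omega) ⟨i', hu hi'⟩
  have h4 := h3 m hm1 le_rfl
  rw [hm2] at h4
  exact h4

end

/-- observables: ordered cycle lengths and cycle lengths of the points, after multiplication by a
permutation of the points; and the induced permutation -/
inductive Ds (k : ℕ) where
  | top (σ : Perm (Fin k)) (i : ℕ)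
  | cyc (σ : Perm (Fin k)) (j : Fin k)
  | ind (π : Perm (Fin k))

/-- values of the observables -/
noncomputable def Ds.val {k : ℕ} {V : Type} [Fintype V] [DecidableEq V] (b : Fin k ↪ V)
    (g : Perm V) : Ds k → ℝ
  | Ds.top σ i => Pool.Agent.TH268.PD.top (frac (emb b σ * g)) i
  | Ds.cyc σ j => cfr (emb b σ * g) (b j)
  | Ds.ind π => if ret k b g = π then 1 else 0

/-- values of the observables from samples -/
noncomputable def Ds.hat {k : ℕ} (N : ℕ) (ρ : Perm (Fin (N + k))) : Ds k → ℝ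
  | Ds.top σ i => Pool.Agent.TH268.PD.top (frac (ret N (Fin.castAdd k) (lst N σ * ρ))) i
  | Ds.cyc σ j => (Nat.card {a : Fin N // (lst N σ * ρ).SameCycle
      (Fin.natAdd N j) (Fin.castAdd k a)} : ℝ) / N
  | Ds.ind π => if ret k (Fin.natAdd N) ρ = π then 1 else 0

section

variable {V : Type} [Fintype V] [DecidableEq V]

theorem cfr_mem (h : Perm V) (x : V) : 0 ≤ cfr h x ∧ cfr h x ≤ 1 := by
  unfold cfr
  refine ⟨by positivity, div_le_one_of_le₀ ?_ (Nat.cast_nonneg _)⟩
  rw [← Nat.card_eq_fintype_card]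
  exact_mod_cast Nat.card_le_card_of_injective _ Subtype.val_injective

theorem Ds.mem {k : ℕ} (b : Fin k ↪ V) (g : Perm V) (D : Ds k) :
    0 ≤ D.val b g ∧ D.val b g ≤ 1 := by
  cases D with
  | top σ i => exact fr_mem _ i
  | cyc σ j => exact cfr_mem _ _
  | ind π =>
    change 0 ≤ (if ret k b g = π then (1 : ℝ) else 0) ∧ (if ret k b g = π then (1 : ℝ) else 0) ≤ 1
    split_ifs <;> norm_num

open Classical in
theorem Ds.err {k : ℕ} (N : ℕ) (hN : 0 < N) (hV : 0 < Fintype.card V) (b : Fin k ↪ V)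
    (D : Ds k) (g : Perm V) :
    ∑ z : Fin N → V, (if Function.Injective (Fin.append z b) then
      |D.hat N (ret (N + k) (Fin.append z b) g) - D.val b g| else 0) ≤
      (Fintype.card V : ℝ) ^ N * (1 / Real.sqrt N + (N : ℝ) ^ 2 / Fintype.card V) := by
  have hV0 : (0 : ℝ) < Fintype.card V := by exact_mod_cast hV
  cases D with
  | top σ i => exact obs_top N k hN hV b σ i g
  | cyc σ j =>
    refine (obs_cfr N k hN hV b σ j g).trans ?_
    refine mul_le_mul_of_nonneg_left ?_ (by positivity)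
    have : 0 ≤ (N : ℝ) ^ 2 / Fintype.card V := by positivity
    linarith
  | ind π =>
    refine le_trans (le_of_eq (Finset.sum_eq_zero fun z _ => ?_)) (by positivity)
    by_cases hz : Function.Injective (Fin.append z b)
    · rw [if_pos hz]
      have h1 : ret k b g = ret k (Fin.natAdd N) (ret (N + k) (Fin.append z b) g) := by
        rw [← ret_tower _ hz _ (Fin.natAdd_injective k N)]
        congr 1
        funext i
        simp
      unfold Ds.val Ds.hat
      rw [h1, sub_self, abs_zero]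
    · rw [if_neg hz]

/-- weights with nearly uniform induced permutations: the law of the observables -/
theorem obs_est (w : Perm V → ℝ) (hw : ∀ g, 0 ≤ w g) (hw1 : ∑ g, w g = 1) {N k M : ℕ}
    (hN : 0 < N) (hV : 0 < Fintype.card V) (b : Fin k ↪ V) (η : ℝ) (hη : 0 ≤ η)
    (hI : ∀ c : Fin (N + k) → V, Function.Injective c → ∀ G : Perm (Fin (N + k)) → ℝ,
      (∀ π, |G π| ≤ 1) → |∑ g, w g * G (ret (N + k) c g) - mn (N + k) G| ≤ η)
    (D : Fin M → Ds k)
    (F : (Fin M → ℝ) → ℝ) (C Λ : ℝ) (hΛ : 0 ≤ Λ) (hC : ∀ u, |F u| ≤ C)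
    (hF : ∀ (u v : Fin M → ℝ) (e : ℝ), 0 ≤ e → (∀ i, |u i - v i| ≤ e) → |F u - F v| ≤ Λ * e) :
    |∑ g, w g * F (fun a => (D a).val b g) -
      mn (N + k) (fun π => F (fun a => (D a).hat N π))| ≤
      Λ * (M * (1 / Real.sqrt N + (N : ℝ) ^ 2 / Fintype.card V)) + C * η +
        2 * C * ((N * (N + k)) / Fintype.card V) := by
  classical
  refine main_est w hw hw1 hN hV b b.injective η hη hI (fun a g => (D a).val b g)
    (fun a π => (D a).hat N π) _ (fun a g => ?_) F C Λ hΛ hC hF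
  convert Ds.err N hN hV b (D a) g using 3

/-- the uniform weights -/
theorem unif_ind (k : ℕ) (c : Fin k → V) (hc : Function.Injective c) (G : Perm (Fin k) → ℝ) :
    ∑ g : Perm V, (1 / ((Fintype.card V).factorial : ℝ)) * G (ret k c g) = mn k G := by
  have hfac : ((Fintype.card V).factorial : ℝ) ≠ 0 := by
    exact_mod_cast (Fintype.card V).factorial_ne_zero
  rw [← Finset.mul_sum, unif_ret k c hc G]
  field_simp

theorem unif_sum : ∑ _g : Perm V, (1 / ((Fintype.card V).factorial : ℝ)) = 1 := by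
  have hfac : ((Fintype.card V).factorial : ℝ) ≠ 0 := by
    exact_mod_cast (Fintype.card V).factorial_ne_zero
  rw [Finset.sum_const, Finset.card_univ, Fintype.card_perm, nsmul_eq_mul]
  field_simp

/-- the mean over uniform permutations of `V` -/
noncomputable def um (F : Perm V → ℝ) : ℝ := (∑ g, F g) / ((Fintype.card V).factorial : ℝ)

theorem um_eq (F : Perm V → ℝ) :
    um F = ∑ g : Perm V, (1 / ((Fintype.card V).factorial : ℝ)) * F g := by
  unfold um
  rw [← Finset.mul_sum]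
  ring

end

/-- functions of the observables, for a law `w` with nearly uniform induced permutations -/
theorem obs_lim (k M : ℕ) (D : Fin M → Ds k)
    (F : (Fin M → ℝ) → ℝ) (hFc : Continuous F) (C : ℝ) (hC : ∀ u, |F u| ≤ C) (η : ℝ)
    (hη : 0 < η) : ∃ (c : ℝ) (n N₀ : ℕ) (η' : ℝ), 0 < η' ∧
    ∀ (V : Type) [Fintype V] [DecidableEq V] (w : Perm V → ℝ), (∀ g, 0 ≤ w g) → ∑ g, w g = 1 →
    N₀ ≤ Fintype.card V →
    (∀ c : Fin n → V, Function.Injective c → ∀ G : Perm (Fin n) → ℝ,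
      (∀ π, |G π| ≤ 1) → |∑ g, w g * G (ret n c g) - mn n G| ≤ η') →
    ∀ b : Fin k ↪ V, |∑ g, w g * F (fun a => (D a).val b g) - c| ≤ η := by
  have hC0 : 0 ≤ C := (abs_nonneg _).trans (hC (fun _ => 0))
  obtain ⟨Λ, F', hΛ, hc', hC', hL', hFF⟩ := lip_approx M F hFc C hC (η / 4) (by positivity)
  -- the sample size
  obtain ⟨N₀, hN₀⟩ := exists_nat_gt ((32 * (Λ * M + 1) / η) ^ 2)
  obtain ⟨N, hNdef⟩ : ∃ N, N = N₀ + 1 := ⟨_, rfl⟩
  have hN : 0 < N := by omega
  have hNR : (0 : ℝ) < N := by exact_mod_cast hN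
  have hsq : 0 < Real.sqrt N := Real.sqrt_pos.2 hNR
  have hΛM : 0 ≤ Λ * M := by positivity
  have e1 : Λ * (M * (1 / Real.sqrt N)) ≤ η / 32 := by
    have h2 : 32 * (Λ * M + 1) / η ≤ Real.sqrt N := by
      apply Real.le_sqrt_of_sq_le
      have : (N₀ : ℝ) ≤ N := by exact_mod_cast (by omega : N₀ ≤ N)
      linarith
    rw [div_le_iff₀ hη] at h2
    have e : Λ * (M * (1 / Real.sqrt N)) = Λ * M / Real.sqrt N := by ring
    rw [e, div_le_iff₀ hsq]
    nlinarith
  obtain ⟨L₂, hL₂⟩ := exists_nat_gt (32 * (Λ * (M * (N : ℝ) ^ 2) + 2 * C * (N * (N + k))) / η)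
  refine ⟨mn (N + k) (fun π => F' (fun a => (D a).hat N π)), N + k, L₂ + 1,
    η / (32 * (C + 1)), by positivity, fun V _ _ w hw hw1 hVc hI b => ?_⟩
  have hV : 0 < Fintype.card V := by omega
  have hVR : (0 : ℝ) < (Fintype.card V : ℝ) := by exact_mod_cast hV
  have hVL : (L₂ : ℝ) ≤ (Fintype.card V : ℝ) := by exact_mod_cast (by omega : L₂ ≤ Fintype.card V)
  have e2 : Λ * (M * ((N : ℝ) ^ 2 / (Fintype.card V : ℝ))) +
      2 * C * ((N * (N + k)) / (Fintype.card V : ℝ)) ≤ η / 32 := by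
    have e : Λ * (M * ((N : ℝ) ^ 2 / (Fintype.card V : ℝ))) +
        2 * C * ((N * (N + k)) / (Fintype.card V : ℝ)) =
        (Λ * (M * (N : ℝ) ^ 2) + 2 * C * (N * (N + k))) / (Fintype.card V : ℝ) := by ring
    rw [e, div_le_iff₀ hVR]
    rw [div_lt_iff₀ hη] at hL₂
    nlinarith
  have e3 : C * (η / (32 * (C + 1))) ≤ η / 32 := by
    have e : C * (η / (32 * (C + 1))) = (C * η) / (32 * (C + 1)) := by ring
    rw [e, div_le_div_iff₀ (by positivity) (by norm_num)]
    nlinarith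
  have hA := obs_est w hw hw1 hN hV b (η / (32 * (C + 1))) (by positivity) hI D F' C Λ hΛ
    hC' hL'
  have hX : |∑ g, w g * F (fun a => (D a).val b g) - ∑ g, w g * F' (fun a => (D a).val b g)| ≤
        η / 4 := by
    rw [← Finset.sum_sub_distrib]
    refine (Finset.abs_sum_le_sum_abs _ _).trans ?_
    have : ∀ g ∈ (Finset.univ : Finset (Perm V)),
        |w g * F (fun a => (D a).val b g) - w g * F' (fun a => (D a).val b g)| ≤
          w g * (η / 4) := by
      intro g _
      rw [← mul_sub, abs_mul, abs_of_nonneg (hw g)]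
      exact mul_le_mul_of_nonneg_left (hFF _ fun a => (D a).mem b g) (hw g)
    refine (Finset.sum_le_sum this).trans (le_of_eq ?_)
    rw [← Finset.sum_mul, hw1, one_mul]
  have e4 : Λ * (M * (1 / Real.sqrt N + (N : ℝ) ^ 2 / (Fintype.card V : ℝ))) =
      Λ * (M * (1 / Real.sqrt N)) +
        Λ * (M * ((N : ℝ) ^ 2 / (Fintype.card V : ℝ))) := by ring
  rw [e4] at hA
  rw [abs_le] at hA hX ⊢
  constructor <;> linarith [hA.1, hA.2, hX.1, hX.2]

/-- comparison with a uniform permutation, for the stirring process on the torus -/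
theorem gt (hK : S_KPT) (d : ℕ) (hd : 3 ≤ d) : ∃ m₀ : ℕ, ∀ (k M : ℕ) (D : Fin M → Ds k)
    (F : (Fin M → ℝ) → ℝ), Continuous F → ∀ C : ℝ, (∀ u, |F u| ≤ C) → ∀ η : ℝ, 0 < η →
    ∃ (c : ℝ) (L₀ : ℕ), (∀ (L : ℕ) [NeZero L], L₀ ≤ L → ∀ t : ℝ, (Real.log L) ^ m₀ ≤ t →
      ∀ b : Fin k ↪ (Fin d → ZMod L),
      |stirExp (nnRate d L) t (fun g => F (fun a => (D a).val b g)) - c| ≤ η) ∧
      (∀ (W : Type) [Fintype W] [DecidableEq W], L₀ ≤ Fintype.card W → ∀ b : Fin k ↪ W,
        |um (fun g => F (fun a => (D a).val b g)) - c| ≤ η) := by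
  obtain ⟨m₀, hI⟩ := ind_torus hK d hd
  refine ⟨m₀, fun k M D F hFc C hC η hη => ?_⟩
  obtain ⟨c, n, N₀, η', hη', h⟩ := obs_lim k M D F hFc C hC η hη
  obtain ⟨L₁, hI⟩ := hI n η' hη'
  refine ⟨c, max (max L₁ N₀) 3, fun L _ hL t ht b => ?_, fun W _ _ hW b => ?_⟩
  · have hL1 : L₁ ≤ L := (le_max_left _ _).trans ((le_max_left _ _).trans hL)
    have hL2 : N₀ ≤ L := (le_max_right _ _).trans ((le_max_left _ _).trans hL)
    have hL3 : 3 ≤ L := (le_max_right _ _).trans hL
    have hlog := log_ge L hL3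
    have ht0 : 0 ≤ t := le_trans (by positivity) ht
    have hcV : Fintype.card (Fin d → ZMod L) = L ^ d := by
      rw [Fintype.card_fun, ZMod.card, Fintype.card_fin]
    have hLd : L ≤ L ^ d := Nat.le_self_pow (by omega) L
    exact h (Fin d → ZMod L) (fun g => stirLaw (nnRate d L) t g)
      (fun g => law_nonneg nn_nonneg ht0 g) (Pool.Agent.Y998.CN.law_sum _ _)
      (by rw [hcV]; omega) (fun c hc G hG => hI L hL1 t ht c hc G hG) b
  · rw [um_eq]
    refine h W (fun _ => 1 / ((Fintype.card W).factorial : ℝ)) (fun _ => by positivity) unif_sum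
      ((le_max_right _ _).trans ((le_max_left _ _).trans hW)) (fun c hc G hG => ?_) b
    rw [unif_ind n c hc G, sub_self, abs_zero]
    exact hη'.le

end Run7.h565.SM
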