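import Pool.Agent.Run7.h565.SM.QueP

/-!
# Project SM: sums along the path of the lazy steps
-/

set_option autoImplicit false

namespace Run7.h565.SM

open Finset Equiv
open Pool.Agent.Y998.ST (stirExp stirLaw totalRate)

section

variable {V : Type} [Fintype V] [DecidableEq V]

theorem tr_add (J : V → V → ℝ) (X Y : Perm V → ℝ) (g : Perm V) :
    tr J (fun g => X g + Y g) g = tr J X g + tr J Y g := by
  unfold tr
  rw [← add_div]
  simp only [mul_add, Finset.sum_add_distrib]

theorem tr_smul (J : V → V → ℝ) (c : ℝ) (X : Perm V → ℝ) (g : Perm V) :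
    tr J (fun g => c * X g) g = c * tr J X g := by
  unfold tr
  rw [← mul_div_assoc]
  simp only [Finset.mul_sum]
  congr 1
  exact Finset.sum_congr rfl fun x _ => Finset.sum_congr rfl fun y _ => by ring

theorem qq_add (J : V → V → ℝ) (X Y : Perm V → ℝ) (g : Perm V) :
    qq J (fun g => X g + Y g) g = qq J X g + qq J Y g := by
  unfold qq
  rw [tr_add]
  ring

theorem qq_smul (J : V → V → ℝ) (c : ℝ) (X : Perm V → ℝ) (g : Perm V) :
    qq J (fun g => c * X g) g = c * qq J X g := by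
  unfold qq
  rw [tr_smul]
  ring

theorem qq_zero (J : V → V → ℝ) (g : Perm V) : qq J (fun _ => (0 : ℝ)) g = 0 := by
  have := qq_smul J 0 (fun _ => (0 : ℝ)) g
  simpa using this

theorem qq_sum {ι : Type} (J : V → V → ℝ) (s : Finset ι) (X : ι → Perm V → ℝ) (g : Perm V) :
    qq J (fun g => ∑ i ∈ s, X i g) g = ∑ i ∈ s, qq J (X i) g := by
  classical
  induction s using Finset.induction_on with
  | empty =>
    simp only [Finset.sum_empty]
    exact qq_zero J g
  | insert i s hi ih =>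
    simp only [Finset.sum_insert hi]
    rw [qq_add J (X i) (fun g => ∑ i ∈ s, X i g), ih]

theorem qq_const {J : V → V → ℝ} (hR : totalRate J ≠ 0) (c : ℝ) (g : Perm V) :
    qq J (fun _ => c) g = c := by
  have h1 : tr J (fun _ => c) g = c := by
    unfold tr
    simp only [← Finset.sum_mul]
    have h2 : ∑ x, ∑ y, J x y / 2 = totalRate J := rfl
    rw [h2, mul_comm, mul_div_assoc, div_self hR, mul_one]
  unfold qq
  rw [h1]
  ring

theorem qq_mono {J : V → V → ℝ} (hJ : ∀ x y, 0 ≤ J x y) (hR : 0 < totalRate J)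
    (X Y : Perm V → ℝ) (h : ∀ g, X g ≤ Y g) (g : Perm V) : qq J X g ≤ qq J Y g := by
  have h1 : tr J X g ≤ tr J Y g := by
    unfold tr
    refine div_le_div_of_nonneg_right ?_ hR.le
    exact Finset.sum_le_sum fun x _ => Finset.sum_le_sum fun y _ =>
      mul_le_mul_of_nonneg_left (h _) (div_nonneg (hJ x y) two_pos.le)
  unfold qq
  have := h g
  linarith

theorem qq_abs_le {J : V → V → ℝ} (hJ : ∀ x y, 0 ≤ J x y) (hR : 0 < totalRate J)
    (X Y : Perm V → ℝ) (h : ∀ g, |X g| ≤ Y g) (g : Perm V) : |qq J X g| ≤ qq J Y g := by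
  rw [abs_le]
  constructor
  · have h1 := qq_mono hJ hR (fun g => (-1) * Y g) X (fun g => by
      have := h g
      rw [abs_le] at this
      linarith [this.1]) g
    rw [qq_smul] at h1
    linarith
  · exact qq_mono hJ hR X Y (fun g => (le_abs_self _).trans (h g)) g

/-- mean absolute value of a sum along the path -/
noncomputable def pY (J : V → V → ℝ) (A : Perm V → ℝ) : ℕ → (ℕ → ℝ) → ℝ → Perm V → ℝ
  | 0, c, r, g => |r + c 0 * A g|
  | n + 1, c, r, g => qq J (pY J A n (fun i => c (i + 1)) (r + c 0 * A g)) g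

/-- mean square of a sum along the path -/
noncomputable def pZ (J : V → V → ℝ) (A : Perm V → ℝ) : ℕ → (ℕ → ℝ) → ℝ → Perm V → ℝ
  | 0, c, r, g => (r + c 0 * A g) ^ 2
  | n + 1, c, r, g => qq J (pZ J A n (fun i => c (i + 1)) (r + c 0 * A g)) g

theorem pY_le {J : V → V → ℝ} (hJ : ∀ x y, 0 ≤ J x y) (hR : 0 < totalRate J)
    (A : Perm V → ℝ) (hA : ∀ g, |A g| ≤ 1) (n : ℕ) : ∀ (c : ℕ → ℝ) (r : ℝ) (g : Perm V),
    pY J A n c r g ≤ |r| + ∑ j ∈ Finset.range (n + 1), |c j| := by
  have h0 : ∀ (c : ℕ → ℝ) (r : ℝ) (g : Perm V), |r + c 0 * A g| ≤ |r| + |c 0| := by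
    intro c r g
    refine (abs_add_le _ _).trans ?_
    rw [abs_mul]
    have := mul_le_mul_of_nonneg_left (hA g) (abs_nonneg (c 0))
    linarith
  induction n with
  | zero =>
    intro c r g
    simp only [pY, zero_add, Finset.sum_range_one]
    exact h0 c r g
  | succ n ih =>
    intro c r g
    simp only [pY]
    refine (qq_mono hJ hR _ (fun _ => |r| + |c 0| + ∑ j ∈ Finset.range (n + 1), |c (j + 1)|)
      (fun g' => ?_) g).trans ?_
    · have h1 := ih (fun i => c (i + 1)) (r + c 0 * A g) g'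
      have h2 := h0 c r g
      linarith
    · rw [qq_const hR.ne', Finset.sum_range_succ' (fun j => |c j|)]
      linarith

/-- duality -/
theorem pY_dual {J : V → V → ℝ} (hJ : ∀ x y, 0 ≤ J x y) (hR : 0 < totalRate J)
    (A Φ : Perm V → ℝ) (hΦ : ∀ g, |Φ g| ≤ 1) (n : ℕ) : ∀ (c : ℕ → ℝ) (r : ℝ) (g : Perm V),
    |r * ((qq J)^[n] Φ) g + ∑ j ∈ Finset.range (n + 1),
      c j * ((qq J)^[j] (fun h => A h * ((qq J)^[n - j] Φ) h)) g| ≤ pY J A n c r g := by
  induction n with
  | zero =>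
    intro c r g
    simp only [pY, zero_add, Finset.sum_range_one, Function.iterate_zero, id_eq, Nat.sub_self]
    have e : r * Φ g + c 0 * (A g * Φ g) = (r + c 0 * A g) * Φ g := by ring
    rw [e, abs_mul]
    calc |r + c 0 * A g| * |Φ g| ≤ |r + c 0 * A g| * 1 :=
          mul_le_mul_of_nonneg_left (hΦ g) (abs_nonneg _)
      _ = |r + c 0 * A g| := mul_one _
  | succ n ih =>
    intro c r g
    obtain ⟨r', hr'⟩ : ∃ r', r' = r + c 0 * A g := ⟨_, rfl⟩
    have e : r * ((qq J)^[n + 1] Φ) g + ∑ j ∈ Finset.range (n + 1 + 1),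
        c j * ((qq J)^[j] (fun h => A h * ((qq J)^[n + 1 - j] Φ) h)) g =
        qq J (fun g' => r' * ((qq J)^[n] Φ) g' + ∑ j ∈ Finset.range (n + 1),
          c (j + 1) * ((qq J)^[j] (fun h => A h * ((qq J)^[n - j] Φ) h)) g') g := by
      rw [qq_add J (fun g' => r' * ((qq J)^[n] Φ) g') (fun g' => ∑ j ∈ Finset.range (n + 1),
          c (j + 1) * ((qq J)^[j] (fun h => A h * ((qq J)^[n - j] Φ) h)) g'),
        qq_smul, qq_sum, Finset.sum_range_succ' (fun j => c j *
        ((qq J)^[j] (fun h => A h * ((qq J)^[n + 1 - j] Φ) h)) g)]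
      have e1 : ∀ X : Perm V → ℝ, ∀ j : ℕ, ((qq J)^[j + 1] X) g = qq J ((qq J)^[j] X) g :=
        fun X j => by rw [Function.iterate_succ', Function.comp_apply]
      simp only [e1, Nat.add_sub_add_right, qq_smul, Function.iterate_zero, id_eq, Nat.sub_zero]
      rw [hr']
      ring
    rw [e]
    simp only [pY]
    rw [← hr']
    exact qq_abs_le hJ hR _ _ (fun g' => ih (fun i => c (i + 1)) r' g') g

theorem pY_pZ {J : V → V → ℝ} (hJ : ∀ x y, 0 ≤ J x y) (hR : 0 < totalRate J)
    (A : Perm V → ℝ) (β : ℝ) (hβ : 0 < β) (n : ℕ) : ∀ (c : ℕ → ℝ) (r : ℝ) (g : Perm V),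
    pY J A n c r g ≤ β / 2 + 1 / (2 * β) * pZ J A n c r g := by
  have h0 : ∀ x : ℝ, |x| ≤ β / 2 + 1 / (2 * β) * x ^ 2 := by
    intro x
    obtain ⟨z, hz⟩ : ∃ z : ℝ, z = |x| := ⟨_, rfl⟩
    rw [← sq_abs x, ← hz]
    have h2 : 0 ≤ (z - β) ^ 2 / (2 * β) := by positivity
    have h3 : (z - β) ^ 2 / (2 * β) = β / 2 + 1 / (2 * β) * z ^ 2 - z := by
      field_simp
      ring
    linarith
  induction n with
  | zero =>
    intro c r g
    simp only [pY, pZ]
    exact h0 _
  | succ n ih =>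
    intro c r g
    simp only [pY, pZ]
    refine (qq_mono hJ hR _ (fun g' => β / 2 + 1 / (2 * β) *
      pZ J A n (fun i => c (i + 1)) (r + c 0 * A g) g') (fun g' => ih _ _ g') g).trans ?_
    rw [qq_add J (fun _ => β / 2) (fun g' => 1 / (2 * β) *
      pZ J A n (fun i => c (i + 1)) (r + c 0 * A g) g'), qq_const hR.ne', qq_smul]

/-- the kernel of the second moment -/
noncomputable def kk (J : V → V → ℝ) (A : Perm V → ℝ) (i j : ℕ) : Perm V → ℝ :=
  (qq J)^[min i j] (fun h => A h * ((qq J)^[max i j - min i j] A) h)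

theorem kk_succ (J : V → V → ℝ) (A : Perm V → ℝ) (i j : ℕ) (g : Perm V) :
    kk J A (i + 1) (j + 1) g = qq J (kk J A i j) g := by
  unfold kk
  have e1 : min (i + 1) (j + 1) = min i j + 1 := by omega
  have e2 : max (i + 1) (j + 1) - min (i + 1) (j + 1) = max i j - min i j := by omega
  rw [e2, e1, Function.iterate_succ', Function.comp_apply]

theorem kk_zl (J : V → V → ℝ) (A : Perm V → ℝ) (j : ℕ) (g : Perm V) :
    kk J A 0 j g = A g * ((qq J)^[j] A) g := by
  unfold kk
  have e1 : min 0 j = 0 := by omega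
  have e2 : max 0 j - min 0 j = j := by omega
  rw [e2, e1]
  rfl

theorem kk_zr (J : V → V → ℝ) (A : Perm V → ℝ) (j : ℕ) (g : Perm V) :
    kk J A j 0 g = A g * ((qq J)^[j] A) g := by
  unfold kk
  have e1 : min j 0 = 0 := by omega
  have e2 : max j 0 - min j 0 = j := by omega
  rw [e2, e1]
  rfl

theorem pZ_eq {J : V → V → ℝ} (hR : totalRate J ≠ 0) (A : Perm V → ℝ) (n : ℕ) :
    ∀ (c : ℕ → ℝ) (r : ℝ) (g : Perm V), pZ J A n c r g = r ^ 2 +
      2 * r * ∑ j ∈ Finset.range (n + 1), c j * ((qq J)^[j] A) g +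
      ∑ i ∈ Finset.range (n + 1), ∑ j ∈ Finset.range (n + 1), c i * c j * kk J A i j g := by
  induction n with
  | zero =>
    intro c r g
    simp only [pZ, zero_add, Finset.sum_range_one, Function.iterate_zero, id_eq, kk_zl]
    ring
  | succ n ih =>
    intro c r g
    obtain ⟨r', hr'⟩ : ∃ r', r' = r + c 0 * A g := ⟨_, rfl⟩
    have e0 : pZ J A (n + 1) c r g = qq J (pZ J A n (fun i => c (i + 1)) r') g := by
      rw [hr']
      rfl
    have e1 : pZ J A n (fun i => c (i + 1)) r' = fun g' => r' ^ 2 +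
      ∑ j ∈ Finset.range (n + 1), 2 * r' * c (j + 1) * ((qq J)^[j] A) g' +
      ∑ i ∈ Finset.range (n + 1), ∑ j ∈ Finset.range (n + 1),
        c (i + 1) * c (j + 1) * kk J A i j g' := by
      funext g'
      rw [ih, Finset.mul_sum]
      congr 2
      exact Finset.sum_congr rfl fun j _ => by ring
    have e2 : ∀ X : Perm V → ℝ, ∀ j : ℕ, ((qq J)^[j + 1] X) g = qq J ((qq J)^[j] X) g :=
      fun X j => by rw [Function.iterate_succ', Function.comp_apply]
    rw [e0, e1, qq_add J (fun g' => r' ^ 2 +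
      ∑ j ∈ Finset.range (n + 1), 2 * r' * c (j + 1) * ((qq J)^[j] A) g')
      (fun g' => ∑ i ∈ Finset.range (n + 1), ∑ j ∈ Finset.range (n + 1),
        c (i + 1) * c (j + 1) * kk J A i j g'),
      qq_add J (fun _ => r' ^ 2) (fun g' => ∑ j ∈ Finset.range (n + 1),
        2 * r' * c (j + 1) * ((qq J)^[j] A) g'), qq_const hR, qq_sum, qq_sum]
    simp only [qq_sum, qq_smul]
    rw [Finset.sum_range_succ' (fun j => c j * ((qq J)^[j] A) g),
      Finset.sum_range_succ' (fun i => ∑ j ∈ Finset.range (n + 1 + 1), c i * c j * kk J A i j g)]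
    simp only [Finset.sum_range_succ' (fun j => c _ * c j * kk J A _ j g) (n + 1), e2, kk_succ,
      kk_zl, kk_zr, Function.iterate_zero, id_eq, Finset.sum_add_distrib]
    have e3 : ∑ j ∈ Finset.range (n + 1), 2 * r' * c (j + 1) * qq J ((qq J)^[j] A) g =
        2 * r' * ∑ j ∈ Finset.range (n + 1), c (j + 1) * qq J ((qq J)^[j] A) g := by
      rw [Finset.mul_sum]
      exact Finset.sum_congr rfl fun j _ => by ring
    have e4 : ∑ x ∈ Finset.range (n + 1), c 0 * c (x + 1) * (A g * qq J ((qq J)^[x] A) g) =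
        c 0 * A g * ∑ j ∈ Finset.range (n + 1), c (j + 1) * qq J ((qq J)^[j] A) g := by
      rw [Finset.mul_sum]
      exact Finset.sum_congr rfl fun j _ => by ring
    have e5 : ∑ x ∈ Finset.range (n + 1), c (x + 1) * c 0 * (A g * qq J ((qq J)^[x] A) g) =
        c 0 * A g * ∑ j ∈ Finset.range (n + 1), c (j + 1) * qq J ((qq J)^[j] A) g := by
      rw [Finset.mul_sum]
      exact Finset.sum_congr rfl fun j _ => by ring
    have e6 : ∑ x ∈ Finset.range (n + 1 + 1), c 0 * c x * (A g * ((qq J)^[x] A) g) =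
        c 0 * A g * ∑ j ∈ Finset.range (n + 1), c (j + 1) * qq J ((qq J)^[j] A) g +
          c 0 * c 0 * (A g * A g) := by
      rw [Finset.sum_range_succ' (fun x => c 0 * c x * (A g * ((qq J)^[x] A) g))]
      simp only [e2, Function.iterate_zero, id_eq]
      rw [← e4]
    rw [e3, e5, e6, hr']
    ring

end

end Run7.h565.SM
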