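import Pool.Agent.Run7.h565.SM.Jnt1

/-!
# Project SM: second moments of sums along the path
-/

set_option autoImplicit false

namespace Run7.h565.SM

open Finset Equiv
open Pool.Agent.Y998.ST (stirExp stirLaw totalRate)

/-- binomial weights -/
noncomputable def bi (N j : ℕ) : ℝ := (N.choose j : ℝ) / 2 ^ N

theorem bi_nonneg (N j : ℕ) : 0 ≤ bi N j := by
  unfold bi
  positivity

theorem bi_sum (N : ℕ) : ∑ j ∈ Finset.range (N + 1), bi N j = 1 := by
  unfold bi
  rw [← Finset.sum_div]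
  have h1 : ∑ j ∈ Finset.range (N + 1), (N.choose j : ℝ) = 2 ^ N := by
    exact_mod_cast Nat.sum_range_choose N
  rw [h1, div_self (by positivity)]

theorem cb_sq (n : ℕ) : (n.centralBinom : ℝ) ^ 2 * (3 * n + 1) ≤ 16 ^ n := by
  induction n with
  | zero => simp
  | succ n ih =>
    have h1 : ((n : ℝ) + 1) * ((n + 1).centralBinom : ℝ) =
        2 * (2 * n + 1) * (n.centralBinom : ℝ) := by
      exact_mod_cast Nat.succ_mul_centralBinom_succ n
    have h2 : ((n : ℝ) + 1) ^ 2 * (((n + 1).centralBinom : ℝ) ^ 2 * (3 * (n + 1 : ℕ) + 1)) =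
        4 * (2 * n + 1) ^ 2 * (3 * n + 4) * (n.centralBinom : ℝ) ^ 2 := by
      have : ((n : ℝ) + 1) ^ 2 * (((n + 1).centralBinom : ℝ) ^ 2 * (3 * (n + 1 : ℕ) + 1)) =
          (((n : ℝ) + 1) * ((n + 1).centralBinom : ℝ)) ^ 2 * (3 * n + 4) := by
        push_cast
        ring
      rw [this, h1]
      ring
    have hn : (0 : ℝ) ≤ n := Nat.cast_nonneg n
    have h3 : 4 * (2 * (n : ℝ) + 1) ^ 2 * (3 * n + 4) ≤
        ((n : ℝ) + 1) ^ 2 * (16 * (3 * n + 1)) := by nlinarith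
    have h4 : ((n : ℝ) + 1) ^ 2 * (((n + 1).centralBinom : ℝ) ^ 2 * (3 * (n + 1 : ℕ) + 1)) ≤
        ((n : ℝ) + 1) ^ 2 * 16 ^ (n + 1) := by
      rw [h2]
      calc 4 * (2 * (n : ℝ) + 1) ^ 2 * (3 * n + 4) * (n.centralBinom : ℝ) ^ 2
          ≤ ((n : ℝ) + 1) ^ 2 * (16 * (3 * n + 1)) * (n.centralBinom : ℝ) ^ 2 :=
            mul_le_mul_of_nonneg_right h3 (sq_nonneg _)
        _ = ((n : ℝ) + 1) ^ 2 * (16 * ((n.centralBinom : ℝ) ^ 2 * (3 * n + 1))) := by ring
        _ ≤ ((n : ℝ) + 1) ^ 2 * (16 * 16 ^ n) := by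
            refine mul_le_mul_of_nonneg_left ?_ (sq_nonneg _)
            linarith
        _ = ((n : ℝ) + 1) ^ 2 * 16 ^ (n + 1) := by ring
    exact le_of_mul_le_mul_left h4 (by positivity)

theorem bi_sup (ω : ℝ) (hω : 0 < ω) : ∃ N₀ : ℕ, ∀ N, N₀ ≤ N → ∀ j, bi N j ≤ ω := by
  obtain ⟨m₀, hm₀⟩ := exists_nat_gt (1 / ω ^ 2)
  refine ⟨2 * m₀, fun N hN j => ?_⟩
  have key : ∀ m, m₀ ≤ m → (m.centralBinom : ℝ) / 4 ^ m ≤ ω := by
    intro m hm
    have h1 := cb_sq m
    have hm' : (m₀ : ℝ) ≤ m := by exact_mod_cast hm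
    have h2 : 1 ≤ ω ^ 2 * (3 * m + 1) := by
      rw [div_lt_iff₀ (by positivity)] at hm₀
      nlinarith [sq_nonneg ω]
    have h3 : ((m.centralBinom : ℝ) / 4 ^ m) ^ 2 ≤ ω ^ 2 := by
      have e : (4 : ℝ) ^ m * 4 ^ m = 16 ^ m := by
        rw [← mul_pow]
        norm_num
      rw [div_pow, div_le_iff₀ (by positivity), pow_two ((4 : ℝ) ^ m), e]
      have h4 : (m.centralBinom : ℝ) ^ 2 ≤ ω ^ 2 * ((m.centralBinom : ℝ) ^ 2 * (3 * m + 1)) := by
        nlinarith [sq_nonneg (m.centralBinom : ℝ)]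
      calc (m.centralBinom : ℝ) ^ 2 ≤ ω ^ 2 * ((m.centralBinom : ℝ) ^ 2 * (3 * m + 1)) := h4
        _ ≤ ω ^ 2 * 16 ^ m := mul_le_mul_of_nonneg_left h1 (sq_nonneg _)
    exact le_of_sq_le_sq h3 hω.le
  obtain ⟨m, hm⟩ := Nat.even_or_odd' N
  have hm0 : m₀ ≤ m := by omega
  have e4 : (2 : ℝ) ^ (2 * m) = 4 ^ m := by
    rw [pow_mul]
    norm_num
  rcases hm with hm | hm
  · refine le_trans ?_ (key m hm0)
    unfold bi
    rw [hm, e4]
    refine div_le_div_of_nonneg_right ?_ (by positivity)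
    exact_mod_cast Nat.choose_le_centralBinom j m
  · refine le_trans ?_ (key m hm0)
    unfold bi
    rw [hm, pow_succ, e4]
    have h1 : (((2 * m + 1).choose j : ℕ) : ℝ) ≤ (m.centralBinom : ℝ) * 2 := by
      rcases j with _ | j
      · have h2 := Nat.centralBinom_pos m
        have h3 : (1 : ℝ) ≤ m.centralBinom := by exact_mod_cast h2
        simp only [Nat.choose_zero_right, Nat.cast_one]
        linarith
      · rw [Nat.choose_succ_succ]
        have h2 := Nat.choose_le_centralBinom j m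
        have h3 := Nat.choose_le_centralBinom (j + 1) m
        exact_mod_cast (by omega : (2 * m).choose j + (2 * m).choose (j + 1) ≤
          m.centralBinom * 2)
    calc (((2 * m + 1).choose j : ℕ) : ℝ) / (4 ^ m * 2) ≤ (m.centralBinom : ℝ) * 2 / (4 ^ m * 2) :=
          div_le_div_of_nonneg_right h1 (by positivity)
      _ = (m.centralBinom : ℝ) / 4 ^ m := by
          field_simp

theorem two_one (e : ℕ → ℝ) (he : ∀ r, 0 ≤ e r) (i n : ℕ) (hi : i ≤ n) :
    ∑ j ∈ Finset.range (n + 1), e (max i j - min i j) ≤ 2 * ∑ r ∈ Finset.range (n + 1), e r := by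
  have h1 : ∑ j ∈ (Finset.range (n + 1)).filter (fun j => j ≤ i), e (max i j - min i j) ≤
      ∑ r ∈ Finset.range (n + 1), e r := by
    have h2 : ∑ j ∈ (Finset.range (n + 1)).filter (fun j => j ≤ i), e (max i j - min i j) =
        ∑ j ∈ (Finset.range (n + 1)).filter (fun j => j ≤ i), e (i - j) := by
      refine Finset.sum_congr rfl fun j hj => ?_
      have := (Finset.mem_filter.1 hj).2
      congr 1
      omega
    rw [h2, ← Finset.sum_image (f := e) (g := fun j => i - j) (by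
      intro a ha b hb hab
      have := (Finset.mem_filter.1 (Finset.mem_coe.1 ha)).2
      have := (Finset.mem_filter.1 (Finset.mem_coe.1 hb)).2
      simp only at hab
      omega)]
    refine Finset.sum_le_sum_of_subset_of_nonneg ?_ fun r _ _ => he r
    intro r hr
    obtain ⟨j, hj, rfl⟩ := Finset.mem_image.1 hr
    rw [Finset.mem_range]
    omega
  have h3 : ∑ j ∈ (Finset.range (n + 1)).filter (fun j => ¬ j ≤ i), e (max i j - min i j) ≤
      ∑ r ∈ Finset.range (n + 1), e r := by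
    have h2 : ∑ j ∈ (Finset.range (n + 1)).filter (fun j => ¬ j ≤ i), e (max i j - min i j) =
        ∑ j ∈ (Finset.range (n + 1)).filter (fun j => ¬ j ≤ i), e (j - i) := by
      refine Finset.sum_congr rfl fun j hj => ?_
      have := (Finset.mem_filter.1 hj).2
      congr 1
      omega
    rw [h2, ← Finset.sum_image (f := e) (g := fun j => j - i) (by
      intro a ha b hb hab
      have := (Finset.mem_filter.1 (Finset.mem_coe.1 ha)).2
      have := (Finset.mem_filter.1 (Finset.mem_coe.1 hb)).2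
      simp only at hab
      omega)]
    refine Finset.sum_le_sum_of_subset_of_nonneg ?_ fun r _ _ => he r
    intro r hr
    obtain ⟨j, hj, rfl⟩ := Finset.mem_image.1 hr
    have := Finset.mem_range.1 (Finset.mem_filter.1 hj).1
    rw [Finset.mem_range]
    omega
  rw [← Finset.sum_filter_add_sum_filter_not (Finset.range (n + 1)) (fun j => j ≤ i)]
  linarith

section

variable {V : Type} [Fintype V] [DecidableEq V]

theorem qq_inv {J : V → V → ℝ} (hJ : ∀ x y, 0 ≤ J x y) (hR : 0 < totalRate J) (μ : Perm V → ℝ)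
    (ε₀ : ℝ) (hns : ∀ x y, J x y ≠ 0 → ∑ g, |μ (swap x y * g) - μ g| ≤ ε₀)
    (B : Perm V → ℝ) (hB : ∀ g, |B g| ≤ 1) (n : ℕ) :
    |∑ g, μ g * ((qq J)^[n] B) g - ∑ g, μ g * B g| ≤ n * ε₀ := by
  induction n with
  | zero =>
    simp
  | succ n ih =>
    have h1 := ns hJ hR μ ε₀ hns ((qq J)^[n] B) (qq_abs hJ hR B hB n)
    have h2 : ∑ g, μ g * ((qq J)^[n + 1] B) g = (∑ g, μ g * ((qq J)^[n] B) g +
        ∑ g, μ g * tr J ((qq J)^[n] B) g) / 2 := by
      rw [← Finset.sum_add_distrib, Finset.sum_div]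
      refine Finset.sum_congr rfl fun g _ => ?_
      rw [Function.iterate_succ', Function.comp_apply]
      have h3 : qq J ((qq J)^[n] B) g = (((qq J)^[n] B) g + tr J ((qq J)^[n] B) g) / 2 := rfl
      rw [h3]
      ring
    have hε : 0 ≤ ε₀ := (abs_nonneg _).trans h1
    rw [h2]
    push_cast
    rw [abs_le] at h1 ih ⊢
    constructor <;> linarith [h1.1, h1.2, ih.1, ih.2]

theorem e1_add {J : V → V → ℝ} (hJ : ∀ x y, 0 ≤ J x y) (hR : 0 < totalRate J)
    (μ : Perm V → ℝ) (hμ : ∀ g, 0 ≤ μ g) (X Y : Perm V → ℝ) :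
    e1 J μ (fun g => X g + Y g) ≤ e1 J μ X + e1 J μ Y := by
  unfold e1
  rw [← Finset.sum_add_distrib]
  refine Finset.sum_le_sum fun g _ => ?_
  rw [← mul_add]
  refine mul_le_mul_of_nonneg_left ?_ (hμ g)
  rw [← add_div]
  refine div_le_div_of_nonneg_right ?_ hR.le
  rw [← Finset.sum_add_distrib]
  refine Finset.sum_le_sum fun x _ => ?_
  rw [← Finset.sum_add_distrib]
  refine Finset.sum_le_sum fun y _ => ?_
  rw [← mul_add]
  refine mul_le_mul_of_nonneg_left ?_ (div_nonneg (hJ x y) two_pos.le)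
  have e : X (swap x y * g) + Y (swap x y * g) - (X g + Y g) =
      (X (swap x y * g) - X g) + (Y (swap x y * g) - Y g) := by ring
  rw [e]
  exact abs_add_le _ _

theorem e1_smul {J : V → V → ℝ} (μ : Perm V → ℝ) (c : ℝ) (hc : 0 ≤ c) (X : Perm V → ℝ) :
    e1 J μ (fun g => c * X g) = c * e1 J μ X := by
  unfold e1
  rw [Finset.mul_sum]
  refine Finset.sum_congr rfl fun g _ => ?_
  have e : ∑ x, ∑ y, J x y / 2 * |c * X (swap x y * g) - c * X g| =
      c * ∑ x, ∑ y, J x y / 2 * |X (swap x y * g) - X g| := by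
    simp only [Finset.mul_sum]
    refine Finset.sum_congr rfl fun x _ => Finset.sum_congr rfl fun y _ => ?_
    rw [← mul_sub, abs_mul, abs_of_nonneg hc]
    ring
  rw [e]
  ring

theorem e1_sum {ι : Type} {J : V → V → ℝ} (hJ : ∀ x y, 0 ≤ J x y) (hR : 0 < totalRate J)
    (μ : Perm V → ℝ) (hμ : ∀ g, 0 ≤ μ g) (s : Finset ι) (w : ι → ℝ) (hw : ∀ i, 0 ≤ w i)
    (X : ι → Perm V → ℝ) :
    e1 J μ (fun g => ∑ i ∈ s, w i * X i g) ≤ ∑ i ∈ s, w i * e1 J μ (X i) := by
  classical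
  induction s using Finset.induction_on with
  | empty =>
    simp only [Finset.sum_empty]
    unfold e1
    simp
  | insert i s hi ih =>
    simp only [Finset.sum_insert hi]
    refine (e1_add hJ hR μ hμ (fun g => w i * X i g) (fun g => ∑ i ∈ s, w i * X i g)).trans ?_
    rw [e1_smul μ (w i) (hw i)]
    linarith

/-- the mixture -/
noncomputable def hh (J : V → V → ℝ) (A : Perm V → ℝ) (b : ℕ → ℝ) (n : ℕ) (g : Perm V) : ℝ :=
  ∑ p ∈ Finset.range (n + 1) ×ˢ Finset.range (n + 1),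
    b p.1 * b p.2 * ((qq J)^[max p.1 p.2 - min p.1 p.2] A) g

theorem hh_abs {J : V → V → ℝ} (hJ : ∀ x y, 0 ≤ J x y) (hR : 0 < totalRate J)
    (A : Perm V → ℝ) (hA : ∀ g, |A g| ≤ 1) (b : ℕ → ℝ) (hb : ∀ j, 0 ≤ b j) (n : ℕ)
    (hb1 : ∑ j ∈ Finset.range (n + 1), b j = 1) (g : Perm V) : |hh J A b n g| ≤ 1 := by
  unfold hh
  refine (Finset.abs_sum_le_sum_abs _ _).trans ?_
  calc ∑ p ∈ Finset.range (n + 1) ×ˢ Finset.range (n + 1),
        |b p.1 * b p.2 * ((qq J)^[max p.1 p.2 - min p.1 p.2] A) g|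
      ≤ ∑ p ∈ Finset.range (n + 1) ×ˢ Finset.range (n + 1), b p.1 * b p.2 := by
        refine Finset.sum_le_sum fun p _ => ?_
        rw [abs_mul, abs_of_nonneg (mul_nonneg (hb _) (hb _))]
        exact mul_le_of_le_one_right (mul_nonneg (hb _) (hb _)) (qq_abs hJ hR A hA _ g)
    _ = 1 := by
        rw [Finset.sum_product]
        simp only [← Finset.mul_sum, hb1, mul_one]

theorem hh_e1 {J : V → V → ℝ} (hJ : ∀ x y, 0 ≤ J x y) (hR : 0 < totalRate J)
    (μ : Perm V → ℝ) (hμ : ∀ g, 0 ≤ μ g) (hμ1 : ∑ g, μ g = 1)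
    (ε₀ : ℝ) (hε : 0 ≤ ε₀) (hns : ∀ x y, J x y ≠ 0 → ∑ g, |μ (swap x y * g) - μ g| ≤ ε₀)
    (A : Perm V → ℝ) (hA : ∀ g, |A g| ≤ 1) (b : ℕ → ℝ) (hb : ∀ j, 0 ≤ b j) (n : ℕ)
    (hb1 : ∑ j ∈ Finset.range (n + 1), b j = 1) (ω : ℝ) (hω : ∀ j, b j ≤ ω) (κ : ℝ) (hκ : 0 < κ) :
    e1 J μ (hh J A b n) ≤ κ / 2 + ω * (4 + 2 * ε₀ * (n + 1 : ℕ)) / κ := by
  have hω0 : 0 ≤ ω := (hb 0).trans (hω 0)
  obtain ⟨E, hE⟩ : ∃ E : ℕ → ℝ, E = fun r => e2 J μ ((qq J)^[r] A) := ⟨_, rfl⟩
  have hE0 : ∀ r, 0 ≤ E r := by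
    intro r
    rw [hE]
    unfold e2
    exact Finset.sum_nonneg fun g _ => mul_nonneg (hμ g) (div_nonneg
      (Finset.sum_nonneg fun x _ => Finset.sum_nonneg fun y _ =>
        mul_nonneg (div_nonneg (hJ x y) two_pos.le) (sq_nonneg _)) hR.le)
  have h1 : e1 J μ (hh J A b n) ≤ ∑ p ∈ Finset.range (n + 1) ×ˢ Finset.range (n + 1),
      b p.1 * b p.2 * e1 J μ ((qq J)^[max p.1 p.2 - min p.1 p.2] A) :=
    e1_sum hJ hR μ hμ _ (fun p : ℕ × ℕ => b p.1 * b p.2) (fun p => mul_nonneg (hb _) (hb _))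
      (fun p => (qq J)^[max p.1 p.2 - min p.1 p.2] A)
  refine h1.trans ?_
  have h2 : ∑ p ∈ Finset.range (n + 1) ×ˢ Finset.range (n + 1),
      b p.1 * b p.2 * e1 J μ ((qq J)^[max p.1 p.2 - min p.1 p.2] A) ≤
      ∑ p ∈ Finset.range (n + 1) ×ˢ Finset.range (n + 1),
      b p.1 * b p.2 * (κ / 2 + E (max p.1 p.2 - min p.1 p.2) / (2 * κ)) := by
    refine Finset.sum_le_sum fun p _ => mul_le_mul_of_nonneg_left ?_ (mul_nonneg (hb _) (hb _))
    rw [hE]
    exact e1_le hJ hR μ hμ hμ1 _ κ hκ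
  refine h2.trans ?_
  have h3 : ∑ p ∈ Finset.range (n + 1) ×ˢ Finset.range (n + 1),
      b p.1 * b p.2 * (κ / 2 + E (max p.1 p.2 - min p.1 p.2) / (2 * κ)) =
      κ / 2 + (∑ i ∈ Finset.range (n + 1), b i * ∑ j ∈ Finset.range (n + 1),
        b j * E (max i j - min i j)) / (2 * κ) := by
    rw [Finset.sum_product]
    have e1 : ∀ i ∈ Finset.range (n + 1), ∑ j ∈ Finset.range (n + 1),
        b i * b j * (κ / 2 + E (max i j - min i j) / (2 * κ)) =
        b i * (κ / 2) + (b i * ∑ j ∈ Finset.range (n + 1), b j * E (max i j - min i j)) /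
          (2 * κ) := by
      intro i _
      have e2 : ∑ j ∈ Finset.range (n + 1),
          b i * b j * (κ / 2 + E (max i j - min i j) / (2 * κ)) =
          b i * (κ / 2) * ∑ j ∈ Finset.range (n + 1), b j +
          (b i * ∑ j ∈ Finset.range (n + 1), b j * E (max i j - min i j)) / (2 * κ) := by
        rw [Finset.mul_sum, Finset.mul_sum, Finset.sum_div, ← Finset.sum_add_distrib]
        exact Finset.sum_congr rfl fun j _ => by ring
      rw [e2, hb1, mul_one]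
    rw [Finset.sum_congr rfl e1, Finset.sum_add_distrib, ← Finset.sum_mul, hb1, one_mul,
      ← Finset.sum_div]
  rw [h3]
  have h4 : ∑ i ∈ Finset.range (n + 1), b i * ∑ j ∈ Finset.range (n + 1),
        b j * E (max i j - min i j) ≤ ω * (2 * (4 + 2 * ε₀ * (n + 1 : ℕ))) := by
    have h5 : ∀ i ∈ Finset.range (n + 1), b i * ∑ j ∈ Finset.range (n + 1),
        b j * E (max i j - min i j) ≤ b i * (ω * (2 * (4 + 2 * ε₀ * (n + 1 : ℕ)))) := by
      intro i hi
      refine mul_le_mul_of_nonneg_left ?_ (hb i)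
      calc ∑ j ∈ Finset.range (n + 1), b j * E (max i j - min i j)
          ≤ ∑ j ∈ Finset.range (n + 1), ω * E (max i j - min i j) :=
            Finset.sum_le_sum fun j _ => mul_le_mul_of_nonneg_right (hω j) (hE0 _)
        _ = ω * ∑ j ∈ Finset.range (n + 1), E (max i j - min i j) := by rw [Finset.mul_sum]
        _ ≤ ω * (2 * ∑ r ∈ Finset.range (n + 1), E r) :=
            mul_le_mul_of_nonneg_left (two_one E hE0 i n (by
              have := Finset.mem_range.1 hi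
              omega)) hω0
        _ ≤ ω * (2 * (4 + 2 * ε₀ * (n + 1 : ℕ))) := by
            refine mul_le_mul_of_nonneg_left (mul_le_mul_of_nonneg_left ?_ two_pos.le) hω0
            rw [hE]
            exact energy_sum hJ hR μ hμ hμ1 ε₀ hε hns A hA (n + 1)
    refine (Finset.sum_le_sum h5).trans (le_of_eq ?_)
    rw [← Finset.sum_mul, hb1, one_mul]
  have h6 := div_le_div_of_nonneg_right h4 (by positivity : 0 ≤ 2 * κ)
  have h7 : ω * (2 * (4 + 2 * ε₀ * (n + 1 : ℕ))) / (2 * κ) =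
      ω * (4 + 2 * ε₀ * (n + 1 : ℕ)) / κ := by
    field_simp
  linarith

/-- second moment of the sum along the path -/
theorem pZ_small {J : V → V → ℝ} (hJ : ∀ x y, 0 ≤ J x y) (hR : 0 < totalRate J)
    (μ : Perm V → ℝ) (hμ : ∀ g, 0 ≤ μ g) (hμ1 : ∑ g, μ g = 1)
    (ε₀ : ℝ) (hε : 0 ≤ ε₀) (hns : ∀ x y, J x y ≠ 0 → ∑ g, |μ (swap x y * g) - μ g| ≤ ε₀)
    (A : Perm V → ℝ) (hA : ∀ g, |A g| ≤ 1) (b : ℕ → ℝ) (hb : ∀ j, 0 ≤ b j) (n : ℕ)
    (hb1 : ∑ j ∈ Finset.range (n + 1), b j = 1) (ω : ℝ) (hω : ∀ j, b j ≤ ω) (κ η' : ℝ)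
    (hκ : 0 < κ) (hn : ε₀ * (n + 1 : ℕ) ≤ 1) (hωκ : ω ≤ κ ^ 2 / 24)
    (hdec : ∀ H : Perm V → ℝ, (∀ g, |H g| ≤ 1) → e1 J μ H ≤ κ →
      |∑ g, μ g * (A g * H g)| ≤ η') :
    ∑ g, μ g * pZ J A n b 0 g ≤ η' + n * ε₀ := by
  have hω0 : 0 ≤ ω := (hb 0).trans (hω 0)
  have h1 := hdec (hh J A b n) (hh_abs hJ hR A hA b hb n hb1) (by
    refine (hh_e1 hJ hR μ hμ hμ1 ε₀ hε hns A hA b hb n hb1 ω hω κ hκ).trans ?_
    have h2 : ω * (4 + 2 * ε₀ * (n + 1 : ℕ)) / κ ≤ κ / 4 := by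
      rw [div_le_iff₀ hκ]
      nlinarith
    linarith)
  have h2 : ∑ g, μ g * pZ J A n b 0 g = ∑ i ∈ Finset.range (n + 1),
      ∑ j ∈ Finset.range (n + 1), b i * b j * ∑ g, μ g * kk J A i j g := by
    simp only [pZ_eq hR.ne']
    have e : ∀ g, μ g * ((0 : ℝ) ^ 2 + 2 * 0 * ∑ j ∈ Finset.range (n + 1),
        b j * ((qq J)^[j] A) g + ∑ i ∈ Finset.range (n + 1), ∑ j ∈ Finset.range (n + 1),
        b i * b j * kk J A i j g) = ∑ i ∈ Finset.range (n + 1), ∑ j ∈ Finset.range (n + 1),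
        b i * b j * (μ g * kk J A i j g) := by
      intro g
      rw [zero_pow (by norm_num), mul_zero, zero_mul, zero_add, zero_add, Finset.mul_sum]
      refine Finset.sum_congr rfl fun i _ => ?_
      rw [Finset.mul_sum]
      exact Finset.sum_congr rfl fun j _ => by ring
    simp only [e]
    rw [Finset.sum_comm]
    refine Finset.sum_congr rfl fun i _ => ?_
    rw [Finset.sum_comm]
    refine Finset.sum_congr rfl fun j _ => ?_
    rw [Finset.mul_sum]
  have h3 : ∀ i ∈ Finset.range (n + 1), ∀ j ∈ Finset.range (n + 1),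
      ∑ g, μ g * kk J A i j g ≤
        ∑ g, μ g * (A g * ((qq J)^[max i j - min i j] A) g) + n * ε₀ := by
    intro i hi j hj
    have h4 := qq_inv hJ hR μ ε₀ hns (fun h => A h * ((qq J)^[max i j - min i j] A) h)
      (fun g => by
        rw [abs_mul]
        exact mul_le_one₀ (hA g) (abs_nonneg _) (qq_abs hJ hR A hA _ g)) (min i j)
    have h5 : ((min i j : ℕ) : ℝ) * ε₀ ≤ n * ε₀ := by
      refine mul_le_mul_of_nonneg_right ?_ hε
      have := Finset.mem_range.1 hi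
      exact_mod_cast (by omega : min i j ≤ n)
    rw [abs_le] at h4
    have h6 : ∑ g, μ g * kk J A i j g = ∑ g, μ g *
        ((qq J)^[min i j] (fun h => A h * ((qq J)^[max i j - min i j] A) h)) g := rfl
    rw [h6]
    linarith [h4.2]
  have h4 : ∑ g, μ g * (A g * hh J A b n g) = ∑ i ∈ Finset.range (n + 1),
      ∑ j ∈ Finset.range (n + 1), b i * b j *
        ∑ g, μ g * (A g * ((qq J)^[max i j - min i j] A) g) := by
    have e : ∀ g, μ g * (A g * hh J A b n g) = ∑ i ∈ Finset.range (n + 1),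
        ∑ j ∈ Finset.range (n + 1), b i * b j *
          (μ g * (A g * ((qq J)^[max i j - min i j] A) g)) := by
      intro g
      unfold hh
      rw [Finset.sum_product, Finset.mul_sum, Finset.mul_sum]
      refine Finset.sum_congr rfl fun i _ => ?_
      rw [Finset.mul_sum, Finset.mul_sum]
      exact Finset.sum_congr rfl fun j _ => by ring
    simp only [e]
    rw [Finset.sum_comm]
    refine Finset.sum_congr rfl fun i _ => ?_
    rw [Finset.sum_comm]
    refine Finset.sum_congr rfl fun j _ => ?_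
    rw [Finset.mul_sum]
  have h5 : ∑ i ∈ Finset.range (n + 1), ∑ j ∈ Finset.range (n + 1), b i * b j *
      ∑ g, μ g * kk J A i j g ≤ ∑ i ∈ Finset.range (n + 1), ∑ j ∈ Finset.range (n + 1),
        b i * b j * (∑ g, μ g * (A g * ((qq J)^[max i j - min i j] A) g) + n * ε₀) :=
    Finset.sum_le_sum fun i hi => Finset.sum_le_sum fun j hj =>
      mul_le_mul_of_nonneg_left (h3 i hi j hj) (mul_nonneg (hb i) (hb j))
  have h6 : ∑ i ∈ Finset.range (n + 1), ∑ j ∈ Finset.range (n + 1),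
        b i * b j * (∑ g, μ g * (A g * ((qq J)^[max i j - min i j] A) g) + n * ε₀) =
      ∑ g, μ g * (A g * hh J A b n g) + n * ε₀ := by
    rw [h4]
    have e : ∀ i ∈ Finset.range (n + 1), ∑ j ∈ Finset.range (n + 1),
        b i * b j * (∑ g, μ g * (A g * ((qq J)^[max i j - min i j] A) g) + n * ε₀) =
        ∑ j ∈ Finset.range (n + 1), b i * b j *
          ∑ g, μ g * (A g * ((qq J)^[max i j - min i j] A) g) + b i * (n * ε₀) := by
      intro i _
      simp only [mul_add, Finset.sum_add_distrib]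
      congr 1
      rw [← Finset.sum_mul, ← Finset.mul_sum, hb1, mul_one]
    rw [Finset.sum_congr rfl e, Finset.sum_add_distrib, ← Finset.sum_mul, hb1, one_mul]
  rw [h2]
  rw [abs_le] at h1
  linarith [h1.2]

end

end Run7.h565.SM
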