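import Pool.Agent.Run7.h565.SM.Jnt2

/-!
# Project SM: a function of the permutation at a time given the past and the future
-/

set_option autoImplicit false

namespace Run7.h565.SM

open Finset Equiv
open Pool.Agent.Y998.LP (NN tdist)
open Pool.Agent.Y998.ST (stirExp stirLaw nnRate law_nonneg nn_nonneg totalRate nn_row)

theorem tri (f : ℕ × ℕ → ℝ) (K : ℕ) :
    ∑ p ∈ (Finset.range K ×ˢ Finset.range K).filter (fun p => p.1 + p.2 < K), f p =
      ∑ N ∈ Finset.range K, ∑ j ∈ Finset.range (N + 1), f (j, N - j) := by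
  rw [← Finset.sum_fiberwise_of_maps_to (s := (Finset.range K ×ˢ Finset.range K).filter
    (fun p => p.1 + p.2 < K)) (t := Finset.range K) (g := fun p => p.1 + p.2) (fun p hp => by
      rw [Finset.mem_range]
      exact (Finset.mem_filter.1 hp).2) f]
  refine Finset.sum_congr rfl fun N hN => ?_
  have hN' := Finset.mem_range.1 hN
  rw [← Finset.Nat.sum_antidiagonal_eq_sum_range_succ_mk]
  refine Finset.sum_congr ?_ fun _ _ => rfl
  ext p
  simp only [Finset.mem_filter, Finset.mem_product, Finset.mem_range,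
    Finset.HasAntidiagonal.mem_antidiagonal]
  constructor
  · rintro ⟨_, h⟩
    exact h
  · intro h
    refine ⟨⟨⟨?_, ?_⟩, ?_⟩, h⟩ <;> omega

theorem po_bi (l : ℝ) (N j : ℕ) (hj : j ≤ N) : po l j * po l (N - j) = po (2 * l) N * bi N j := by
  unfold po bi
  have h1 : ((N.choose j : ℕ) : ℝ) = (N.factorial : ℝ) / ((j.factorial : ℝ) *
      ((N - j).factorial : ℝ)) := Nat.cast_choose ℝ hj
  have h2 : l ^ N = l ^ j * l ^ (N - j) := by
    rw [← pow_add]
    congr 1
    omega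
  have h3 : Real.exp (-(2 * l)) = Real.exp (-l) * Real.exp (-l) := by
    rw [← Real.exp_add]
    congr 1
    ring
  have hf1 : (N.factorial : ℝ) ≠ 0 := by exact_mod_cast N.factorial_ne_zero
  have hf2 : (j.factorial : ℝ) ≠ 0 := by exact_mod_cast j.factorial_ne_zero
  have hf3 : ((N - j).factorial : ℝ) ≠ 0 := by exact_mod_cast (N - j).factorial_ne_zero
  rw [h1, h3, mul_pow, h2]
  field_simp

section

variable {V : Type} [Fintype V] [DecidableEq V]

theorem it_abs {J : V → V → ℝ} (hJ : ∀ x y, 0 ≤ J x y) (hR : 0 < totalRate J)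
    (B : Perm V → ℝ) (c : ℝ) (hB : ∀ g, |B g| ≤ c) (n : ℕ) : ∀ g, |((qq J)^[n] B) g| ≤ c := by
  induction n with
  | zero => exact hB
  | succ n ih =>
    intro g
    rw [Function.iterate_succ', Function.comp_apply]
    refine (qq_abs_le hJ hR _ (fun _ => c) ih g).trans (le_of_eq ?_)
    exact qq_const hR.ne' c g

theorem it_add (J : V → V → ℝ) (X Y : Perm V → ℝ) (n : ℕ) : ∀ g,
    ((qq J)^[n] (fun g => X g + Y g)) g = ((qq J)^[n] X) g + ((qq J)^[n] Y) g := by
  induction n with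
  | zero => intro g; rfl
  | succ n ih =>
    intro g
    rw [Function.iterate_succ', Function.comp_apply, Function.comp_apply, Function.comp_apply]
    have h1 : (qq J)^[n] (fun g => X g + Y g) =
        fun g => ((qq J)^[n] X) g + ((qq J)^[n] Y) g := funext ih
    rw [h1, qq_add J ((qq J)^[n] X) ((qq J)^[n] Y)]

theorem it_smul (J : V → V → ℝ) (c : ℝ) (X : Perm V → ℝ) (n : ℕ) : ∀ g,
    ((qq J)^[n] (fun g => c * X g)) g = c * ((qq J)^[n] X) g := by
  induction n with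
  | zero => intro g; rfl
  | succ n ih =>
    intro g
    rw [Function.iterate_succ', Function.comp_apply, Function.comp_apply]
    have h1 : (qq J)^[n] (fun g => c * X g) = fun g => c * ((qq J)^[n] X) g := funext ih
    rw [h1, qq_smul]

theorem it_sum {ι : Type} (J : V → V → ℝ) (s : Finset ι) (X : ι → Perm V → ℝ) (n : ℕ) : ∀ g,
    ((qq J)^[n] (fun g => ∑ i ∈ s, X i g)) g = ∑ i ∈ s, ((qq J)^[n] (X i)) g := by
  induction n with
  | zero => intro g; rfl
  | succ n ih =>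
    intro g
    rw [Function.iterate_succ', Function.comp_apply]
    have h1 : (qq J)^[n] (fun g => ∑ i ∈ s, X i g) =
        fun g => ∑ i ∈ s, ((qq J)^[n] (X i)) g := funext ih
    rw [h1, qq_sum]
    exact Finset.sum_congr rfl fun i _ => by rw [Function.comp_apply]

theorem trunc {J : V → V → ℝ} (hJ : ∀ x y, 0 ≤ J x y) (hR : 0 < totalRate J) (l : ℝ)
    (hl : 0 < l) (a : ℝ) (ha : 2 * (a * totalRate J) = l) (M : ℕ) (G : Perm V → ℝ)
    (hG : ∀ g, |G g| ≤ 1) (g : Perm V) :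
    |fut J a G g - ∑ n ∈ Finset.range M, po l n * ((qq J)^[n] G) g| ≤
      1 - ∑ n ∈ Finset.range M, po l n := by
  have hpo := fun n => po_nonneg hl.le n
  have hQ : ∀ n g, |((qq J)^[n] G) g| ≤ 1 := fun n => qq_abs hJ hR G hG n
  have hs := mix J hR.ne' a G g
  rw [ha] at hs
  have hsum := po_sum l
  have e3 : fut J a G g = ∑ h, stirLaw J a h * G (h * g) := rfl
  rw [← e3] at hs
  have hs1 := hsum.sub hs
  have hs2 := hsum.add hs
  have h3 := sum_le_hasSum (Finset.range M) (fun n _ => by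
    have h4 := hQ n g
    rw [abs_le] at h4
    have : 0 ≤ po l n * (1 - ((qq J)^[n] G) g) := mul_nonneg (hpo n) (by linarith [h4.2])
    linarith) hs1
  have h5 := sum_le_hasSum (Finset.range M) (fun n _ => by
    have h4 := hQ n g
    rw [abs_le] at h4
    have : 0 ≤ po l n * (1 + ((qq J)^[n] G) g) := mul_nonneg (hpo n) (by linarith [h4.1])
    linarith) hs2
  rw [Finset.sum_sub_distrib] at h3
  rw [Finset.sum_add_distrib] at h5
  rw [abs_le]
  constructor <;> linarith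

/-- the bound for all functions of the future -/
noncomputable def bY (J : V → V → ℝ) (A : Perm V → ℝ) (l : ℝ) (M : ℕ) (g : Perm V) : ℝ :=
  4 * (1 - ∑ n ∈ Finset.range M, po l n) +
    ∑ N ∈ Finset.range (2 * M), po (2 * l) N * pY J A N (bi N) 0 g

theorem bY_dual {J : V → V → ℝ} (hJ : ∀ x y, 0 ≤ J x y) (hR : 0 < totalRate J) (l : ℝ)
    (hl : 0 < l) (a : ℝ) (ha0 : 0 ≤ a) (ha : 2 * (a * totalRate J) = l) (M : ℕ)
    (A Φ : Perm V → ℝ) (hA : ∀ g, |A g| ≤ 1) (hΦ : ∀ g, |Φ g| ≤ 1) (g : Perm V) :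
    |fut J a (fun h => A h * fut J a Φ h) g| ≤ bY J A l M g := by
  have hpo := fun n => po_nonneg hl.le n
  obtain ⟨T, hT⟩ : ∃ T : ℝ, T = ∑ n ∈ Finset.range M, po l n := ⟨_, rfl⟩
  have hT0 : 0 ≤ T := by rw [hT]; exact Finset.sum_nonneg fun n _ => hpo n
  have hT1 : T ≤ 1 := by
    rw [hT]
    exact sum_le_hasSum _ (fun n _ => hpo n) (po_sum l)
  obtain ⟨X, hX⟩ : ∃ X : Perm V → ℝ, X = fun h => A h * fut J a Φ h := ⟨_, rfl⟩
  have hX1 : ∀ h, |X h| ≤ 1 := by
    intro h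
    rw [hX]
    beta_reduce
    rw [abs_mul]
    exact mul_le_one₀ (hA h) (abs_nonneg _) (fut_abs hJ ha0 Φ 1 hΦ h)
  obtain ⟨w, hw⟩ : ∃ w : ℕ × ℕ → ℝ, w = fun p => po l p.1 * po l p.2 *
      ((qq J)^[p.1] (fun h => A h * ((qq J)^[p.2] Φ) h)) g := ⟨_, rfl⟩
  have hw1 : ∀ p, |w p| ≤ po l p.1 * po l p.2 := by
    intro p
    rw [hw]
    beta_reduce
    rw [abs_mul, abs_of_nonneg (mul_nonneg (hpo _) (hpo _))]
    refine mul_le_of_le_one_right (mul_nonneg (hpo _) (hpo _)) (qq_abs hJ hR _ (fun h => ?_) _ g)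
    rw [abs_mul]
    exact mul_le_one₀ (hA h) (abs_nonneg _) (qq_abs hJ hR Φ hΦ _ h)
  -- the square
  have h1 : |fut J a X g - ∑ j ∈ Finset.range M, po l j * ((qq J)^[j] X) g| ≤ 1 - T := by
    rw [hT]
    exact trunc hJ hR l hl a ha M X hX1 g
  have h2 : ∀ j, |((qq J)^[j] X) g - ∑ m ∈ Finset.range M, po l m *
      ((qq J)^[j] (fun h => A h * ((qq J)^[m] Φ) h)) g| ≤ 1 - T := by
    intro j
    have e1 : ((qq J)^[j] X) g - ∑ m ∈ Finset.range M, po l m *
      ((qq J)^[j] (fun h => A h * ((qq J)^[m] Φ) h)) g =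
        ((qq J)^[j] (fun h => X h + (-1) * ∑ m ∈ Finset.range M,
          po l m * (A h * ((qq J)^[m] Φ) h))) g := by
      rw [it_add J X (fun h => (-1) * ∑ m ∈ Finset.range M,
          po l m * (A h * ((qq J)^[m] Φ) h)), it_smul, it_sum]
      simp only [it_smul]
      ring
    rw [e1]
    refine it_abs hJ hR _ (1 - T) (fun h => ?_) j g
    have e2 : X h + (-1) * ∑ m ∈ Finset.range M, po l m * (A h * ((qq J)^[m] Φ) h) =
        A h * (fut J a Φ h - ∑ m ∈ Finset.range M, po l m * ((qq J)^[m] Φ) h) := by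
      have e3 : ∑ m ∈ Finset.range M, po l m * (A h * ((qq J)^[m] Φ) h) =
          A h * ∑ m ∈ Finset.range M, po l m * ((qq J)^[m] Φ) h := by
        rw [Finset.mul_sum]
        exact Finset.sum_congr rfl fun m _ => by ring
      rw [e3, hX]
      ring
    rw [e2, abs_mul]
    have h3 := trunc hJ hR l hl a ha M Φ hΦ h
    rw [← hT] at h3
    calc |A h| * |fut J a Φ h - ∑ m ∈ Finset.range M, po l m * ((qq J)^[m] Φ) h|
        ≤ 1 * (1 - T) := mul_le_mul (hA h) h3 (abs_nonneg _) zero_le_one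
      _ = 1 - T := one_mul _
  have h3 : |∑ j ∈ Finset.range M, po l j * ((qq J)^[j] X) g -
      ∑ p ∈ Finset.range M ×ˢ Finset.range M, w p| ≤ 1 - T := by
    rw [Finset.sum_product, ← Finset.sum_sub_distrib]
    refine (Finset.abs_sum_le_sum_abs _ _).trans ?_
    calc ∑ j ∈ Finset.range M, |po l j * ((qq J)^[j] X) g - ∑ m ∈ Finset.range M, w (j, m)|
        ≤ ∑ j ∈ Finset.range M, po l j * (1 - T) := by
          refine Finset.sum_le_sum fun j _ => ?_
          have e1 : po l j * ((qq J)^[j] X) g - ∑ m ∈ Finset.range M, w (j, m) =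
              po l j * (((qq J)^[j] X) g - ∑ m ∈ Finset.range M, po l m *
                ((qq J)^[j] (fun h => A h * ((qq J)^[m] Φ) h)) g) := by
            rw [mul_sub, Finset.mul_sum, hw]
            congr 1
            exact Finset.sum_congr rfl fun m _ => by ring
          rw [e1, abs_mul, abs_of_nonneg (hpo j)]
          exact mul_le_mul_of_nonneg_left (h2 j) (hpo j)
      _ = T * (1 - T) := by rw [← Finset.sum_mul, ← hT]
      _ ≤ 1 - T := by nlinarith
  -- the triangle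
  obtain ⟨P, hP⟩ : ∃ P : Finset (ℕ × ℕ), P = (Finset.range (2 * M) ×ˢ
      Finset.range (2 * M)).filter (fun p => p.1 + p.2 < 2 * M) := ⟨_, rfl⟩
  have hQP : Finset.range M ×ˢ Finset.range M ⊆ P := by
    intro p hp
    rw [Finset.mem_product, Finset.mem_range, Finset.mem_range] at hp
    rw [hP, Finset.mem_filter, Finset.mem_product, Finset.mem_range, Finset.mem_range]
    omega
  have hPv : ∑ p ∈ P, po l p.1 * po l p.2 ≤ 1 := by
    rw [hP, tri (fun p => po l p.1 * po l p.2)]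
    have e1 : ∀ N ∈ Finset.range (2 * M), ∑ j ∈ Finset.range (N + 1), po l j * po l (N - j) =
        po (2 * l) N := by
      intro N _
      calc ∑ j ∈ Finset.range (N + 1), po l j * po l (N - j) =
            ∑ j ∈ Finset.range (N + 1), po (2 * l) N * bi N j :=
            Finset.sum_congr rfl fun j hj => po_bi l N j (by
              have := Finset.mem_range.1 hj
              omega)
        _ = po (2 * l) N := by rw [← Finset.mul_sum, bi_sum, mul_one]
    rw [Finset.sum_congr rfl e1]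
    exact sum_le_hasSum _ (fun n _ => po_nonneg (by linarith) n) (po_sum (2 * l))
  have hQv : ∑ p ∈ Finset.range M ×ˢ Finset.range M, po l p.1 * po l p.2 = T ^ 2 := by
    rw [Finset.sum_product]
    simp only [← Finset.mul_sum]
    rw [← Finset.sum_mul, ← hT]
    ring
  have h4 : |∑ p ∈ Finset.range M ×ˢ Finset.range M, w p - ∑ p ∈ P, w p| ≤ 2 * (1 - T) := by
    have e1 := Finset.sum_sdiff (f := w) hQP
    have e2 := Finset.sum_sdiff (f := fun p : ℕ × ℕ => po l p.1 * po l p.2) hQP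
    have e3 : |∑ p ∈ P \ (Finset.range M ×ˢ Finset.range M), w p| ≤
        ∑ p ∈ P \ (Finset.range M ×ˢ Finset.range M), po l p.1 * po l p.2 :=
      (Finset.abs_sum_le_sum_abs _ _).trans (Finset.sum_le_sum fun p _ => hw1 p)
    rw [hQv] at e2
    rw [← e1]
    have e4 : ∑ p ∈ Finset.range M ×ˢ Finset.range M, w p -
        (∑ p ∈ P \ (Finset.range M ×ˢ Finset.range M), w p +
          ∑ p ∈ Finset.range M ×ˢ Finset.range M, w p) =
        - ∑ p ∈ P \ (Finset.range M ×ˢ Finset.range M), w p := by ring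
    rw [e4, abs_neg]
    nlinarith
  have h5 : |∑ p ∈ P, w p| ≤ ∑ N ∈ Finset.range (2 * M), po (2 * l) N *
      pY J A N (bi N) 0 g := by
    rw [hP, tri w]
    refine (Finset.abs_sum_le_sum_abs _ _).trans (Finset.sum_le_sum fun N _ => ?_)
    have e1 : ∑ j ∈ Finset.range (N + 1), w (j, N - j) = po (2 * l) N * (0 * ((qq J)^[N] Φ) g +
        ∑ j ∈ Finset.range (N + 1), bi N j *
          ((qq J)^[j] (fun h => A h * ((qq J)^[N - j] Φ) h)) g) := by
      rw [zero_mul, zero_add, Finset.mul_sum, hw]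
      refine Finset.sum_congr rfl fun j hj => ?_
      beta_reduce
      rw [po_bi l N j (by have := Finset.mem_range.1 hj; omega)]
      ring
    rw [e1, abs_mul, abs_of_nonneg (po_nonneg (by linarith) N)]
    exact mul_le_mul_of_nonneg_left (pY_dual hJ hR A Φ hΦ N (bi N) 0 g)
      (po_nonneg (by linarith) N)
  unfold bY
  rw [← hT, ← hX]
  rw [abs_le] at h1 h3 h4 h5 ⊢
  constructor <;> linarith [h1.1, h1.2, h3.1, h3.2, h4.1, h4.2, h5.1, h5.2]

theorem bY_mean {J : V → V → ℝ} (hJ : ∀ x y, 0 ≤ J x y) (hR : 0 < totalRate J) (l : ℝ)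
    (hl : 0 < l) (M N₂ : ℕ) (A : Perm V → ℝ) (hA : ∀ g, |A g| ≤ 1)
    (μ : Perm V → ℝ) (hμ : ∀ g, 0 ≤ μ g) (hμ1 : ∑ g, μ g = 1)
    (ε₀ : ℝ) (hε : 0 ≤ ε₀) (hns : ∀ x y, J x y ≠ 0 → ∑ g, |μ (swap x y * g) - μ g| ≤ ε₀)
    (κ η' β : ℝ) (hκ : 0 < κ) (hβ : 0 < β) (hη' : 0 ≤ η') (hM : ε₀ * (2 * M) ≤ 1)
    (hω : ∀ N, N₂ ≤ N → ∀ j, bi N j ≤ κ ^ 2 / 24)
    (hdec : ∀ H : Perm V → ℝ, (∀ g, |H g| ≤ 1) → e1 J μ H ≤ κ →
      |∑ g, μ g * (A g * H g)| ≤ η') :
    ∑ g, μ g * bY J A l M g ≤ 4 * (1 - ∑ n ∈ Finset.range M, po l n) +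
      ∑ n ∈ Finset.range N₂, po (2 * l) n + (β / 2 + 1 / (2 * β) * (η' + 2 * M * ε₀)) := by
  have hpo := fun n => po_nonneg (by linarith : 0 ≤ 2 * l) n
  obtain ⟨B, hB⟩ : ∃ B : ℝ, B = β / 2 + 1 / (2 * β) * (η' + 2 * M * ε₀) := ⟨_, rfl⟩
  have hB0 : 0 ≤ B := by rw [hB]; positivity
  have h1 : ∑ g, μ g * bY J A l M g = 4 * (1 - ∑ n ∈ Finset.range M, po l n) +
      ∑ N ∈ Finset.range (2 * M), po (2 * l) N * ∑ g, μ g * pY J A N (bi N) 0 g := by
    unfold bY
    simp only [mul_add, Finset.sum_add_distrib]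
    rw [← Finset.sum_mul, hμ1, one_mul]
    congr 1
    simp only [Finset.mul_sum]
    rw [Finset.sum_comm]
    exact Finset.sum_congr rfl fun g _ => Finset.sum_congr rfl fun N _ => by ring
  have h2 : ∀ N ∈ Finset.range (2 * M), po (2 * l) N * ∑ g, μ g * pY J A N (bi N) 0 g ≤
      (if N < N₂ then po (2 * l) N else 0) + po (2 * l) N * B := by
    intro N hN
    have hN' := Finset.mem_range.1 hN
    by_cases h : N < N₂
    · rw [if_pos h]
      have h3 : ∑ g, μ g * pY J A N (bi N) 0 g ≤ 1 := by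
        rw [← hμ1]
        refine Finset.sum_le_sum fun g _ => mul_le_of_le_one_right (hμ g) ?_
        refine (pY_le hJ hR A hA N (bi N) 0 g).trans (le_of_eq ?_)
        rw [abs_zero, zero_add, ← bi_sum N]
        exact Finset.sum_congr rfl fun j _ => abs_of_nonneg (bi_nonneg N j)
      have h4 := mul_le_mul_of_nonneg_left h3 (hpo N)
      have h5 := mul_nonneg (hpo N) hB0
      linarith
    · rw [if_neg h, zero_add]
      refine mul_le_mul_of_nonneg_left ?_ (hpo N)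
      have hNR : (N : ℝ) + 1 ≤ 2 * M := by exact_mod_cast (by omega : N + 1 ≤ 2 * M)
      have h3 := pZ_small hJ hR μ hμ hμ1 ε₀ hε hns A hA (bi N) (bi_nonneg N) N (bi_sum N)
        (κ ^ 2 / 24) (hω N (by omega)) κ η' hκ (by
          push_cast
          nlinarith) le_rfl hdec
      have h4 : ∑ g, μ g * pY J A N (bi N) 0 g ≤
          ∑ g, μ g * (β / 2 + 1 / (2 * β) * pZ J A N (bi N) 0 g) :=
        Finset.sum_le_sum fun g _ => mul_le_mul_of_nonneg_left
          (pY_pZ hJ hR A β hβ N (bi N) 0 g) (hμ g)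
      have h5 : ∑ g, μ g * (β / 2 + 1 / (2 * β) * pZ J A N (bi N) 0 g) =
          β / 2 + 1 / (2 * β) * ∑ g, μ g * pZ J A N (bi N) 0 g := by
        simp only [mul_add, Finset.sum_add_distrib]
        rw [← Finset.sum_mul, hμ1, one_mul, Finset.mul_sum]
        congr 1
        exact Finset.sum_congr rfl fun g _ => by ring
      rw [h5] at h4
      refine h4.trans ?_
      rw [hB]
      have h6 : (N : ℝ) * ε₀ ≤ 2 * M * ε₀ := mul_le_mul_of_nonneg_right (by linarith) hε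
      have h7 := mul_le_mul_of_nonneg_left (h3.trans (by linarith : η' + N * ε₀ ≤
        η' + 2 * M * ε₀)) (by positivity : 0 ≤ 1 / (2 * β))
      linarith
  have h3 : ∑ N ∈ Finset.range (2 * M), ((if N < N₂ then po (2 * l) N else 0) +
      po (2 * l) N * B) ≤ ∑ n ∈ Finset.range N₂, po (2 * l) n + B := by
    rw [Finset.sum_add_distrib, ← Finset.sum_mul]
    have h4 : ∑ N ∈ Finset.range (2 * M), po (2 * l) N ≤ 1 :=
      sum_le_hasSum _ (fun n _ => hpo n) (po_sum (2 * l))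
    have h5 : ∑ N ∈ Finset.range (2 * M), (if N < N₂ then po (2 * l) N else 0) ≤
        ∑ n ∈ Finset.range N₂, po (2 * l) n := by
      rw [← Finset.sum_filter]
      refine Finset.sum_le_sum_of_subset_of_nonneg ?_ fun n _ _ => hpo n
      intro n hn
      rw [Finset.mem_range]
      exact (Finset.mem_filter.1 hn).2
    have h6 := mul_le_mul_of_nonneg_right h4 hB0
    linarith
  rw [h1, ← hB]
  linarith [Finset.sum_le_sum h2]

end

/-- A function of the permutation which is uncorrelated with the functions of small energy has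
small conditional mean given the past and the future. -/
theorem jnt (d : ℕ) (hd : 2 ≤ d) (η κ : ℝ) (hη : 0 < η) (hκ : 0 < κ) :
    ∃ (K : ℝ) (L₀ : ℕ), 0 < K ∧ 3 ≤ L₀ ∧ ∀ (L : ℕ) [NeZero L], L₀ ≤ L → ∀ t₀ : ℝ,
    Real.log L ≤ t₀ → ∀ A : Perm (Fin d → ZMod L) → ℝ, (∀ g, |A g| ≤ 1) →
    (∀ t : ℝ, t₀ ≤ t → ∀ H : Perm (Fin d → ZMod L) → ℝ, (∀ g, |H g| ≤ 1) →
      e1 (nnRate d L) (fun g => stirLaw (nnRate d L) t g) H ≤ κ →
      |stirExp (nnRate d L) t (fun g => A g * H g)| ≤ η ^ 2 / 16) →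
    ∀ s s' : ℝ, K ≤ s * (L : ℝ) ^ d → K ≤ s' * (L : ℝ) ^ d → ∀ t : ℝ, t₀ ≤ t →
    ∀ Φ : Perm (Fin d → ZMod L) → Perm (Fin d → ZMod L) → ℝ, (∀ g h, |Φ g h| ≤ 1) →
    stirExp (nnRate d L) t (fun g => |fut (nnRate d L) s
      (fun h => A h * fut (nnRate d L) s' (Φ g) h) g|) ≤ η := by
  have hd0 : (0 : ℝ) < d := by exact_mod_cast (by omega : 0 < d)
  obtain ⟨N₂, hN₂⟩ := bi_sup (κ ^ 2 / 24) (by positivity)
  obtain ⟨l', hl'0, hl'⟩ := po_sup (η / (4 * (N₂ + 1))) (by positivity)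
  obtain ⟨l, hl⟩ : ∃ l : ℝ, l = l' / 2 := ⟨_, rfl⟩
  have hl0 : 0 < l := by rw [hl]; positivity
  have h2l : 2 * l = l' := by rw [hl]; ring
  obtain ⟨M, hM⟩ := po_tail (l := l) (η / 16) (by positivity)
  obtain ⟨ε₀, hε₀⟩ : ∃ ε₀ : ℝ, ε₀ = min (η ^ 2 / (32 * ((M : ℝ) + 1)))
      (1 / (2 * ((M : ℝ) + 1))) := ⟨_, rfl⟩
  have hε0 : 0 < ε₀ := by
    rw [hε₀]
    exact lt_min (by positivity) (by positivity)
  have hM0 : (0 : ℝ) ≤ M := Nat.cast_nonneg M
  have hε1 : 2 * M * ε₀ ≤ η ^ 2 / 16 := by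
    have h1 : ε₀ ≤ η ^ 2 / (32 * ((M : ℝ) + 1)) := by rw [hε₀]; exact min_le_left _ _
    have h2 : 2 * M * ε₀ ≤ 2 * M * (η ^ 2 / (32 * ((M : ℝ) + 1))) :=
      mul_le_mul_of_nonneg_left h1 (by positivity)
    refine h2.trans ?_
    have e : 2 * (M : ℝ) * (η ^ 2 / (32 * (M + 1))) = (2 * M * η ^ 2) / (32 * (M + 1)) := by
      ring
    rw [e, div_le_div_iff₀ (by positivity) (by norm_num)]
    nlinarith [sq_nonneg η]
  have hε2 : ε₀ * (2 * M) ≤ 1 := by
    have h1 : ε₀ ≤ 1 / (2 * ((M : ℝ) + 1)) := by rw [hε₀]; exact min_le_right _ _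
    have h2 : ε₀ * (2 * M) ≤ 1 / (2 * ((M : ℝ) + 1)) * (2 * M) :=
      mul_le_mul_of_nonneg_right h1 (by positivity)
    refine h2.trans ?_
    have e : 1 / (2 * ((M : ℝ) + 1)) * (2 * M) = (2 * M) / (2 * (M + 1)) := by ring
    rw [e, div_le_one (by positivity)]
    linarith
  obtain ⟨L₀, hL₀, hns⟩ := nn_inv d hd ε₀ hε0
  refine ⟨l / (2 * d), L₀, by positivity, hL₀, fun L _ hL t₀ ht₀ A hA hdec s s' hs hs' t ht Φ hΦ =>
    ?_⟩
  have hL3 : 3 ≤ L := hL₀.trans hL
  have hL0 : (0 : ℝ) < L := by exact_mod_cast (by omega : 0 < L)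
  have hLd : (0 : ℝ) < (L : ℝ) ^ d := by positivity
  have hlog : 1 ≤ Real.log L := log_ge L hL3
  obtain ⟨J, hJdef⟩ : ∃ J, J = nnRate d L := ⟨_, rfl⟩
  have hJ : ∀ x y, 0 ≤ J x y := by rw [hJdef]; exact nn_nonneg
  have hR : totalRate J = d * (L : ℝ) ^ d := by rw [hJdef]; exact tr_nn d L hL3
  have hR0 : 0 < totalRate J := by rw [hR]; positivity
  obtain ⟨a, ha⟩ : ∃ a : ℝ, a = l / (2 * d) / (L : ℝ) ^ d := ⟨_, rfl⟩
  have ha0 : 0 ≤ a := by rw [ha]; positivity
  have has : a ≤ s := by rw [ha, div_le_iff₀ hLd]; exact hs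
  have has' : a ≤ s' := by rw [ha, div_le_iff₀ hLd]; exact hs'
  have haR : 2 * (a * totalRate J) = l := by
    rw [hR, ha]
    field_simp
  rw [← hJdef] at hdec ⊢
  obtain ⟨Y, hY⟩ : ∃ Y : Perm (Fin d → ZMod L) → ℝ, Y = bY J A l M := ⟨_, rfl⟩
  -- pointwise
  have h1 : ∀ g, |fut J s (fun h => A h * fut J s' (Φ g) h) g| ≤ fut J (s - a) Y g := by
    intro g
    obtain ⟨X, hX⟩ : ∃ X : Perm (Fin d → ZMod L) → ℝ, X = fun h => A h * fut J s' (Φ g) h :=
      ⟨_, rfl⟩
    have e1 : fut J s X g = fut J (s - a) (fut J a X) g := by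
      have := fut_add J a (s - a) X g
      rwa [add_sub_cancel] at this
    rw [← hX, e1]
    refine (fut_abs_le hJ (by linarith) _ g).trans ?_
    refine fut_le hJ (by linarith) _ _ (fun h => ?_) g
    have e2 : X = fun h => A h * fut J a (fut J (s' - a) (Φ g)) h := by
      rw [hX]
      funext h
      have := fut_add J (s' - a) a (Φ g) h
      rw [sub_add_cancel] at this
      rw [this]
    rw [e2, hY]
    exact bY_dual hJ hR0 l hl0 a ha0 haR M A _ hA
      (fut_abs hJ (by linarith) (Φ g) 1 (hΦ g)) h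
  have ht0 : 0 ≤ t := by linarith
  have h2 : stirExp J t (fun g => |fut J s (fun h => A h * fut J s' (Φ g) h) g|) ≤
      stirExp J t (fut J (s - a) Y) :=
    Finset.sum_le_sum fun g _ => mul_le_mul_of_nonneg_left (h1 g) (law_nonneg hJ ht0 g)
  refine h2.trans ?_
  rw [se_fut]
  obtain ⟨u, hu⟩ : ∃ u : ℝ, u = t + (s - a) := ⟨_, rfl⟩
  have hut : t₀ ≤ u := by rw [hu]; linarith
  have hu0 : 0 ≤ u := by linarith
  rw [← hu]
  have h3 := bY_mean hJ hR0 l hl0 M N₂ A hA (fun g => stirLaw J u g) (law_nonneg hJ hu0)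
    (Pool.Agent.Y998.CN.law_sum _ _) ε₀ hε0.le (fun x y hxy => by
      have h4 : ∑ g, |stirLaw J u (swap x y * g) - stirLaw J u g| = NN J u (swap x y) := by
        unfold NN
        rw [swap_inv]
      rw [h4, hJdef]
      rw [hJdef] at hxy
      exact hns L hL u (by linarith) x y hxy) κ (η ^ 2 / 16) (η / 2) hκ (by positivity)
    (by positivity) hε2 hN₂ (fun H hH he => hdec u hut H hH he)
  have h4 : stirExp J u Y = ∑ g, stirLaw J u g * bY J A l M g := by
    rw [hY]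
    rfl
  rw [h4]
  refine h3.trans ?_
  have h5 : ∑ n ∈ Finset.range N₂, po (2 * l) n ≤ η / 4 := by
    calc ∑ n ∈ Finset.range N₂, po (2 * l) n ≤ ∑ _n ∈ Finset.range N₂, η / (4 * (N₂ + 1)) :=
          Finset.sum_le_sum fun n _ => by rw [h2l]; exact hl' n
      _ = (N₂ * η) / (4 * (N₂ + 1)) := by
          rw [Finset.sum_const, Finset.card_range, nsmul_eq_mul]
          ring
      _ ≤ η / 4 := by
          rw [div_le_div_iff₀ (by positivity) (by norm_num)]
          have : (0 : ℝ) ≤ N₂ := Nat.cast_nonneg _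
          nlinarith
  have h6 : 1 / (2 * (η / 2)) * (η ^ 2 / 16 + 2 * M * ε₀) ≤ η / 8 := by
    have h7 : 1 / (2 * (η / 2)) * (η ^ 2 / 16 + 2 * M * ε₀) ≤
        1 / (2 * (η / 2)) * (η ^ 2 / 16 + η ^ 2 / 16) :=
      mul_le_mul_of_nonneg_left (by linarith) (by positivity)
    refine h7.trans (le_of_eq ?_)
    field_simp
    norm_num
  linarith

end Run7.h565.SM
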