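import Pool.Agent.Run7.h565.SM.Pois
import Pool.Agent.Y998.LP.Law2

/-!
# Project SM: the stirring semigroup as a mixture of powers of a lazy step; energy
-/

set_option autoImplicit false

namespace Run7.h565.SM

open Finset Equiv Filter Topology
open Pool.Agent.Y998.ST (stirExp stirLaw totalRate TT E E_hasSum TT_mul law_eq)

variable {V : Type} [Fintype V] [DecidableEq V]

/-- one random transposition -/
noncomputable def tr (J : V → V → ℝ) (A : Perm V → ℝ) (g : Perm V) : ℝ :=
  (∑ x, ∑ y, J x y / 2 * A (swap x y * g)) / totalRate J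

/-- a lazy step -/
noncomputable def qq (J : V → V → ℝ) (A : Perm V → ℝ) (g : Perm V) : ℝ := (A g + tr J A g) / 2

open scoped Matrix.Norms.Operator in
theorem E_shift (M : Matrix (Perm V) (Perm V) ℝ) (R a : ℝ) :
    E (M + R • (1 : Matrix (Perm V) (Perm V) ℝ)) a = Real.exp (a * R) • E M a := by
  unfold E
  have h1 : a • (M + R • (1 : Matrix (Perm V) (Perm V) ℝ)) =
      (a • M) + algebraMap ℝ (Matrix (Perm V) (Perm V) ℝ) (a * R) := by
    rw [smul_add, Algebra.algebraMap_eq_smul_one, smul_smul]
  have h2 : NormedSpace.exp (algebraMap ℝ (Matrix (Perm V) (Perm V) ℝ) (a * R)) =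
      algebraMap ℝ (Matrix (Perm V) (Perm V) ℝ) (Real.exp (a * R)) := by
    rw [Real.exp_eq_exp_ℝ]
    exact (NormedSpace.algebraMap_exp_comm (𝕂 := ℝ) (𝔸 := Matrix (Perm V) (Perm V) ℝ)
      (a * R)).symm
  rw [h1, Matrix.exp_add_of_commute _ _ (Algebra.commutes (a * R) (a • M)).symm,
    h2, Algebra.algebraMap_eq_smul_one, mul_smul_comm, mul_one]

theorem pow_shift (J : V → V → ℝ) (hR : totalRate J ≠ 0) (n : ℕ) :
    ∀ (G : Perm V → ℝ) (g : Perm V),
    ∑ h, ((TT J + totalRate J • (1 : Matrix (Perm V) (Perm V) ℝ)) ^ n) h 1 * G (h * g) =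
      (2 * totalRate J) ^ n * ((qq J)^[n] G) g := by
  induction n with
  | zero =>
    intro G g
    simp only [pow_zero, one_mul, Function.iterate_zero, id_eq]
    rw [Finset.sum_eq_single 1]
    · rw [Matrix.one_apply_eq, one_mul, one_mul]
    · intro h _ hh
      rw [Matrix.one_apply_ne hh, zero_mul]
    · intro h
      exact absurd (Finset.mem_univ _) h
  | succ n ih =>
    intro G g
    obtain ⟨P, hP⟩ : ∃ P, P = (TT J + totalRate J • (1 : Matrix (Perm V) (Perm V) ℝ)) ^ n :=
      ⟨_, rfl⟩
    have e1 : ∀ h : Perm V,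
        ((TT J + totalRate J • (1 : Matrix (Perm V) (Perm V) ℝ)) ^ (n + 1)) h 1 =
        ∑ x, ∑ y, J x y / 2 * P (swap x y * h) 1 + totalRate J * P h 1 := by
      intro h
      rw [pow_succ', ← hP, add_mul, Matrix.add_apply, TT_mul, smul_mul_assoc, one_mul,
        Matrix.smul_apply, smul_eq_mul]
    have e2 : ∀ x y : V, ∑ h, P (swap x y * h) 1 * G (h * g) =
        ∑ h, P h 1 * G (swap x y * h * g) := by
      intro x y
      rw [← Equiv.sum_comp (Equiv.mulLeft (swap x y)) (fun h => P h 1 * G (swap x y * h * g))]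
      refine Finset.sum_congr rfl fun h _ => ?_
      have e : (Equiv.mulLeft (swap x y)) h = swap x y * h := rfl
      rw [e, ← mul_assoc, swap_mul_self, one_mul]
    have e3 : ∀ h : Perm V, 2 * totalRate J * qq J G (h * g) =
        ∑ x, ∑ y, J x y / 2 * G (swap x y * h * g) + totalRate J * G (h * g) := by
      intro h
      unfold qq tr
      simp only [mul_assoc]
      field_simp
      ring
    calc ∑ h, ((TT J + totalRate J • (1 : Matrix (Perm V) (Perm V) ℝ)) ^ (n + 1)) h 1 * G (h * g)
        = ∑ h, (∑ x, ∑ y, J x y / 2 * P (swap x y * h) 1 + totalRate J * P h 1) * G (h * g) :=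
          Finset.sum_congr rfl fun h _ => by rw [e1]
      _ = ∑ x, ∑ y, J x y / 2 * ∑ h, P (swap x y * h) 1 * G (h * g) +
          totalRate J * ∑ h, P h 1 * G (h * g) := by
          simp only [add_mul, Finset.sum_add_distrib, Finset.mul_sum, Finset.sum_mul]
          congr 1
          · rw [Finset.sum_comm]
            refine Finset.sum_congr rfl fun x _ => ?_
            rw [Finset.sum_comm]
            refine Finset.sum_congr rfl fun y _ => Finset.sum_congr rfl fun h _ => ?_
            ring
          · refine Finset.sum_congr rfl fun h _ => ?_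
            ring
      _ = ∑ x, ∑ y, J x y / 2 * ∑ h, P h 1 * G (swap x y * h * g) +
          totalRate J * ∑ h, P h 1 * G (h * g) := by
          simp only [e2]
      _ = ∑ h, P h 1 * (2 * totalRate J * qq J G (h * g)) := by
          simp only [e3, mul_add, Finset.sum_add_distrib, Finset.mul_sum]
          congr 1
          · symm
            rw [Finset.sum_comm]
            refine Finset.sum_congr rfl fun x _ => ?_
            rw [Finset.sum_comm]
            refine Finset.sum_congr rfl fun y _ => Finset.sum_congr rfl fun h _ => ?_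
            ring
          · refine Finset.sum_congr rfl fun h _ => ?_
            ring
      _ = 2 * totalRate J * ∑ h, P h 1 * qq J G (h * g) := by
          rw [Finset.mul_sum]
          exact Finset.sum_congr rfl fun h _ => by ring
      _ = (2 * totalRate J) ^ (n + 1) * ((qq J)^[n + 1] G) g := by
          rw [hP, ih (qq J G) g, Function.iterate_succ, Function.comp_apply]
          ring

/-- the stirring semigroup as a Poisson mixture of lazy steps -/
theorem mix (J : V → V → ℝ) (hR : totalRate J ≠ 0) (a : ℝ) (G : Perm V → ℝ) (g : Perm V) :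
    HasSum (fun n : ℕ => po (2 * (a * totalRate J)) n * ((qq J)^[n] G) g)
      (∑ h, stirLaw J a h * G (h * g)) := by
  obtain ⟨M, hM⟩ : ∃ M, M = TT J + totalRate J • (1 : Matrix (Perm V) (Perm V) ℝ) := ⟨_, rfl⟩
  have h1 : ∀ h : Perm V, stirLaw J a h = Real.exp (-(2 * (a * totalRate J))) * E M a h 1 := by
    intro h
    rw [law_eq, hM, E_shift, Matrix.smul_apply, smul_eq_mul, ← mul_assoc, ← Real.exp_add]
    congr 2
    ring
  have h2 : HasSum (fun n : ℕ => ∑ h, a ^ n / (n.factorial : ℝ) * (M ^ n) h 1 *
      (Real.exp (-(2 * (a * totalRate J))) * G (h * g)))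
      (∑ h, E M a h 1 * (Real.exp (-(2 * (a * totalRate J))) * G (h * g))) :=
    hasSum_sum fun h _ => (E_hasSum M a h 1).mul_right _
  have e1 : ∑ h, stirLaw J a h * G (h * g) =
      ∑ h, E M a h 1 * (Real.exp (-(2 * (a * totalRate J))) * G (h * g)) := by
    refine Finset.sum_congr rfl fun h _ => ?_
    rw [h1]
    ring
  rw [e1]
  have key : ∀ n : ℕ, ∑ h, a ^ n / (n.factorial : ℝ) * (M ^ n) h 1 *
      (Real.exp (-(2 * (a * totalRate J))) * G (h * g)) =
      po (2 * (a * totalRate J)) n * ((qq J)^[n] G) g := by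
    intro n
    have h3 := pow_shift J hR n G g
    rw [← hM] at h3
    have e2 : ∑ h, a ^ n / (n.factorial : ℝ) * (M ^ n) h 1 *
        (Real.exp (-(2 * (a * totalRate J))) * G (h * g)) =
        a ^ n / (n.factorial : ℝ) * Real.exp (-(2 * (a * totalRate J))) *
        ∑ h, (M ^ n) h 1 * G (h * g) := by
      rw [Finset.mul_sum]
      exact Finset.sum_congr rfl fun h _ => by ring
    rw [e2, h3]
    unfold po
    have e3 : (2 * (a * totalRate J)) ^ n = a ^ n * (2 * totalRate J) ^ n := by
      rw [← mul_pow]
      ring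
    rw [e3]
    ring
  simpa only [key] using h2

end Run7.h565.SM
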