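import Pool.Agent.Run7.h565.SM.Samp

/-!
# Project SM, part 5: ordered cycle lengths and cycle lengths of points as observables
-/

set_option autoImplicit false

namespace Run7.h565.SM

open Finset Equiv
open Pool.Agent.TH268.PD (ret ret_spec top frac Cyc cyOf)
open Pool.Agent.Y998.LP (bfrac)

/-- `σ` acting on the last `k` of `N + k` indices -/
noncomputable def lst (N : ℕ) {k : ℕ} (σ : Perm (Fin k)) : Perm (Fin (N + k)) :=
  emb ⟨Fin.natAdd N, Fin.natAdd_injective k N⟩ σ

theorem lst_right (N : ℕ) {k : ℕ} (σ : Perm (Fin k)) (i : Fin k) :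
    lst N σ (Fin.natAdd N i) = Fin.natAdd N (σ i) :=
  emb_apply ⟨Fin.natAdd N, Fin.natAdd_injective k N⟩ σ i

theorem lst_left (N : ℕ) {k : ℕ} (σ : Perm (Fin k)) (a : Fin N) :
    lst N σ (Fin.castAdd k a) = Fin.castAdd k a := by
  refine emb_of _ σ ?_
  rintro ⟨i, hi⟩
  have := congrArg Fin.val hi
  simp only [Function.Embedding.coeFn_mk, Fin.val_castAdd, Fin.val_natAdd] at this
  have := a.isLt
  omega

variable {V : Type} [Fintype V] [DecidableEq V]

omit [Fintype V] in
theorem emb_append {N k : ℕ} (z : Fin N → V) (b : Fin k ↪ V)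
    (h : Function.Injective (Fin.append z b)) (σ : Perm (Fin k)) :
    emb b σ = emb ⟨Fin.append z b, h⟩ (lst N σ) := by
  refine (emb_ext b _ σ (fun a => ?_) fun v hv => ?_).symm
  · have h1 := emb_apply ⟨Fin.append z b, h⟩ (lst N σ) (Fin.natAdd N a)
    rw [lst_right] at h1
    simpa using h1
  · by_cases hv2 : v ∈ Set.range (Fin.append z b)
    · obtain ⟨c, rfl⟩ := hv2
      induction c using Fin.addCases with
      | left c =>
        have h1 := emb_apply ⟨Fin.append z b, h⟩ (lst N σ) (Fin.castAdd k c)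
        rw [lst_left] at h1
        exact h1
      | right c =>
        exact absurd ⟨c, (Fin.append_right z b c).symm⟩ hv
    · exact emb_of _ _ hv2

theorem ret_append {N k : ℕ} (z : Fin N → V) (b : Fin k ↪ V)
    (h : Function.Injective (Fin.append z b)) (σ : Perm (Fin k)) (g : Perm V) :
    lst N σ * ret (N + k) (Fin.append z b) g = ret (N + k) (Fin.append z b) (emb b σ * g) := by
  rw [emb_append z b h σ]
  exact (ret_emb ⟨Fin.append z b, h⟩ (lst N σ) g).symm

omit [Fintype V] [DecidableEq V] in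
theorem cyOf_eq {h : Perm V} {x y : V} : cyOf h x = cyOf h y ↔ h.SameCycle x y := by
  unfold cyOf
  exact Quotient.eq

theorem bf_mem (B : Finset V) (g : Perm V) (i : ℕ) :
    0 ≤ top (bfrac B g) i ∧ top (bfrac B g) i ≤ 1 := by
  have hfin : Finite (Cyc g) := Quotient.finite _
  exact ⟨Pool.Agent.TH268.PD.top_nonneg _ (Pool.Agent.Y998.LQ.bfrac_nonneg B g) i,
    Pool.Agent.TH268.PD.top_le_one _ (Pool.Agent.Y998.LQ.bfrac_nonneg B g)
      (Pool.Agent.Y998.LQ.bfrac_le_one B g) i⟩

theorem fr_mem (g : Perm V) (i : ℕ) : 0 ≤ top (frac g) i ∧ top (frac g) i ≤ 1 := by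
  rw [Run7.h565.LC.frac_bfrac]
  exact bf_mem _ g i

open Classical in
/-- samples of a set -/
theorem samp_set (N : ℕ) (hN : 0 < N) (B : Finset V) (hB : 0 < B.card) (h : Perm V) (i : ℕ) :
    ∑ z ∈ Fintype.piFinset (fun _ : Fin N => B), (if Function.Injective z then
      |top (frac (ret N z h)) i - top (bfrac B h) i| else 0) ≤
      (B.card : ℝ) ^ N * (1 / Real.sqrt N + (N : ℝ) ^ 2 / B.card) := by
  obtain ⟨a, ha⟩ : ∃ a : ℝ, a = top (bfrac B h) i := ⟨_, rfl⟩
  obtain ⟨f, hf⟩ : ∃ f : (Fin (i + 1) → ℝ) → ℝ, f = fun u => min |u (Fin.last i) - a| 1 :=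
    ⟨_, rfl⟩
  have h1 := Pool.Agent.Y259.LP.t_SAMP V B N hN hB h (fun z => ret N z h)
    (fun z hz => (ret_spec N z hz).2.2.2 h) (i + 1) f 1 1 zero_le_one (by
      intro u
      rw [hf, abs_of_nonneg (le_min (abs_nonneg _) zero_le_one)]
      exact min_le_right _ _) (by
      intro u v e he huv
      rw [hf, one_mul]
      refine (abs_min_sub_min_le_max _ _ _ _).trans ?_
      rw [sub_self, abs_zero]
      refine max_le ?_ he
      refine (abs_abs_sub_abs_le _ _).trans ?_
      rw [sub_sub_sub_cancel_right]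
      exact huv _)
  have e1 : f (fun j => top (bfrac B h) j) = 0 := by
    rw [hf]
    beta_reduce
    rw [Fin.val_last, ha, sub_self, abs_zero]
    exact min_eq_left zero_le_one
  have e2 : ∀ z : Fin N → V, f (fun j => top (frac (ret N z h)) j) =
      |top (frac (ret N z h)) i - top (bfrac B h) i| := by
    intro z
    rw [hf]
    beta_reduce
    rw [Fin.val_last, ha]
    refine min_eq_left ?_
    have h2 := fr_mem (ret N z h) i
    have h3 := bf_mem B h i
    rw [abs_le]
    constructor <;> linarith [h2.1, h2.2, h3.1, h3.2]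
  rw [e1, mul_zero, sub_zero] at h1
  have hB0 : (0 : ℝ) < B.card := by exact_mod_cast hB
  have h2 : (B.card : ℝ) ^ N * (1 / Real.sqrt N) + 1 * ((N : ℝ) ^ 2 * (B.card : ℝ) ^ (N - 1)) =
      (B.card : ℝ) ^ N * (1 / Real.sqrt N + (N : ℝ) ^ 2 / B.card) := by
    have h7 : (B.card : ℝ) ^ N = (B.card : ℝ) ^ (N - 1) * B.card := by
      rw [← pow_succ]
      congr 1
      omega
    rw [h7]
    field_simp
  rw [← h2]
  refine le_trans (le_of_eq ?_) ((le_abs_self _).trans h1)
  refine Finset.sum_congr rfl fun z _ => ?_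
  simp only [e2]

open Classical in
/-- ordered cycle lengths -/
theorem obs_top (N k : ℕ) (hN : 0 < N) (hV : 0 < Fintype.card V) (b : Fin k ↪ V)
    (σ : Perm (Fin k)) (i : ℕ) (g : Perm V) :
    ∑ z : Fin N → V, (if Function.Injective (Fin.append z b) then
      |top (frac (ret N (Fin.castAdd k) (lst N σ * ret (N + k) (Fin.append z b) g))) i -
        top (frac (emb b σ * g)) i| else 0) ≤
      (Fintype.card V : ℝ) ^ N * (1 / Real.sqrt N + (N : ℝ) ^ 2 / Fintype.card V) := by
  have h1 := samp_set N hN (Finset.univ : Finset V) (by rw [Finset.card_univ]; exact hV)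
    (emb b σ * g) i
  rw [Finset.card_univ] at h1
  refine le_trans ?_ h1
  have e1 : Fintype.piFinset (fun _ : Fin N => (Finset.univ : Finset V)) = Finset.univ := by
    ext z
    simp
  rw [e1]
  refine Finset.sum_le_sum fun z _ => ?_
  by_cases hz : Function.Injective (Fin.append z b)
  · have hz1 : Function.Injective z := (Fin.append_injective_iff.1 hz).1
    rw [if_pos hz, if_pos hz1, ← Run7.h565.LC.frac_bfrac]
    have e2 : top (frac (ret N (Fin.castAdd k) (lst N σ * ret (N + k) (Fin.append z b) g))) i =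
        top (frac (ret N z (emb b σ * g))) i := by
      refine Pool.Agent.Run7.h617.LC.same_top hN _ _ (fun a c => ?_) i
      rw [(ret_spec N (Fin.castAdd k) (Fin.castAdd_injective N k)).2.2.2,
        (ret_spec N z hz1).2.2.2, ret_append z b hz, (ret_spec (N + k) _ hz).2.2.2,
        Fin.append_left, Fin.append_left]
    rw [e2]
  · rw [if_neg hz]
    split_ifs
    · exact abs_nonneg _
    · exact le_rfl

/-- fraction of the points in the cycle of `x` -/
noncomputable def cfr (h : Perm V) (x : V) : ℝ :=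
  (Nat.card {v : V // h.SameCycle x v} : ℝ) / Fintype.card V

open Classical in
/-- cycle lengths of points -/
theorem obs_cfr (N k : ℕ) (hN : 0 < N) (hV : 0 < Fintype.card V) (b : Fin k ↪ V)
    (σ : Perm (Fin k)) (i : Fin k) (g : Perm V) :
    ∑ z : Fin N → V, (if Function.Injective (Fin.append z b) then
      |(Nat.card {a : Fin N // (lst N σ * ret (N + k) (Fin.append z b) g).SameCycle
          (Fin.natAdd N i) (Fin.castAdd k a)} : ℝ) / N - cfr (emb b σ * g) (b i)| else 0) ≤
      (Fintype.card V : ℝ) ^ N * (1 / Real.sqrt N) := by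
  have hne : Nonempty V := Fintype.card_pos_iff.1 hV
  have hNR : (0 : ℝ) < N := by exact_mod_cast hN
  obtain ⟨h, hh⟩ : ∃ h, h = emb b σ * g := ⟨_, rfl⟩
  have hfinC : Finite (Cyc h) := Quotient.finite _
  have : Fintype (Cyc h) := Fintype.ofFinite _
  have h1 := Pool.Agent.TH268.PD.var_bound (fun v => cyOf h v) N hN
  obtain ⟨D, hD⟩ : ∃ D : (Fin N → V) → ℝ, D = fun z =>
      |(Nat.card {a : Fin N // cyOf h (z a) = cyOf h (b i)} : ℝ) / N - cfr h (b i)| := ⟨_, rfl⟩
  have hcf : cfr h (b i) = (Nat.card {v : V // cyOf h v = cyOf h (b i)} : ℝ) /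
      Fintype.card V := by
    unfold cfr
    congr 2
    refine Nat.card_congr (Equiv.subtypeEquivRight fun v => ?_)
    rw [cyOf_eq]
    exact ⟨fun h => h.symm, fun h => h.symm⟩
  have h2 : ∑ z, D z ^ 2 ≤ (Fintype.card V : ℝ) ^ N / N := by
    refine le_trans (Finset.sum_le_sum fun z _ => ?_) h1
    rw [hD]
    beta_reduce
    rw [sq_abs, hcf, ← neg_sub, neg_sq]
    exact Finset.single_le_sum (f := fun γ : Cyc h =>
      ((Nat.card {v : V // cyOf h v = γ} : ℝ) / Fintype.card V -
        (Nat.card {l : Fin N // cyOf h (z l) = γ} : ℝ) / N) ^ 2) (fun _ _ => sq_nonneg _)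
      (Finset.mem_univ (cyOf h (b i)))
  have hD0 : ∀ z, 0 ≤ D z := fun z => by rw [hD]; exact abs_nonneg _
  have h3 : ∑ z, D z ≤ (Fintype.card V : ℝ) ^ N * (1 / Real.sqrt N) := by
    have h4 := sq_sum_le_card_mul_sum_sq (s := (Finset.univ : Finset (Fin N → V))) (f := D)
    have hcardfun : (Fintype.card (Fin N → V) : ℝ) = (Fintype.card V : ℝ) ^ N := by
      rw [Fintype.card_fun, Fintype.card_fin]
      push_cast
      rfl
    rw [Finset.card_univ, hcardfun] at h4
    have h5 : (∑ z, D z) ^ 2 ≤ ((Fintype.card V : ℝ) ^ N * (1 / Real.sqrt N)) ^ 2 := by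
      refine h4.trans ((mul_le_mul_of_nonneg_left h2 (by positivity)).trans (le_of_eq ?_))
      rw [mul_pow, div_pow, Real.sq_sqrt hNR.le]
      ring
    exact (pow_le_pow_iff_left₀ (Finset.sum_nonneg fun z _ => hD0 z) (by positivity)
      two_ne_zero).1 h5
  refine le_trans (Finset.sum_le_sum fun z _ => ?_) h3
  by_cases hz : Function.Injective (Fin.append z b)
  · rw [if_pos hz, hD]
    beta_reduce
    rw [← hh]
    refine le_of_eq ?_
    congr 3
    congr 1
    refine Nat.card_congr (Equiv.subtypeEquivRight fun a => ?_)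
    rw [ret_append z b hz, (ret_spec (N + k) _ hz).2.2.2, Fin.append_left, Fin.append_right,
      cyOf_eq, ← hh]
    exact ⟨fun h => h.symm, fun h => h.symm⟩
  · rw [if_neg hz]
    exact hD0 z

end Run7.h565.SM
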