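import Pool.Agent.Run7.h565.SM.Energy
import Pool.Agent.Run7.h565.SM.Gt

/-!
# Project SM: near invariance under permutations of short paths
-/

set_option autoImplicit false

namespace Run7.h565.SM

open Finset Equiv Filter Topology
open Pool.Agent.Y998.ST (stirExp stirLaw totalRate nnRate nn_nonneg nn_row)

/-- the points `z, z + e, z + 2 e, ...` -/
def pth {d L : ℕ} (i₀ : Fin d) (z : Fin d → ZMod L) (a : ℕ) : Fin d → ZMod L :=
  Function.update z i₀ (z i₀ + a)

variable {d L : ℕ}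

theorem pth_inj (i₀ : Fin d) (z : Fin d → ZMod L) {a c : ℕ} (ha : a < L) (hc : c < L)
    (h : pth i₀ z a = pth i₀ z c) : a = c := by
  have h1 := congrFun h i₀
  unfold pth at h1
  rw [Function.update_self, Function.update_self] at h1
  have h2 := add_left_cancel h1
  have h3 := congrArg ZMod.val h2
  rwa [ZMod.val_natCast_of_lt ha, ZMod.val_natCast_of_lt hc] at h3

theorem pth_pth (i₀ : Fin d) (z : Fin d → ZMod L) (a c : ℕ) :
    pth i₀ (pth i₀ z a) c = pth i₀ z (a + c) := by
  unfold pth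
  rw [Function.update_idem, Function.update_self]
  push_cast
  rw [add_assoc]

/-- the path as an embedding -/
def pe (i₀ : Fin d) (k : ℕ) (hk : k ≤ L) (z : Fin d → ZMod L) : Fin k ↪ (Fin d → ZMod L) :=
  ⟨fun a => pth i₀ z a, fun a c h =>
    Fin.ext (pth_inj i₀ z (a.isLt.trans_le hk) (c.isLt.trans_le hk) h)⟩

theorem pth_shift_bij [NeZero L] (i₀ : Fin d) (a : ℕ) :
    Function.Bijective (fun z : Fin d → ZMod L => pth i₀ z a) := by
  rw [← Finite.injective_iff_bijective]
  intro z z' h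
  have h1 : ∀ i, pth i₀ z a i = pth i₀ z' a i := fun i => congrFun h i
  funext i
  by_cases hi : i = i₀
  · subst hi
    have h2 := h1 i
    unfold pth at h2
    rw [Function.update_self, Function.update_self] at h2
    exact add_right_cancel h2
  · have h2 := h1 i
    unfold pth at h2
    rwa [Function.update_of_ne hi, Function.update_of_ne hi] at h2

theorem nn_pth (i₀ : Fin d) (z : Fin d → ZMod L) : nnRate d L z (pth i₀ z 1) = 1 := by
  unfold nnRate
  rw [if_pos]
  refine ⟨i₀, Or.inl ?_⟩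
  unfold pth
  rw [Nat.cast_one]

theorem om_le (n : ℕ) (σ : Perm (Fin (n + 1))) : ∃ m : ℕ, ∀ (d L : ℕ) [NeZero L] (i₀ : Fin d)
    (hn : n + 1 ≤ L) (μ H : Perm (Fin d → ZMod L) → ℝ), (∀ g, 0 ≤ μ g) → (∀ g, |H g| ≤ 1) →
    0 < totalRate (nnRate d L) →
    ∀ ν : ℝ, (∀ (z : Fin d → ZMod L) (τ : Perm (Fin (n + 1))),
      ∑ g, |μ ((emb (pe i₀ (n + 1) hn z) τ)⁻¹ * g) - μ g| ≤ ν) → 0 ≤ ν →
    ∑ z, ∑ g, μ g * |H (emb (pe i₀ (n + 1) hn z) σ * g) - H g| ≤
      m * (2 * totalRate (nnRate d L) * e1 (nnRate d L) μ H +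
        2 * Fintype.card (Fin d → ZMod L) * ν) := by
  have hσ : σ ∈ Submonoid.closure (Set.range fun i : Fin n => swap i.castSucc i.succ) := by
    rw [Equiv.Perm.mclosure_swap_castSucc_succ]
    exact Submonoid.mem_top σ
  induction hσ using Submonoid.closure_induction with
  | mem σ h =>
    obtain ⟨a, rfl⟩ := h
    refine ⟨1, fun d L _ i₀ hn μ H hμ hH hR ν hν hν0 => ?_⟩
    beta_reduce
    have h1 : ∀ z : Fin d → ZMod L, emb (pe i₀ (n + 1) hn z) (swap a.castSucc a.succ) =
        swap (pth i₀ z a) (pth i₀ (pth i₀ z a) 1) := by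
      intro z
      rw [emb_swap, pth_pth]
      rfl
    simp only [h1]
    have h2 := (pth_shift_bij (L := L) i₀ (a : ℕ)).sum_comp
      (fun z => ∑ g, μ g * |H (swap z (pth i₀ z 1) * g) - H g|)
    rw [h2]
    have h3 : 2 * totalRate (nnRate d L) * e1 (nnRate d L) μ H =
        ∑ z, ∑ y, nnRate d L z y * ∑ g, μ g * |H (swap z y * g) - H g| := by
      unfold e1
      simp only [mul_div_assoc', ← Finset.sum_div]
      have e3 : ∀ X : ℝ, (2 * totalRate (nnRate d L) * X) / totalRate (nnRate d L) = 2 * X := by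
        intro X
        field_simp
      rw [e3]
      simp only [Finset.mul_sum]
      rw [Finset.sum_comm]
      refine Finset.sum_congr rfl fun z _ => ?_
      rw [Finset.sum_comm]
      refine Finset.sum_congr rfl fun y _ => Finset.sum_congr rfl fun g _ => ?_
      ring
    have h4 : ∑ z, ∑ g, μ g * |H (swap z (pth i₀ z 1) * g) - H g| ≤
        ∑ z, ∑ y, nnRate d L z y * ∑ g, μ g * |H (swap z y * g) - H g| := by
      refine Finset.sum_le_sum fun z _ => ?_
      have h5 : ∀ y : Fin d → ZMod L, 0 ≤ nnRate d L z y *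
          ∑ g, μ g * |H (swap z y * g) - H g| := fun y => mul_nonneg (nn_nonneg z y)
        (Finset.sum_nonneg fun g _ => mul_nonneg (hμ g) (abs_nonneg _))
      refine le_trans (le_of_eq ?_) (Finset.single_le_sum (fun y _ => h5 y)
        (Finset.mem_univ (pth i₀ z 1)))
      rw [nn_pth, one_mul]
    rw [h3, Nat.cast_one, one_mul]
    have : 0 ≤ 2 * (Fintype.card (Fin d → ZMod L) : ℝ) * ν := by positivity
    linarith
  | one =>
    refine ⟨0, fun d L _ i₀ hn μ H hμ hH hR ν hν hν0 => ?_⟩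
    simp [emb_one]
  | mul σ τ _ _ ih1 ih2 =>
    obtain ⟨m1, h1⟩ := ih1
    obtain ⟨m2, h2⟩ := ih2
    refine ⟨m1 + m2 + 1, fun d L _ i₀ hn μ H hμ hH hR ν hν hν0 => ?_⟩
    have h3 := h1 d L i₀ hn μ H hμ hH hR ν hν hν0
    have h4 := h2 d L i₀ hn μ H hμ hH hR ν hν hν0
    have he1 : 0 ≤ e1 (nnRate d L) μ H := by
      unfold e1
      exact Finset.sum_nonneg fun g _ => mul_nonneg (hμ g) (div_nonneg
        (Finset.sum_nonneg fun x _ => Finset.sum_nonneg fun y _ =>
          mul_nonneg (div_nonneg (nn_nonneg x y) two_pos.le) (abs_nonneg _)) hR.le)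
    have h5 : ∀ z : Fin d → ZMod L,
        ∑ g, μ g * |H (emb (pe i₀ (n + 1) hn z) (σ * τ) * g) - H g| ≤
        (∑ g, μ g * |H (emb (pe i₀ (n + 1) hn z) σ * g) - H g| + 2 * ν) +
          ∑ g, μ g * |H (emb (pe i₀ (n + 1) hn z) τ * g) - H g| := by
      intro z
      have h6 := shift_le μ (emb (pe i₀ (n + 1) hn z) τ) ν (hν z τ)
        (fun g => |H (emb (pe i₀ (n + 1) hn z) σ * g) - H g|) 2 (fun g => by
          have a1 := hH (emb (pe i₀ (n + 1) hn z) σ * g)
          have a2 := hH g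
          rw [abs_abs]
          rw [abs_le] at a1 a2 ⊢
          constructor <;> linarith [a1.1, a1.2, a2.1, a2.2])
      rw [abs_le] at h6
      have h7 : ∑ g, μ g * |H (emb (pe i₀ (n + 1) hn z) (σ * τ) * g) - H g| ≤
          ∑ g, μ g * |H (emb (pe i₀ (n + 1) hn z) σ * (emb (pe i₀ (n + 1) hn z) τ * g)) -
            H (emb (pe i₀ (n + 1) hn z) τ * g)| +
          ∑ g, μ g * |H (emb (pe i₀ (n + 1) hn z) τ * g) - H g| := by
        rw [← Finset.sum_add_distrib]
        refine Finset.sum_le_sum fun g _ => ?_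
        rw [← mul_add]
        refine mul_le_mul_of_nonneg_left ?_ (hμ g)
        rw [emb_mul, mul_assoc]
        exact abs_sub_le _ _ _
      linarith [h6.2]
    have h6 : ∑ z, ∑ g, μ g * |H (emb (pe i₀ (n + 1) hn z) (σ * τ) * g) - H g| ≤
        (∑ z, ∑ g, μ g * |H (emb (pe i₀ (n + 1) hn z) σ * g) - H g| +
          Fintype.card (Fin d → ZMod L) * (2 * ν)) +
          ∑ z, ∑ g, μ g * |H (emb (pe i₀ (n + 1) hn z) τ * g) - H g| := by
      refine (Finset.sum_le_sum fun z _ => h5 z).trans (le_of_eq ?_)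
      rw [Finset.sum_add_distrib, Finset.sum_add_distrib, Finset.sum_const, Finset.card_univ,
        nsmul_eq_mul]
    refine h6.trans ?_
    push_cast
    have h7 : 0 ≤ 2 * totalRate (nnRate d L) * e1 (nnRate d L) μ H := by positivity
    linarith

end Run7.h565.SM
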