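import Mathlib

/-!
# Project SM: the largest Poisson probability
-/

set_option autoImplicit false

namespace Run7.h565.SM

open Finset Filter Topology

/-- Poisson probabilities -/
noncomputable def po (l : ℝ) (n : ℕ) : ℝ := Real.exp (-l) * l ^ n / (n.factorial : ℝ)

theorem po_nonneg {l : ℝ} (hl : 0 ≤ l) (n : ℕ) : 0 ≤ po l n := by
  unfold po
  positivity

theorem po_sum (l : ℝ) : HasSum (po l) 1 := by
  have h1 : HasSum (fun n : ℕ => l ^ n / (n.factorial : ℝ)) (Real.exp l) := by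
    rw [Real.exp_eq_exp_ℝ]
    exact NormedSpace.expSeries_div_hasSum_exp l
  have h2 := h1.mul_left (Real.exp (-l))
  rw [← Real.exp_add, neg_add_cancel, Real.exp_zero] at h2
  refine h2.congr_fun ?_ |> fun h => h
  intro n
  unfold po
  ring

/-- Stirling -/
theorem po_le {l : ℝ} (hl : 0 < l) (n : ℕ) (hn : 1 ≤ n) :
    po l n ≤ 1 / Real.sqrt (2 * Real.pi * n) := by
  have hn0 : (0 : ℝ) < n := by exact_mod_cast hn
  have hs : 0 < Real.sqrt (2 * Real.pi * n) := Real.sqrt_pos.2 (by positivity)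
  have h1 := Stirling.le_factorial_stirling n
  have hf : (0 : ℝ) < (n.factorial : ℝ) := by exact_mod_cast n.factorial_pos
  have h2 : Real.exp (-l) * l ^ n ≤ (n / Real.exp 1) ^ n := by
    have e1 : (n / Real.exp 1 : ℝ) ^ n = Real.exp (n * Real.log n - n) := by
      rw [div_pow, ← Real.exp_nat_mul, mul_one, Real.exp_sub, mul_comm (n : ℝ) (Real.log n),
        Real.exp_mul, Real.exp_log hn0, Real.rpow_natCast]
    have e2 : Real.exp (-l) * l ^ n = Real.exp (-l + n * Real.log l) := by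
      rw [Real.exp_add, mul_comm (n : ℝ) (Real.log l), Real.exp_mul, Real.exp_log hl,
        Real.rpow_natCast]
    rw [e1, e2]
    apply Real.exp_le_exp.2
    have h3 := Real.log_le_sub_one_of_pos (div_pos hl hn0)
    rw [Real.log_div hl.ne' hn0.ne'] at h3
    have h4 := mul_le_mul_of_nonneg_left h3 hn0.le
    have e3 : (n : ℝ) * (l / n - 1) = l - n := by field_simp
    rw [e3] at h4
    linarith
  unfold po
  rw [div_le_div_iff₀ hf hs, one_mul]
  calc Real.exp (-l) * l ^ n * Real.sqrt (2 * Real.pi * n)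
      ≤ (n / Real.exp 1) ^ n * Real.sqrt (2 * Real.pi * n) :=
        mul_le_mul_of_nonneg_right h2 hs.le
    _ ≤ _ := by rw [mul_comm]; exact h1

/-- the largest Poisson probability tends to `0` -/
theorem po_sup (ε : ℝ) (hε : 0 < ε) : ∃ l : ℝ, 0 < l ∧ ∀ n, po l n ≤ ε := by
  obtain ⟨N, hN⟩ := exists_nat_gt (1 / ε ^ 2)
  have h1 : ∀ n : ℕ, N ≤ n → ∀ l : ℝ, 0 < l → po l n ≤ ε := by
    intro n hn l hl
    have hN0 : (0 : ℝ) < N := lt_trans (by positivity) hN
    have hN1 : 1 ≤ N := by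
      by_contra h
      have : N = 0 := by omega
      rw [this] at hN0
      simp at hN0
    refine (po_le hl n (hN1.trans hn)).trans ?_
    have hnN : (N : ℝ) ≤ n := by exact_mod_cast hn
    have h2 : 1 / ε ≤ Real.sqrt (2 * Real.pi * n) := by
      apply Real.le_sqrt_of_sq_le
      have h3 : (1 / ε) ^ 2 = 1 / ε ^ 2 := by rw [div_pow, one_pow]
      rw [h3]
      have h4 : (1 : ℝ) ≤ 2 * Real.pi := by linarith [Real.pi_gt_three]
      nlinarith
    have hs : 0 < Real.sqrt (2 * Real.pi * n) := lt_of_lt_of_le (by positivity) h2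
    rw [div_le_iff₀ hs]
    rw [div_le_iff₀ hε] at h2
    linarith
  have h2 : ∀ n : ℕ, Tendsto (fun l => po l n) atTop (𝓝 0) := by
    intro n
    have h3 := (Real.tendsto_pow_mul_exp_neg_atTop_nhds_zero n).div_const (n.factorial : ℝ)
    rw [zero_div] at h3
    refine h3.congr fun l => ?_
    unfold po
    ring
  have h3 : ∀ᶠ l in atTop, ∀ n ∈ Finset.range N, po l n ≤ ε := by
    rw [Filter.eventually_all_finset]
    intro n _
    exact ((h2 n).eventually (gt_mem_nhds hε)).mono fun l hl => hl.le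
  obtain ⟨l, hl1, hl2⟩ := (h3.and (eventually_gt_atTop 0)).exists
  refine ⟨l, hl2, fun n => ?_⟩
  by_cases hn : n < N
  · exact hl1 n (Finset.mem_range.2 hn)
  · exact h1 n (not_lt.1 hn) l hl2

/-- tails -/
theorem po_tail {l : ℝ} (ε : ℝ) (hε : 0 < ε) : ∃ N : ℕ, 1 - ε ≤ ∑ n ∈ Finset.range N, po l n := by
  have h1 := (po_sum l).tendsto_sum_nat
  obtain ⟨N, hN⟩ := (h1.eventually (lt_mem_nhds (by linarith : 1 - ε < 1))).exists
  exact ⟨N, hN.le⟩

end Run7.h565.SM
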