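import Pool.Agent.Run7.h565.SM.Gt

/-!
# Project SM: averages over the permutations of the first `m` of `m + k` indices
-/

set_option autoImplicit false

namespace Run7.h565.SM

open Finset Equiv
open Pool.Agent.TH268.PD (ret ret_spec)

/-- `σ` acting on the first `m` of `m + k` indices -/
noncomputable def fstP {m : ℕ} (k : ℕ) (σ : Perm (Fin m)) : Perm (Fin (m + k)) :=
  emb ⟨Fin.castAdd k, Fin.castAdd_injective m k⟩ σ

theorem fstP_left {m : ℕ} (k : ℕ) (σ : Perm (Fin m)) (a : Fin m) :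
    fstP k σ (Fin.castAdd k a) = Fin.castAdd k (σ a) :=
  emb_apply ⟨Fin.castAdd k, Fin.castAdd_injective m k⟩ σ a

theorem fstP_right {m : ℕ} (k : ℕ) (σ : Perm (Fin m)) (i : Fin k) :
    fstP k σ (Fin.natAdd m i) = Fin.natAdd m i := by
  refine emb_of _ σ ?_
  rintro ⟨a, ha⟩
  have := congrArg Fin.val ha
  simp only [Function.Embedding.coeFn_mk, Fin.val_castAdd, Fin.val_natAdd] at this
  have := a.isLt
  omega

theorem fstP_mul {m : ℕ} (k : ℕ) (σ τ : Perm (Fin m)) : fstP k (σ * τ) = fstP k σ * fstP k τ :=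
  emb_mul _ σ τ

theorem fstP_inv {m : ℕ} (k : ℕ) (σ : Perm (Fin m)) : fstP k σ⁻¹ = (fstP k σ)⁻¹ := emb_inv _ σ

/-- the points before the last `k` indices are among the first `m` -/
def Gd {m k : ℕ} (ρ : Perm (Fin (m + k))) : Prop :=
  ∀ i : Fin k, ρ⁻¹ (Fin.natAdd m i) ∈ Set.range (Fin.castAdd k : Fin m → Fin (m + k))

theorem exists_fst {m k : ℕ} (h : Perm (Fin (m + k))) (hh : ∀ i : Fin k, h (Fin.natAdd m i) =
    Fin.natAdd m i) : ∃ σ : Perm (Fin m), h = fstP k σ := by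
  have h1 : ∀ a : Fin m, ∃ c : Fin m, Fin.castAdd k c = h (Fin.castAdd k a) := by
    intro a
    obtain ⟨y, hy⟩ : ∃ y, y = h (Fin.castAdd k a) := ⟨_, rfl⟩
    rw [← hy]
    induction y using Fin.addCases with
    | left c => exact ⟨c, rfl⟩
    | right i =>
      rw [← hh i] at hy
      have := h.injective hy
      have h2 := congrArg Fin.val this
      simp only [Fin.val_castAdd, Fin.val_natAdd] at h2
      have := a.isLt
      omega
  choose c hc using h1
  have hci : Function.Injective c := by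
    intro a a' haa
    have h2 : h (Fin.castAdd k a) = h (Fin.castAdd k a') := by rw [← hc, ← hc, haa]
    exact Fin.castAdd_injective m k (h.injective h2)
  obtain ⟨σ, hσ⟩ : ∃ σ : Perm (Fin m), ∀ a, σ a = c a :=
    ⟨Equiv.ofBijective c (Finite.injective_iff_bijective.1 hci), fun _ => rfl⟩
  refine ⟨σ, emb_ext _ h σ (fun a => ?_) fun v hv => ?_⟩
  · change h (Fin.castAdd k a) = Fin.castAdd k (σ a)
    rw [hσ, hc]
  · induction v using Fin.addCases with
    | left a => exact absurd ⟨a, rfl⟩ hv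
    | right i => exact hh i

theorem exists_ext {m k : ℕ} (a a' : Fin k → Fin m) (ha : Function.Injective a)
    (ha' : Function.Injective a') : ∃ θ : Perm (Fin m), ∀ i, θ (a' i) = a i := by
  classical
  obtain ⟨e, he⟩ : ∃ e : {x : Fin m // x ∈ Set.range a'} ≃ {x : Fin m // x ∈ Set.range a},
    e = (Equiv.ofInjective a' ha').symm.trans (Equiv.ofInjective a ha) := ⟨_, rfl⟩
  refine ⟨e.extendSubtype, fun i => ?_⟩
  rw [Equiv.extendSubtype_apply_of_mem e (a' i) ⟨i, rfl⟩, he]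
  have h1 : (Equiv.ofInjective a' ha').symm ⟨a' i, ⟨i, rfl⟩⟩ = i :=
    Equiv.ofInjective_symm_apply ha' i
  rw [Equiv.trans_apply, h1]
  rfl

/-- sum over the permutations of the first indices -/
noncomputable def sA {m k : ℕ} (T : Perm (Fin (m + k)) → ℝ) (ρ : Perm (Fin (m + k))) : ℝ :=
  ∑ σ : Perm (Fin m), T (fstP k σ * ρ)

theorem sA_const {m k : ℕ} (T : Perm (Fin (m + k)) → ℝ)
    (hT : ∀ (θ : Perm (Fin m)) ρ, T (fstP k θ * ρ * (fstP k θ)⁻¹) = T ρ)
    (ρ ρ' : Perm (Fin (m + k))) (h : Gd ρ) (h' : Gd ρ') : sA T ρ' = sA T ρ := by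
  choose a ha using h
  choose a' ha' using h'
  have hai : Function.Injective a := by
    intro i i' hii
    have h1 : ρ⁻¹ (Fin.natAdd m i) = ρ⁻¹ (Fin.natAdd m i') := by rw [← ha, ← ha, hii]
    exact Fin.natAdd_injective k m (ρ⁻¹.injective h1)
  have hai' : Function.Injective a' := by
    intro i i' hii
    have h1 : ρ'⁻¹ (Fin.natAdd m i) = ρ'⁻¹ (Fin.natAdd m i') := by rw [← ha', ← ha', hii]
    exact Fin.natAdd_injective k m (ρ'⁻¹.injective h1)
  obtain ⟨θ, hθ⟩ := exists_ext a a' hai hai'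
  obtain ⟨q, hq⟩ : ∃ q, q = (fstP k θ)⁻¹ * ρ * fstP k θ := ⟨_, rfl⟩
  have hq1 : ∀ i, q⁻¹ (Fin.natAdd m i) = Fin.castAdd k (a' i) := by
    intro i
    have e1 : q⁻¹ = fstP k θ⁻¹ * ρ⁻¹ * fstP k θ := by rw [hq, fstP_inv]; group
    rw [e1, Perm.mul_apply, Perm.mul_apply, fstP_right, ← ha, fstP_left, ← hθ,
      ← Perm.mul_apply, inv_mul_cancel, Perm.one_apply]
  obtain ⟨σ₀, hσ₀⟩ := exists_fst (ρ' * q⁻¹) (fun i => by
    rw [Perm.mul_apply, hq1, ha', ← Perm.mul_apply, mul_inv_cancel, Perm.one_apply])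
  have e2 : ρ' = fstP k (σ₀ * θ⁻¹) * ρ * fstP k θ := by
    have e3 : ρ' = (ρ' * q⁻¹) * q := by group
    rw [e3, hσ₀, hq, fstP_mul, fstP_inv]
    group
  unfold sA
  rw [← Equiv.sum_comp ((Equiv.mulRight (σ₀ * θ⁻¹)).trans (Equiv.mulLeft θ))
    (fun σ => T (fstP k σ * ρ))]
  refine Finset.sum_congr rfl fun σ _ => ?_
  have e4 : ((Equiv.mulRight (σ₀ * θ⁻¹)).trans (Equiv.mulLeft θ)) σ = θ * (σ * (σ₀ * θ⁻¹)) := rfl
  rw [e4, e2, ← hT θ]
  congr 1
  simp only [fstP_mul]
  group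

theorem card_eq_apply {n : ℕ} (x y : Fin n) :
    n * (Finset.univ.filter fun ρ : Perm (Fin n) => ρ x = y).card = n.factorial := by
  have h1 : ∀ y' : Fin n, (Finset.univ.filter fun ρ : Perm (Fin n) => ρ x = y').card =
      (Finset.univ.filter fun ρ : Perm (Fin n) => ρ x = y).card := by
    intro y'
    refine Finset.card_nbij' (fun ρ => swap y' y * ρ) (fun ρ => swap y' y * ρ) ?_ ?_ ?_ ?_
    · intro ρ hρ
      rw [Finset.coe_filter, Set.mem_ofPred_eq] at hρ ⊢
      exact ⟨Finset.mem_univ _, by rw [Perm.mul_apply, hρ.2, swap_apply_left]⟩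
    · intro ρ hρ
      rw [Finset.coe_filter, Set.mem_ofPred_eq] at hρ ⊢
      exact ⟨Finset.mem_univ _, by rw [Perm.mul_apply, hρ.2, swap_apply_right]⟩
    · intro ρ _
      beta_reduce
      rw [← mul_assoc, swap_mul_self, one_mul]
    · intro ρ _
      beta_reduce
      rw [← mul_assoc, swap_mul_self, one_mul]
  have h2 : (Finset.univ : Finset (Perm (Fin n))).card =
      ∑ y' : Fin n, (Finset.univ.filter fun ρ : Perm (Fin n) => ρ x = y').card :=
    Finset.card_eq_sum_card_fiberwise fun g _ => Finset.mem_coe.2 (Finset.mem_univ _)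
  rw [Finset.sum_congr rfl fun y' _ => h1 y', Finset.sum_const, Finset.card_univ,
    Finset.card_univ, Fintype.card_perm, Fintype.card_fin, smul_eq_mul] at h2
  exact h2.symm

open Classical in
theorem bad_le (m k : ℕ) : ((m + k : ℕ) : ℝ) *
    ∑ ρ : Perm (Fin (m + k)), (if Gd ρ then (0 : ℝ) else 1) ≤
      (k : ℝ) ^ 2 * (m + k).factorial := by
  have h1 : ∀ ρ : Perm (Fin (m + k)), (if Gd ρ then (0 : ℝ) else 1) ≤
      ∑ i : Fin k, ∑ j : Fin k, (if ρ⁻¹ (Fin.natAdd m i) = Fin.natAdd m j then (1 : ℝ) else 0) := by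
    intro ρ
    split_ifs with h
    · exact Finset.sum_nonneg fun i _ => Finset.sum_nonneg fun j _ => by split_ifs <;> norm_num
    · unfold Gd at h
      push Not at h
      obtain ⟨i, hi⟩ := h
      obtain ⟨y, hy⟩ : ∃ y, y = ρ⁻¹ (Fin.natAdd m i) := ⟨_, rfl⟩
      rw [← hy] at hi
      induction y using Fin.addCases with
      | left a => exact absurd ⟨a, rfl⟩ hi
      | right j =>
        have h2 : (1 : ℝ) ≤ ∑ j : Fin k,
            (if ρ⁻¹ (Fin.natAdd m i) = Fin.natAdd m j then (1 : ℝ) else 0) := by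
          refine le_trans (le_of_eq ?_) (Finset.single_le_sum (f := fun j : Fin k =>
            (if ρ⁻¹ (Fin.natAdd m i) = Fin.natAdd m j then (1 : ℝ) else 0))
            (fun j _ => by split_ifs <;> norm_num) (Finset.mem_univ j))
          rw [if_pos hy.symm]
        refine h2.trans (Finset.single_le_sum (f := fun i : Fin k => ∑ j : Fin k,
            (if ρ⁻¹ (Fin.natAdd m i) = Fin.natAdd m j then (1 : ℝ) else 0))
            (fun i _ => Finset.sum_nonneg fun j _ => by split_ifs <;> norm_num)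
            (Finset.mem_univ i))
  have h2 : ∀ i j : Fin k, ((m + k : ℕ) : ℝ) * ∑ ρ : Perm (Fin (m + k)),
      (if ρ⁻¹ (Fin.natAdd m i) = Fin.natAdd m j then (1 : ℝ) else 0) = (m + k).factorial := by
    intro i j
    rw [← Equiv.sum_comp (Equiv.inv (Perm (Fin (m + k))))]
    have e : ∀ ρ : Perm (Fin (m + k)), ((Equiv.inv (Perm (Fin (m + k)))) ρ)⁻¹ = ρ := fun ρ =>
      inv_inv ρ
    simp only [e]
    rw [← card_eq_apply (Fin.natAdd m i) (Fin.natAdd m j)]
    push_cast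
    rw [Finset.card_filter]
    push_cast
    rfl
  calc ((m + k : ℕ) : ℝ) * ∑ ρ : Perm (Fin (m + k)), (if Gd ρ then (0 : ℝ) else 1)
      ≤ ((m + k : ℕ) : ℝ) * ∑ ρ : Perm (Fin (m + k)), ∑ i : Fin k, ∑ j : Fin k,
        (if ρ⁻¹ (Fin.natAdd m i) = Fin.natAdd m j then (1 : ℝ) else 0) :=
        mul_le_mul_of_nonneg_left (Finset.sum_le_sum fun ρ _ => h1 ρ) (Nat.cast_nonneg _)
    _ = ∑ i : Fin k, ∑ j : Fin k, ((m + k : ℕ) : ℝ) * ∑ ρ : Perm (Fin (m + k)),
        (if ρ⁻¹ (Fin.natAdd m i) = Fin.natAdd m j then (1 : ℝ) else 0) := by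
        rw [Finset.sum_comm, Finset.mul_sum]
        refine Finset.sum_congr rfl fun i _ => ?_
        rw [Finset.sum_comm, Finset.mul_sum]
    _ = ∑ _i : Fin k, ∑ _j : Fin k, ((m + k).factorial : ℝ) := by
        exact Finset.sum_congr rfl fun i _ => Finset.sum_congr rfl fun j _ => h2 i j
    _ = (k : ℝ) ^ 2 * (m + k).factorial := by
        rw [Finset.sum_const, Finset.sum_const, Finset.card_univ, Fintype.card_fin, nsmul_eq_mul,
          nsmul_eq_mul]
        ring

/-- averaging over the permutations of the first indices nearly gives the mean -/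
theorem sA_mean {m k : ℕ} (T : Perm (Fin (m + k)) → ℝ)
    (hT : ∀ (θ : Perm (Fin m)) ρ, T (fstP k θ * ρ * (fstP k θ)⁻¹) = T ρ)
    (hT1 : ∀ ρ, |T ρ| ≤ 1) (hm : 0 < m) :
    mn (m + k) (fun ρ => |sA T ρ / (m.factorial : ℝ) - mn (m + k) T|) ≤ 4 * (k : ℝ) ^ 2 / m := by
  classical
  have hfac : (0 : ℝ) < ((m + k).factorial : ℝ) := by exact_mod_cast (m + k).factorial_pos
  have hfm : (0 : ℝ) < (m.factorial : ℝ) := by exact_mod_cast m.factorial_pos
  have hmk : (0 : ℝ) < ((m + k : ℕ) : ℝ) := by exact_mod_cast (by omega : 0 < m + k)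
  have hmR : (0 : ℝ) < m := by exact_mod_cast hm
  obtain ⟨B, hB⟩ : ∃ B : Perm (Fin (m + k)) → ℝ, B = fun ρ => sA T ρ / (m.factorial : ℝ) :=
    ⟨_, rfl⟩
  obtain ⟨c, hc⟩ : ∃ c : ℝ, c = mn (m + k) T := ⟨_, rfl⟩
  have hB1 : ∀ ρ, |B ρ| ≤ 1 := by
    intro ρ
    rw [hB]
    beta_reduce
    rw [abs_div, abs_of_pos hfm, div_le_iff₀ hfm, one_mul]
    unfold sA
    refine (Finset.abs_sum_le_sum_abs _ _).trans ((Finset.sum_le_sum fun σ _ => hT1 _).trans
      (le_of_eq ?_))
    rw [Finset.sum_const, Finset.card_univ, Fintype.card_perm, Fintype.card_fin, nsmul_eq_mul,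
      mul_one]
  have hc1 : |c| ≤ 1 := by rw [hc]; exact mn_abs _ _ 1 hT1
  have hsum : ∑ ρ, B ρ = (m + k).factorial * c := by
    have h1 : ∑ ρ, sA T ρ = m.factorial * ∑ ρ, T ρ := by
      unfold sA
      rw [Finset.sum_comm]
      have h2 : ∀ σ : Perm (Fin m), ∑ ρ, T (fstP k σ * ρ) = ∑ ρ, T ρ := fun σ =>
        Equiv.sum_comp (Equiv.mulLeft (fstP k σ)) T
      rw [Finset.sum_congr rfl fun σ _ => h2 σ, Finset.sum_const, Finset.card_univ,
        Fintype.card_perm, Fintype.card_fin, nsmul_eq_mul]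
    rw [hB, hc]
    beta_reduce
    rw [← Finset.sum_div, h1]
    unfold mn
    field_simp
  obtain ⟨P, hP⟩ : ∃ P : ℝ, P = ∑ ρ : Perm (Fin (m + k)), (if Gd ρ then (0 : ℝ) else 1) :=
    ⟨_, rfl⟩
  have hP0 : 0 ≤ P := by
    rw [hP]
    exact Finset.sum_nonneg fun ρ _ => by split_ifs <;> norm_num
  have hPb : P ≤ (k : ℝ) ^ 2 * (m + k).factorial / m := by
    have h1 := bad_le m k
    rw [← hP] at h1
    rw [le_div_iff₀ hmR]
    have h2 : (m : ℝ) ≤ ((m + k : ℕ) : ℝ) := by exact_mod_cast (by omega : m ≤ m + k)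
    nlinarith
  -- every term
  have hterm : ∀ ρ, |B ρ - c| ≤ 2 * P / (m + k).factorial + 2 * (if Gd ρ then (0 : ℝ) else 1) := by
    intro ρ
    by_cases hρ : Gd ρ
    · rw [if_pos hρ, mul_zero, add_zero, le_div_iff₀ hfac]
      have h1 : (B ρ - c) * (m + k).factorial = ∑ ρ', (B ρ - B ρ') := by
        rw [Finset.sum_sub_distrib, Finset.sum_const, Finset.card_univ, Fintype.card_perm,
          Fintype.card_fin, nsmul_eq_mul, hsum]
        ring
      rw [← abs_of_pos hfac, ← abs_mul, h1, hP, Finset.mul_sum]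
      refine (Finset.abs_sum_le_sum_abs _ _).trans (Finset.sum_le_sum fun ρ' _ => ?_)
      by_cases hρ' : Gd ρ'
      · rw [if_pos hρ', mul_zero, hB]
        beta_reduce
        rw [sA_const T hT ρ ρ' hρ hρ', sub_self, abs_zero]
      · rw [if_neg hρ', mul_one]
        have a1 := hB1 ρ
        have a2 := hB1 ρ'
        rw [abs_le] at a1 a2 ⊢
        constructor <;> linarith [a1.1, a1.2, a2.1, a2.2]
    · rw [if_neg hρ, mul_one]
      have a1 := hB1 ρ
      have a3 : 0 ≤ 2 * P / ((m + k).factorial : ℝ) := by positivity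
      rw [abs_le] at a1 hc1 ⊢
      constructor <;> linarith [a1.1, a1.2, hc1.1, hc1.2]
  rw [← hc]
  unfold mn
  rw [div_le_iff₀ hfac]
  have h1 : ∑ ρ, |sA T ρ / (m.factorial : ℝ) - c| = ∑ ρ, |B ρ - c| := by rw [hB]
  rw [h1]
  calc ∑ ρ, |B ρ - c| ≤ ∑ ρ : Perm (Fin (m + k)),
        (2 * P / (m + k).factorial + 2 * (if Gd ρ then (0 : ℝ) else 1)) :=
        Finset.sum_le_sum fun ρ _ => hterm ρ
    _ = 4 * P := by
        rw [Finset.sum_add_distrib, Finset.sum_const, Finset.card_univ, Fintype.card_perm,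
          Fintype.card_fin, nsmul_eq_mul, ← Finset.mul_sum, ← hP]
        field_simp
        ring
    _ ≤ 4 * ((k : ℝ) ^ 2 * (m + k).factorial / m) := by linarith
    _ = 4 * (k : ℝ) ^ 2 / m * (m + k).factorial := by ring

section

variable {V : Type} [Fintype V] [DecidableEq V]

omit [Fintype V] in
theorem emb_append_left {m k : ℕ} (u : Fin m ↪ V) (b : Fin k → V)
    (h : Function.Injective (Fin.append u b)) (σ : Perm (Fin m)) :
    emb u σ = emb ⟨Fin.append u b, h⟩ (fstP k σ) := by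
  refine (emb_ext u _ σ (fun a => ?_) fun v hv => ?_).symm
  · have h1 := emb_apply ⟨Fin.append u b, h⟩ (fstP k σ) (Fin.castAdd k a)
    rw [fstP_left] at h1
    simpa using h1
  · by_cases hv2 : v ∈ Set.range (Fin.append u b)
    · obtain ⟨c, rfl⟩ := hv2
      induction c using Fin.addCases with
      | left c =>
        exact absurd ⟨c, (Fin.append_left u b c).symm⟩ hv
      | right c =>
        have h1 := emb_apply ⟨Fin.append u b, h⟩ (fstP k σ) (Fin.natAdd m c)
        rw [fstP_right] at h1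
        exact h1
    · exact emb_of _ _ hv2

theorem ret_append_left {m k : ℕ} (u : Fin m ↪ V) (b : Fin k → V)
    (h : Function.Injective (Fin.append u b)) (σ : Perm (Fin m)) (g : Perm V) :
    ret (m + k) (Fin.append u b) (emb u σ * g) = fstP k σ * ret (m + k) (Fin.append u b) g := by
  rw [emb_append_left u b h σ]
  exact ret_emb ⟨Fin.append u b, h⟩ (fstP k σ) g

/-- conjugation by a permutation which fixes the points -/
theorem ret_conj {k : ℕ} (b : Fin k → V) (hb : Function.Injective b) (h : Perm V)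
    (hh : ∀ i, h (b i) = b i) (g : Perm V) : ret k b (h * g * h⁻¹) = ret k b g := by
  have hinv : ∀ i, h⁻¹ (b i) = b i := fun i => by
    rw [Perm.inv_eq_iff_eq]
    exact (hh i).symm
  refine ret_eq _ b hb _ fun i => ?_
  obtain ⟨n, h1, h2, h3⟩ := ret_nx g b hb i
  refine ⟨n, h1, ?_, fun p hp1 hp2 => ?_⟩
  · rw [conj_pow, Perm.mul_apply, Perm.mul_apply, hinv, h2, hh]
  · rw [conj_pow, Perm.mul_apply, Perm.mul_apply, hinv]
    rintro ⟨j, hj⟩
    refine h3 p hp1 hp2 ⟨j, ?_⟩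
    rw [← hinv j, hj, ← Perm.mul_apply, inv_mul_cancel, Perm.one_apply]

end

end Run7.h565.SM
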