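import Pool.Agent.Run7.h565.SM.PtsA

/-!
# Project SM: observables of `k` points from the permutation induced on `m + k` points
-/

set_option autoImplicit false

namespace Run7.h565.SM

open Finset Equiv
open Pool.Agent.TH268.PD (ret ret_spec top frac Cyc cyOf lip_approx)
open Pool.Agent.Y998.ST (stirExp stirLaw nnRate law_nonneg nn_nonneg)
open Run7.h565.LC (S_KPT)

/-- the last `k` points -/
def lp {V : Type} {m k : ℕ} (c : Fin (m + k) ↪ V) : Fin k ↪ V :=
  ⟨fun i => c (Fin.natAdd m i), fun _ _ h => Fin.natAdd_injective k m (c.injective h)⟩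

theorem append_eq {V : Type} {m k : ℕ} (c : Fin (m + k) ↪ V) :
    Fin.append (fun a => c (Fin.castAdd k a)) (lp c) = c := by
  funext x
  induction x using Fin.addCases with
  | left a => rw [Fin.append_left]
  | right i => rw [Fin.append_right]; rfl

theorem emb_lp {V : Type} [DecidableEq V] {m k : ℕ} (c : Fin (m + k) ↪ V) (σ : Perm (Fin k)) :
    emb (lp c) σ = emb c (lst m σ) := by
  refine (emb_ext (lp c) _ σ (fun a => ?_) fun v hv => ?_).symm
  · have h1 := emb_apply c (lst m σ) (Fin.natAdd m a)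
    rw [lst_right] at h1
    exact h1
  · by_cases hv2 : v ∈ Set.range c
    · obtain ⟨x, rfl⟩ := hv2
      induction x using Fin.addCases with
      | left a =>
        rw [emb_apply, lst_left]
      | right i => exact absurd ⟨i, rfl⟩ hv
    · exact emb_of _ _ hv2

/-- the same observable of more points -/
noncomputable def Ds.lift {k : ℕ} (m : ℕ) : Ds k → Ds (m + k)
  | Ds.top σ i => Ds.top (lst m σ) i
  | Ds.cyc σ j => Ds.cyc (lst m σ) (Fin.natAdd m j)
  | Ds.ind _ => Ds.top 1 0

theorem hat_mem {k : ℕ} (N : ℕ) (ρ : Perm (Fin (N + k))) (D : Ds k) :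
    0 ≤ D.hat N ρ ∧ D.hat N ρ ≤ 1 := by
  cases D with
  | top σ i => exact fr_mem _ i
  | cyc σ j =>
    change 0 ≤ (Nat.card {a : Fin N // (lst N σ * ρ).SameCycle
      (Fin.natAdd N j) (Fin.castAdd k a)} : ℝ) / N ∧ (Nat.card {a : Fin N // (lst N σ * ρ).SameCycle
      (Fin.natAdd N j) (Fin.castAdd k a)} : ℝ) / N ≤ 1
    refine ⟨by positivity, div_le_one_of_le₀ ?_ (Nat.cast_nonneg _)⟩
    have h1 := Nat.card_le_card_of_injective (fun x : {a : Fin N // (lst N σ * ρ).SameCycle
      (Fin.natAdd N j) (Fin.castAdd k a)} => (x : Fin N)) Subtype.val_injective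
    rw [Nat.card_eq_fintype_card (α := Fin N), Fintype.card_fin] at h1
    exact_mod_cast h1
  | ind π =>
    change 0 ≤ (if ret k (Fin.natAdd N) ρ = π then (1 : ℝ) else 0) ∧
      (if ret k (Fin.natAdd N) ρ = π then (1 : ℝ) else 0) ≤ 1
    split_ifs <;> norm_num

/-- the error -/
noncomputable def dD {V : Type} [Fintype V] [DecidableEq V] {m k : ℕ} (D : Ds k)
    (c : Fin (m + k) ↪ V) (g : Perm V) : ℝ := |D.val (lp c) g - D.hat m (ret (m + k) c g)|

theorem dD_mem {V : Type} [Fintype V] [DecidableEq V] {m k : ℕ} (D : Ds k)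
    (c : Fin (m + k) ↪ V) (g : Perm V) : 0 ≤ dD D c g ∧ dD D c g ≤ 1 := by
  unfold dD
  have h1 := D.mem (lp c) g
  have h2 := hat_mem m (ret (m + k) c g) D
  refine ⟨abs_nonneg _, ?_⟩
  rw [abs_le]
  constructor <;> linarith [h1.1, h1.2, h2.1, h2.2]

/-- observables for the error -/
noncomputable def eD {m k : ℕ} (D : Ds k) :
    Fin (Fintype.card (Perm (Fin (m + k))) + 1) → Ds (m + k) :=
  Fin.cons (D.lift m) (fun a => Ds.ind ((Fintype.equivFin (Perm (Fin (m + k)))).symm a))

/-- the error as a function of the observables -/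
noncomputable def eF {m k : ℕ} (D : Ds k)
    (v : Fin (Fintype.card (Perm (Fin (m + k))) + 1) → ℝ) : ℝ :=
  ∑ a : Fin (Fintype.card (Perm (Fin (m + k)))), max 0 (min 1 (v a.succ)) *
    min 1 |v 0 - D.hat m ((Fintype.equivFin (Perm (Fin (m + k)))).symm a)|

theorem eF_cont {m k : ℕ} (D : Ds k) : Continuous (eF (m := m) D) := by
  unfold eF
  fun_prop

theorem eF_abs {m k : ℕ} (D : Ds k) (v) : |eF (m := m) D v| ≤
    Fintype.card (Perm (Fin (m + k))) := by
  unfold eF
  refine (Finset.abs_sum_le_sum_abs _ _).trans ?_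
  calc ∑ a : Fin (Fintype.card (Perm (Fin (m + k)))), abs (max 0 (min 1 (v a.succ)) *
      min 1 |v 0 - D.hat m ((Fintype.equivFin (Perm (Fin (m + k)))).symm a)|)
      ≤ ∑ _a : Fin (Fintype.card (Perm (Fin (m + k)))), (1 : ℝ) := by
        refine Finset.sum_le_sum fun a _ => ?_
        have h1 : 0 ≤ max 0 (min 1 (v a.succ)) := le_max_left _ _
        have h2 : max 0 (min 1 (v a.succ)) ≤ 1 := max_le zero_le_one (min_le_left _ _)
        have h3 : 0 ≤ min 1 |v 0 - D.hat m ((Fintype.equivFin (Perm (Fin (m + k)))).symm a)| :=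
          le_min zero_le_one (abs_nonneg _)
        have h4 : min 1 |v 0 - D.hat m ((Fintype.equivFin (Perm (Fin (m + k)))).symm a)| ≤ 1 :=
          min_le_left _ _
        rw [abs_of_nonneg (mul_nonneg h1 h3)]
        exact mul_le_one₀ h2 h3 h4
    _ = Fintype.card (Perm (Fin (m + k))) := by
        rw [Finset.sum_const, Finset.card_univ, Fintype.card_fin, nsmul_eq_mul, mul_one]

theorem eF_val {V : Type} [Fintype V] [DecidableEq V] {m k : ℕ} (D : Ds k)
    (hD : ∀ π, D ≠ Ds.ind π) (c : Fin (m + k) ↪ V) (g : Perm V) :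
    eF D (fun a => (eD D a).val c g) = dD D c g := by
  have h0 : (eD (m := m) D 0).val c g = D.val (lp c) g := by
    change (D.lift m).val c g = _
    cases D with
    | top σ i =>
      change top (frac (emb c (lst m σ) * g)) i = top (frac (emb (lp c) σ * g)) i
      rw [emb_lp]
    | cyc σ j =>
      change cfr (emb c (lst m σ) * g) (c (Fin.natAdd m j)) = cfr (emb (lp c) σ * g) (lp c j)
      rw [emb_lp]
      rfl
    | ind π => exact absurd rfl (hD π)
  have h1 : ∀ a : Fin (Fintype.card (Perm (Fin (m + k)))), (eD (m := m) D a.succ).val c g =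
      if ret (m + k) c g = (Fintype.equivFin (Perm (Fin (m + k)))).symm a then 1 else 0 := by
    intro a
    unfold eD
    rw [Fin.cons_succ]
    rfl
  unfold eF
  beta_reduce
  rw [h0, Finset.sum_eq_single (Fintype.equivFin (Perm (Fin (m + k))) (ret (m + k) c g))]
  · rw [h1, Equiv.symm_apply_apply, if_pos rfl]
    have h2 := dD_mem D c g
    unfold dD at h2 ⊢
    rw [min_self, max_eq_right zero_le_one, one_mul]
    exact min_eq_right h2.2
  · intro a _ ha
    rw [h1, if_neg]
    · rw [min_eq_right zero_le_one, max_self, zero_mul]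
    · intro h2
      apply ha
      rw [h2, Equiv.apply_symm_apply]
  · intro h
    exact absurd (Finset.mem_univ _) h

theorem dD_ind {V : Type} [Fintype V] [DecidableEq V] {m k : ℕ} (π : Perm (Fin k))
    (c : Fin (m + k) ↪ V) (g : Perm V) : dD (Ds.ind π) c g = 0 := by
  have h1 : ret k (lp c) g = ret k (Fin.natAdd m) (ret (m + k) c g) :=
    ret_tower c c.injective (Fin.natAdd m) (Fin.natAdd_injective k m) g
  unfold dD
  change |(if ret k (lp c) g = π then (1 : ℝ) else 0) -
    (if ret k (Fin.natAdd m) (ret (m + k) c g) = π then 1 else 0)| = 0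
  rw [h1, sub_self, abs_zero]

/-- The observables of `k` points can be read off from the permutation induced on these points and
any `m` other points. -/
theorem closeD (hK : S_KPT) (d : ℕ) (hd : 3 ≤ d) : ∃ m₀ : ℕ, ∀ (k : ℕ) (D : Ds k) (δ : ℝ), 0 < δ →
    ∃ m₁ : ℕ, ∀ m, m₁ ≤ m → 0 < m → ∃ L₀ : ℕ, ∀ (L : ℕ) [NeZero L], L₀ ≤ L →
    ∀ t : ℝ, (Real.log L) ^ m₀ ≤ t → ∀ c : Fin (m + k) ↪ (Fin d → ZMod L),
    stirExp (nnRate d L) t (fun g => dD D c g) ≤ δ := by
  classical
  obtain ⟨m₀, h⟩ := gt hK d hd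
  refine ⟨m₀, fun k D δ hδ => ?_⟩
  by_cases hD : ∃ π, D = Ds.ind π
  · obtain ⟨π, rfl⟩ := hD
    refine ⟨0, fun m _ _ => ⟨0, fun L _ _ t _ c => ?_⟩⟩
    unfold stirExp
    simp only [dD_ind, mul_zero, Finset.sum_const_zero]
    exact hδ.le
  push Not at hD
  obtain ⟨m₁, hm₁⟩ := exists_nat_gt ((16 / δ) ^ 2)
  refine ⟨m₁, fun m hm hm0 => ?_⟩
  obtain ⟨c₀, L₀, h1, h2⟩ := h (m + k) _ (eD (m := m) D) (eF D) (eF_cont D) _ (eF_abs D) (δ / 4)
    (by positivity)
  refine ⟨L₀, fun L _ hL t ht c => ?_⟩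
  have h3 := h1 L hL t ht c
  simp only [eF_val D hD] at h3
  -- the constant
  obtain ⟨n₁, hn₁⟩ := exists_nat_gt (16 * (m : ℝ) ^ 2 / δ)
  obtain ⟨n, hn⟩ : ∃ n, n = max (max L₀ n₁) (2 * (m * (m + k)) + k + 1) := ⟨_, rfl⟩
  have hnL : L₀ ≤ n := by rw [hn]; exact (le_max_left _ _).trans (le_max_left _ _)
  have hn1 : n₁ ≤ n := by rw [hn]; exact (le_max_right _ _).trans (le_max_left _ _)
  have hn2 : 2 * (m * (m + k)) + k + 1 ≤ n := by rw [hn]; exact le_max_right _ _
  have hn0 : (0 : ℝ) < n := by exact_mod_cast (by omega : 0 < n)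
  have hcn : Fintype.card (Fin n) = n := Fintype.card_fin n
  obtain ⟨b₀⟩ : Nonempty (Fin k ↪ Fin n) := ⟨Fin.castLEEmb (by omega)⟩
  have h4 : ∀ c : Fin (m + k) ↪ Fin n, |um (fun g => dD D c g) - c₀| ≤ δ / 4 := by
    intro c
    have h5 := h2 (Fin n) (by rw [hcn]; exact hnL) c
    simp only [eF_val D hD] at h5
    exact h5
  have hfac : (0 : ℝ) < ((Fintype.card (Fin n)).factorial : ℝ) := by
    exact_mod_cast (Fintype.card (Fin n)).factorial_pos
  obtain ⟨I, hI⟩ : ∃ I : ℝ, I = ∑ z : Fin m → Fin n,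
    (if Function.Injective (Fin.append z b₀) then (1 : ℝ) else 0) := ⟨_, rfl⟩
  have hIge : (n : ℝ) ^ m ≤ 2 * I := by
    have h5 := card_bad m k b₀ b₀.injective
    have h6 : (Nat.card {z : Fin m → Fin n // ¬ Function.Injective (Fin.append z b₀)} : ℝ) =
        ∑ z : Fin m → Fin n, (if Function.Injective (Fin.append z b₀) then (0 : ℝ) else 1) := by
      rw [Nat.card_eq_fintype_card, Fintype.card_subtype, Finset.card_filter, Nat.cast_sum]
      refine Finset.sum_congr rfl fun z _ => ?_
      by_cases hz : Function.Injective (Fin.append z b₀)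
      · simp [hz]
      · simp [hz]
    have h7 : (n : ℝ) ^ m = I + ∑ z : Fin m → Fin n,
        (if Function.Injective (Fin.append z b₀) then (0 : ℝ) else 1) := by
      rw [hI, ← Finset.sum_add_distrib]
      have h8 : ∀ z : Fin m → Fin n,
          (if Function.Injective (Fin.append z b₀) then (1 : ℝ) else 0) +
          (if Function.Injective (Fin.append z b₀) then (0 : ℝ) else 1) = 1 := by
        intro z
        split_ifs <;> norm_num
      rw [Finset.sum_congr rfl fun z _ => h8 z, Finset.sum_const, Finset.card_univ,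
        Fintype.card_fun, Fintype.card_fin, Fintype.card_fin, nsmul_eq_mul, mul_one]
      push_cast
      rfl
    rw [hcn] at h5
    have h9 : ((m : ℝ) * (m + k)) * (n : ℝ) ^ (m - 1) ≤ (n : ℝ) ^ m / 2 := by
      have h10 : (n : ℝ) ^ m = (n : ℝ) ^ (m - 1) * n := by
        rw [← pow_succ]
        congr 1
        omega
      have h11 : 2 * ((m : ℝ) * (m + k)) ≤ n := by
        exact_mod_cast (by omega : 2 * (m * (m + k)) ≤ n)
      rw [h10]
      have h12 : 0 ≤ (n : ℝ) ^ (m - 1) := by positivity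
      nlinarith
    rw [← h6] at h7
    linarith
  have h5 : I * (c₀ - δ / 4) ≤ (n : ℝ) ^ m * (1 / Real.sqrt m + (m : ℝ) ^ 2 / n) := by
    have h6 : I * (c₀ - δ / 4) ≤ ∑ z : Fin m → Fin n,
        (if h : Function.Injective (Fin.append z b₀) then
          um (fun g => dD D ⟨Fin.append z b₀, h⟩ g) else 0) := by
      rw [hI, Finset.sum_mul]
      refine Finset.sum_le_sum fun z _ => ?_
      by_cases hz : Function.Injective (Fin.append z b₀)
      · rw [if_pos hz, dif_pos hz, one_mul]
        have h7 := h4 ⟨Fin.append z b₀, hz⟩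
        rw [abs_le] at h7
        linarith [h7.1]
      · rw [if_neg hz, dif_neg hz, zero_mul]
    refine h6.trans ?_
    have hlp : ∀ (z : Fin m → Fin n) (h : Function.Injective (Fin.append z b₀)),
        lp (m := m) ⟨Fin.append z b₀, h⟩ = b₀ := by
      intro z h
      refine DFunLike.ext _ _ fun i => ?_
      change Fin.append z b₀ (Fin.natAdd m i) = b₀ i
      rw [Fin.append_right]
    have h7 : ∑ z : Fin m → Fin n, (if h : Function.Injective (Fin.append z b₀) then
          um (fun g => dD D ⟨Fin.append z b₀, h⟩ g) else 0) =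
        um (fun g => ∑ z : Fin m → Fin n, if Function.Injective (Fin.append z b₀) then
          |D.hat m (ret (m + k) (Fin.append z b₀) g) - D.val b₀ g| else 0) := by
      unfold um
      rw [Finset.sum_comm, Finset.sum_div]
      refine Finset.sum_congr rfl fun z _ => ?_
      by_cases hz : Function.Injective (Fin.append z b₀)
      · rw [dif_pos hz]
        congr 1
        refine Finset.sum_congr rfl fun g _ => ?_
        rw [if_pos hz]
        unfold dD
        rw [hlp z hz, abs_sub_comm]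
        rfl
      · rw [dif_neg hz]
        simp [hz]
    rw [h7]
    unfold um
    rw [div_le_iff₀ hfac]
    calc ∑ g : Perm (Fin n), ∑ z : Fin m → Fin n, (if Function.Injective (Fin.append z b₀) then
          |D.hat m (ret (m + k) (Fin.append z b₀) g) - D.val b₀ g| else 0)
        ≤ ∑ _g : Perm (Fin n), (n : ℝ) ^ m * (1 / Real.sqrt m + (m : ℝ) ^ 2 / n) := by
          refine Finset.sum_le_sum fun g _ => ?_
          have h8 := Ds.err m hm0 (by rw [hcn]; omega) b₀ D g
          rw [hcn] at h8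
          exact h8
      _ = _ := by
          rw [Finset.sum_const, Finset.card_univ, Fintype.card_perm, nsmul_eq_mul, mul_comm]
  have h6 : 1 / Real.sqrt m + (m : ℝ) ^ 2 / n ≤ δ / 8 := by
    have h7 : 16 / δ ≤ Real.sqrt m := by
      apply Real.le_sqrt_of_sq_le
      have : (m₁ : ℝ) ≤ m := by exact_mod_cast hm
      linarith
    have hs : 0 < Real.sqrt m := lt_of_lt_of_le (by positivity) h7
    have h8 : 1 / Real.sqrt m ≤ δ / 16 := by
      rw [div_le_div_iff₀ hs (by norm_num)]
      rw [div_le_iff₀ hδ] at h7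
      linarith
    have h9 : (m : ℝ) ^ 2 / n ≤ δ / 16 := by
      rw [div_le_div_iff₀ hn0 (by norm_num)]
      rw [div_lt_iff₀ hδ] at hn₁
      have : (n₁ : ℝ) ≤ n := by exact_mod_cast hn1
      nlinarith
    linarith
  have hI0 : 0 < I := by
    have : 0 < (n : ℝ) ^ m := by positivity
    linarith
  have h7 : I * (c₀ - δ / 4) ≤ I * (δ / 4) := by
    refine h5.trans ?_
    calc (n : ℝ) ^ m * (1 / Real.sqrt m + (m : ℝ) ^ 2 / n) ≤ (n : ℝ) ^ m * (δ / 8) :=
          mul_le_mul_of_nonneg_left h6 (by positivity)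
      _ ≤ (2 * I) * (δ / 8) := mul_le_mul_of_nonneg_right hIge (by positivity)
      _ = I * (δ / 4) := by ring
  have h8 := le_of_mul_le_mul_left h7 hI0
  rw [abs_le] at h3
  linarith [h3.2]

end Run7.h565.SM
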