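import Pool.Agent.Run7.h565.SM.PtsB
import Pool.Agent.Run7.h565.SM.Dec

/-!
# Project SM: decorrelation in time for the observables of `k` points
-/

set_option autoImplicit false

namespace Run7.h565.SM

open Finset Equiv
open Pool.Agent.TH268.PD (ret ret_spec top frac Cyc cyOf lip_approx top_ret)
open Pool.Agent.Y998.LP (NN tdist law_add)
open Pool.Agent.Y998.ST (stirExp stirLaw nnRate law_nonneg nn_nonneg totalRate nn_row)
open Run7.h565.LC (S_KPT tdist_box)

theorem lst_fst {m k : ℕ} (σ : Perm (Fin k)) (θ : Perm (Fin m)) :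
    lst m σ * fstP k θ = fstP k θ * lst m σ := by
  refine Equiv.ext fun x => ?_
  rw [Perm.mul_apply, Perm.mul_apply]
  induction x using Fin.addCases with
  | left a => rw [fstP_left, lst_left, lst_left, fstP_left]
  | right i => rw [fstP_right, lst_right, fstP_right]

theorem lst_conj {m k : ℕ} (σ : Perm (Fin k)) (θ : Perm (Fin m)) (ρ : Perm (Fin (m + k))) :
    lst m σ * (fstP k θ * ρ * (fstP k θ)⁻¹) = fstP k θ * (lst m σ * ρ) * (fstP k θ)⁻¹ := by
  rw [← mul_assoc, ← mul_assoc, lst_fst]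
  group

theorem same_l {m k : ℕ} (θ : Perm (Fin m)) (X : Perm (Fin (m + k))) (a c : Fin m) :
    (fstP k θ * X * (fstP k θ)⁻¹).SameCycle (Fin.castAdd k a) (Fin.castAdd k c) ↔
      X.SameCycle (Fin.castAdd k (θ⁻¹ a)) (Fin.castAdd k (θ⁻¹ c)) := by
  rw [Perm.sameCycle_conj, ← fstP_inv, fstP_left, fstP_left]

theorem same_r {m k : ℕ} (θ : Perm (Fin m)) (X : Perm (Fin (m + k))) (j : Fin k) (c : Fin m) :
    (fstP k θ * X * (fstP k θ)⁻¹).SameCycle (Fin.natAdd m j) (Fin.castAdd k c) ↔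
      X.SameCycle (Fin.natAdd m j) (Fin.castAdd k (θ⁻¹ c)) := by
  rw [Perm.sameCycle_conj, ← fstP_inv, fstP_left, fstP_right]

/-- the observables from samples do not depend on the order of the samples -/
theorem hat_conj {m k : ℕ} (hm : 0 < m) (D : Ds k) (θ : Perm (Fin m)) (ρ : Perm (Fin (m + k))) :
    D.hat m (fstP k θ * ρ * (fstP k θ)⁻¹) = D.hat m ρ := by
  cases D with
  | top σ i =>
    change top (frac (ret m (Fin.castAdd k) (lst m σ * (fstP k θ * ρ * (fstP k θ)⁻¹)))) i =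
      top (frac (ret m (Fin.castAdd k) (lst m σ * ρ))) i
    rw [lst_conj]
    obtain ⟨X, hX⟩ : ∃ X, X = lst m σ * ρ := ⟨_, rfl⟩
    rw [← hX]
    have h1 := fun Y : Perm (Fin (m + k)) => (ret_spec m (Fin.castAdd k : Fin m → Fin (m + k))
      (Fin.castAdd_injective m k)).2.2.2 Y
    rw [top_ret hm (Fin.castAdd k) X (ret m (Fin.castAdd k) X) (fun a c => h1 X a c),
      top_ret hm (fun a => Fin.castAdd k (θ⁻¹ a)) X _ (fun a c => by
        rw [h1, same_l])]
    congr 1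
    funext γ
    congr 2
    exact Nat.card_congr ((θ⁻¹ : Perm (Fin m)).subtypeEquiv fun a => Iff.rfl)
  | cyc σ j =>
    change (Nat.card {a : Fin m // (lst m σ * (fstP k θ * ρ * (fstP k θ)⁻¹)).SameCycle
      (Fin.natAdd m j) (Fin.castAdd k a)} : ℝ) / m = (Nat.card {a : Fin m //
      (lst m σ * ρ).SameCycle (Fin.natAdd m j) (Fin.castAdd k a)} : ℝ) / m
    rw [lst_conj]
    congr 2
    exact Nat.card_congr ((θ⁻¹ : Perm (Fin m)).subtypeEquiv fun a => same_r θ _ j a)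
  | ind π =>
    change (if ret k (Fin.natAdd m) (fstP k θ * ρ * (fstP k θ)⁻¹) = π then (1 : ℝ) else 0) =
      (if ret k (Fin.natAdd m) ρ = π then (1 : ℝ) else 0)
    rw [ret_conj (Fin.natAdd m) (Fin.natAdd_injective k m) (fstP k θ) (fstP_right k θ)]

theorem core2 {V : Type} [Fintype V] [DecidableEq V] {ι : Type} [Fintype ι] {m k : ℕ}
    (hι : 0 < Fintype.card ι) (μ H : Perm V → ℝ) (hμ : ∀ g, 0 ≤ μ g) (hμ1 : ∑ g, μ g = 1)
    (hH : ∀ g, |H g| ≤ 1) (T : Perm V → ℝ) (hT1 : ∀ g, |T g| ≤ 1)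
    (T' : Perm (Fin (m + k)) → ℝ) (hT'1 : ∀ π, |T' π| ≤ 1) (Z : Finset ι)
    (hZ : (Fintype.card ι : ℝ) ≤ 2 * Z.card) (u : ι → (Fin m ↪ V)) (c : ι → (Fin (m + k) → V))
    (hret : ∀ z ∈ Z, ∀ (σ : Perm (Fin m)) (g : Perm V),
      ret (m + k) (c z) (emb (u z) σ * g) = fstP k σ * ret (m + k) (c z) g)
    (ρ₁ : ℝ) (hT : ∀ z ∈ Z, ∑ g, μ g * |T g - T' (ret (m + k) (c z) g)| ≤ ρ₁)
    (ρ₂ : ℝ) (hA : ∀ z ∈ Z, ∑ g, μ g * |sA T' (ret (m + k) (c z) g) / (m.factorial : ℝ) -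
      mn (m + k) T'| ≤ ρ₂)
    (ν : ℝ) (hν : ∀ z ∈ Z, ∀ τ : Perm (Fin m),
      ∑ g, |μ ((emb (u z) τ)⁻¹ * g) - μ g| ≤ ν)
    (mm : ℝ) (hmm : ∀ σ : Perm (Fin m), ∑ z, ∑ g, μ g * |H (emb (u z) σ * g) - H g| ≤
      Fintype.card ι * mm) :
    |∑ g, μ g * (T g * H g) - mn (m + k) T' * ∑ g, μ g * H g| ≤ ρ₁ + ρ₂ + 3 * ν + 2 * mm := by
  have hfac : (0 : ℝ) < (m.factorial : ℝ) := by exact_mod_cast m.factorial_pos
  obtain ⟨S, hS⟩ : ∃ S, S = ∑ g, μ g * (T g * H g) := ⟨_, rfl⟩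
  obtain ⟨E, hE⟩ : ∃ E, E = mn (m + k) T' * ∑ g, μ g * H g := ⟨_, rfl⟩
  have h1 : ∀ z ∈ Z, ∀ σ : Perm (Fin m),
      |S - ∑ g, μ g * (T' (fstP k σ * ret (m + k) (c z) g) * H g)| ≤ ρ₁ + 3 * ν +
        ∑ g, μ g * |H (emb (u z) σ * g) - H g| := by
    intro z hz σ
    have a2 := shift_le μ (emb (u z) σ) ν (hν z hz σ) (fun g => T g * H g) 1 (fun g => by
      rw [abs_mul]
      exact mul_le_one₀ (hT1 g) (abs_nonneg _) (hH g))
    beta_reduce at a2
    rw [← hS, one_mul] at a2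
    have a3 : |∑ g, μ g * (T (emb (u z) σ * g) * H (emb (u z) σ * g)) -
        ∑ g, μ g * (T (emb (u z) σ * g) * H g)| ≤
        ∑ g, μ g * |H (emb (u z) σ * g) - H g| := by
      rw [← Finset.sum_sub_distrib]
      refine (Finset.abs_sum_le_sum_abs _ _).trans (Finset.sum_le_sum fun g _ => ?_)
      rw [← mul_sub, ← mul_sub, abs_mul, abs_mul, abs_of_nonneg (hμ g)]
      exact mul_le_mul_of_nonneg_left (mul_le_of_le_one_left (abs_nonneg _) (hT1 _)) (hμ g)
    have a4 := shift_le μ (emb (u z) σ) ν (hν z hz σ)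
      (fun g => |T g - T' (ret (m + k) (c z) g)|) 2 (fun g => by
        rw [abs_abs]
        have b1 := hT1 g
        have b2 := hT'1 (ret (m + k) (c z) g)
        rw [abs_le] at b1 b2 ⊢
        constructor <;> linarith [b1.1, b1.2, b2.1, b2.2])
    beta_reduce at a4
    have a5 := hT z hz
    have a6 : |∑ g, μ g * (T (emb (u z) σ * g) * H g) -
        ∑ g, μ g * (T' (fstP k σ * ret (m + k) (c z) g) * H g)| ≤
        ∑ g, μ g * |T (emb (u z) σ * g) - T' (ret (m + k) (c z) (emb (u z) σ * g))| := by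
      rw [← Finset.sum_sub_distrib]
      refine (Finset.abs_sum_le_sum_abs _ _).trans (Finset.sum_le_sum fun g _ => ?_)
      rw [hret z hz, ← mul_sub, ← sub_mul, abs_mul, abs_mul, abs_of_nonneg (hμ g)]
      exact mul_le_mul_of_nonneg_left (mul_le_of_le_one_right (abs_nonneg _) (hH g)) (hμ g)
    rw [abs_le] at a2 a3 a4 a6 ⊢
    constructor <;> linarith [a2.1, a2.2, a3.1, a3.2, a4.1, a4.2, a6.1, a6.2]
  have h2 : ∀ z ∈ Z, |∑ σ : Perm (Fin m),
      ∑ g, μ g * (T' (fstP k σ * ret (m + k) (c z) g) * H g) - m.factorial * E| ≤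
      m.factorial * ρ₂ := by
    intro z hz
    have e1 : ∑ σ : Perm (Fin m), ∑ g, μ g * (T' (fstP k σ * ret (m + k) (c z) g) * H g) =
        m.factorial * ∑ g, μ g * (sA T' (ret (m + k) (c z) g) / (m.factorial : ℝ) * H g) := by
      rw [Finset.sum_comm, Finset.mul_sum]
      refine Finset.sum_congr rfl fun g _ => ?_
      unfold sA
      rw [← Finset.mul_sum, ← Finset.sum_mul]
      field_simp
    rw [e1, ← mul_sub, abs_mul, abs_of_pos hfac]
    refine mul_le_mul_of_nonneg_left ?_ hfac.le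
    refine le_trans ?_ (hA z hz)
    rw [hE, Finset.mul_sum, ← Finset.sum_sub_distrib]
    refine (Finset.abs_sum_le_sum_abs _ _).trans (Finset.sum_le_sum fun g _ => ?_)
    have e2 : μ g * (sA T' (ret (m + k) (c z) g) / (m.factorial : ℝ) * H g) -
        mn (m + k) T' * (μ g * H g) =
        μ g * ((sA T' (ret (m + k) (c z) g) / (m.factorial : ℝ) - mn (m + k) T') * H g) := by ring
    rw [e2, abs_mul, abs_mul, abs_of_nonneg (hμ g)]
    exact mul_le_mul_of_nonneg_left (mul_le_of_le_one_right (abs_nonneg _) (hH g)) (hμ g)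
  have h3 : ∀ z ∈ Z, m.factorial * |S - E| ≤ m.factorial * (ρ₁ + ρ₂ + 3 * ν) +
      ∑ σ : Perm (Fin m), ∑ g, μ g * |H (emb (u z) σ * g) - H g| := by
    intro z hz
    have e1 : |m.factorial * S - ∑ σ : Perm (Fin m),
        ∑ g, μ g * (T' (fstP k σ * ret (m + k) (c z) g) * H g)| ≤
        m.factorial * (ρ₁ + 3 * ν) +
        ∑ σ : Perm (Fin m), ∑ g, μ g * |H (emb (u z) σ * g) - H g| := by
      have e2 : (m.factorial : ℝ) * S = ∑ _σ : Perm (Fin m), S := by
        rw [Finset.sum_const, Finset.card_univ, Fintype.card_perm, Fintype.card_fin, nsmul_eq_mul]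
      have e3 : (m.factorial : ℝ) * (ρ₁ + 3 * ν) = ∑ _σ : Perm (Fin m), (ρ₁ + 3 * ν) := by
        rw [Finset.sum_const, Finset.card_univ, Fintype.card_perm, Fintype.card_fin, nsmul_eq_mul]
      rw [e2, e3, ← Finset.sum_sub_distrib, ← Finset.sum_add_distrib]
      exact (Finset.abs_sum_le_sum_abs _ _).trans (Finset.sum_le_sum fun σ _ => h1 z hz σ)
    have e4 := h2 z hz
    have e5 : m.factorial * |S - E| = |m.factorial * S - m.factorial * E| := by
      rw [← mul_sub, abs_mul, abs_of_pos hfac]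
    rw [e5]
    rw [abs_le] at e1 e4 ⊢
    constructor <;> linarith [e1.1, e1.2, e4.1, e4.2]
  have hZ0 : (0 : ℝ) < Z.card := by
    have : (0 : ℝ) < Fintype.card ι := by exact_mod_cast hι
    linarith
  have h4 : (Z.card : ℝ) * (m.factorial * |S - E|) ≤
      Z.card * (m.factorial * (ρ₁ + ρ₂ + 3 * ν)) + m.factorial * (Fintype.card ι * mm) := by
    calc (Z.card : ℝ) * (m.factorial * |S - E|) = ∑ _z ∈ Z, m.factorial * |S - E| := by
          rw [Finset.sum_const, nsmul_eq_mul]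
      _ ≤ ∑ z ∈ Z, (m.factorial * (ρ₁ + ρ₂ + 3 * ν) +
          ∑ σ : Perm (Fin m), ∑ g, μ g * |H (emb (u z) σ * g) - H g|) :=
          Finset.sum_le_sum fun z hz => h3 z hz
      _ = Z.card * (m.factorial * (ρ₁ + ρ₂ + 3 * ν)) +
          ∑ σ : Perm (Fin m), ∑ z ∈ Z, ∑ g, μ g * |H (emb (u z) σ * g) - H g| := by
          rw [Finset.sum_add_distrib, Finset.sum_const, nsmul_eq_mul, Finset.sum_comm]
      _ ≤ Z.card * (m.factorial * (ρ₁ + ρ₂ + 3 * ν)) +
          ∑ _σ : Perm (Fin m), (Fintype.card ι : ℝ) * mm := by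
          refine add_le_add le_rfl (Finset.sum_le_sum fun σ _ => ?_)
          refine le_trans (Finset.sum_le_sum_of_subset_of_nonneg (Finset.subset_univ Z)
            fun z _ _ => Finset.sum_nonneg fun g _ => mul_nonneg (hμ g) (abs_nonneg _)) (hmm σ)
      _ = _ := by
          rw [Finset.sum_const, Finset.card_univ, Fintype.card_perm, Fintype.card_fin,
            nsmul_eq_mul]
  have hmm0 : 0 ≤ mm := by
    have h5 := hmm 1
    have h6 : 0 ≤ ∑ z, ∑ g, μ g * |H (emb (u z) 1 * g) - H g| :=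
      Finset.sum_nonneg fun z _ => Finset.sum_nonneg fun g _ => mul_nonneg (hμ g) (abs_nonneg _)
    have h7 : (0 : ℝ) < Fintype.card ι := by exact_mod_cast hι
    by_contra hc
    push Not at hc
    have := mul_neg_of_pos_of_neg h7 hc
    linarith
  have h5 : (m.factorial : ℝ) * (Fintype.card ι * mm) ≤ Z.card * (m.factorial * (2 * mm)) := by
    have h6 : (Fintype.card ι : ℝ) * mm ≤ 2 * Z.card * mm := mul_le_mul_of_nonneg_right hZ hmm0
    have := mul_le_mul_of_nonneg_left h6 hfac.le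
    linarith
  have h6 : (Z.card : ℝ) * (m.factorial * |S - E|) ≤
      Z.card * (m.factorial * (ρ₁ + ρ₂ + 3 * ν + 2 * mm)) := by
    have e : (Z.card : ℝ) * (m.factorial * (ρ₁ + ρ₂ + 3 * ν + 2 * mm)) =
      Z.card * (m.factorial * (ρ₁ + ρ₂ + 3 * ν)) + Z.card * (m.factorial * (2 * mm)) := by ring
    rw [e]
    linarith
  rw [← hS, ← hE]
  exact le_of_mul_le_mul_left (le_of_mul_le_mul_left h6 hZ0) hfac

end Run7.h565.SM
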