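import Pool.Agent.Run7.h565.SM.PtsC

/-!
# Project SM: decorrelation in time for the observables of `k` points of the torus
-/

set_option autoImplicit false

namespace Run7.h565.SM

open Finset Equiv
open Pool.Agent.TH268.PD (ret ret_spec top frac Cyc cyOf lip_approx)
open Pool.Agent.Y998.LP (NN tdist law_add)
open Pool.Agent.Y998.ST (stirExp stirLaw nnRate law_nonneg nn_nonneg totalRate nn_row)
open Run7.h565.LC (S_KPT tdist_box)

theorem pth_fiber {d L : ℕ} [NeZero L] (i₀ : Fin d) (a : ℕ) (y : Fin d → ZMod L) :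
    (Finset.univ.filter fun z : Fin d → ZMod L => pth i₀ z a = y).card ≤ 1 := by
  rw [Finset.card_le_one]
  intro z hz z' hz'
  rw [Finset.mem_filter] at hz hz'
  exact (pth_shift_bij i₀ a).1 (hz.2.trans hz'.2.symm)

open Classical in
theorem good_card {d L : ℕ} [NeZero L] (i₀ : Fin d) (m k : ℕ) (b : Fin k → (Fin d → ZMod L))
    (h : 2 * (m * k) ≤ Fintype.card (Fin d → ZMod L)) :
    (Fintype.card (Fin d → ZMod L) : ℝ) ≤ 2 * (Finset.univ.filter fun z : Fin d → ZMod L =>
      ∀ (a : Fin m) (i : Fin k), pth i₀ z a ≠ b i).card := by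
  obtain ⟨Z, hZ⟩ : ∃ Z, Z = Finset.univ.filter fun z : Fin d → ZMod L =>
      ∀ (a : Fin m) (i : Fin k), pth i₀ z a ≠ b i := ⟨_, rfl⟩
  rw [← hZ]
  have h1 : Zᶜ ⊆ (Finset.univ : Finset (Fin m × Fin k)).biUnion
      fun p => Finset.univ.filter fun z : Fin d → ZMod L => pth i₀ z p.1 = b p.2 := by
    intro z hz
    rw [Finset.mem_compl, hZ, Finset.mem_filter] at hz
    push Not at hz
    obtain ⟨a, i, hai⟩ := hz (Finset.mem_univ _)
    rw [Finset.mem_biUnion]
    exact ⟨(a, i), Finset.mem_univ _, Finset.mem_filter.2 ⟨Finset.mem_univ _, hai⟩⟩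
  have h2 : Zᶜ.card ≤ m * k := by
    refine (Finset.card_le_card h1).trans (Finset.card_biUnion_le.trans ?_)
    refine (Finset.sum_le_sum fun p _ => pth_fiber i₀ (p.1 : ℕ) (b p.2)).trans ?_
    rw [Finset.sum_const, Finset.card_univ, Fintype.card_prod, Fintype.card_fin,
      Fintype.card_fin, smul_eq_mul, mul_one]
  have h3 : Z.card + Zᶜ.card = Fintype.card (Fin d → ZMod L) := Finset.card_add_card_compl Z
  exact_mod_cast (by omega : Fintype.card (Fin d → ZMod L) ≤ 2 * Z.card)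

/-- The observables of any `k` points are asymptotically independent of every function of the
permutation with small energy. -/
theorem dec_e (hK : S_KPT) (d : ℕ) (hd : 3 ≤ d) : ∃ m₀ : ℕ, ∀ (k M : ℕ) (D : Fin M → Ds k)
    (F : (Fin M → ℝ) → ℝ), Continuous F → (∀ u, |F u| ≤ 1) → ∀ η : ℝ, 0 < η →
    ∃ (c κ : ℝ) (L₀ : ℕ), |c| ≤ 1 ∧ 0 < κ ∧
    (∀ (L : ℕ) [NeZero L], L₀ ≤ L → ∀ t : ℝ, (Real.log L) ^ m₀ ≤ t →
      ∀ b : Fin k ↪ (Fin d → ZMod L), ∀ H : Perm (Fin d → ZMod L) → ℝ, (∀ g, |H g| ≤ 1) →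
      e1 (nnRate d L) (fun g => stirLaw (nnRate d L) t g) H ≤ κ →
      |stirExp (nnRate d L) t (fun g => F (fun a => (D a).val b g) * H g) -
        c * stirExp (nnRate d L) t H| ≤ η) ∧
    (∀ (W : Type) [Fintype W] [DecidableEq W], L₀ ≤ Fintype.card W → ∀ b : Fin k ↪ W,
      |um (fun g => F (fun a => (D a).val b g)) - c| ≤ η) := by
  classical
  obtain ⟨m₁, hclose⟩ := closeD hK d hd
  obtain ⟨m₂, hind⟩ := ind_torus hK d hd
  obtain ⟨m₃, hgt⟩ := gt hK d hd
  obtain ⟨C', hC'0, hdist⟩ := Pool.Agent.Y998.LQ.t_dist d (by omega)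
  refine ⟨max m₁ (max m₂ m₃) + 1, fun k M D f hfc hf1 η hη => ?_⟩
  have hd0 : (0 : ℝ) < d := by exact_mod_cast (by omega : 0 < d)
  obtain ⟨i₀⟩ : Nonempty (Fin d) := ⟨⟨0, by omega⟩⟩
  obtain ⟨Λ, F, hΛ, hFc, hF1, hFL, hfF⟩ := lip_approx M f hfc 1 hf1 (η / 32) (by positivity)
  obtain ⟨cg, Lg, hg1, hg2⟩ := hgt k M D f hfc 1 hf1 (η / 16) (by positivity)
  -- the number of points
  obtain ⟨δ, hδ⟩ : ∃ δ : ℝ, δ = η / (16 * (Λ * M + 1)) := ⟨_, rfl⟩
  have hδ0 : 0 < δ := by rw [hδ]; positivity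
  choose k₀ hk₀ using fun a : Fin M => hclose k (D a) δ hδ0
  obtain ⟨k₁, hk₁⟩ := exists_nat_gt (128 * (k : ℝ) ^ 2 / η)
  obtain ⟨n, hn⟩ : ∃ n : ℕ, n = ∑ a, k₀ a + k₁ := ⟨_, rfl⟩
  have hkn : ∀ a, k₀ a ≤ n + 1 := by
    intro a
    have := Finset.single_le_sum (f := k₀) (fun _ _ => Nat.zero_le _) (Finset.mem_univ a)
    omega
  have hmean : 4 * (k : ℝ) ^ 2 / ((n + 1 : ℕ) : ℝ) ≤ η / 32 := by
    have h1 : (k₁ : ℝ) ≤ ((n + 1 : ℕ) : ℝ) := by exact_mod_cast (by omega : k₁ ≤ n + 1)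
    rw [div_lt_iff₀ hη] at hk₁
    rw [div_le_div_iff₀ (by positivity) (by norm_num)]
    nlinarith
  choose L₁ hL₁ using fun a : Fin M => hk₀ a (n + 1) (hkn a) (by omega)
  obtain ⟨L₂, hL₂⟩ := hind (n + 1 + k) (η / 64) (by positivity)
  choose ms hms using fun σ : Perm (Fin (n + 1)) => om_le n σ
  obtain ⟨mm, hmm⟩ : ∃ mm : ℕ, mm = ∑ σ, ms σ := ⟨_, rfl⟩
  have hmsm : ∀ σ, (ms σ : ℝ) ≤ mm := by
    intro σ
    have := Finset.single_le_sum (f := ms) (fun _ _ => Nat.zero_le _) (Finset.mem_univ σ)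
    rw [hmm]
    exact_mod_cast this
  obtain ⟨m', hm'⟩ := emb_NN (n + 1)
  obtain ⟨κ, hκ⟩ : ∃ κ : ℝ, κ = η / (128 * (d * (mm + 1))) := ⟨_, rfl⟩
  have hκ0 : 0 < κ := by rw [hκ]; positivity
  -- near invariance
  obtain ⟨c, hc⟩ : ∃ c : ℝ, c = m' * (C' * (d * (n + 1 : ℕ))) := ⟨_, rfl⟩
  have hc0 : 0 ≤ c := by rw [hc]; positivity
  obtain ⟨B, hB⟩ : ∃ B : ℝ, B = c * (3 + 4 * mm) * 32 / η := ⟨_, rfl⟩
  have hB0 : 0 ≤ B := by rw [hB]; positivity
  obtain ⟨T', hT'⟩ : ∃ T' : Perm (Fin (n + 1 + k)) → ℝ,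
    T' = fun π => F (fun a => (D a).hat (n + 1) π) := ⟨_, rfl⟩
  have hT'1 : ∀ π, |T' π| ≤ 1 := fun π => by rw [hT']; exact hF1 _
  have hconj : ∀ (θ : Perm (Fin (n + 1))) ρ, T' (fstP k θ * ρ * (fstP k θ)⁻¹) = T' ρ := by
    intro θ ρ
    rw [hT']
    beta_reduce
    congr 1
    funext a
    exact hat_conj (by omega) (D a) θ ρ
  have hsA := sA_mean T' hconj hT'1 (by omega)
  obtain ⟨cc, hcc⟩ : ∃ cc : ℝ, cc = mn (n + 1 + k) T' := ⟨_, rfl⟩
  have hcc1 : |cc| ≤ 1 := by rw [hcc]; exact mn_abs _ _ 1 hT'1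
  rw [← hcc] at hsA
  obtain ⟨A₁, hA₁⟩ : ∃ A₁, A₁ = max (max (∑ a, L₁ a) L₂)
    (max (2 * ((n + 1) * k) + n + 1 + k) (max 3 ⌈Real.exp (B ^ 2)⌉₊)) := ⟨_, rfl⟩
  have main : ∀ (L : ℕ) [NeZero L], A₁ ≤ L →
      ∀ t : ℝ, (Real.log L) ^ (max m₁ (max m₂ m₃) + 1) ≤ t →
      ∀ b : Fin k ↪ (Fin d → ZMod L), ∀ H : Perm (Fin d → ZMod L) → ℝ, (∀ g, |H g| ≤ 1) →
      e1 (nnRate d L) (fun g => stirLaw (nnRate d L) t g) H ≤ κ →
      |stirExp (nnRate d L) t (fun g => f (fun a => (D a).val b g) * H g) -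
        cc * stirExp (nnRate d L) t H| ≤ η / 2 := by
    intro L _ hL t ht b H hH1 he1
    rw [hA₁] at hL
    have hL1 : ∀ a, L₁ a ≤ L := by
      intro a
      have := Finset.single_le_sum (f := L₁) (fun _ _ => Nat.zero_le _) (Finset.mem_univ a)
      exact this.trans ((le_max_left _ _).trans ((le_max_left _ _).trans hL))
    have hL2 : L₂ ≤ L := (le_max_right _ _).trans ((le_max_left _ _).trans hL)
    have hL3' : 2 * ((n + 1) * k) + n + 1 + k ≤ L :=
      (le_max_left _ _).trans ((le_max_right _ _).trans hL)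
    have hL3 : 3 ≤ L := (le_max_left _ _).trans ((le_max_right _ _).trans
      ((le_max_right _ _).trans hL))
    have hL4 : ⌈Real.exp (B ^ 2)⌉₊ ≤ L := (le_max_right _ _).trans ((le_max_right _ _).trans
      ((le_max_right _ _).trans hL))
    have hLn : n + 1 ≤ L := by omega
    have hL0 : (0 : ℝ) < L := by exact_mod_cast (by omega : 0 < L)
    have hlog : 1 ≤ Real.log L := log_ge L hL3
    have hlogB : B ^ 2 ≤ Real.log L := by
      rw [Real.le_log_iff_exp_le hL0]
      exact (Nat.le_ceil _).trans (by exact_mod_cast hL4)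
    have ht1 : Real.log L ≤ t := by
      refine le_trans ?_ ht
      exact le_self_pow₀ hlog (by omega)
    have htm : ∀ j, j ≤ max m₁ (max m₂ m₃) → (Real.log L) ^ j ≤ t := fun j hj =>
      (pow_le_pow_right₀ hlog (by omega)).trans ht
    have htm1 := htm m₁ (le_max_left _ _)
    have htm2 := htm m₂ ((le_max_left _ _).trans (le_max_right _ _))
    have ht0 : 0 < t := by linarith
    have hst : 0 < Real.sqrt t := Real.sqrt_pos.2 ht0
    have hBt : B ≤ Real.sqrt t := Real.le_sqrt_of_sq_le (hlogB.trans ht1)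
    have hLd : (0 : ℝ) < (L : ℝ) ^ d := by positivity
    have hcardN : Fintype.card (Fin d → ZMod L) = L ^ d := by
      rw [Fintype.card_fun, ZMod.card, Fintype.card_fin]
    have hcard : (Fintype.card (Fin d → ZMod L) : ℝ) = (L : ℝ) ^ d := by
      rw [hcardN]
      push_cast
      rfl
    obtain ⟨J, hJdef⟩ : ∃ J, J = nnRate d L := ⟨_, rfl⟩
    have hJ : ∀ x y, 0 ≤ J x y := by rw [hJdef]; exact nn_nonneg
    have hR : totalRate J = d * (L : ℝ) ^ d := by rw [hJdef]; exact tr_nn d L hL3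
    have hR0 : 0 < totalRate J := by rw [hR]; positivity
    obtain ⟨μ, hμdef⟩ : ∃ μ, μ = fun g => stirLaw J t g := ⟨_, rfl⟩
    have hμ : ∀ g, 0 ≤ μ g := by
      intro g
      rw [hμdef]
      exact law_nonneg hJ ht0.le g
    have hμ1 : ∑ g, μ g = 1 := by
      rw [hμdef]
      exact Pool.Agent.Y998.CN.law_sum _ _
    -- the energy
    have he : e1 J μ H ≤ κ := by
      rw [hμdef, hJdef]
      exact he1
    -- near invariance on paths
    obtain ⟨ν, hν⟩ : ∃ ν : ℝ, ν = c / Real.sqrt t := ⟨_, rfl⟩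
    have hν0 : 0 ≤ ν := by rw [hν]; positivity
    have hNN : ∀ (z : Fin d → ZMod L) (τ : Perm (Fin (n + 1))),
        ∑ g, |μ ((emb (pe i₀ (n + 1) hLn z) τ)⁻¹ * g) - μ g| ≤ ν := by
      intro z τ
      have h1 : ∑ g, |μ ((emb (pe i₀ (n + 1) hLn z) τ)⁻¹ * g) - μ g| =
          NN J t (emb (pe i₀ (n + 1) hLn z) τ) := by
        unfold NN
        rw [hμdef]
      rw [h1, hJdef]
      have h2 := hm' (Fin d → ZMod L) (nnRate d L) t (C' * (d * (n + 1 : ℕ)) / Real.sqrt t)
        (pe i₀ (n + 1) hLn z) (by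
        intro a a'
        refine (hdist L hL3 t ht0 _ _).trans ?_
        have h2 : (tdist (pe i₀ (n + 1) hLn z a) (pe i₀ (n + 1) hLn z a') : ℝ) ≤
            d * (n + 1 : ℕ) := by
          exact_mod_cast tdist_box z _ _ (n + 1) (pth_box i₀ z a (n + 1) a.isLt hLn)
            (pth_box i₀ z a' (n + 1) a'.isLt hLn)
        gcongr) (by positivity) τ
      rw [hν, hc]
      refine h2.trans (le_of_eq ?_)
      ring
    have hX : ∀ σ : Perm (Fin (n + 1)),
        ∑ z, ∑ g, μ g * |H (emb (pe i₀ (n + 1) hLn z) σ * g) - H g| ≤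
          Fintype.card (Fin d → ZMod L) * (mm * (2 * d * κ + 2 * ν)) := by
      intro σ
      have h1 := hms σ d L i₀ hLn μ H hμ hH1 (by rw [← hJdef]; exact hR0) ν hNN hν0
      rw [← hJdef, hR] at h1
      rw [hcard] at h1 ⊢
      refine h1.trans ?_
      have he0 : 0 ≤ e1 J μ H := by
        unfold e1
        exact Finset.sum_nonneg fun g _ => mul_nonneg (hμ g) (div_nonneg
          (Finset.sum_nonneg fun x _ => Finset.sum_nonneg fun y _ =>
            mul_nonneg (div_nonneg (hJ x y) two_pos.le) (abs_nonneg _)) hR0.le)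
      calc (ms σ : ℝ) * (2 * (d * (L : ℝ) ^ d) * e1 J μ H + 2 * (L : ℝ) ^ d * ν)
          ≤ mm * (2 * (d * (L : ℝ) ^ d) * κ + 2 * (L : ℝ) ^ d * ν) := by
            refine mul_le_mul (hmsm σ) ?_ (by positivity) (Nat.cast_nonneg _)
            have := mul_le_mul_of_nonneg_left he (by positivity : 0 ≤ 2 * (d * (L : ℝ) ^ d))
            linarith
        _ = (L : ℝ) ^ d * (mm * (2 * d * κ + 2 * ν)) := by ring
    -- the good paths
    obtain ⟨Z, hZ⟩ : ∃ Z, Z = Finset.univ.filter fun z : Fin d → ZMod L =>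
        ∀ (a : Fin (n + 1)) (i : Fin k), pth i₀ z a ≠ b i := ⟨_, rfl⟩
    have hZc : (Fintype.card (Fin d → ZMod L) : ℝ) ≤ 2 * Z.card := by
      rw [hZ]
      refine good_card i₀ (n + 1) k b ?_
      rw [hcardN]
      have : L ≤ L ^ d := Nat.le_self_pow (by omega) L
      omega
    have hZi : ∀ z ∈ Z, Function.Injective (Fin.append (pe i₀ (n + 1) hLn z) b) := by
      intro z hz
      rw [hZ, Finset.mem_filter] at hz
      rw [Fin.append_injective_iff]
      exact ⟨(pe i₀ (n + 1) hLn z).injective, b.injective, fun a i => hz.2 a i⟩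
    -- the observables from paths
    obtain ⟨T, hT⟩ : ∃ T : Perm (Fin d → ZMod L) → ℝ, T = fun g => F (fun a => (D a).val b g) :=
      ⟨_, rfl⟩
    have hTT : ∀ z ∈ Z, ∑ g, μ g * |T g -
        T' (ret (n + 1 + k) (Fin.append (pe i₀ (n + 1) hLn z) b) g)| ≤ η / 16 := by
      intro z hz
      obtain ⟨cz, hcz⟩ : ∃ cz : Fin (n + 1 + k) ↪ (Fin d → ZMod L),
        cz = ⟨Fin.append (pe i₀ (n + 1) hLn z) b, hZi z hz⟩ := ⟨_, rfl⟩
      have hlp : lp cz = b := by
        refine DFunLike.ext _ _ fun i => ?_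
        rw [hcz]
        change Fin.append (pe i₀ (n + 1) hLn z) b (Fin.natAdd (n + 1) i) = b i
        rw [Fin.append_right]
      have hcz' : (cz : Fin (n + 1 + k) → (Fin d → ZMod L)) =
          Fin.append (pe i₀ (n + 1) hLn z) b := by rw [hcz]; rfl
      have h1 : ∀ g, |T g - T' (ret (n + 1 + k) (Fin.append (pe i₀ (n + 1) hLn z) b) g)| ≤
          Λ * ∑ a : Fin M, dD (D a) cz g := by
        intro g
        rw [hT, hT']
        beta_reduce
        refine hFL _ _ _ (Finset.sum_nonneg fun a _ => (dD_mem (D a) cz g).1) fun a => ?_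
        refine le_trans (le_of_eq ?_) (Finset.single_le_sum (f := fun a : Fin M => dD (D a) cz g)
          (fun a _ => (dD_mem (D a) cz g).1) (Finset.mem_univ a))
        unfold dD
        rw [hlp, hcz']
      calc ∑ g, μ g * |T g - T' (ret (n + 1 + k) (Fin.append (pe i₀ (n + 1) hLn z) b) g)|
          ≤ ∑ g, μ g * (Λ * ∑ a : Fin M, dD (D a) cz g) :=
            Finset.sum_le_sum fun g _ => mul_le_mul_of_nonneg_left (h1 g) (hμ g)
        _ = Λ * ∑ a : Fin M, stirExp J t (fun g => dD (D a) cz g) := by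
            unfold stirExp
            rw [Finset.sum_comm, Finset.mul_sum]
            refine Finset.sum_congr rfl fun g _ => ?_
            rw [hμdef, ← Finset.mul_sum]
            ring
        _ ≤ Λ * ∑ _a : Fin M, δ := by
            refine mul_le_mul_of_nonneg_left (Finset.sum_le_sum fun a _ => ?_) hΛ
            rw [hJdef]
            exact hL₁ a L (hL1 a) t htm1 cz
        _ ≤ η / 16 := by
            rw [Finset.sum_const, Finset.card_univ, Fintype.card_fin, nsmul_eq_mul, hδ]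
            have e : Λ * (M * (η / (16 * (Λ * M + 1)))) = (Λ * M * η) / (16 * (Λ * M + 1)) := by
              ring
            have h0 : 0 ≤ Λ * M := by positivity
            rw [e, div_le_div_iff₀ (by positivity) (by norm_num)]
            nlinarith
    -- the mean
    have hAA : ∀ z ∈ Z, ∑ g, μ g *
        |sA T' (ret (n + 1 + k) (Fin.append (pe i₀ (n + 1) hLn z) b) g) /
          ((n + 1).factorial : ℝ) - mn (n + 1 + k) T'| ≤ η / 16 := by
      intro z hz
      have h1 := hL₂ L hL2 t htm2 (Fin.append (pe i₀ (n + 1) hLn z) b) (hZi z hz)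
        (fun π => |sA T' π / ((n + 1).factorial : ℝ) - cc| / 2) (fun π => by
          have hfm : (0 : ℝ) < ((n + 1).factorial : ℝ) := by
            exact_mod_cast (n + 1).factorial_pos
          have h2 : |sA T' π / ((n + 1).factorial : ℝ)| ≤ 1 := by
            rw [abs_div, abs_of_pos hfm, div_le_iff₀ hfm, one_mul]
            unfold sA
            refine (Finset.abs_sum_le_sum_abs _ _).trans
              ((Finset.sum_le_sum fun σ _ => hT'1 _).trans (le_of_eq ?_))
            rw [Finset.sum_const, Finset.card_univ, Fintype.card_perm, Fintype.card_fin,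
              nsmul_eq_mul, mul_one]
          rw [abs_of_nonneg (by positivity)]
          have h3 : |sA T' π / ((n + 1).factorial : ℝ) - cc| ≤ 2 := by
            rw [abs_le] at h2 hcc1 ⊢
            constructor <;> linarith [h2.1, h2.2, hcc1.1, hcc1.2]
          linarith)
      have h2 : mn (n + 1 + k) (fun π => |sA T' π / ((n + 1).factorial : ℝ) - cc| / 2) =
          mn (n + 1 + k) (fun π => |sA T' π / ((n + 1).factorial : ℝ) - cc|) / 2 := by
        unfold mn
        rw [← Finset.sum_div]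
        ring
      have h3 : ∑ g, stirLaw (nnRate d L) t g *
          (|sA T' (ret (n + 1 + k) (Fin.append (pe i₀ (n + 1) hLn z) b) g) /
          ((n + 1).factorial : ℝ) - cc| / 2) = (∑ g, μ g *
          |sA T' (ret (n + 1 + k) (Fin.append (pe i₀ (n + 1) hLn z) b) g) /
          ((n + 1).factorial : ℝ) - cc|) / 2 := by
        rw [hμdef, hJdef, Finset.sum_div]
        exact Finset.sum_congr rfl fun g _ => by ring
      rw [h2, h3, abs_le] at h1
      rw [← hcc]
      linarith [h1.2]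
    have hcore := core2 (ι := Fin d → ZMod L) Fintype.card_pos μ H hμ hμ1 hH1 T
      (fun g => by rw [hT]; exact hF1 _) T' hT'1 Z hZc (fun z => pe i₀ (n + 1) hLn z)
      (fun z => Fin.append (pe i₀ (n + 1) hLn z) b)
      (fun z hz σ g => ret_append_left (pe i₀ (n + 1) hLn z) b (hZi z hz) σ g)
      (η / 16) hTT (η / 16) hAA ν (fun z _ τ => hNN z τ) (mm * (2 * d * κ + 2 * ν)) hX
    rw [← hcc] at hcore
    -- the error terms
    have hκ2 : 2 * (mm * (2 * d * κ)) ≤ η / 32 := by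
      have e : 2 * (mm * (2 * d * κ)) = (4 * d * mm * η) / (128 * (d * (mm + 1))) := by
        rw [hκ]
        ring
      rw [e, div_le_div_iff₀ (by positivity) (by norm_num)]
      have h2 : 0 ≤ d * η := by positivity
      nlinarith
    have hν2 : 3 * ν + 2 * (mm * (2 * ν)) ≤ η / 32 := by
      have h1 : c * (3 + 4 * mm) * 32 / η ≤ Real.sqrt t := by
        rw [← hB]
        exact hBt
      have h2 : 3 * ν + 2 * (mm * (2 * ν)) = (c * (3 + 4 * mm)) / Real.sqrt t := by
        rw [hν]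
        ring
      rw [h2, div_le_div_iff₀ hst (by norm_num)]
      rw [div_le_iff₀ hη] at h1
      linarith
    have e3 : |∑ g, μ g * (T g * H g) - cc * ∑ g, μ g * H g| ≤ η / 4 := by
      refine hcore.trans ?_
      have : 2 * (mm * (2 * d * κ + 2 * ν)) = 2 * (mm * (2 * d * κ)) + 2 * (mm * (2 * ν)) := by
        ring
      rw [this]
      linarith
    -- conclusion
    have hEH : ∑ g, μ g * H g = stirExp J t H := by
      rw [hμdef]
      rfl
    have e4 : |∑ g, μ g * (f (fun a => (D a).val b g) * H g) - ∑ g, μ g * (T g * H g)| ≤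
        η / 32 := by
      rw [← Finset.sum_sub_distrib]
      refine (Finset.abs_sum_le_sum_abs _ _).trans ?_
      have h1 : ∀ g ∈ (Finset.univ : Finset (Perm (Fin d → ZMod L))),
          |μ g * (f (fun a => (D a).val b g) * H g) - μ g * (T g * H g)| ≤ μ g * (η / 32) := by
        intro g _
        rw [← mul_sub, ← sub_mul, abs_mul, abs_mul, abs_of_nonneg (hμ g), hT]
        refine mul_le_mul_of_nonneg_left ?_ (hμ g)
        calc |f (fun a => (D a).val b g) - F (fun a => (D a).val b g)| * |H g|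
            ≤ η / 32 * 1 := mul_le_mul (hfF _ fun a => (D a).mem b g) (hH1 g) (abs_nonneg _)
              (by positivity)
          _ = η / 32 := mul_one _
      refine (Finset.sum_le_sum h1).trans (le_of_eq ?_)
      rw [← Finset.sum_mul, hμ1, one_mul]
    have hgoal : stirExp (nnRate d L) t (fun g => f (fun a => (D a).val b g) * H g) =
        ∑ g, μ g * (f (fun a => (D a).val b g) * H g) := by
      unfold stirExp
      rw [hμdef, hJdef]
    rw [hgoal, ← hJdef, ← hEH]
    rw [abs_le] at e3 e4 ⊢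
    constructor <;> linarith [e3.1, e3.2, e4.1, e4.2]
  -- both parts
  obtain ⟨L₀, hL₀⟩ : ∃ L₀, L₀ = max A₁ (max Lg 3) := ⟨_, rfl⟩
  refine ⟨cc, κ, L₀, hcc1, hκ0, fun L _ hL t ht b H hH he => ?_, fun W _ _ hW b => ?_⟩
  · refine (main L ((le_max_left _ _).trans (by rw [← hL₀]; exact hL)) t ht b H hH he).trans ?_
    linarith
  · have hne : NeZero L₀ := ⟨by rw [hL₀]; have := le_max_right Lg 3; have := le_max_right A₁ (max Lg 3); omega⟩
    have hA : A₁ ≤ L₀ := by rw [hL₀]; exact le_max_left _ _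
    have hLg : Lg ≤ L₀ := by rw [hL₀]; exact (le_max_left _ _).trans (le_max_right _ _)
    have hL3 : 3 ≤ L₀ := by rw [hL₀]; exact (le_max_right _ _).trans (le_max_right _ _)
    have hlog := log_ge L₀ hL3
    have hk : k ≤ L₀ := by
      refine le_trans ?_ hA
      rw [hA₁]
      refine le_trans ?_ (le_max_right _ _)
      refine le_trans ?_ (le_max_left _ _)
      omega
    obtain ⟨t, ht⟩ : ∃ t : ℝ, t = (Real.log L₀) ^ (max m₁ (max m₂ m₃) + 1) := ⟨_, rfl⟩
    have h1 := main L₀ hA t ht.ge (pe i₀ k hk 0) (fun _ => 1) (by simp) (by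
      unfold e1
      simp only [sub_self, abs_zero, mul_zero, Finset.sum_const_zero, zero_div]
      exact hκ0.le)
    have h3 : stirExp (nnRate d L₀) t (fun _ => 1) = 1 := by
      unfold stirExp
      simp only [mul_one]
      exact Pool.Agent.Y998.CN.law_sum _ _
    simp only [mul_one, h3] at h1
    have h4 := hg1 L₀ hLg t (by
      rw [ht]
      exact pow_le_pow_right₀ hlog (by
        have := le_max_right m₂ m₃
        have := le_max_right m₁ (max m₂ m₃)
        omega)) (pe i₀ k hk 0)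
    have h5 := hg2 W (hLg.trans hW) b
    rw [abs_le] at h1 h4 h5 ⊢
    constructor <;> linarith [h1.1, h1.2, h4.1, h4.2, h5.1, h5.2]

end Run7.h565.SM
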