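import Pool.Agent.Run7.h565.SM.Ind
import Pool.Agent.Run7.h617.LC.Set

/-!
# Project SM, part 4: macroscopic observables from samples of points
-/

set_option autoImplicit false

namespace Run7.h565.SM

open Finset Equiv
open Pool.Agent.TH268.PD (ret ret_spec top frac Cyc cyOf)
open Pool.Agent.Y998.LP (bfrac)

variable {V : Type} [Fintype V] [DecidableEq V]

theorem card_const_le (N : ℕ) (l : Fin N) (v : V) :
    (univ.filter (fun z : Fin N → V => z l = v)).card ≤ Fintype.card V ^ (N - 1) := by
  classical
  have h1 : Fintype.card ({j : Fin N // j ≠ l} → V) = Fintype.card V ^ (N - 1) := by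
    rw [Fintype.card_fun]
    congr 1
    rw [Fintype.card_subtype_compl, Fintype.card_fin, Fintype.card_subtype_eq]
  rw [← h1, ← Finset.card_univ]
  apply Finset.card_le_card_of_injOn (fun b (j : {j : Fin N // j ≠ l}) => b j.1)
  · intro b _
    simp
  · intro b hb b' hb' hbb
    rw [Finset.mem_coe, Finset.mem_filter] at hb hb'
    have h2 : ∀ j, j ≠ l → b j = b' j := fun j hj => congrFun hbb ⟨j, hj⟩
    funext j
    by_cases hj : j = l
    · rw [hj, hb.2, hb'.2]
    · exact h2 j hj

/-- few samples are bad -/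
theorem card_bad (N k : ℕ) (b : Fin k → V) (hb : Function.Injective b) :
    (Nat.card {z : Fin N → V // ¬ Function.Injective (Fin.append z b)} : ℝ) ≤
      ((N : ℝ) * (N + k)) * (Fintype.card V : ℝ) ^ (N - 1) := by
  classical
  have key := Pool.Agent.Y259.LP.union_bound
    (fun z : Fin N → V => ¬ Function.Injective (Fin.append z b))
    ((univ : Finset (Fin N)) ×ˢ (univ : Finset (Fin (N + k))))
    (fun x => if Fin.castAdd k x.1 = x.2 then ∅ else
      univ.filter (fun z : Fin N → V => z x.1 = Fin.append z b x.2))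
    (Fintype.card V ^ (N - 1)) (by
      rintro ⟨a, c⟩ _
      beta_reduce
      split_ifs with h
      · simp
      · dsimp only at h ⊢
        induction c using Fin.addCases with
        | left c =>
          have hca : c ≠ a := fun h' => h (by rw [h'])
          simp only [Fin.append_left]
          exact Pool.Agent.Y259.LP.card_eq_le N c a hca id
        | right i =>
          simp only [Fin.append_right]
          exact card_const_le N a (b i)) (by
      intro z hz
      rw [Fin.append_injective_iff] at hz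
      by_cases hzi : Function.Injective z
      · have h2 : ¬ ∀ (i : Fin N) (j : Fin k), z i ≠ b j := fun h => hz ⟨hzi, hb, h⟩
        push Not at h2
        obtain ⟨i, j, hij⟩ := h2
        refine ⟨(i, Fin.natAdd N j), by simp, ?_⟩
        have h3 : Fin.castAdd k i ≠ Fin.natAdd N j := by
          intro h
          have := congrArg Fin.val h
          simp only [Fin.val_castAdd, Fin.val_natAdd] at this
          have := i.isLt
          omega
        dsimp only
        rw [if_neg h3, Finset.mem_filter, Fin.append_right]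
        exact ⟨Finset.mem_univ _, hij⟩
      · unfold Function.Injective at hzi
        push Not at hzi
        obtain ⟨i, l, hil, hne⟩ := hzi
        refine ⟨(i, Fin.castAdd k l), by simp, ?_⟩
        have h3 : Fin.castAdd k i ≠ Fin.castAdd k l := fun h => hne (Fin.castAdd_injective _ _ h)
        dsimp only
        rw [if_neg h3, Finset.mem_filter, Fin.append_left]
        exact ⟨Finset.mem_univ _, hil⟩)
  rw [Finset.card_product, Finset.card_univ, Fintype.card_fin, Finset.card_univ,
    Fintype.card_fin] at key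
  calc (Nat.card {z : Fin N → V // ¬ Function.Injective (Fin.append z b)} : ℝ) ≤
        ((N * (N + k) * Fintype.card V ^ (N - 1) : ℕ) : ℝ) := by exact_mod_cast key
    _ = _ := by push_cast; ring

theorem ind_scale (w : Perm V → ℝ) {K : ℕ} (c : Fin K → V) (η : ℝ)
    (hI : ∀ G : Perm (Fin K) → ℝ, (∀ π, |G π| ≤ 1) → |∑ g, w g * G (ret K c g) - mn K G| ≤ η)
    (C : ℝ) (hC : 0 ≤ C) (G : Perm (Fin K) → ℝ) (hG : ∀ π, |G π| ≤ C) :
    |∑ g, w g * G (ret K c g) - mn K G| ≤ C * η := by
  rcases hC.eq_or_lt with h0 | h0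
  · have hG0 : ∀ π, G π = 0 := fun π => by
      have := hG π
      rw [← h0] at this
      exact abs_nonpos_iff.1 this
    have e1 : ∑ g, w g * G (ret K c g) = 0 :=
      Finset.sum_eq_zero fun g _ => by rw [hG0, mul_zero]
    have e2 : mn K G = 0 := by
      unfold mn
      rw [Finset.sum_eq_zero fun π _ => hG0 π, zero_div]
    rw [e1, e2, ← h0]
    simp
  · have h1 := hI (fun π => G π / C) (fun π => by
      rw [abs_div, abs_of_pos h0, div_le_one h0]
      exact hG π)
    have e1 : ∑ g, w g * (G (ret K c g) / C) = (∑ g, w g * G (ret K c g)) / C := by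
      rw [Finset.sum_div]
      exact Finset.sum_congr rfl fun g _ => by ring
    have e2 : mn K (fun π => G π / C) = mn K G / C := by
      unfold mn
      rw [← Finset.sum_div]
      ring
    rw [e1, e2, ← sub_div, abs_div, abs_of_pos h0, div_le_iff₀ h0] at h1
    linarith

open Classical in
/-- the mean of a function of observables that can be read off from samples -/
theorem main_est (w : Perm V → ℝ) (hw : ∀ g, 0 ≤ w g) (hw1 : ∑ g, w g = 1) {N k M : ℕ}
    (hN : 0 < N) (hV : 0 < Fintype.card V) (b : Fin k → V) (hb : Function.Injective b) (η : ℝ)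
    (hη : 0 ≤ η)
    (hI : ∀ c : Fin (N + k) → V, Function.Injective c → ∀ G : Perm (Fin (N + k)) → ℝ,
      (∀ π, |G π| ≤ 1) → |∑ g, w g * G (ret (N + k) c g) - mn (N + k) G| ≤ η)
    (O : Fin M → Perm V → ℝ) (Oh : Fin M → Perm (Fin (N + k)) → ℝ) (e : ℝ)
    (hO : ∀ a g, ∑ z : Fin N → V, (if Function.Injective (Fin.append z b) then
      |Oh a (ret (N + k) (Fin.append z b) g) - O a g| else 0) ≤ (Fintype.card V : ℝ) ^ N * e)
    (F : (Fin M → ℝ) → ℝ) (C Λ : ℝ) (hΛ : 0 ≤ Λ) (hC : ∀ u, |F u| ≤ C)
    (hF : ∀ (u v : Fin M → ℝ) (e : ℝ), 0 ≤ e → (∀ i, |u i - v i| ≤ e) → |F u - F v| ≤ Λ * e) :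
    |∑ g, w g * F (fun a => O a g) - mn (N + k) (fun π => F (fun a => Oh a π))| ≤
      Λ * (M * e) + C * η + 2 * C * ((N * (N + k)) / Fintype.card V) := by
  have hC0 : 0 ≤ C := (abs_nonneg _).trans (hC (fun _ => 0))
  obtain ⟨n, hn⟩ : ∃ n : ℝ, n = (Fintype.card V : ℝ) := ⟨_, rfl⟩
  have hn0 : 0 < n := by rw [hn]; exact_mod_cast hV
  have hnN : 0 < n ^ N := pow_pos hn0 N
  obtain ⟨H, hH⟩ : ∃ H : Perm (Fin (N + k)) → ℝ, H = fun π => F (fun a => Oh a π) := ⟨_, rfl⟩
  have hHC : ∀ π, |H π| ≤ C := fun π => by rw [hH]; exact hC _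
  obtain ⟨T, hT⟩ : ∃ T, T = ∑ g, w g * F (fun a => O a g) := ⟨_, rfl⟩
  have hTC : |T| ≤ C := by
    rw [hT]
    refine (Finset.abs_sum_le_sum_abs _ _).trans ?_
    calc ∑ g, |w g * F (fun a => O a g)| ≤ ∑ g, w g * C := by
          refine Finset.sum_le_sum fun g _ => ?_
          rw [abs_mul, abs_of_nonneg (hw g)]
          exact mul_le_mul_of_nonneg_left (hC _) (hw g)
      _ = C := by rw [← Finset.sum_mul, hw1, one_mul]
  have hmC : |mn (N + k) H| ≤ C := mn_abs _ _ _ hHC
  obtain ⟨D, hD⟩ : ∃ D : (Fin N → V) → ℝ, D = fun z =>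
    if Function.Injective (Fin.append z b) then ∑ g, w g * (Λ * ∑ a,
      |Oh a (ret (N + k) (Fin.append z b) g) - O a g|) else 0 := ⟨_, rfl⟩
  have h1 : ∀ z : Fin N → V, |T - mn (N + k) H| ≤ D z + C * η +
      (if ¬ Function.Injective (Fin.append z b) then 2 * C else 0) := by
    intro z
    by_cases hz : Function.Injective (Fin.append z b)
    · rw [if_neg (not_not.2 hz), add_zero, hD]
      beta_reduce
      rw [if_pos hz]
      have h2 := ind_scale w _ η (hI _ hz) C hC0 H hHC
      have h3 : |T - ∑ g, w g * H (ret (N + k) (Fin.append z b) g)| ≤ ∑ g, w g * (Λ * ∑ a,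
          |Oh a (ret (N + k) (Fin.append z b) g) - O a g|) := by
        rw [hT, ← Finset.sum_sub_distrib]
        refine (Finset.abs_sum_le_sum_abs _ _).trans (Finset.sum_le_sum fun g _ => ?_)
        rw [← mul_sub, abs_mul, abs_of_nonneg (hw g), hH]
        refine mul_le_mul_of_nonneg_left ?_ (hw g)
        refine hF _ _ _ (Finset.sum_nonneg fun _ _ => abs_nonneg _) fun a => ?_
        rw [abs_sub_comm]
        exact Finset.single_le_sum (f := fun a =>
          |Oh a (ret (N + k) (Fin.append z b) g) - O a g|) (fun _ _ => abs_nonneg _)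
          (Finset.mem_univ a)
      rw [abs_le] at h2 h3 ⊢
      constructor <;> linarith [h2.1, h2.2, h3.1, h3.2]
    · rw [if_pos hz, hD]
      beta_reduce
      rw [if_neg hz]
      have h2 : 0 ≤ C * η := mul_nonneg hC0 hη
      rw [abs_le] at hTC hmC ⊢
      constructor <;> linarith [hTC.1, hTC.2, hmC.1, hmC.2]
  have h2 : n ^ N * |T - mn (N + k) H| ≤ ∑ z : Fin N → V, (D z + C * η +
      (if ¬ Function.Injective (Fin.append z b) then 2 * C else 0)) := by
    have e1 : n ^ N * |T - mn (N + k) H| = ∑ _z : Fin N → V, |T - mn (N + k) H| := by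
      rw [Finset.sum_const, Finset.card_univ, Fintype.card_fun, Fintype.card_fin, nsmul_eq_mul, hn]
      push_cast
      rfl
    rw [e1]
    exact Finset.sum_le_sum fun z _ => h1 z
  have h3 : ∑ z : Fin N → V, D z ≤ n ^ N * (Λ * (M * e)) := by
    have e1 : ∑ z : Fin N → V, D z = ∑ g, w g * (Λ * ∑ a, ∑ z : Fin N → V,
        (if Function.Injective (Fin.append z b) then
          |Oh a (ret (N + k) (Fin.append z b) g) - O a g| else 0)) := by
      rw [hD]
      have e2 : ∀ z : Fin N → V, (if Function.Injective (Fin.append z b) then ∑ g, w g *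
          (Λ * ∑ a, |Oh a (ret (N + k) (Fin.append z b) g) - O a g|) else 0) =
          ∑ g, w g * (Λ * ∑ a, if Function.Injective (Fin.append z b) then
            |Oh a (ret (N + k) (Fin.append z b) g) - O a g| else 0) := by
        intro z
        split_ifs with h
        · rfl
        · simp
      rw [Finset.sum_congr rfl fun z _ => e2 z, Finset.sum_comm]
      refine Finset.sum_congr rfl fun g _ => ?_
      rw [← Finset.mul_sum, ← Finset.mul_sum, Finset.sum_comm]
    rw [e1]
    calc ∑ g, w g * (Λ * ∑ a, ∑ z : Fin N → V,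
        (if Function.Injective (Fin.append z b) then
          |Oh a (ret (N + k) (Fin.append z b) g) - O a g| else 0))
        ≤ ∑ g, w g * (Λ * (M * (n ^ N * e))) := by
          refine Finset.sum_le_sum fun g _ => mul_le_mul_of_nonneg_left
            (mul_le_mul_of_nonneg_left ?_ hΛ) (hw g)
          refine (Finset.sum_le_sum fun a _ => hO a g).trans (le_of_eq ?_)
          rw [Finset.sum_const, Finset.card_univ, Fintype.card_fin, nsmul_eq_mul, hn]
      _ = n ^ N * (Λ * (M * e)) := by
          rw [← Finset.sum_mul, hw1]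
          ring
  have h4 : ∑ _z : Fin N → V, C * η = n ^ N * (C * η) := by
    rw [Finset.sum_const, Finset.card_univ, Fintype.card_fun, Fintype.card_fin, nsmul_eq_mul, hn]
    push_cast
    rfl
  have h5 : ∑ z : Fin N → V, (if ¬ Function.Injective (Fin.append z b) then 2 * C else 0) ≤
      n ^ N * (2 * C * ((N * (N + k)) / n)) := by
    have e1 : ∑ z : Fin N → V, (if ¬ Function.Injective (Fin.append z b) then 2 * C else 0) =
        2 * C * (Nat.card {z : Fin N → V // ¬ Function.Injective (Fin.append z b)} : ℝ) := by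
      rw [Nat.card_eq_fintype_card, Fintype.card_subtype, Finset.card_filter, Nat.cast_sum,
        Finset.mul_sum]
      refine Finset.sum_congr rfl fun z _ => ?_
      by_cases hz : Function.Injective (Fin.append z b)
      · simp [hz]
      · simp [hz]
    rw [e1]
    have h6 := card_bad N k b hb
    rw [← hn] at h6
    refine (mul_le_mul_of_nonneg_left h6 (by positivity)).trans (le_of_eq ?_)
    have h7 : n ^ N = n ^ (N - 1) * n := by
      rw [← pow_succ]
      congr 1
      omega
    rw [h7]
    field_simp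
  rw [Finset.sum_add_distrib, Finset.sum_add_distrib, h4] at h2
  have h6 : n ^ N * |T - mn (N + k) H| ≤ n ^ N * (Λ * (M * e) + C * η +
      2 * C * ((N * (N + k)) / n)) := by
    rw [mul_add, mul_add]
    linarith
  have h7 := le_of_mul_le_mul_left h6 hnN
  rw [← hT, ← hn, ← hH]
  exact h7

end Run7.h565.SM
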